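import Mathlib

/-!
Definitions: Klein's `j`-function, CM points, special subvarieties of `Y(1)ⁿ = ℂⁿ`, the atypical
set of a subset of `Y(1)ⁿ`.
-/

open UpperHalfPlane ModularForm

namespace Pool.Agent.Lib.ModularZP

/-- Klein's `j`-function `j = E₄³ / Δ = q⁻¹ + 744 + ⋯`. -/
noncomputable def jInv (τ : ℍ) : ℂ := E₄ τ ^ 3 / ModularForm.discriminant τ

/-- `τ` is a CM point: it is a root of a quadratic polynomial with integer coefficients. -/
def IsCM (τ : ℍ) : Prop := ∃ a b c : ℤ, a ≠ 0 ∧ (a : ℂ) * (τ : ℂ) ^ 2 + b * (τ : ℂ) + c = 0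

/-- The data defining an `m`-dimensional special subvariety of `Y(1)ⁿ`: every coordinate `i` is
either assigned a CM point `cm i` (`block i = none`), or one of `m` nonempty blocks together with
an element `g i ∈ GL₂(ℚ)⁺`. -/
structure SpecialDatum (n m : ℕ) where
  block : Fin n → Option (Fin m)
  block_surj : ∀ k : Fin m, ∃ i, block i = some k
  g : Fin n → GL (Fin 2) ℚ
  g_det : ∀ i, 0 < (g i).det.val
  cm : Fin n → ℍ
  cm_isCM : ∀ i, IsCM (cm i)

/-- The `i`-th coordinate of the special subvariety, as a function of `τ ∈ ℍᵐ`: it is the singular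
modulus `j(cm i)` if `block i = none`, and `j(g i • τ k)` if `block i = some k`. -/
noncomputable def SpecialDatum.coord {n m : ℕ} (D : SpecialDatum n m) (τ : Fin m → ℍ) (i : Fin n) : ℂ :=
  match D.block i with
  | none => jInv (D.cm i)
  | some k => jInv ((D.g i).map (algebraMap ℚ ℝ) • τ k)

/-- The special subvariety of `Y(1)ⁿ = ℂⁿ` attached to the datum: the image of `ℍᵐ`. -/
def SpecialDatum.variety {n m : ℕ} (D : SpecialDatum n m) : Set (Fin n → ℂ) :=
  {x | ∃ τ : Fin m → ℍ, ∀ i, x i = D.coord τ i}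

/-- `atyp C`: the union of the intersections of `C` with the special subvarieties of `Y(1)ⁿ` of
codimension at least two. -/
def atyp {n : ℕ} (C : Set (Fin n → ℂ)) : Set (Fin n → ℂ) :=
  {x ∈ C | ∃ (m : ℕ) (D : SpecialDatum n m), m + 2 ≤ n ∧ x ∈ D.variety}

/-- `C` is Hodge generic: it is contained in no proper special subvariety of `Y(1)ⁿ`. -/
def HodgeGeneric {n : ℕ} (C : Set (Fin n → ℂ)) : Prop :=
  ∀ (m : ℕ) (D : SpecialDatum n m), m < n → ¬ C ⊆ D.variety

end Pool.Agent.Lib.ModularZP
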