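import Mathlib
import Pool.Agent.Lib.ModularZP.Defs

/-!
Integrality of the values of the `j`-function under isogenies and at CM points, from the level one
library of Mathlib (modular polynomials built from scratch).
-/

open UpperHalfPlane hiding I
open ModularForm ModularFormClass MatrixGroups EisensteinSeries Complex Function

namespace Pool.Agent.Lib.ModularZP

/-- `E₄` has integral `q`-coefficients. -/
lemma E4_coeff (n : ℕ) : (qExpansion 1 E₄).coeff n =
    if n = 0 then 1 else 240 * ((ArithmeticFunction.sigma 3 n : ℕ) : ℂ) := by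
  have h := E_qExpansion_coeff (k := 4) (by norm_num) ⟨2, rfl⟩ n
  rw [h]
  split_ifs with h0
  · rfl
  · norm_num [show bernoulli 4 = -1 / 30 by decide +kernel]

lemma E6_coeff (n : ℕ) : (qExpansion 1 E₆).coeff n =
    if n = 0 then 1 else -504 * ((ArithmeticFunction.sigma 5 n : ℕ) : ℂ) := by
  have h := E_qExpansion_coeff (k := 6) (by norm_num) ⟨3, rfl⟩ n
  rw [h]
  split_ifs with h0
  · rfl
  · norm_num [show bernoulli 6 = 1 / 42 by decide +kernel]

/-- the power series `∑ σ₃(n) qⁿ` etc. with integral coefficients -/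
noncomputable def sA : PowerSeries ℤ := PowerSeries.mk fun n => (ArithmeticFunction.sigma 3 n : ℕ)
noncomputable def sB : PowerSeries ℤ := PowerSeries.mk fun n => (ArithmeticFunction.sigma 5 n : ℕ)
noncomputable def sC : PowerSeries ℤ := PowerSeries.mk fun n => (5 * (ArithmeticFunction.sigma 3 n : ℕ) + 7 * (ArithmeticFunction.sigma 5 n : ℕ)) / 12

lemma coeff_ofNat_mul {R : Type*} [CommRing R] (k : ℕ) [k.AtLeastTwo] (φ : PowerSeries R) (n : ℕ) :
    PowerSeries.coeff n ((OfNat.ofNat k : PowerSeries R) * φ) = (OfNat.ofNat k) * PowerSeries.coeff n φ := by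
  rw [← map_ofNat (PowerSeries.C (R := R)) k, PowerSeries.coeff_C_mul]

lemma qE4 : qExpansion 1 E₄ = PowerSeries.map (Int.castRingHom ℂ) (1 + 240 * sA) := by
  ext n
  rw [E4_coeff, PowerSeries.coeff_map, map_add, coeff_ofNat_mul]
  by_cases h : n = 0
  · subst h; simp [sA]
  · simp [sA, h, PowerSeries.coeff_one]

lemma qE6 : qExpansion 1 E₆ = PowerSeries.map (Int.castRingHom ℂ) (1 - 504 * sB) := by
  ext n
  rw [E6_coeff, PowerSeries.coeff_map, map_sub, coeff_ofNat_mul]
  by_cases h : n = 0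
  · subst h; simp [sB]
  · simp [sB, h, PowerSeries.coeff_one]

lemma twelve_dvd (n : ℕ) : (12 : ℤ) ∣ 5 * (ArithmeticFunction.sigma 3 n : ℕ) + 7 * (ArithmeticFunction.sigma 5 n : ℕ) := by
  simp only [ArithmeticFunction.sigma_apply]
  push_cast
  rw [Finset.mul_sum, Finset.mul_sum, ← Finset.sum_add_distrib]
  apply Finset.dvd_sum
  intro d _
  have : ∀ x : ZMod 12, 5 * x ^ 3 + 7 * x ^ 5 = 0 := by decide
  have h := this (d : ZMod 12)
  rw [← Int.cast_natCast] at h
  have h2 : (((5 * (d : ℤ) ^ 3 + 7 * (d : ℤ) ^ 5 : ℤ)) : ZMod 12) = 0 := by push_cast; push_cast at h; exact h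
  exact (ZMod.intCast_zmod_eq_zero_iff_dvd _ 12).mp h2

lemma sC_mul : 12 * sC = 5 * sA + 7 * sB := by
  ext n
  rw [map_add, coeff_ofNat_mul, coeff_ofNat_mul, coeff_ofNat_mul]
  simp only [sA, sB, sC, PowerSeries.coeff_mk]
  exact Int.mul_ediv_cancel' (twelve_dvd n)

/-- the integral power series of `Δ` -/
noncomputable def sD : PowerSeries ℤ := sC + 100 * sA ^ 2 + 8000 * sA ^ 3 - 147 * sB ^ 2

lemma sD_eq : (1 + 240 * sA) ^ 3 - (1 - 504 * sB) ^ 2 = 1728 * sD := by
  have h := sC_mul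
  unfold sD
  linear_combination (-144) * h

lemma qDelta : qExpansion 1 ModularForm.discriminant = PowerSeries.map (Int.castRingHom ℂ) sD := by
  have h1 : ((1728 : ℂ) • (ModularForm.discriminant : ℍ → ℂ)) = (E₄.pow 3 : ℍ → ℂ) - (E₆.pow 2 : ℍ → ℂ) := by
    ext z
    simp only [Pi.smul_apply, Pi.sub_apply, smul_eq_mul, coe_pow, Pi.pow_apply]
    rw [discriminant_eq_E₄_cube_sub_E₆_sq z]
    ring
  have h2 : (1728 : ℂ) • qExpansion 1 ModularForm.discriminant = qExpansion 1 (E₄.pow 3) - qExpansion 1 (E₆.pow 2) := by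
    have h3 := ModularForm.qExpansion_smul one_pos one_mem_strictPeriods_SL (1728 : ℂ) CuspForm.discriminant
    rw [← CuspForm.coe_discriminant, ← h3, CuspForm.coe_discriminant, h1]
    exact ModularForm.qExpansion_sub one_pos one_mem_strictPeriods_SL (E₄.pow 3) (E₆.pow 2)
  rw [ModularForm.qExpansion_pow one_pos one_mem_strictPeriods_SL,
    ModularForm.qExpansion_pow one_pos one_mem_strictPeriods_SL, qE4, qE6, ← map_pow, ← map_pow, ← map_sub, sD_eq] at h2
  ext n
  have h4 := congrArg (PowerSeries.coeff n) h2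
  rw [PowerSeries.coeff_map, coeff_ofNat_mul, PowerSeries.coeff_smul, smul_eq_mul] at h4
  rw [PowerSeries.coeff_map]
  simp only [map_mul, map_ofNat] at h4
  exact mul_left_cancel₀ (by norm_num) h4


/-- all `q`-coefficients lie in the subring `A` -/
def CoeffsIn (A : Subring ℂ) (P : PowerSeries ℂ) : Prop := ∀ n, P.coeff n ∈ A

lemma coeffsIn_map (A : Subring ℂ) (P : PowerSeries ℤ) : CoeffsIn A (PowerSeries.map (Int.castRingHom ℂ) P) := by
  intro n
  rw [PowerSeries.coeff_map]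
  exact intCast_mem A _

lemma CoeffsIn.mul {A : Subring ℂ} {P Q : PowerSeries ℂ} (hP : CoeffsIn A P) (hQ : CoeffsIn A Q) :
    CoeffsIn A (P * Q) := by
  intro n
  rw [PowerSeries.coeff_mul]
  exact A.sum_mem fun x _ => A.mul_mem (hP _) (hQ _)

lemma CoeffsIn.sub {A : Subring ℂ} {P Q : PowerSeries ℂ} (hP : CoeffsIn A P) (hQ : CoeffsIn A Q) :
    CoeffsIn A (P - Q) := by
  intro n
  rw [map_sub]
  exact A.sub_mem (hP _) (hQ _)

lemma CoeffsIn.smul {A : Subring ℂ} {P : PowerSeries ℂ} {a : ℂ} (ha : a ∈ A) (hP : CoeffsIn A P) :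
    CoeffsIn A (a • P) := by
  intro n
  rw [PowerSeries.coeff_smul]
  exact A.mul_mem ha (hP _)

lemma CoeffsIn.pow {A : Subring ℂ} {P : PowerSeries ℂ} (hP : CoeffsIn A P) (n : ℕ) :
    CoeffsIn A (P ^ n) := by
  induction n with
  | zero =>
    intro n
    rw [pow_zero, PowerSeries.coeff_one]
    split_ifs
    · exact A.one_mem
    · exact A.zero_mem
  | succ n ih => rw [pow_succ]; exact ih.mul hP

/-- dividing by `Δ` preserves integrality -/
lemma coeffsIn_of_delta_mul {A : Subring ℂ} {G F : PowerSeries ℂ} (hG : CoeffsIn A G)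
    (h : G = qExpansion 1 ModularForm.discriminant * F) : CoeffsIn A F := by
  have hD0 : (qExpansion 1 ModularForm.discriminant).coeff 0 = 0 := by
    simpa using CuspFormClass.qExpansion_coeff_zero CuspForm.discriminant one_pos
      one_mem_strictPeriods_SL
  have hD1 : (qExpansion 1 ModularForm.discriminant).coeff 1 = 1 := discriminant_qExpansion_coeff_one
  have hD : CoeffsIn A (qExpansion 1 ModularForm.discriminant) := by
    rw [qDelta]; exact coeffsIn_map A _
  intro n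
  induction n using Nat.strong_induction_on with
  | _ n ih =>
    have h1 := congrArg (PowerSeries.coeff (n + 1)) h
    rw [PowerSeries.coeff_mul, Finset.Nat.sum_antidiagonal_eq_sum_range_succ_mk, Finset.sum_range_succ'] at h1
    simp only [hD0, zero_mul, add_zero] at h1
    rw [Finset.sum_range_succ'] at h1
    simp only [zero_add, hD1, one_mul, Nat.add_sub_cancel] at h1
    have h2 : F.coeff n = G.coeff (n + 1) - ∑ i ∈ Finset.range n, (qExpansion 1 ModularForm.discriminant).coeff (i + 1 + 1) * F.coeff (n + 1 - (i + 1 + 1)) := by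
      rw [h1]; ring
    rw [h2]
    refine A.sub_mem (hG _) (A.sum_mem fun i hi => A.mul_mem (hD _) (ih _ ?_))
    have := Finset.mem_range.mp hi
    omega

lemma delta_pow_mul (τ : ℍ) : ModularForm.discriminant τ * jInv τ = E₄ τ ^ 3 := by
  unfold jInv
  rw [mul_div_cancel₀]
  exact discriminant_ne_zero τ

/-- structure of level one forms of weight `12M` with coefficients in `A`. -/
theorem struct (A : Subring ℂ) (M : ℕ) : ∀ (k : ℤ) (_ : k = 12 * M) (F : ModularForm 𝒮ℒ k),
    CoeffsIn A (qExpansion 1 F) → ∃ p : Polynomial ℂ, (∀ i, p.coeff i ∈ A) ∧ p.natDegree ≤ M ∧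
      (∀ τ, F τ = ModularForm.discriminant τ ^ M * p.eval (jInv τ)) ∧
      (∀ ν ≤ M, (∀ n < ν, (qExpansion 1 F).coeff n = 0) → p.natDegree ≤ M - ν ∧
        p.coeff (M - ν) = (qExpansion 1 F).coeff ν) := by
  induction M with
  | zero =>
    intro k hk F hF
    have hk0 : k = 0 := by simpa using hk
    subst hk0
    obtain ⟨c, hc⟩ := levelOne_weight_zero_const F
    have hcoeff : (qExpansion 1 F).coeff 0 = c := by
      rw [hc]
      have h1 : (Function.const ℍ c) = c • (1 : ℍ → ℂ) := by ext; simp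
      have h2 : AnalyticAt ℂ (cuspFunction 1 (1 : ℍ → ℂ)) 0 := by
        have := ModularFormClass.analyticAt_cuspFunction_zero (1 : ModularForm 𝒮ℒ 0) one_pos one_mem_strictPeriods_SL
        simpa using this
      rw [h1, UpperHalfPlane.qExpansion_smul h2, UpperHalfPlane.qExpansion_one]
      simp
    refine ⟨Polynomial.C c, ?_, ?_, ?_, ?_⟩
    · intro i
      rw [Polynomial.coeff_C]
      split_ifs
      · rw [← hcoeff]; exact hF 0
      · exact A.zero_mem
    · simp
    · intro τ; simp [hc]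
    · intro ν hν _
      have : ν = 0 := by omega
      subst this
      simp only [Nat.sub_self, Polynomial.natDegree_C, le_refl, Polynomial.coeff_C_zero, hcoeff, and_self]
  | succ M ih =>
    intro k hk F hF
    set a0 := (qExpansion 1 F).coeff 0 with ha0
    have hk2 : ((3 * (M + 1) : ℕ) : ℤ) * 4 = k := by rw [hk]; push_cast; ring
    let E : ModularForm 𝒮ℒ k := ModularForm.mcast hk2 (E₄.pow (3 * (M + 1)))
    have hEq : qExpansion 1 E = (qExpansion 1 E₄) ^ (3 * (M + 1)) := by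
      simp only [E, ModularForm.qExpansion_mcast, ModularForm.qExpansion_pow one_pos one_mem_strictPeriods_SL]
    have hE4A : CoeffsIn A (qExpansion 1 E₄) := by rw [qE4]; exact coeffsIn_map A _
    have hE0 : (qExpansion 1 E).coeff 0 = 1 := by
      rw [hEq, PowerSeries.coeff_zero_eq_constantCoeff_apply, map_pow,
        ← PowerSeries.coeff_zero_eq_constantCoeff_apply, E4_coeff]
      simp
    obtain ⟨G, hGdef⟩ : ∃ G : ModularForm 𝒮ℒ k, G = F - a0 • E := ⟨_, rfl⟩
    have hqG : qExpansion 1 G = qExpansion 1 F - a0 • qExpansion 1 E := by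
      rw [hGdef]
      have h1 := ModularForm.qExpansion_sub one_pos one_mem_strictPeriods_SL F (a0 • E)
      have h2 := ModularForm.qExpansion_smul one_pos one_mem_strictPeriods_SL a0 E
      have h3 : qExpansion 1 ⇑(a0 • E) = a0 • qExpansion 1 E := h2
      rw [h3] at h1
      exact h1
    have hGA : CoeffsIn A (qExpansion 1 G) := by
      rw [hqG]
      exact hF.sub (CoeffsIn.smul (hF 0) (by rw [hEq]; exact hE4A.pow _))
    have hG0 : (qExpansion 1 G).coeff 0 = 0 := by
      rw [hqG, map_sub, PowerSeries.coeff_smul, hE0, smul_eq_mul, mul_one, ← ha0, sub_self]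
    have hdiv := qExpansion_eq_qExpansion_discriminant_mul G hG0
    set F' := CuspForm.discriminantEquiv (toCuspForm G hG0) with hF'
    have hF'A : CoeffsIn A (qExpansion 1 F') := coeffsIn_of_delta_mul hGA hdiv
    obtain ⟨p, hpA, hpdeg, hpF, hpν⟩ := ih (k - 12) (by rw [hk]; push_cast; ring) F' hF'A
    have hF'val : ∀ τ, F τ = ModularForm.discriminant τ * F' τ + a0 * E₄ τ ^ (3 * (M + 1)) := by
      intro τ
      have h1 := discriminant_mul_discriminantEquiv_apply (toCuspForm G hG0) τ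
      rw [← hF', toCuspForm_apply] at h1
      rw [h1]
      have h2 : G τ = F τ - a0 * E₄ τ ^ (3 * (M + 1)) := by
        rw [hGdef]
        have h3 : (F - a0 • E) τ = F τ - a0 * (E₄.pow (3 * (M + 1))) τ := rfl
        rw [h3, coe_pow, Pi.pow_apply]
      rw [h2]; ring
    refine ⟨p + Polynomial.C a0 * Polynomial.X ^ (M + 1), ?_, ?_, ?_, ?_⟩
    · intro i
      rw [Polynomial.coeff_add, Polynomial.coeff_C_mul, Polynomial.coeff_X_pow]
      refine A.add_mem (hpA i) (A.mul_mem (hF 0) ?_)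
      split_ifs
      · exact A.one_mem
      · exact A.zero_mem
    · refine (Polynomial.natDegree_add_le _ _).trans (max_le (by omega) ?_)
      exact (Polynomial.natDegree_C_mul_le _ _).trans (by simp)
    · intro τ
      rw [hF'val, hpF, Polynomial.eval_add, Polynomial.eval_mul, Polynomial.eval_C,
        Polynomial.eval_pow, Polynomial.eval_X, pow_mul, ← delta_pow_mul τ]
      ring
    · intro ν hν h0
      rcases Nat.eq_zero_or_pos ν with rfl | hνpos
      · refine ⟨?_, ?_⟩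
        · refine (Polynomial.natDegree_add_le _ _).trans (max_le (by omega) ?_)
          exact (Polynomial.natDegree_C_mul_le _ _).trans (by simp)
        · rw [Polynomial.coeff_add, Polynomial.coeff_C_mul, Polynomial.coeff_X_pow, Nat.sub_zero,
            if_pos rfl, mul_one, Polynomial.coeff_eq_zero_of_natDegree_lt (by omega), zero_add]
      · have ha0z : a0 = 0 := h0 0 hνpos
        have hFF' : qExpansion 1 F = qExpansion 1 ModularForm.discriminant * qExpansion 1 F' := by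
          rw [← hdiv, hqG, ha0z, zero_smul, sub_zero]
        have hcoef : ∀ n, (qExpansion 1 F).coeff (n + 1) = (qExpansion 1 F').coeff n +
            ∑ i ∈ Finset.range n, (qExpansion 1 ModularForm.discriminant).coeff (i + 1 + 1) * (qExpansion 1 F').coeff (n + 1 - (i + 1 + 1)) := by
          intro n
          have hD0 : (qExpansion 1 ModularForm.discriminant).coeff 0 = 0 := by
            simpa using CuspFormClass.qExpansion_coeff_zero CuspForm.discriminant one_pos
              one_mem_strictPeriods_SL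
          rw [hFF', PowerSeries.coeff_mul, Finset.Nat.sum_antidiagonal_eq_sum_range_succ_mk, Finset.sum_range_succ']
          simp only [hD0, zero_mul, add_zero]
          rw [Finset.sum_range_succ']
          simp only [zero_add, discriminant_qExpansion_coeff_one, one_mul, Nat.add_sub_cancel]
          ring
        have h0' : ∀ n < ν - 1, (qExpansion 1 F').coeff n = 0 := by
          intro n
          induction n using Nat.strong_induction_on with
          | _ n ihn =>
            intro hn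
            have h1 := hcoef n
            rw [h0 (n + 1) (by omega), Finset.sum_eq_zero, add_zero] at h1
            · exact h1.symm
            · intro i hi
              have := Finset.mem_range.mp hi
              rw [ihn _ (by omega) (by omega), mul_zero]
        obtain ⟨hd1, hd2⟩ := hpν (ν - 1) (by omega) h0'
        rw [ha0z, Polynomial.C_0, zero_mul, add_zero]
        have e1 : M + 1 - ν = M - (ν - 1) := by omega
        rw [e1]
        refine ⟨hd1, ?_⟩
        rw [hd2]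
        have h1 := hcoef (ν - 1)
        rw [Nat.sub_add_cancel hνpos] at h1
        rw [h1, Finset.sum_eq_zero, add_zero]
        intro i hi
        have := Finset.mem_range.mp hi
        rw [h0' _ (by omega), mul_zero]

open scoped Manifold in
/-- functions on `ℍ` of period `h`, holomorphic, bounded at `i∞`, with `𝕢_h`-coefficients in `A` -/
structure IsNice (h : ℝ) (A : Subring ℂ) (f : ℍ → ℂ) : Prop where
  per : Periodic (f ∘ ofComplex) h
  holo : MDifferentiable 𝓘(ℂ) 𝓘(ℂ) f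
  bdd : IsBoundedAtImInfty f
  coeffs : CoeffsIn A (qExpansion h f)

namespace IsNice

variable {h : ℝ} {A : Subring ℂ} {f g : ℍ → ℂ}

lemma analyticAt (hh : 0 < h) (hf : IsNice h A f) : AnalyticAt ℂ (cuspFunction h f) 0 :=
  analyticAt_cuspFunction_zero hh hf.per hf.holo hf.bdd

lemma mul (hh : 0 < h) (hf : IsNice h A f) (hg : IsNice h A g) : IsNice h A (f * g) where
  per := fun x => by
    have h1 := hf.per x
    have h2 := hg.per x
    simp only [comp_apply, Pi.mul_apply] at *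
    rw [h1, h2]
  holo := hf.holo.mul hg.holo
  bdd := hf.bdd.mul hg.bdd
  coeffs := by
    rw [UpperHalfPlane.qExpansion_mul (hf.analyticAt hh) (hg.analyticAt hh)]
    exact hf.coeffs.mul hg.coeffs

lemma add (hh : 0 < h) (hf : IsNice h A f) (hg : IsNice h A g) : IsNice h A (f + g) where
  per := fun x => by
    have h1 := hf.per x
    have h2 := hg.per x
    simp only [comp_apply, Pi.add_apply] at *
    rw [h1, h2]
  holo := hf.holo.add hg.holo
  bdd := hf.bdd.add hg.bdd
  coeffs := by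
    rw [UpperHalfPlane.qExpansion_add (hf.analyticAt hh) (hg.analyticAt hh)]
    intro n
    rw [map_add]
    exact A.add_mem (hf.coeffs n) (hg.coeffs n)

lemma neg (hh : 0 < h) (hf : IsNice h A f) : IsNice h A (-f) where
  per := fun x => by
    have h1 := hf.per x
    simp only [comp_apply, Pi.neg_apply] at *
    rw [h1]
  holo := hf.holo.neg
  bdd := hf.bdd.neg
  coeffs := by
    rw [UpperHalfPlane.qExpansion_neg (hf.analyticAt hh)]
    intro n
    rw [map_neg]
    exact A.neg_mem (hf.coeffs n)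

lemma one : IsNice h A (1 : ℍ → ℂ) where
  per := fun x => by simp
  holo := mdifferentiable_const
  bdd := by
    have := (1 : ModularForm 𝒮ℒ 0)
    exact Filter.const_boundedAtFilter _ 1
  coeffs := by
    rw [UpperHalfPlane.qExpansion_one]
    intro n
    rw [PowerSeries.coeff_one]
    split_ifs
    · exact A.one_mem
    · exact A.zero_mem

lemma zero : IsNice h A (0 : ℍ → ℂ) where
  per := fun x => by simp
  holo := mdifferentiable_const
  bdd := Filter.const_boundedAtFilter _ 0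
  coeffs := by
    rw [UpperHalfPlane.qExpansion_zero]
    intro n
    simp

end IsNice

/-- nice functions as a subring -/
def niceSubring (h : ℝ) (hh : 0 < h) (A : Subring ℂ) : Subring (ℍ → ℂ) where
  carrier := {f | IsNice h A f}
  mul_mem' := fun hf hg => hf.mul hh hg
  one_mem' := IsNice.one
  add_mem' := fun hf hg => hf.add hh hg
  zero_mem' := IsNice.zero
  neg_mem' := fun hf => hf.neg hh

lemma periodic_of_hasSum {h : ℝ} (hh : 0 < h) {g : ℍ → ℂ} {c : ℕ → ℂ}
    (hs : ∀ τ : ℍ, HasSum (fun m => c m • Periodic.qParam h τ ^ m) (g τ)) :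
    Periodic (g ∘ ofComplex) h := by
  intro w
  by_cases hw : 0 < im w
  · have hw' : 0 < im (w + h) := by simp [hw]
    rw [comp_apply, comp_apply, ofComplex_apply_of_im_pos hw', ofComplex_apply_of_im_pos hw]
    refine (hs ⟨w + h, hw'⟩).unique ?_
    have h1 := hs ⟨w, hw⟩
    have h2 : Periodic.qParam h (((⟨w + h, hw'⟩ : ℍ)) : ℂ) = Periodic.qParam h (((⟨w, hw⟩ : ℍ)) : ℂ) := by
      show Periodic.qParam h (w + h) = Periodic.qParam h w
      unfold Periodic.qParam
      have hh0 : (h : ℂ) ≠ 0 := by exact_mod_cast hh.ne'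
      rw [show 2 * (Real.pi : ℂ) * Complex.I * (w + h) / h = 2 * Real.pi * Complex.I * w / h + 2 * Real.pi * Complex.I by
        field_simp, Complex.exp_add, Complex.exp_two_pi_mul_I, mul_one]
    rw [h2]
    exact h1
  · have hw1 : im w ≤ 0 := not_lt.mp hw
    have hw' : im (w + h) ≤ 0 := by simpa using hw1
    rw [comp_apply, comp_apply, ofComplex_apply_of_im_nonpos hw', ofComplex_apply_of_im_nonpos hw1]

open scoped Manifold in
lemma isNice_of_hasSum {h : ℝ} (hh : 0 < h) {A : Subring ℂ} {g : ℍ → ℂ} {c : ℕ → ℂ}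
    (hc : ∀ n, c n ∈ A) (hg : MDifferentiable 𝓘(ℂ) 𝓘(ℂ) g)
    (hs : ∀ τ : ℍ, HasSum (fun m => c m • Periodic.qParam h τ ^ m) (g τ)) :
    IsNice h A g ∧ ∀ n, (qExpansion h g).coeff n = c n := by
  have hper : Periodic (g ∘ ofComplex) h := periodic_of_hasSum hh hs
  have hbdd : IsBoundedAtImInfty g := isBoundedAtImInfty_of_hasSum_qExpansion hh hs
  have han : AnalyticAt ℂ (cuspFunction h g) 0 := analyticAt_cuspFunction_zero hh hper hg hbdd
  have hcoef : ∀ n, (qExpansion h g).coeff n = c n := by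
    intro n
    have h1 := (hasFPowerSeriesOnBall_cuspFunction hh han hs).hasFPowerSeriesAt
    have h2 : HasFPowerSeriesAt (cuspFunction h g)
        (.ofScalars ℂ fun m ↦ (qExpansion h g).coeff m) 0 := by
      simpa [qExpansion_coeff, div_eq_mul_inv, mul_comm] using han.hasFPowerSeriesAt
    have h3 := congrArg (FormalMultilinearSeries.coeff · n) (h1.eq_formalMultilinearSeries h2)
    simp only [FormalMultilinearSeries.coeff_ofScalars] at h3
    exact h3.symm
  exact ⟨⟨hper, hg, hbdd, fun n => by rw [hcoef]; exact hc n⟩, hcoef⟩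

lemma IsNice.hasSum {h : ℝ} (hh : 0 < h) {A : Subring ℂ} {g : ℍ → ℂ} (hg : IsNice h A g) (τ : ℍ) :
    HasSum (fun m => (qExpansion h g).coeff m • Periodic.qParam h τ ^ m) (g τ) :=
  UpperHalfPlane.hasSum_qExpansion hh hg.per hg.holo hg.bdd τ

/-- composing with `τ ↦ (aτ+b)/d`, `ad = N`. -/
lemma IsNice.comp_upper {A : Subring ℂ} {f : ℍ → ℂ} (hf : IsNice 1 A f) (g : GL (Fin 2) ℝ)
    (a d : ℕ) (b : ℤ) (ha : 0 < a) (hd : 0 < d) (hdet : 0 < g.det.val)
    (hg : ∀ τ : ℍ, ((g • τ : ℍ) : ℂ) = (a * τ + b) / d)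
    (hA : Complex.exp (2 * Real.pi * Complex.I * b / d) ∈ A) :
    IsNice ((a * d : ℕ) : ℝ) A (fun τ => f (g • τ)) ∧
    ∀ n, (qExpansion ((a * d : ℕ) : ℝ) (fun τ => f (g • τ))).coeff n =
      if a ^ 2 ∣ n then (qExpansion 1 f).coeff (n / a ^ 2) *
        Complex.exp (2 * Real.pi * Complex.I * b / d) ^ (n / a ^ 2) else 0 := by
  have ha0 : (a : ℂ) ≠ 0 := by exact_mod_cast ha.ne'
  have hd0 : (d : ℂ) ≠ 0 := by exact_mod_cast hd.ne'
  have hN : (0 : ℝ) < ((a * d : ℕ) : ℝ) := by exact_mod_cast Nat.mul_pos ha hd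
  refine isNice_of_hasSum hN ?_ ?_ ?_
  · intro n
    split_ifs
    · exact A.mul_mem (hf.coeffs _) (A.pow_mem hA _)
    · exact A.zero_mem
  · exact hf.holo.comp (mdifferentiable_smul hdet)
  · intro τ
    have h1 := hf.hasSum one_pos (g • τ)
    have hq : Periodic.qParam 1 ((g • τ : ℍ) : ℂ) = Complex.exp (2 * Real.pi * Complex.I * b / d) *
        Periodic.qParam ((a * d : ℕ) : ℝ) τ ^ (a ^ 2) := by
      unfold Periodic.qParam
      rw [hg τ, ← Complex.exp_nat_mul, ← Complex.exp_add]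
      congr 1
      push_cast
      field_simp
      ring
    have hinj : Function.Injective (fun m : ℕ => a ^ 2 * m) := fun x y hxy =>
      Nat.eq_of_mul_eq_mul_left (pow_pos ha 2) hxy
    rw [← hinj.hasSum_iff]
    · convert h1 using 2 with m
      simp only [comp_apply]
      rw [if_pos (dvd_mul_right _ _), Nat.mul_div_cancel_left _ (pow_pos ha 2), hq, smul_eq_mul,
        smul_eq_mul, mul_pow, pow_mul]
      ring
    · intro n hn
      have : ¬ (a ^ 2 ∣ n) := by
        rintro ⟨m, rfl⟩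
        exact hn ⟨m, rfl⟩
      simp [this]

/-- the leading coefficient is a unit of `A` -/
def LeadUnit (A : Subring ℂ) (P : PowerSeries ℂ) : Prop :=
  ∃ ν, (∀ n < ν, P.coeff n = 0) ∧ P.coeff ν ∈ A ∧ ∃ v ∈ A, P.coeff ν * v = 1

lemma LeadUnit.mul {A : Subring ℂ} {P Q : PowerSeries ℂ} (hP : LeadUnit A P) (hQ : LeadUnit A Q) :
    LeadUnit A (P * Q) := by
  obtain ⟨ν, h1, h2, v, hv, h3⟩ := hP
  obtain ⟨μ, k1, k2, w, hw, k3⟩ := hQ
  have hc : (P * Q).coeff (ν + μ) = P.coeff ν * Q.coeff μ := by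
    rw [PowerSeries.coeff_mul]
    refine Finset.sum_eq_single_of_mem (ν, μ) (by simp) ?_
    rintro ⟨i, j⟩ hij hne
    rw [Finset.HasAntidiagonal.mem_antidiagonal] at hij
    dsimp only at hij ⊢
    rcases lt_trichotomy i ν with h | h | h
    · rw [h1 i h, zero_mul]
    · subst h
      exact absurd (by simpa using hij) (fun h => hne (by rw [h]))
    · rw [k1 j (by omega), mul_zero]
  refine ⟨ν + μ, ?_, ?_, v * w, A.mul_mem hv hw, ?_⟩
  · intro n hn
    rw [PowerSeries.coeff_mul]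
    refine Finset.sum_eq_zero ?_
    rintro ⟨i, j⟩ hij
    rw [Finset.HasAntidiagonal.mem_antidiagonal] at hij
    dsimp only at hij ⊢
    by_cases h : i < ν
    · rw [h1 i h, zero_mul]
    · rw [k1 j (by omega), mul_zero]
  · rw [hc]; exact A.mul_mem h2 k2
  · rw [hc]
    calc _ = (P.coeff ν * v) * (Q.coeff μ * w) := by ring
      _ = 1 := by rw [h3, k3, one_mul]

lemma LeadUnit.one (A : Subring ℂ) : LeadUnit A 1 :=
  ⟨0, by simp, by simp [A.one_mem], 1, A.one_mem, by simp⟩

/-- changing the width of the expansion -/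
lemma coeff_width {A : Subring ℂ} {f : ℍ → ℂ} (hf : IsNice 1 A f) (N : ℕ) (hN : 0 < N) (n : ℕ) :
    (qExpansion (N : ℝ) f).coeff n = if N ∣ n then (qExpansion 1 f).coeff (n / N) else 0 := by
  have hN' : (0 : ℝ) < (N : ℝ) := by exact_mod_cast hN
  have hN0 : (N : ℂ) ≠ 0 := by exact_mod_cast hN.ne'
  have key := isNice_of_hasSum (h := (N : ℝ)) hN' (A := ⊤) (g := f)
    (c := fun n => if N ∣ n then (qExpansion 1 f).coeff (n / N) else 0)
    (fun n => Subring.mem_top _) hf.holo ?_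
  · exact key.2 n
  · intro τ
    have h1 := hf.hasSum one_pos τ
    have hq : Periodic.qParam 1 (τ : ℂ) = Periodic.qParam (N : ℝ) τ ^ N := by
      unfold Periodic.qParam
      rw [← Complex.exp_nat_mul]
      congr 1
      push_cast
      field_simp
    have hinj : Function.Injective (fun m : ℕ => N * m) := fun x y hxy =>
      Nat.eq_of_mul_eq_mul_left hN hxy
    rw [← hinj.hasSum_iff]
    · convert h1 using 2 with m
      simp only [comp_apply]
      rw [if_pos (dvd_mul_right _ _), Nat.mul_div_cancel_left _ hN, hq, pow_mul]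
    · intro n hn
      have : ¬ (N ∣ n) := by
        rintro ⟨m, rfl⟩
        exact hn ⟨m, rfl⟩
      simp [this]

lemma coeffsIn_of_width {A A' : Subring ℂ} {f : ℍ → ℂ} (hf : IsNice 1 A' f) (N : ℕ) (hN : 0 < N)
    (h : IsNice (N : ℝ) A f) : CoeffsIn A (qExpansion 1 f) := by
  intro n
  have h1 := h.coeffs (N * n)
  rw [coeff_width hf N hN, if_pos (dvd_mul_right _ _), Nat.mul_div_cancel_left _ hN] at h1
  exact h1

lemma leadUnit_of_width {A A' : Subring ℂ} {f : ℍ → ℂ} (hf : IsNice 1 A' f) (N : ℕ) (hN : 0 < N)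
    (h : LeadUnit A (qExpansion (N : ℝ) f)) : LeadUnit A (qExpansion 1 f) := by
  obtain ⟨ν, h1, h2, v, hv, h3⟩ := h
  have hd : N ∣ ν := by
    by_contra hd
    rw [coeff_width hf N hN, if_neg hd, zero_mul] at h3
    exact zero_ne_one h3
  obtain ⟨m, rfl⟩ := hd
  rw [coeff_width hf N hN, if_pos (dvd_mul_right _ _), Nat.mul_div_cancel_left _ hN] at h2 h3
  refine ⟨m, ?_, h2, v, hv, h3⟩
  intro n hn
  have h4 := h1 (N * n) (Nat.mul_lt_mul_of_pos_left hn hN)
  rwa [coeff_width hf N hN, if_pos (dvd_mul_right _ _), Nat.mul_div_cancel_left _ hN] at h4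

/-- level one modular forms are nice -/
lemma isNice_modularForm {k : ℤ} (F : ModularForm 𝒮ℒ k) {A : Subring ℂ}
    (h : CoeffsIn A (qExpansion 1 F)) : IsNice 1 A F :=
  ⟨SlashInvariantFormClass.periodic_comp_ofComplex F one_mem_strictPeriods_SL, F.holo',
    ModularFormClass.bdd_at_infty F, h⟩

lemma isNice_E4 (A : Subring ℂ) : IsNice 1 A E₄ :=
  isNice_modularForm E₄ (by rw [qE4]; exact coeffsIn_map A _)

lemma isNice_delta (A : Subring ℂ) : IsNice 1 A ModularForm.discriminant := by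
  have : CoeffsIn A (qExpansion 1 ModularForm.discriminant) := by
    rw [qDelta]; exact coeffsIn_map A _
  exact isNice_modularForm (CuspForm.toModularFormₗ CuspForm.discriminant) this

/-- build a level one modular form from a nice function that is slash invariant -/
noncomputable def mkForm {A : Subring ℂ} {h : ℝ} (k : ℤ) (f : ℍ → ℂ) (hf : IsNice h A f)
    (hinv : ∀ γ : SL(2, ℤ), f ∣[k] γ = f) : ModularForm 𝒮ℒ k where
  toFun := f
  slash_action_eq' := by
    rintro _ ⟨γ, rfl⟩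
    exact hinv γ
  holo' := hf.holo
  bdd_at_cusps' {c} hc := by
    rw [Subgroup.IsArithmetic.isCusp_iff_isCusp_SL2Z] at hc
    rw [OnePoint.isBoundedAt_iff_forall_SL2Z hc]
    intro γ _
    rw [hinv γ]
    exact hf.bdd

section cosets

variable {N : ℕ} [NeZero N]

/-- integral matrices of determinant `N` -/
abbrev MN (N : ℕ) := FixedDetMatrix (Fin 2) ℤ (N : ℤ)

omit [NeZero N] in
lemma det_map (A : MN N) : (A.1.map ((↑) : ℤ → ℝ)).det = N := by
  have h := A.2
  have h2 := congrArg (fun x : ℤ => (x : ℝ)) h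
  simp only [Int.cast_natCast] at h2
  rw [← h2, Matrix.det_fin_two, Matrix.det_fin_two]
  push_cast
  simp [Matrix.map_apply]

/-- integral matrix of determinant `N > 0` as an element of `GL₂(ℝ)` -/
noncomputable def toGL (A : MN N) : GL (Fin 2) ℝ :=
  Matrix.GeneralLinearGroup.mkOfDetNeZero (A.1.map ((↑) : ℤ → ℝ))
    (by rw [det_map]; exact_mod_cast NeZero.ne N)

lemma toGL_val (A : MN N) : (toGL A).val = A.1.map ((↑) : ℤ → ℝ) := rfl

lemma toGL_det (A : MN N) : (toGL A).det.val = N := by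
  rw [Matrix.GeneralLinearGroup.val_det_apply, toGL_val, det_map]

lemma toGL_det_pos (A : MN N) : 0 < (toGL A).det.val := by
  rw [toGL_det]; exact_mod_cast Nat.pos_of_ne_zero (NeZero.ne N)

lemma toGL_smul (γ : SL(2, ℤ)) (A : MN N) :
    toGL (γ • A) = (Matrix.SpecialLinearGroup.mapGL ℝ γ) * toGL A := by
  apply Units.ext
  rw [Units.val_mul, toGL_val, toGL_val, FixedDetMatrices.smul_coe, Matrix.map_mul_intCast]
  rfl

/-- right multiplication -/
def rmul (A : MN N) (γ : SL(2, ℤ)) : MN N :=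
  ⟨A.1 * γ.1, by rw [Matrix.det_mul, A.2, γ.2, mul_one]⟩

lemma toGL_rmul (A : MN N) (γ : SL(2, ℤ)) :
    toGL (rmul A γ) = toGL A * (Matrix.SpecialLinearGroup.mapGL ℝ γ) := by
  apply Units.ext
  rw [Units.val_mul, toGL_val, toGL_val]
  show (A.1 * γ.1).map _ = _
  rw [Matrix.map_mul_intCast]
  rfl

/-- the coset space `SL₂(ℤ) \ M_N` -/
abbrev QN (N : ℕ) := MulAction.orbitRel.Quotient SL(2, ℤ) (MN N)

lemma exists_upper (A : MN N) : ∃ B : MN N, (∃ γ : SL(2, ℤ), γ • B = A) ∧ B ∈ FixedDetMatrices.reps (N : ℤ) := by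
  have hN : (N : ℤ) ≠ 0 := by exact_mod_cast NeZero.ne N
  induction A using FixedDetMatrices.induction_on hN with
  | h0 A a1 a2 a3 a4 => exact ⟨A, ⟨1, one_smul _ _⟩, a1, a2, a3, a4⟩
  | hS B hB =>
    obtain ⟨B', ⟨γ, hγ⟩, h⟩ := hB
    exact ⟨B', ⟨ModularGroup.S * γ, by rw [mul_smul, hγ]⟩, h⟩
  | hT B hB =>
    obtain ⟨B', ⟨γ, hγ⟩, h⟩ := hB
    exact ⟨B', ⟨ModularGroup.T * γ, by rw [mul_smul, hγ]⟩, h⟩

lemma exists_rep (q : QN N) : ∃ B : MN N, (Quotient.mk'' B : QN N) = q ∧
    B ∈ FixedDetMatrices.reps (N : ℤ) := by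
  induction q using Quotient.inductionOn' with
  | _ A =>
    obtain ⟨B, ⟨γ, hγ⟩, h⟩ := exists_upper A
    refine ⟨B, ?_, h⟩
    apply Quotient.sound'
    rw [MulAction.orbitRel_apply]
    exact ⟨γ⁻¹, by rw [← hγ]; simp⟩

noncomputable instance : Finite (QN N) := by
  have : Function.Surjective (fun B : FixedDetMatrices.reps (N : ℤ) => (Quotient.mk'' B.1 : QN N)) := by
    intro q
    obtain ⟨B, h1, h2⟩ := exists_rep q
    exact ⟨⟨B, h2⟩, h1⟩
  exact Finite.of_surjective _ this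

noncomputable instance : Fintype (QN N) := Fintype.ofFinite _

/-- chosen upper triangular representative -/
noncomputable def rep (q : QN N) : MN N := (exists_rep q).choose

lemma rep_mk (q : QN N) : (Quotient.mk'' (rep q) : QN N) = q := (exists_rep q).choose_spec.1

lemma rep_mem (q : QN N) : rep q ∈ FixedDetMatrices.reps (N : ℤ) := (exists_rep q).choose_spec.2

/-- right multiplication on cosets -/
def rQ (γ : SL(2, ℤ)) : QN N → QN N := Quotient.map' (fun A => rmul A γ) (by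
  intro A B h
  rw [MulAction.orbitRel_apply] at h ⊢
  obtain ⟨δ, hδ⟩ := h
  refine ⟨δ, ?_⟩
  rw [← hδ]
  apply FixedDetMatrices.ext'
  show δ.1 * (B.1 * γ.1) = (δ.1 * B.1) * γ.1
  rw [Matrix.mul_assoc])

omit [NeZero N] in
lemma rQ_bijective (γ : SL(2, ℤ)) : Function.Bijective (rQ (N := N) γ) := by
  have h : ∀ γ : SL(2, ℤ), ∀ q : QN N, rQ γ⁻¹ (rQ γ q) = q := by
    intro γ q
    induction q using Quotient.inductionOn' with
    | _ A =>
      show (Quotient.mk'' (rmul (rmul A γ) γ⁻¹) : QN N) = _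
      congr 1
      apply FixedDetMatrices.ext'
      show (A.1 * γ.1) * (γ⁻¹).1 = A.1
      rw [Matrix.mul_assoc, ← Matrix.SpecialLinearGroup.coe_mul, mul_inv_cancel]
      simp
  refine ⟨fun x y hxy => ?_, fun q => ⟨rQ γ⁻¹ q, ?_⟩⟩
  · rw [← h γ x, hxy, h γ y]
  · have := h γ⁻¹ q
    rwa [inv_inv] at this

/-- slashing a level one form by the cosets -/
noncomputable def sl (k : ℤ) (f : ℍ → ℂ) (hf : ∀ γ : SL(2, ℤ), f ∣[k] γ = f) : QN N → (ℍ → ℂ) :=
  Quotient.lift (fun A => f ∣[k] toGL A) (by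
    intro A B h
    change A ∈ MulAction.orbit _ B at h
    obtain ⟨δ, hδ⟩ := h
    show f ∣[k] toGL A = f ∣[k] toGL B
    rw [← hδ]
    show f ∣[k] toGL (δ • B) = f ∣[k] toGL B
    have h2 : f ∣[k] (Matrix.SpecialLinearGroup.mapGL ℝ δ) = f := hf δ
    rw [toGL_smul, SlashAction.slash_mul, h2])

lemma sl_mk (k : ℤ) (f : ℍ → ℂ) (hf : ∀ γ : SL(2, ℤ), f ∣[k] γ = f) (A : MN N) :
    sl k f hf (Quotient.mk'' A) = f ∣[k] toGL A := rfl

lemma sl_rQ (k : ℤ) (f : ℍ → ℂ) (hf : ∀ γ : SL(2, ℤ), f ∣[k] γ = f) (γ : SL(2, ℤ)) (q : QN N) :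
    sl k f hf (rQ γ q) = (sl k f hf q) ∣[k] γ := by
  induction q using Quotient.inductionOn' with
  | _ A =>
    show f ∣[k] toGL (rmul A γ) = (f ∣[k] toGL A) ∣[k] γ
    rw [toGL_rmul, SlashAction.slash_mul]
    rfl


lemma slash_SL_apply {k : ℤ} {f : ℍ → ℂ} (γ : SL(2, ℤ)) (τ : ℍ) :
    f (γ • τ) = (f ∣[k] γ) τ * denom γ τ ^ k := by
  rw [SL_slash_apply, mul_assoc, ← zpow_add₀ (denom_ne_zero _ _)]
  simp

/-- entries of the representative -/
noncomputable def ra (q : QN N) : ℕ := ((rep q).1 0 0).toNat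
noncomputable def rb (q : QN N) : ℤ := (rep q).1 0 1
noncomputable def rd (q : QN N) : ℕ := ((rep q).1 1 1).toNat

lemma rep_10 (q : QN N) : (rep q).1 1 0 = 0 := (rep_mem q).1

lemma rep_00_pos (q : QN N) : 0 < (rep q).1 0 0 := (rep_mem q).2.1

lemma rep_det (q : QN N) : (rep q).1 0 0 * (rep q).1 1 1 = N := by
  have h := (rep q).2
  rw [Matrix.det_fin_two, rep_10, mul_zero, sub_zero] at h
  exact h

lemma rep_11_pos (q : QN N) : 0 < (rep q).1 1 1 := by
  have h := rep_det q
  have hN : (0 : ℤ) < N := by exact_mod_cast Nat.pos_of_ne_zero (NeZero.ne N)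
  rw [← h] at hN
  exact (pos_iff_pos_of_mul_pos hN).mp (rep_00_pos q)

lemma ra_cast (q : QN N) : ((ra q : ℕ) : ℤ) = (rep q).1 0 0 := Int.toNat_of_nonneg (rep_00_pos q).le
lemma rd_cast (q : QN N) : ((rd q : ℕ) : ℤ) = (rep q).1 1 1 := Int.toNat_of_nonneg (rep_11_pos q).le

lemma ra_pos (q : QN N) : 0 < ra q := by
  have := rep_00_pos q
  rw [← ra_cast] at this
  exact_mod_cast this

lemma rd_pos (q : QN N) : 0 < rd q := by
  have := rep_11_pos q
  rw [← rd_cast] at this
  exact_mod_cast this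

lemma ra_mul_rd (q : QN N) : ra q * rd q = N := by
  have := rep_det q
  rw [← ra_cast, ← rd_cast] at this
  exact_mod_cast this

lemma rep_smul (q : QN N) (τ : ℍ) :
    ((toGL (rep q) • τ : ℍ) : ℂ) = ((ra q : ℕ) * τ + (rb q : ℤ)) / (rd q : ℕ) := by
  rw [UpperHalfPlane.coe_smul_of_det_pos (toGL_det_pos _)]
  unfold num denom
  rw [toGL_val]
  simp only [Matrix.map_apply]
  rw [rep_10]
  have h1 : (((rep q).1 0 0 : ℤ) : ℂ) = ((ra q : ℕ) : ℂ) := by rw [← ra_cast]; simp
  have h2 : (((rep q).1 1 1 : ℤ) : ℂ) = ((rd q : ℕ) : ℂ) := by rw [← rd_cast]; simp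
  unfold rb
  push_cast
  rw [h1, h2]
  simp

lemma rep_denom (q : QN N) (τ : ℍ) : denom (toGL (rep q)) τ = (rd q : ℕ) := by
  unfold denom
  rw [toGL_val]
  simp only [Matrix.map_apply]
  rw [rep_10]
  have h2 : (((rep q).1 1 1 : ℤ) : ℂ) = ((rd q : ℕ) : ℂ) := by rw [← rd_cast]; simp
  push_cast
  rw [h2]
  simp

/-- composition with the representative -/
noncomputable def cmp (f : ℍ → ℂ) (q : QN N) : ℍ → ℂ := fun τ => f (toGL (rep q) • τ)

/-- scaling constant -/
noncomputable def kap (q : QN N) : ℂ := (N : ℂ) ^ (11 : ℤ) * (rd q : ℂ) ^ (-12 : ℤ)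

lemma kap_ne_zero (q : QN N) : kap q ≠ 0 := by
  unfold kap
  have h1 : (N : ℂ) ≠ 0 := by exact_mod_cast NeZero.ne N
  have h2 : (rd q : ℂ) ≠ 0 := by exact_mod_cast (rd_pos q).ne'
  exact mul_ne_zero (zpow_ne_zero _ h1) (zpow_ne_zero _ h2)

lemma sl_eq (f : ℍ → ℂ) (hf : ∀ γ : SL(2, ℤ), f ∣[(12 : ℤ)] γ = f) (q : QN N) (τ : ℍ) :
    sl 12 f hf q τ = kap q * cmp f q τ := by
  conv_lhs => rw [← rep_mk q]
  rw [sl_mk, slash_apply, toGL_det, rep_denom]
  have hσ : UpperHalfPlane.σ (toGL (rep q)) = ContinuousAlgEquiv.refl ℝ ℂ := by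
    unfold UpperHalfPlane.σ
    rw [if_pos (toGL_det_pos _)]
  rw [hσ]
  unfold kap cmp
  simp
  ring

lemma sl_smul (f : ℍ → ℂ) (hf : ∀ γ : SL(2, ℤ), f ∣[(12 : ℤ)] γ = f) (q : QN N) (γ : SL(2, ℤ)) (τ : ℍ) :
    sl 12 f hf q (γ • τ) = sl 12 f hf (rQ γ q) τ * denom γ τ ^ (12 : ℤ) := by
  rw [sl_rQ, ← slash_SL_apply]


/-- the ring of all algebraic integers in `ℂ` -/
noncomputable def AI : Subring ℂ := (integralClosure ℤ ℂ).toSubring

lemma mem_AI {x : ℂ} : x ∈ AI ↔ IsIntegral ℤ x := Iff.rfl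

lemma exp_mem_AI (b : ℤ) (d : ℕ) (hd : 0 < d) : Complex.exp (2 * Real.pi * Complex.I * b / d) ∈ AI := by
  rw [mem_AI]
  have hd0 : (d : ℂ) ≠ 0 := by exact_mod_cast hd.ne'
  have h : Complex.exp (2 * Real.pi * Complex.I * b / d) ^ d = 1 := by
    rw [← Complex.exp_nat_mul, show (d : ℂ) * (2 * Real.pi * Complex.I * b / d) = b * (2 * Real.pi * Complex.I) by
      field_simp]
    exact Complex.exp_int_mul_two_pi_mul_I b
  exact IsIntegral.of_pow hd (by rw [h]; exact isIntegral_one)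

/-- leading term at `ν` with coefficient `u` -/
def LeadAt (P : PowerSeries ℂ) (ν : ℕ) (u : ℂ) : Prop := (∀ n < ν, P.coeff n = 0) ∧ P.coeff ν = u

lemma LeadAt.mul {P Q : PowerSeries ℂ} {ν μ : ℕ} {u v : ℂ} (hP : LeadAt P ν u) (hQ : LeadAt Q μ v) :
    LeadAt (P * Q) (ν + μ) (u * v) := by
  obtain ⟨h1, h2⟩ := hP
  obtain ⟨k1, k2⟩ := hQ
  refine ⟨?_, ?_⟩
  · intro n hn
    rw [PowerSeries.coeff_mul]
    refine Finset.sum_eq_zero ?_
    rintro ⟨i, j⟩ hij
    rw [Finset.HasAntidiagonal.mem_antidiagonal] at hij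
    dsimp only at hij ⊢
    by_cases h : i < ν
    · rw [h1 i h, zero_mul]
    · rw [k1 j (by omega), mul_zero]
  · rw [PowerSeries.coeff_mul, ← h2, ← k2]
    refine Finset.sum_eq_single_of_mem (ν, μ) (by simp) ?_
    rintro ⟨i, j⟩ hij hne
    rw [Finset.HasAntidiagonal.mem_antidiagonal] at hij
    dsimp only at hij ⊢
    rcases lt_trichotomy i ν with h | h | h
    · rw [h1 i h, zero_mul]
    · subst h
      exact absurd (by simpa using hij) (fun h => hne (by rw [h]))
    · rw [k1 j (by omega), mul_zero]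

lemma LeadAt.pow {P : PowerSeries ℂ} {u : ℂ} (hP : LeadAt P 0 u) (n : ℕ) :
    LeadAt (P ^ n) 0 (u ^ n) := by
  induction n with
  | zero => exact ⟨by simp, by simp⟩
  | succ n ih => rw [pow_succ, pow_succ]; exact ih.mul hP

lemma LeadAt.sub_left {P Q : PowerSeries ℂ} {ν μ : ℕ} {u v : ℂ} (hP : LeadAt P ν u) (hQ : LeadAt Q μ v)
    (h : ν < μ) : LeadAt (P - Q) ν u := by
  refine ⟨fun n hn => ?_, ?_⟩
  · rw [map_sub, hP.1 n hn, hQ.1 n (by omega), sub_zero]
  · rw [map_sub, hP.2, hQ.1 ν h, sub_zero]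

lemma LeadAt.sub_right {P Q : PowerSeries ℂ} {ν μ : ℕ} {u v : ℂ} (hP : LeadAt P ν u) (hQ : LeadAt Q μ v)
    (h : μ < ν) : LeadAt (P - Q) μ (-v) := by
  refine ⟨fun n hn => ?_, ?_⟩
  · rw [map_sub, hP.1 n (by omega), hQ.1 n hn, sub_zero]
  · rw [map_sub, hP.1 μ h, hQ.2, zero_sub]

lemma LeadAt.leadUnit {A : Subring ℂ} {P : PowerSeries ℂ} {ν : ℕ} {u v : ℂ} (hP : LeadAt P ν u)
    (hu : u ∈ A) (hv : v ∈ A) (h : u * v = 1) : LeadUnit A P :=
  ⟨ν, hP.1, by rw [hP.2]; exact hu, v, hv, by rw [hP.2]; exact h⟩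

lemma leadAt_E4 : LeadAt (qExpansion 1 E₄) 0 1 := ⟨by simp, by rw [E4_coeff]; simp⟩

lemma leadAt_delta : LeadAt (qExpansion 1 ModularForm.discriminant) 1 1 := by
  refine ⟨fun n hn => ?_, discriminant_qExpansion_coeff_one⟩
  have : n = 0 := by omega
  subst this
  simpa using CuspFormClass.qExpansion_coeff_zero CuspForm.discriminant one_pos
      one_mem_strictPeriods_SL

lemma LeadAt.width {A : Subring ℂ} {f : ℍ → ℂ} (hf : IsNice 1 A f) {N : ℕ} (hN : 0 < N) {ν : ℕ} {u : ℂ}
    (h : LeadAt (qExpansion 1 f) ν u) : LeadAt (qExpansion (N : ℝ) f) (N * ν) u := by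
  refine ⟨fun n hn => ?_, ?_⟩
  · rw [coeff_width hf N hN]
    split_ifs with h1
    · obtain ⟨m, rfl⟩ := h1
      rw [Nat.mul_div_cancel_left _ hN]
      exact h.1 m (Nat.lt_of_mul_lt_mul_left hn)
    · rfl
  · rw [coeff_width hf N hN, if_pos (dvd_mul_right _ _), Nat.mul_div_cancel_left _ hN, h.2]

lemma N_pos' : 0 < N := Nat.pos_of_ne_zero (NeZero.ne N)

lemma cmp_nice {f : ℍ → ℂ} (hf : IsNice 1 AI f) (q : QN N) : IsNice (N : ℝ) AI (cmp f q) := by
  have h := (hf.comp_upper (toGL (rep q)) (ra q) (rd q) (rb q) (ra_pos q) (rd_pos q)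
    (toGL_det_pos _) (rep_smul q) (exp_mem_AI _ _ (rd_pos q))).1
  rw [ra_mul_rd] at h
  exact h

lemma cmp_coeff {f : ℍ → ℂ} (hf : IsNice 1 AI f) (q : QN N) (n : ℕ) :
    (qExpansion (N : ℝ) (cmp f q)).coeff n = if ra q ^ 2 ∣ n then (qExpansion 1 f).coeff (n / ra q ^ 2) *
        Complex.exp (2 * Real.pi * Complex.I * rb q / rd q) ^ (n / ra q ^ 2) else 0 := by
  have h := (hf.comp_upper (toGL (rep q)) (ra q) (rd q) (rb q) (ra_pos q) (rd_pos q)
    (toGL_det_pos _) (rep_smul q) (exp_mem_AI _ _ (rd_pos q))).2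
  rw [ra_mul_rd] at h
  exact h n

lemma LeadAt.cmp {f : ℍ → ℂ} (hf : IsNice 1 AI f) (q : QN N) {ν : ℕ} {u : ℂ}
    (h : LeadAt (qExpansion 1 f) ν u) : LeadAt (qExpansion (N : ℝ) (cmp f q)) (ra q ^ 2 * ν)
      (u * Complex.exp (2 * Real.pi * Complex.I * rb q / rd q) ^ ν) := by
  have ha : 0 < ra q ^ 2 := pow_pos (ra_pos q) 2
  refine ⟨fun n hn => ?_, ?_⟩
  · rw [cmp_coeff hf]
    split_ifs with h1
    · obtain ⟨m, rfl⟩ := h1
      rw [Nat.mul_div_cancel_left _ ha, h.1 m (Nat.lt_of_mul_lt_mul_left hn), zero_mul]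
    · rfl
  · rw [cmp_coeff hf, if_pos (dvd_mul_right _ _), Nat.mul_div_cancel_left _ ha, h.2]


lemma N_posR : (0 : ℝ) < (N : ℝ) := by exact_mod_cast (N_pos' (N := N))

/-- `E₄³` -/
noncomputable def E43 : ℍ → ℂ := fun τ => E₄ τ ^ 3

lemma delta_inv (γ : SL(2, ℤ)) : (ModularForm.discriminant) ∣[(12 : ℤ)] γ = ModularForm.discriminant :=
  CuspForm.discriminant.slash_action_eq' _ ⟨γ, rfl⟩

lemma E4_smul (γ : SL(2, ℤ)) (τ : ℍ) : E₄ (γ • τ) = E₄ τ * denom γ τ ^ (4 : ℤ) := by
  have h : ((E₄ : ℍ → ℂ) ∣[(4 : ℤ)] γ) = E₄ := E₄.slash_action_eq' _ ⟨γ, rfl⟩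
  rw [slash_SL_apply (f := (E₄ : ℍ → ℂ)) (k := 4), h]

lemma delta_smul (γ : SL(2, ℤ)) (τ : ℍ) : ModularForm.discriminant (γ • τ) = ModularForm.discriminant τ * denom γ τ ^ (12 : ℤ) := by
  rw [slash_SL_apply (f := ModularForm.discriminant) (k := 12), delta_inv]

lemma E43_smul (γ : SL(2, ℤ)) (τ : ℍ) : E43 (γ • τ) = E43 τ * denom γ τ ^ (12 : ℤ) := by
  unfold E43
  rw [E4_smul, mul_pow, ← zpow_natCast (denom _ _ ^ (4 : ℤ)), ← zpow_mul]
  norm_num

lemma E43_inv (γ : SL(2, ℤ)) : E43 ∣[(12 : ℤ)] γ = E43 := by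
  ext τ
  rw [SL_slash_apply, E43_smul, mul_assoc, ← zpow_add₀ (denom_ne_zero _ _)]
  simp

lemma jInv_smul (γ : SL(2, ℤ)) (τ : ℍ) : jInv (γ • τ) = jInv τ := by
  have h1 := E43_smul γ τ
  unfold E43 at h1
  unfold jInv
  rw [h1, delta_smul, mul_div_mul_right]
  exact zpow_ne_zero _ (denom_ne_zero _ _)

lemma E43_nice (A : Subring ℂ) : IsNice 1 A E43 := by
  have h := ((isNice_E4 A).mul one_pos (isNice_E4 A)).mul one_pos (isNice_E4 A)
  have : E43 = (E₄ : ℍ → ℂ) * E₄ * E₄ := by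
    ext τ; simp only [E43, Pi.mul_apply]; ring
  rw [this]; exact h

lemma leadAt_E43 : LeadAt (qExpansion 1 E43) 0 1 := by
  have h1 := (isNice_E4 AI)
  have h2 : E43 = (E₄ : ℍ → ℂ) * E₄ * E₄ := by
    ext τ; simp only [E43, Pi.mul_apply]; ring
  rw [h2, UpperHalfPlane.qExpansion_mul ((h1.mul one_pos h1).analyticAt one_pos) (h1.analyticAt one_pos),
    UpperHalfPlane.qExpansion_mul (h1.analyticAt one_pos) (h1.analyticAt one_pos)]
  have := (leadAt_E4.mul leadAt_E4).mul leadAt_E4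
  simpa using this

variable (N) in
/-- nice functions of width `N` -/
noncomputable abbrev RN : Subring (ℍ → ℂ) := niceSubring (N : ℝ) N_posR AI

variable (N) in
/-- evaluation -/
noncomputable def ev (τ : ℍ) : RN N →+* ℂ := (Pi.evalRingHom (fun _ : ℍ => ℂ) τ).comp (RN N).subtype

lemma ev_apply (τ : ℍ) (f : RN N) : ev N τ f = f.1 τ := rfl

/-- linear factor -/
noncomputable def facP (q : QN N) : Polynomial (RN N) :=
  Polynomial.C ⟨cmp ModularForm.discriminant q, cmp_nice (isNice_delta AI) q⟩ * Polynomial.X -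
    Polynomial.C ⟨cmp E43 q, cmp_nice (E43_nice AI) q⟩

variable (N) in
noncomputable def HP : Polynomial (RN N) := ∏ q : QN N, facP q

variable (N) in
/-- number of cosets -/
noncomputable def sg : ℕ := Fintype.card (QN N)

lemma facP_map (q : QN N) (τ : ℍ) : (facP q).map (ev N τ) =
    Polynomial.C (cmp ModularForm.discriminant q τ) * Polynomial.X - Polynomial.C (cmp E43 q τ) := by
  unfold facP
  rw [Polynomial.map_sub, Polynomial.map_mul, Polynomial.map_C, Polynomial.map_C, Polynomial.map_X]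
  rfl

lemma HP_map (τ : ℍ) : (HP N).map (ev N τ) =
    ∏ q : QN N, (Polynomial.C (cmp ModularForm.discriminant q τ) * Polynomial.X - Polynomial.C (cmp E43 q τ)) := by
  unfold HP
  rw [Polynomial.map_prod]
  exact Finset.prod_congr rfl fun q _ => facP_map q τ

/-- the slashed product -/
noncomputable def GP (τ : ℍ) : Polynomial ℂ :=
  ∏ q : QN N, (Polynomial.C (sl 12 ModularForm.discriminant delta_inv q τ) * Polynomial.X -
    Polynomial.C (sl 12 E43 E43_inv q τ))

lemma GP_eq (τ : ℍ) : GP (N := N) τ = Polynomial.C (∏ q : QN N, kap q) * (HP N).map (ev N τ) := by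
  unfold GP
  rw [HP_map, map_prod, ← Finset.prod_mul_distrib]
  refine Finset.prod_congr rfl fun q _ => ?_
  rw [sl_eq, sl_eq, map_mul, map_mul]
  ring

lemma GP_smul (γ : SL(2, ℤ)) (τ : ℍ) : GP (N := N) (γ • τ) =
    Polynomial.C ((denom γ τ ^ (12 : ℤ)) ^ (sg N)) * GP (N := N) τ := by
  unfold GP
  have h1 : ∏ q : QN N, (Polynomial.C (sl 12 ModularForm.discriminant delta_inv q τ) * Polynomial.X -
    Polynomial.C (sl 12 E43 E43_inv q τ)) = ∏ q : QN N, (Polynomial.C (sl 12 ModularForm.discriminant delta_inv (rQ γ q) τ) * Polynomial.X -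
    Polynomial.C (sl 12 E43 E43_inv (rQ γ q) τ)) :=
    (Function.Bijective.prod_comp (rQ_bijective γ) (fun q => (Polynomial.C (sl 12 ModularForm.discriminant delta_inv q τ) * Polynomial.X -
    Polynomial.C (sl 12 E43 E43_inv q τ)))).symm
  rw [h1]
  have h2 : Polynomial.C ((denom γ τ ^ (12 : ℤ)) ^ (sg N)) = ∏ q : QN N, Polynomial.C (denom γ τ ^ (12 : ℤ)) := by
    rw [Finset.prod_const, Finset.card_univ, map_pow]; rfl
  rw [h2, ← Finset.prod_mul_distrib]
  refine Finset.prod_congr rfl fun q _ => ?_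
  rw [sl_smul, sl_smul, map_mul, map_mul]
  ring

lemma HP_smul (γ : SL(2, ℤ)) (τ : ℍ) : (HP N).map (ev N (γ • τ)) =
    Polynomial.C (denom γ τ ^ ((12 : ℤ) * sg N)) * (HP N).map (ev N τ) := by
  have h1 := GP_smul (N := N) γ τ
  rw [GP_eq, GP_eq] at h1
  have hk : (∏ q : QN N, kap q) ≠ 0 := Finset.prod_ne_zero_iff.mpr fun q _ => kap_ne_zero q
  have hk' : Polynomial.C (∏ q : QN N, kap q) ≠ 0 := by rwa [Ne, Polynomial.C_eq_zero]
  rw [zpow_mul, zpow_natCast]
  apply mul_left_cancel₀ hk'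
  rw [h1]; ring

lemma HP_coeff_inv (k : ℕ) (γ : SL(2, ℤ)) : ((HP N).coeff k : ℍ → ℂ) ∣[(12 : ℤ) * sg N] γ = ((HP N).coeff k : ℍ → ℂ) := by
  ext τ
  rw [SL_slash_apply]
  have h1 := congrArg (fun p => Polynomial.coeff p k) (HP_smul (N := N) γ τ)
  simp only [Polynomial.coeff_map, Polynomial.coeff_C_mul, ev_apply] at h1
  rw [h1, mul_comm, ← mul_assoc, ← zpow_add₀ (denom_ne_zero _ _)]
  simp

/-- coefficients of `HP` as level one forms -/
noncomputable def HF (k : ℕ) : ModularForm 𝒮ℒ ((12 : ℤ) * sg N) :=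
  mkForm (A := AI) (h := (N : ℝ)) _ ((HP N).coeff k : ℍ → ℂ) ((HP N).coeff k).2 (HP_coeff_inv k)

lemma HF_apply (k : ℕ) (τ : ℍ) : HF (N := N) k τ = ((HP N).map (ev N τ)).coeff k := by
  rw [Polynomial.coeff_map]; rfl

lemma HF_coeffs (k : ℕ) : CoeffsIn AI (qExpansion 1 (HF (N := N) k)) :=
  coeffsIn_of_width (isNice_modularForm (HF (N := N) k) (A := ⊤) (fun _ => Subring.mem_top _)) N N_pos'
    ((HP N).coeff k).2

lemma exists_pk (k : ℕ) : ∃ p : Polynomial ℂ, (∀ i, p.coeff i ∈ AI) ∧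
    ∀ τ, HF (N := N) k τ = ModularForm.discriminant τ ^ (sg N) * p.eval (jInv τ) := by
  obtain ⟨p, h1, _, h3, _⟩ := struct AI (sg N) _ rfl (HF (N := N) k) (HF_coeffs k)
  exact ⟨p, h1, h3⟩


/-- the limit at infinity of a level one form -/
lemma tendsto_coeff_zero {k : ℤ} (F : ModularForm 𝒮ℒ k) :
    Filter.Tendsto F atImInfty (nhds ((qExpansion 1 F).coeff 0)) := by
  have hanal := ModularFormClass.analyticAt_cuspFunction_zero F one_pos one_mem_strictPeriods_SL
  have hper := SlashInvariantFormClass.periodic_comp_ofComplex F one_mem_strictPeriods_SL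
  rw [UpperHalfPlane.qExpansion_coeff_zero one_pos hanal hper,
    ← UpperHalfPlane.cuspFunction_apply_zero one_pos hanal hper]
  exact (hanal.continuousAt.tendsto.comp (qParam_tendsto_atImInfty one_pos)).congr
    (fun τ ↦ SlashInvariantFormClass.eq_cuspFunction F τ one_mem_strictPeriods_SL one_ne_zero)

open scoped Manifold in
lemma inv_mdiff {k : ℤ} (F : ModularForm 𝒮ℒ k) (h : ∀ τ, F τ ≠ 0) :
    MDifferentiable 𝓘(ℂ) 𝓘(ℂ) (fun τ => (F τ)⁻¹) := by
  have h1 := (mdifferentiable_const (c := (1 : ℂ))).div F.holo' h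
  have h2 : (fun τ => (F τ)⁻¹) = (fun _ : ℍ => (1 : ℂ)) / (F : ℍ → ℂ) := by ext; simp
  rw [h2]
  exact h1

/-- inverse of a nowhere vanishing form which does not vanish at infinity -/
noncomputable def invForm {k : ℤ} (F : ModularForm 𝒮ℒ k) (h : ∀ τ, F τ ≠ 0)
    (h0 : (qExpansion 1 F).coeff 0 ≠ 0) : ModularForm 𝒮ℒ (-k) where
  toFun := fun τ => (F τ)⁻¹
  slash_action_eq' := by
    rintro _ ⟨γ, rfl⟩
    show ((fun τ => (F τ)⁻¹) ∣[-k] γ) = _
    ext τ
    have h1 : (F : ℍ → ℂ) ∣[k] γ = F := F.slash_action_eq' _ ⟨γ, rfl⟩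
    rw [SL_slash_apply, slash_SL_apply (f := (F : ℍ → ℂ)) (k := k), h1, mul_inv, neg_neg, mul_assoc,
      inv_mul_cancel₀ (zpow_ne_zero _ (denom_ne_zero _ _)), mul_one]
  holo' := by
    exact inv_mdiff F h
  bdd_at_cusps' {c} hc := by
    rw [Subgroup.IsArithmetic.isCusp_iff_isCusp_SL2Z] at hc
    rw [OnePoint.isBoundedAt_iff_forall_SL2Z hc]
    intro γ _
    have h2 : ((fun τ => (F τ)⁻¹) ∣[-k] γ) = fun τ => (F τ)⁻¹ := by
      ext τ
      have h1 : (F : ℍ → ℂ) ∣[k] γ = F := F.slash_action_eq' _ ⟨γ, rfl⟩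
      rw [SL_slash_apply, slash_SL_apply (f := (F : ℍ → ℂ)) (k := k), h1, mul_inv, neg_neg, mul_assoc,
        inv_mul_cancel₀ (zpow_ne_zero _ (denom_ne_zero _ _)), mul_one]
    rw [h2]
    exact ((tendsto_coeff_zero F).inv₀ h0).isBigO_one ℝ

/-- a nowhere vanishing level one form of weight `12M` is a multiple of `Δ^M`. -/
theorem nonvanishing (M : ℕ) : ∀ (k : ℤ) (_ : k = 12 * M) (F : ModularForm 𝒮ℒ k) (_ : ∀ τ, F τ ≠ 0),
    ∃ c : ℂ, c ≠ 0 ∧ ∀ τ, F τ = c * ModularForm.discriminant τ ^ M := by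
  induction M with
  | zero =>
    intro k hk F h
    have hk0 : k = 0 := by simpa using hk
    subst hk0
    obtain ⟨c, hc⟩ := levelOne_weight_zero_const F
    refine ⟨c, ?_, ?_⟩
    · intro h0
      have := h UpperHalfPlane.I
      rw [hc, h0] at this
      exact this rfl
    · intro τ; simp [hc]
  | succ M ih =>
    intro k hk F h
    by_cases h0 : (qExpansion 1 F).coeff 0 = 0
    · set F' := CuspForm.discriminantEquiv (toCuspForm F h0) with hF'
      have h1 : ∀ τ, ModularForm.discriminant τ * F' τ = F τ := by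
        intro τ
        have := discriminant_mul_discriminantEquiv_apply (toCuspForm F h0) τ
        rwa [← hF', toCuspForm_apply] at this
      obtain ⟨c, hc, h2⟩ := ih (k - 12) (by rw [hk]; push_cast; ring) F' (fun τ hτ => h τ (by rw [← h1, hτ, mul_zero]))
      exact ⟨c, hc, fun τ => by rw [← h1, h2, pow_succ]; ring⟩
    · exfalso
      have h1 := levelOne_neg_weight_eq_zero (k := -k) (by rw [hk]; push_cast; linarith [Nat.cast_nonneg (α := ℤ) M]) (invForm F h h0)
      have h2 := congrFun h1 UpperHalfPlane.I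
      exact inv_ne_zero (h UpperHalfPlane.I) h2


variable (N) in
/-- the product of the `Δ ∘ B_q`. -/
noncomputable def DP : RN N := ∏ q : QN N, ⟨cmp ModularForm.discriminant q, cmp_nice (isNice_delta AI) q⟩

lemma DP_apply (τ : ℍ) : (DP N).1 τ = ∏ q : QN N, cmp ModularForm.discriminant q τ := by
  have h : ev N τ (DP N) = ∏ q : QN N, cmp ModularForm.discriminant q τ := by
    unfold DP
    rw [map_prod]
    rfl
  exact h

lemma HP_coeff_top (τ : ℍ) : ((HP N).map (ev N τ)).coeff (sg N) = (DP N).1 τ := by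
  rw [HP_map, DP_apply]
  have h1 : ∀ q ∈ (Finset.univ : Finset (QN N)), (Polynomial.C (cmp ModularForm.discriminant q τ) * Polynomial.X - Polynomial.C (cmp E43 q τ)).natDegree ≤ 1 := by
    intro q _
    refine (Polynomial.natDegree_sub_le _ _).trans (max_le ?_ (by simp))
    exact (Polynomial.natDegree_C_mul_le _ _).trans (by simp)
  have h2 := Polynomial.coeff_prod_of_natDegree_le (Finset.univ : Finset (QN N)) (fun q => (Polynomial.C (cmp ModularForm.discriminant q τ) * Polynomial.X - Polynomial.C (cmp E43 q τ))) 1 h1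
  rw [Finset.card_univ, mul_one] at h2
  unfold sg
  rw [h2]
  refine Finset.prod_congr rfl fun q _ => ?_
  simp

lemma DP_ne_zero (τ : ℍ) : (DP N).1 τ ≠ 0 := by
  rw [DP_apply]
  exact Finset.prod_ne_zero_iff.mpr fun q _ => discriminant_ne_zero _

lemma leadUnit_prod {ι : Type*} (s : Finset ι) (f : ι → RN N)
    (h : ∀ i ∈ s, LeadUnit AI (qExpansion (N : ℝ) (f i).1)) :
    LeadUnit AI (qExpansion (N : ℝ) (∏ i ∈ s, f i : RN N).1) := by
  classical
  induction s using Finset.induction_on with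
  | empty =>
    rw [Finset.prod_empty]
    show LeadUnit AI (qExpansion (N : ℝ) (1 : ℍ → ℂ))
    rw [UpperHalfPlane.qExpansion_one]
    exact LeadUnit.one _
  | insert i s hi ih =>
    rw [Finset.prod_insert hi]
    show LeadUnit AI (qExpansion (N : ℝ) ((f i).1 * (∏ i ∈ s, f i : RN N).1))
    rw [UpperHalfPlane.qExpansion_mul ((f i).2.analyticAt N_posR) ((∏ i ∈ s, f i : RN N).2.analyticAt N_posR)]
    exact (h i (Finset.mem_insert_self _ _)).mul (ih fun j hj => h j (Finset.mem_insert_of_mem hj))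

lemma exp_unit (b : ℤ) (d : ℕ) : Complex.exp (2 * Real.pi * Complex.I * b / d) *
    Complex.exp (2 * Real.pi * Complex.I * ((-b : ℤ) : ℂ) / d) = 1 := by
  rw [← Complex.exp_add]
  push_cast
  rw [show 2 * (Real.pi : ℂ) * Complex.I * b / d + 2 * Real.pi * Complex.I * -b / d = 0 by ring]
  exact Complex.exp_zero

lemma cmp_delta_leadUnit (q : QN N) : LeadUnit AI (qExpansion (N : ℝ) (cmp ModularForm.discriminant q)) := by
  have h := LeadAt.cmp (isNice_delta AI) q leadAt_delta
  rw [one_mul, pow_one] at h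
  exact h.leadUnit (exp_mem_AI _ _ (rd_pos q)) (exp_mem_AI _ _ (rd_pos q)) (exp_unit _ _)

lemma DP_leadUnit : LeadUnit AI (qExpansion (N : ℝ) (DP N).1) :=
  leadUnit_prod _ _ fun q _ => cmp_delta_leadUnit q

lemma LeadAt.pow' {P : PowerSeries ℂ} {ν : ℕ} (hP : LeadAt P ν 1) (n : ℕ) :
    LeadAt (P ^ n) (n * ν) 1 := by
  induction n with
  | zero => exact ⟨by simp, by simp⟩
  | succ n ih =>
    rw [pow_succ]
    have := ih.mul hP
    rw [one_mul] at this
    rwa [Nat.succ_mul]

/-- leading coefficient of `c Δ^M` -/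
lemma leadAt_smul_pow (c : ℂ) (M : ℕ) (f : ℍ → ℂ) (hf : ∀ τ, f τ = c * ModularForm.discriminant τ ^ M) :
    LeadAt (qExpansion 1 f) M c := by
  have hN := isNice_delta AI
  have h1 : f = c • (ModularForm.discriminant ^ M : ℍ → ℂ) := by
    ext τ; rw [hf]; simp
  have h2 : ∀ n : ℕ, IsNice 1 AI (ModularForm.discriminant ^ n : ℍ → ℂ) ∧
      qExpansion 1 (ModularForm.discriminant ^ n : ℍ → ℂ) = (qExpansion 1 ModularForm.discriminant) ^ n := by
    intro n
    induction n with
    | zero =>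
      rw [pow_zero, pow_zero]
      exact ⟨IsNice.one, UpperHalfPlane.qExpansion_one 1⟩
    | succ n ih =>
      rw [pow_succ, pow_succ]
      exact ⟨ih.1.mul one_pos hN, by rw [UpperHalfPlane.qExpansion_mul (ih.1.analyticAt one_pos) (hN.analyticAt one_pos), ih.2]⟩
  rw [h1, UpperHalfPlane.qExpansion_smul ((h2 M).1.analyticAt one_pos), (h2 M).2]
  have h3 := leadAt_delta.pow' M
  rw [mul_one] at h3
  refine ⟨fun n hn => ?_, ?_⟩
  · rw [PowerSeries.coeff_smul, h3.1 n hn, smul_zero]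
  · rw [PowerSeries.coeff_smul, h3.2, smul_eq_mul, mul_one]

variable (N) in
/-- `∏ Δ ∘ B_q = c Δ^σ` with `c` a unit of the ring of algebraic integers. -/
lemma exists_unit : ∃ c v : ℂ, c ∈ AI ∧ v ∈ AI ∧ c * v = 1 ∧ ∀ τ, (DP N).1 τ = c * ModularForm.discriminant τ ^ (sg N) := by
  have hval : ∀ τ, HF (N := N) (sg N) τ = (DP N).1 τ := fun τ => by rw [HF_apply, HP_coeff_top]
  obtain ⟨c, hc, h⟩ := nonvanishing (sg N) _ rfl (HF (N := N) (sg N)) (fun τ => by rw [hval]; exact DP_ne_zero τ)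
  have hlead : LeadAt (qExpansion 1 (HF (N := N) (sg N))) (sg N) c := leadAt_smul_pow c (sg N) _ h
  have hU : LeadUnit AI (qExpansion 1 (HF (N := N) (sg N))) := by
    refine leadUnit_of_width (isNice_modularForm (HF (N := N) (sg N)) (A := ⊤) (fun _ => Subring.mem_top _)) N N_pos' ?_
    have : (HF (N := N) (sg N) : ℍ → ℂ) = (DP N).1 := funext hval
    rw [this]
    exact DP_leadUnit
  obtain ⟨ν, h1, h2, v, hv, h3⟩ := hU
  have hν : ν = sg N := by
    rcases lt_trichotomy ν (sg N) with h4 | h4 | h4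
    · rw [hlead.1 ν h4, zero_mul] at h3
      exact absurd h3 zero_ne_one
    · exact h4
    · have := h1 _ h4
      rw [hlead.2] at this
      exact absurd this hc
  rw [hν, hlead.2] at h2 h3
  exact ⟨c, v, h2, hv, h3, fun τ => by rw [← hval, h]⟩

/-- the modular polynomial: `j(B τ)` is integral over `R` as soon as `j(τ) ∈ R`. -/
theorem jInv_monic (B : MN N) (τ : ℍ) (R : Subring ℂ) (hR : AI ≤ R) (hj : jInv τ ∈ R) :
    ∃ P : Polynomial ℂ, P.Monic ∧ (∀ i, P.coeff i ∈ R) ∧ P.eval (jInv (toGL B • τ)) = 0 := by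
  obtain ⟨c, v, hc, hv, hcv, hD⟩ := exists_unit N
  have hprod : (HP N).map (ev N τ) = Polynomial.C ((DP N).1 τ) * ∏ q : QN N, (Polynomial.X - Polynomial.C (jInv (toGL (rep q) • τ))) := by
    rw [HP_map, DP_apply, map_prod, ← Finset.prod_mul_distrib]
    refine Finset.prod_congr rfl fun q _ => ?_
    rw [mul_sub, ← map_mul]
    congr 2
    unfold cmp E43
    exact (delta_pow_mul _).symm
  refine ⟨∏ q : QN N, (Polynomial.X - Polynomial.C (jInv (toGL (rep q) • τ))),
    Polynomial.monic_prod_of_monic _ _ fun q _ => Polynomial.monic_X_sub_C _, ?_, ?_⟩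
  · intro i
    obtain ⟨p, hp, hpe⟩ := exists_pk (N := N) i
    have h1 := hpe τ
    rw [HF_apply, hprod, Polynomial.coeff_C_mul, hD] at h1
    have hΔ : ModularForm.discriminant τ ^ (sg N) ≠ 0 := pow_ne_zero _ (discriminant_ne_zero τ)
    have h2 : c * (∏ q : QN N, (Polynomial.X - Polynomial.C (jInv (toGL (rep q) • τ)))).coeff i = p.eval (jInv τ) := by
      apply mul_left_cancel₀ hΔ
      rw [← h1]; ring
    have h3 : (∏ q : QN N, (Polynomial.X - Polynomial.C (jInv (toGL (rep q) • τ)))).coeff i = v * p.eval (jInv τ) := by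
      rw [← h2, ← mul_assoc, mul_comm v c, hcv, one_mul]
    rw [h3]
    refine R.mul_mem (hR hv) ?_
    rw [Polynomial.eval_eq_sum_range]
    exact R.sum_mem fun j _ => R.mul_mem (hR (hp j)) (R.pow_mem hj _)
  · rw [Polynomial.eval_prod]
    obtain ⟨γ, hγ⟩ : ∃ γ : SL(2, ℤ), γ • rep (Quotient.mk'' B : QN N) = B := by
      have h1 := rep_mk (Quotient.mk'' B : QN N)
      have h2 := Quotient.exact h1.symm
      change B ∈ MulAction.orbit _ (rep (Quotient.mk'' B : QN N)) at h2
      obtain ⟨γ, hγ⟩ := h2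
      exact ⟨γ, hγ⟩
    refine Finset.prod_eq_zero (Finset.mem_univ (Quotient.mk'' B : QN N)) ?_
    have h3 : jInv (toGL B • τ) = jInv (toGL (rep (Quotient.mk'' B : QN N)) • τ) := by
      conv_lhs => rw [← hγ]
      rw [toGL_smul, mul_smul]
      exact jInv_smul γ _
    rw [h3]
    simp


lemma IsNice.width {A : Subring ℂ} {f : ℍ → ℂ} (hf : IsNice 1 A f) {M : ℕ} (hM : 0 < M) :
    IsNice (M : ℝ) A f := by
  refine ⟨?_, hf.holo, hf.bdd, ?_⟩
  · have h := hf.per.nsmul M
    simpa using h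
  · intro n
    rw [coeff_width hf M hM]
    split_ifs
    · exact hf.coeffs _
    · exact A.zero_mem

/-- the factor `E₄³ · (Δ∘B) - Δ · (E₄³∘B)` -/
noncomputable def facK (q : QN N) : RN N :=
  ⟨E43, (E43_nice AI).width N_pos'⟩ * ⟨cmp ModularForm.discriminant q, cmp_nice (isNice_delta AI) q⟩ -
  ⟨ModularForm.discriminant, (isNice_delta AI).width N_pos'⟩ * ⟨cmp E43 q, cmp_nice (E43_nice AI) q⟩

lemma facK_apply (q : QN N) (τ : ℍ) : (facK q).1 τ = E43 τ * cmp ModularForm.discriminant q τ -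
    ModularForm.discriminant τ * cmp E43 q τ := rfl

variable (N) in
noncomputable def KP : RN N := ∏ q : QN N, facK q

lemma KP_apply (τ : ℍ) : (KP N).1 τ = ∏ q : QN N, (E43 τ * cmp ModularForm.discriminant q τ -
    ModularForm.discriminant τ * cmp E43 q τ) := by
  have h : ev N τ (KP N) = ∏ q : QN N, (E43 τ * cmp ModularForm.discriminant q τ -
    ModularForm.discriminant τ * cmp E43 q τ) := by
    unfold KP
    rw [map_prod]
    rfl
  exact h

lemma KP_smul (γ : SL(2, ℤ)) (τ : ℍ) : (KP N).1 (γ • τ) = denom γ τ ^ ((24 : ℤ) * sg N) * (KP N).1 τ := by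
  have hk : (∏ q : QN N, kap q) ≠ 0 := Finset.prod_ne_zero_iff.mpr fun q _ => kap_ne_zero q
  have h1 : ∀ τ : ℍ, (∏ q : QN N, kap q) * (KP N).1 τ = ∏ q : QN N, (E43 τ * sl 12 ModularForm.discriminant delta_inv q τ -
      ModularForm.discriminant τ * sl 12 E43 E43_inv q τ) := by
    intro τ
    rw [KP_apply, ← Finset.prod_mul_distrib]
    refine Finset.prod_congr rfl fun q _ => ?_
    rw [sl_eq, sl_eq]
    ring
  apply mul_left_cancel₀ hk
  rw [h1, mul_left_comm, h1]
  have h2 : ∏ q : QN N, (E43 τ * sl 12 ModularForm.discriminant delta_inv q τ -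
      ModularForm.discriminant τ * sl 12 E43 E43_inv q τ) = ∏ q : QN N, (E43 τ * sl 12 ModularForm.discriminant delta_inv (rQ γ q) τ -
      ModularForm.discriminant τ * sl 12 E43 E43_inv (rQ γ q) τ) :=
    (Function.Bijective.prod_comp (rQ_bijective γ) (fun q => (E43 τ * sl 12 ModularForm.discriminant delta_inv q τ -
      ModularForm.discriminant τ * sl 12 E43 E43_inv q τ))).symm
  rw [h2]
  have h3 : denom γ τ ^ ((24 : ℤ) * sg N) = ∏ q : QN N, (denom γ τ ^ (12 : ℤ) * denom γ τ ^ (12 : ℤ)) := by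
    rw [Finset.prod_const, Finset.card_univ, zpow_mul, zpow_natCast, ← zpow_add₀ (denom_ne_zero _ _)]
    rfl
  rw [h3, ← Finset.prod_mul_distrib]
  refine Finset.prod_congr rfl fun q _ => ?_
  rw [sl_smul, sl_smul, E43_smul, delta_smul]
  ring

lemma KP_inv (γ : SL(2, ℤ)) : (KP N).1 ∣[(24 : ℤ) * sg N] γ = (KP N).1 := by
  ext τ
  rw [SL_slash_apply, KP_smul, mul_comm, ← mul_assoc, ← zpow_add₀ (denom_ne_zero _ _)]
  simp

/-- `K` as a level one form -/
noncomputable def KF : ModularForm 𝒮ℒ ((24 : ℤ) * sg N) :=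
  mkForm (A := AI) (h := (N : ℝ)) _ (KP N).1 (KP N).2 KP_inv

lemma facK_leadUnit (hsq : ¬ IsSquare N) (q : QN N) : LeadUnit AI (qExpansion (N : ℝ) (facK q).1) := by
  have hE := (E43_nice AI).width (N_pos' (N := N))
  have hD := (isNice_delta AI).width (N_pos' (N := N))
  have hcD := cmp_nice (isNice_delta AI) q
  have hcE := cmp_nice (E43_nice AI) q
  have h1 : (facK q).1 = E43 * cmp ModularForm.discriminant q - ModularForm.discriminant * cmp E43 q := rfl
  have h2 : qExpansion (N : ℝ) (facK q).1 = qExpansion (N : ℝ) E43 * qExpansion (N : ℝ) (cmp ModularForm.discriminant q)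
      - qExpansion (N : ℝ) ModularForm.discriminant * qExpansion (N : ℝ) (cmp E43 q) := by
    rw [h1, UpperHalfPlane.qExpansion_sub ((hE.mul N_posR hcD).analyticAt N_posR) ((hD.mul N_posR hcE).analyticAt N_posR),
      UpperHalfPlane.qExpansion_mul (hE.analyticAt N_posR) (hcD.analyticAt N_posR),
      UpperHalfPlane.qExpansion_mul (hD.analyticAt N_posR) (hcE.analyticAt N_posR)]
  have l1 := (leadAt_E43.width (E43_nice AI) (N_pos' (N := N))).mul (LeadAt.cmp (isNice_delta AI) q leadAt_delta)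
  have l2 := (leadAt_delta.width (isNice_delta AI) (N_pos' (N := N))).mul (LeadAt.cmp (E43_nice AI) q leadAt_E43)
  simp only [mul_zero, zero_add, mul_one, one_mul, pow_one, pow_zero, add_zero] at l1 l2
  rw [h2]
  rcases lt_trichotomy (ra q ^ 2) N with h | h | h
  · exact (l1.sub_left l2 h).leadUnit (exp_mem_AI _ _ (rd_pos q)) (exp_mem_AI _ _ (rd_pos q)) (exp_unit _ _)
  · exact absurd ⟨ra q, h.symm.trans (sq _)⟩ hsq
  · exact (l1.sub_right l2 h).leadUnit (AI.neg_mem AI.one_mem) (AI.neg_mem AI.one_mem) (by norm_num)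

lemma KP_leadUnit (hsq : ¬ IsSquare N) : LeadUnit AI (qExpansion (N : ℝ) (KP N).1) :=
  leadUnit_prod _ _ fun q _ => facK_leadUnit hsq q

/-- a fixed point of an integral matrix of non-square determinant has integral `j`. -/
theorem jInv_integral_of_fixed (hsq : ¬ IsSquare N) (B : MN N) (τ : ℍ) (hB : jInv (toGL B • τ) = jInv τ) :
    IsIntegral ℤ (jInv τ) := by
  have hA : CoeffsIn AI (qExpansion 1 (KF (N := N))) :=
    coeffsIn_of_width (isNice_modularForm (KF (N := N)) (A := ⊤) (fun _ => Subring.mem_top _)) N N_pos' (KP N).2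
  obtain ⟨p, hp, hpdeg, hpe, hpν⟩ := struct AI (2 * sg N) ((24 : ℤ) * sg N) (by push_cast; ring) (KF (N := N)) hA
  have hU : LeadUnit AI (qExpansion 1 (KF (N := N))) :=
    leadUnit_of_width (isNice_modularForm (KF (N := N)) (A := ⊤) (fun _ => Subring.mem_top _)) N N_pos' (KP_leadUnit hsq)
  obtain ⟨ν, h1, h2, v, hv, h3⟩ := hU
  have hνM : ν ≤ 2 * sg N := by
    by_contra hlt
    push Not at hlt
    obtain ⟨hd, hc⟩ := hpν (2 * sg N) le_rfl (fun n hn => h1 n (by omega))
    rw [h1 _ hlt, Nat.sub_self] at hc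
    have hp0 : p = 0 := by
      rw [Nat.sub_self] at hd
      rw [Polynomial.eq_C_of_natDegree_le_zero hd, hc, Polynomial.C_0]
    have hz : (KF (N := N) : ℍ → ℂ) = 0 := by
      ext τ; rw [hpe, hp0]; simp
    rw [hz, UpperHalfPlane.qExpansion_zero] at h3
    simp at h3
  obtain ⟨hd, hc⟩ := hpν ν hνM h1
  -- evaluate
  have hval : p.eval (jInv τ) = 0 := by
    have h4 : KF (N := N) τ = 0 := by
      show (KP N).1 τ = 0
      rw [KP_apply]
      obtain ⟨γ, hγ⟩ : ∃ γ : SL(2, ℤ), γ • rep (Quotient.mk'' B : QN N) = B := by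
        have h1 := rep_mk (Quotient.mk'' B : QN N)
        have h2 := Quotient.exact h1.symm
        change B ∈ MulAction.orbit _ (rep (Quotient.mk'' B : QN N)) at h2
        obtain ⟨γ, hγ⟩ := h2
        exact ⟨γ, hγ⟩
      refine Finset.prod_eq_zero (Finset.mem_univ (Quotient.mk'' B : QN N)) ?_
      have h5 : jInv (toGL (rep (Quotient.mk'' B : QN N)) • τ) = jInv τ := by
        rw [← hB]
        conv_rhs => rw [← hγ]
        rw [toGL_smul, mul_smul]
        exact (jInv_smul γ _).symm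
      unfold cmp E43
      have h6 := delta_pow_mul τ
      have h7 := delta_pow_mul (toGL (rep (Quotient.mk'' B : QN N)) • τ)
      rw [h5] at h7
      rw [← h6, ← h7]
      ring
    rw [hpe] at h4
    exact (mul_eq_zero.mp h4).resolve_left (pow_ne_zero _ (discriminant_ne_zero τ))
  -- monic
  have hmon : (Polynomial.C v * p).Monic := by
    have hlc : (Polynomial.C v * p).coeff (2 * sg N - ν) = 1 := by
      rw [Polynomial.coeff_C_mul, hc, mul_comm]; exact h3
    exact Polynomial.monic_of_natDegree_le_of_coeff_eq_one _ ((Polynomial.natDegree_C_mul_le _ _).trans hd) hlc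
  have hcoef : ∀ i, (Polynomial.C v * p).coeff i ∈ AI := fun i => by
    rw [Polynomial.coeff_C_mul]; exact AI.mul_mem hv (hp i)
  have hint : IsIntegral (integralClosure ℤ ℂ) (jInv τ) := by
    have hl : (Polynomial.C v * p) ∈ Polynomial.lifts (algebraMap (integralClosure ℤ ℂ) ℂ) := by
      rw [Polynomial.lifts_iff_coeff_lifts]
      intro i
      exact ⟨⟨_, hcoef i⟩, rfl⟩
    obtain ⟨Q, hQ1, _, hQ3⟩ := Polynomial.lifts_and_natDegree_eq_and_monic hl hmon
    refine ⟨Q, hQ3, ?_⟩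
    rw [← Polynomial.eval_map, hQ1, Polynomial.eval_mul, hval, mul_zero]
  exact isIntegral_trans _ hint

end cosets

end Pool.Agent.Lib.ModularZP
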