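import Mathlib
import Pool.Agent.Lib.ModularZP.Defs
import Pool.Agent.Lib.ModularZP.JIntegral

/-!
Integrality patterns: for a valuation ring `V` of `ℂ`, membership of the coordinates of a point of a
special subvariety in `V` is constant along blocks, and the CM coordinates are in `V`.
-/

open UpperHalfPlane hiding I
open ModularForm MatrixGroups

namespace Pool.Agent.Lib.ModularZP

lemma AI_le (V : ValuationSubring ℂ) : AI ≤ V.toSubring := by
  intro x hx
  rw [mem_AI] at hx
  have h1 : IsIntegral V x := hx.tower_top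
  obtain ⟨y, hy⟩ := IsIntegrallyClosed.algebraMap_eq_of_integral h1
  rw [← hy]
  exact y.2

lemma mem_of_isIntegral (V : ValuationSubring ℂ) {x : ℂ} (hx : IsIntegral ℤ x) : x ∈ V := AI_le V hx

lemma mem_of_monic (V : ValuationSubring ℂ) (P : Polynomial ℂ) (hP : P.Monic) (hc : ∀ i, P.coeff i ∈ V)
    {x : ℂ} (hx : P.eval x = 0) : x ∈ V := by
  have hl : P ∈ Polynomial.lifts (algebraMap V ℂ) := by
    rw [Polynomial.lifts_iff_coeff_lifts]
    intro i
    exact ⟨⟨_, hc i⟩, rfl⟩
  obtain ⟨Q, hQ1, _, hQ3⟩ := Polynomial.lifts_and_natDegree_eq_and_monic hl hP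
  have hint : IsIntegral V x := by
    refine ⟨Q, hQ3, ?_⟩
    rw [← Polynomial.eval_map, hQ1, hx]
  obtain ⟨y, hy⟩ := IsIntegrallyClosed.algebraMap_eq_of_integral hint
  rw [← hy]
  exact y.2

lemma jInv_mem_toGL {N : ℕ} [NeZero N] (V : ValuationSubring ℂ) (B : MN N) (τ : ℍ) (h : jInv τ ∈ V) :
    jInv (toGL B • τ) ∈ V := by
  obtain ⟨P, h1, h2, h3⟩ := jInv_monic B τ V.toSubring (AI_le V) h
  exact mem_of_monic V P h1 h2 h3

/-- an integral matrix of determinant `N` -/
def mkMN {N : ℕ} (B : Matrix (Fin 2) (Fin 2) ℤ) (h : B.det = N) : MN N := ⟨B, h⟩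

lemma mkMN_val {N : ℕ} (B : Matrix (Fin 2) (Fin 2) ℤ) (h : B.det = N) : (mkMN B h).1 = B := rfl

/-- clearing denominators -/
lemma exists_toGL (g : GL (Fin 2) ℚ) (hg : 0 < g.det.val) : ∃ (N : ℕ) (_ : NeZero N) (B : MN N),
    ∀ τ : ℍ, toGL B • τ = (g.map (algebraMap ℚ ℝ)) • τ := by
  -- common denominator
  obtain ⟨s, hs, hB⟩ : ∃ s : ℕ, 0 < s ∧ ∀ i j, ∃ z : ℤ, (z : ℚ) = s * g i j := by
    refine ⟨(g 0 0).den * (g 0 1).den * (g 1 0).den * (g 1 1).den, ?_, ?_⟩
    · have h1 := (g 0 0).den_pos; have h2 := (g 0 1).den_pos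
      have h3 := (g 1 0).den_pos; have h4 := (g 1 1).den_pos
      positivity
    · have key : ∀ (q : ℚ) (k : ℕ), q.den ∣ k → ∃ z : ℤ, (z : ℚ) = k * q := by
        rintro q _ ⟨k, rfl⟩
        refine ⟨q.num * k, ?_⟩
        have h := Rat.mul_den_eq_num q
        push_cast
        rw [← h]; ring
      intro i j
      apply key
      fin_cases i <;> fin_cases j
      · exact ⟨(g 0 1).den * (g 1 0).den * (g 1 1).den, by simp; ring⟩
      · exact ⟨(g 0 0).den * (g 1 0).den * (g 1 1).den, by simp; ring⟩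
      · exact ⟨(g 0 0).den * (g 0 1).den * (g 1 1).den, by simp; ring⟩
      · exact ⟨(g 0 0).den * (g 0 1).den * (g 1 0).den, by simp; ring⟩
  choose z hz using hB
  have hdet : ((Matrix.of z).det : ℚ) = s ^ 2 * g.det.val := by
    rw [Matrix.GeneralLinearGroup.val_det_apply, Matrix.det_fin_two, Matrix.det_fin_two]
    push_cast
    simp only [Matrix.of_apply]
    rw [hz, hz, hz, hz]
    ring
  have hdetpos : 0 < (Matrix.of z).det := by
    have : (0 : ℚ) < ((Matrix.of z).det : ℚ) := by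
      rw [hdet]; positivity
    exact_mod_cast this
  obtain ⟨N, hN⟩ := Int.eq_ofNat_of_zero_le hdetpos.le
  have hN0 : N ≠ 0 := by
    rintro rfl
    rw [hN] at hdetpos
    exact lt_irrefl _ hdetpos
  have : NeZero N := ⟨hN0⟩
  refine ⟨N, ⟨hN0⟩, mkMN (Matrix.of z) hN, ?_⟩
  intro τ
  have hgdet : 0 < (g.map (algebraMap ℚ ℝ)).det.val := by
    rw [Matrix.GeneralLinearGroup.val_det_apply]
    have h1 : ((g.map (algebraMap ℚ ℝ)).val).det = algebraMap ℚ ℝ g.det.val := by
      rw [Matrix.GeneralLinearGroup.val_det_apply]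
      exact (RingHom.map_det (algebraMap ℚ ℝ) g.val).symm
    rw [h1]
    simpa using hg
  have hs0 : (s : ℂ) ≠ 0 := by exact_mod_cast hs.ne'
  have hzc : ∀ i j, ((z i j : ℤ) : ℂ) = s * ((g i j : ℚ) : ℂ) := by
    intro i j
    have := congrArg (fun q : ℚ => (q : ℂ)) (hz i j)
    push_cast at this
    exact this
  apply UpperHalfPlane.ext_iff.mpr
  rw [UpperHalfPlane.coe_smul_of_det_pos (toGL_det_pos _), UpperHalfPlane.coe_smul_of_det_pos hgdet]
  have hnum : num (toGL (mkMN (Matrix.of z) hN)) τ = s * num (g.map (algebraMap ℚ ℝ)) τ := by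
    unfold num
    rw [toGL_val, mkMN_val]
    simp only [Matrix.map_apply, Matrix.of_apply, Matrix.GeneralLinearGroup.map_apply]
    push_cast
    rw [hzc, hzc]
    simp
    ring
  have hden : denom (toGL (mkMN (Matrix.of z) hN)) τ = s * denom (g.map (algebraMap ℚ ℝ)) τ := by
    unfold denom
    rw [toGL_val, mkMN_val]
    simp only [Matrix.map_apply, Matrix.of_apply, Matrix.GeneralLinearGroup.map_apply]
    push_cast
    rw [hzc, hzc]
    simp
    ring
  rw [hnum, hden, mul_div_mul_left _ _ hs0]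

lemma jInv_mem_of_mem (V : ValuationSubring ℂ) (g : GL (Fin 2) ℚ) (hg : 0 < g.det.val) (τ : ℍ)
    (h : jInv τ ∈ V) : jInv ((g.map (algebraMap ℚ ℝ)) • τ) ∈ V := by
  obtain ⟨N, hN, B, hB⟩ := exists_toGL g hg
  rw [← hB]
  exact jInv_mem_toGL V B τ h

/-- integrality is an isogeny invariant -/
theorem jInv_mem_iff (V : ValuationSubring ℂ) (g : GL (Fin 2) ℚ) (hg : 0 < g.det.val) (τ : ℍ) :
    jInv ((g.map (algebraMap ℚ ℝ)) • τ) ∈ V ↔ jInv τ ∈ V := by
  refine ⟨fun h => ?_, jInv_mem_of_mem V g hg τ⟩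
  have hg' : 0 < (g⁻¹).det.val := by
    rw [map_inv, Units.val_inv_eq_inv_val]
    exact inv_pos.mpr hg
  have h1 := jInv_mem_of_mem V g⁻¹ hg' _ h
  rw [map_inv, inv_smul_smul] at h1
  exact h1

/-- singular moduli are algebraic integers -/
theorem jInv_isIntegral_of_isCM (τ : ℍ) (h : IsCM τ) : IsIntegral ℤ (jInv τ) := by
  obtain ⟨a, b, c, ha, habc⟩ := h
  -- the discriminant is negative
  have hD : 0 < 4 * a * c - b ^ 2 := by
    by_contra hneg
    push Not at hneg
    have h1 : (2 * (a : ℂ) * τ + b) ^ 2 = ((b ^ 2 - 4 * a * c : ℤ) : ℂ) := by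
      push_cast
      linear_combination (4 * (a : ℂ)) * habc
    have him : (2 * (a : ℂ) * τ + b).im = 2 * a * τ.im := by
      simp [Complex.add_im, Complex.mul_im]
    have hre : ((2 * (a : ℂ) * τ + b) ^ 2).re = ((b ^ 2 - 4 * a * c : ℤ) : ℝ) := by
      rw [h1]; exact Complex.intCast_re _
    have him2 : ((2 * (a : ℂ) * τ + b) ^ 2).im = 0 := by
      rw [h1]; exact Complex.intCast_im _
    rw [sq, Complex.mul_im, him] at him2
    rw [sq, Complex.mul_re, him] at hre
    have haR : (a : ℝ) ≠ 0 := by exact_mod_cast ha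
    have hτ := τ.im_pos
    have hz : (2 * (a : ℂ) * τ + b).re = 0 := by
      have : (2 * (a : ℂ) * τ + b).re * (2 * (2 * (a : ℝ) * τ.im)) = 0 := by linarith
      rcases mul_eq_zero.mp this with h | h
      · exact h
      · exfalso
        have : (a : ℝ) * τ.im = 0 := by linarith
        rcases mul_eq_zero.mp this with h | h
        · exact haR h
        · exact hτ.ne' h
    rw [hz] at hre
    have h3 : (0 : ℝ) ≤ ((b ^ 2 - 4 * a * c : ℤ) : ℝ) := by exact_mod_cast (by linarith)
    have h4 : 0 < (2 * (a : ℝ) * τ.im) * (2 * a * τ.im) := by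
      have : (a : ℝ) * τ.im ≠ 0 := mul_ne_zero haR hτ.ne'
      have h5 : 0 < ((a : ℝ) * τ.im) ^ 2 := by positivity
      nlinarith
    linarith
  set D := 4 * a * c - b ^ 2 with hDdef
  set x : ℤ := |b| + D with hx
  have hxb : D ≤ 2 * x + b := by
    have := neg_abs_le b
    rw [hx]; linarith [abs_nonneg b]
  have hdet : (Matrix.of ![![x, -c], ![a, x + b]]).det = x * (x + b) + a * c := by
    rw [Matrix.det_fin_two]
    simp
    ring
  have hpos : 0 < x * (x + b) + a * c := by
    have : 4 * (x * (x + b) + a * c) = (2 * x + b) ^ 2 + D := by rw [hDdef]; ring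
    nlinarith [sq_nonneg (2 * x + b)]
  obtain ⟨N, hN⟩ := Int.eq_ofNat_of_zero_le hpos.le
  have hN0 : N ≠ 0 := by
    rintro rfl
    rw [hN] at hpos
    exact lt_irrefl _ hpos
  have : NeZero N := ⟨hN0⟩
  have hsq : ¬ IsSquare N := by
    rintro ⟨n, rfl⟩
    push_cast at hN
    have h4 : (2 * (n : ℤ)) ^ 2 - (2 * x + b) ^ 2 = D := by
      rw [hDdef]; linear_combination (-4) * hN
    have hn0 : (0 : ℤ) ≤ n := Int.natCast_nonneg n
    have h5 : (2 * (n : ℤ) - (2 * x + b)) * (2 * n + (2 * x + b)) = D := by rw [← h4]; ring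
    have h6 : 0 < 2 * x + b := by linarith
    have h7 : 0 < 2 * (n : ℤ) - (2 * x + b) := by
      by_contra h8
      push Not at h8
      have : (2 * (n : ℤ) - (2 * x + b)) * (2 * n + (2 * x + b)) ≤ 0 :=
        mul_nonpos_of_nonpos_of_nonneg h8 (by linarith)
      linarith
    have h8 : (2 * n + (2 * x + b)) ≤ (2 * (n : ℤ) - (2 * x + b)) * (2 * n + (2 * x + b)) :=
      le_mul_of_one_le_left (by linarith) (by linarith)
    linarith
  refine jInv_integral_of_fixed hsq (mkMN (Matrix.of ![![x, -c], ![a, x + b]]) (by rw [hdet, hN])) τ ?_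
  congr 1
  apply UpperHalfPlane.ext_iff.mpr
  rw [UpperHalfPlane.coe_smul_of_det_pos (toGL_det_pos _)]
  rw [div_eq_iff (denom_ne_zero _ _)]
  unfold num denom
  rw [toGL_val, mkMN_val]
  simp only [Matrix.map_apply, Matrix.of_apply, Matrix.cons_val', Matrix.cons_val_zero, Matrix.cons_val_one, Matrix.cons_val_fin_one]
  push_cast
  linear_combination (-1 : ℂ) * habc

/-- the integrality pattern of a point of a special subvariety is constant along the blocks -/
theorem pattern {n m : ℕ} (D : SpecialDatum n m) {x : Fin n → ℂ} (hx : x ∈ D.variety)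
    (V : ValuationSubring ℂ) : ∃ e : Fin m → Prop, ∀ i,
      (x i ∈ V ↔ match D.block i with | none => True | some k => e k) := by
  obtain ⟨τ, hτ⟩ := hx
  refine ⟨fun k => jInv (τ k) ∈ V, fun i => ?_⟩
  rw [hτ i]
  unfold SpecialDatum.coord
  cases h : D.block i with
  | none => simpa [h] using mem_of_isIntegral V (jInv_isIntegral_of_isCM _ (D.cm_isCM i))
  | some k => simpa [h] using jInv_mem_iff V (D.g i) (D.g_det i) (τ k)

/-- a valuation ring of `ℂ` in which the prime `p` is not invertible -/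
theorem exists_valuationSubring (p : ℕ) (hp : p.Prime) : ∃ V : ValuationSubring ℂ, ((p : ℂ))⁻¹ ∉ V := by
  have : IsIntegrallyClosedIn AI ℂ := by
    have : IsIntegrallyClosedIn (integralClosure ℤ ℂ) ℂ := inferInstance
    exact this
  have hx : ((p : ℂ))⁻¹ ∉ AI := by
    rw [mem_AI]
    intro h
    have h1 : IsIntegral ℤ ((p : ℚ)⁻¹) := by
      have h2 : ((p : ℂ))⁻¹ = algebraMap ℚ ℂ ((p : ℚ)⁻¹) := by simp
      rw [h2] at h
      exact (isIntegral_algebraMap_iff (algebraMap ℚ ℂ).injective).mp h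
    obtain ⟨z, hz⟩ := IsIntegrallyClosed.algebraMap_eq_of_integral h1
    have hp0 : (p : ℚ) ≠ 0 := by exact_mod_cast hp.ne_zero
    have h2 : (p : ℤ) * z = 1 := by
      have : ((p : ℤ) * z : ℚ) = 1 := by
        have h3 : (z : ℚ) = (p : ℚ)⁻¹ := by simpa using hz
        push_cast
        rw [h3, mul_inv_cancel₀ hp0]
      exact_mod_cast this
    have h3 := Int.isUnit_iff.mp (IsUnit.of_mul_eq_one _ h2)
    have := hp.two_le
    omega
  obtain ⟨V, _, hV⟩ := Subring.exists_le_valuationSubring_of_isIntegrallyClosedIn hx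
  exact ⟨V, hV⟩

end Pool.Agent.Lib.ModularZP
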