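import Mathlib
import Pool.Agent.Lib.ModularZP.JIntegral

/-!
Behaviour of isogenous `j`-values near the cusp of a valuation ring: families of modular functions
indexed by cosets, which are finite and integral at all cusps, take integral values at all points
with non-integral `j`-invariant.
-/

open UpperHalfPlane hiding I
open ModularForm ModularFormClass MatrixGroups EisensteinSeries Complex Function

namespace Pool.Agent.Lib.ModularZP

lemma IsNice.mono {h : ℝ} {A B : Subring ℂ} (hAB : A ≤ B) {f : ℍ → ℂ} (hf : IsNice h A f) :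
    IsNice h B f :=
  ⟨hf.per, hf.holo, hf.bdd, fun n => hAB (hf.coeffs n)⟩

/-- order at least `ν` -/
def OrdGe (P : PowerSeries ℂ) (ν : ℕ) : Prop := ∀ n < ν, P.coeff n = 0

lemma OrdGe.mul {P Q : PowerSeries ℂ} {ν μ : ℕ} (hP : OrdGe P ν) (hQ : OrdGe Q μ) :
    OrdGe (P * Q) (ν + μ) := by
  intro n hn
  rw [PowerSeries.coeff_mul]
  refine Finset.sum_eq_zero ?_
  rintro ⟨i, j⟩ hij
  rw [Finset.HasAntidiagonal.mem_antidiagonal] at hij
  dsimp only at hij ⊢
  by_cases h : i < ν
  · rw [hP i h, zero_mul]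
  · rw [hQ j (by omega), mul_zero]

lemma OrdGe.mono {P : PowerSeries ℂ} {ν μ : ℕ} (hP : OrdGe P ν) (h : μ ≤ ν) : OrdGe P μ :=
  fun n hn => hP n (by omega)

lemma OrdGe.pow {P : PowerSeries ℂ} {ν : ℕ} (hP : OrdGe P ν) (n : ℕ) : OrdGe (P ^ n) (n * ν) := by
  induction n with
  | zero => intro m hm; omega
  | succ n ih => rw [pow_succ, Nat.succ_mul]; exact ih.mul hP

lemma LeadAt.ordGe {P : PowerSeries ℂ} {ν : ℕ} {u : ℂ} (hP : LeadAt P ν u) : OrdGe P ν := hP.1

lemma LeadAt.powG {P : PowerSeries ℂ} {ν : ℕ} {u : ℂ} (hP : LeadAt P ν u) (n : ℕ) :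
    LeadAt (P ^ n) (n * ν) (u ^ n) := by
  induction n with
  | zero => exact ⟨by simp, by simp⟩
  | succ n ih =>
    rw [pow_succ, pow_succ, Nat.succ_mul]
    exact ih.mul hP

section family

variable {N : ℕ} [NeZero N] (A : Subring ℂ)

variable (N) in
/-- width `N` nice functions over `A` -/
noncomputable abbrev RA : Subring (ℍ → ℂ) := niceSubring (N : ℝ) N_posR A

variable (N) in
/-- evaluation at `τ` -/
noncomputable def evA (τ : ℍ) : RA N A →+* ℂ :=
  (Pi.evalRingHom (fun _ : ℍ => ℂ) τ).comp (RA N A).subtype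

lemma evA_apply (τ : ℍ) (f : RA N A) : evA N A τ f = f.1 τ := rfl

variable {A} in
lemma RA_mul_q (f g : RA N A) : qExpansion (N : ℝ) (f * g : RA N A).1 =
    qExpansion (N : ℝ) f.1 * qExpansion (N : ℝ) g.1 :=
  UpperHalfPlane.qExpansion_mul (f.2.analyticAt N_posR) (g.2.analyticAt N_posR)

variable {A} in
lemma RA_add_q (f g : RA N A) : qExpansion (N : ℝ) (f + g : RA N A).1 =
    qExpansion (N : ℝ) f.1 + qExpansion (N : ℝ) g.1 :=
  UpperHalfPlane.qExpansion_add (f.2.analyticAt N_posR) (g.2.analyticAt N_posR)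

variable {A} in
lemma RA_sub_q (f g : RA N A) : qExpansion (N : ℝ) (f - g : RA N A).1 =
    qExpansion (N : ℝ) f.1 - qExpansion (N : ℝ) g.1 :=
  UpperHalfPlane.qExpansion_sub (f.2.analyticAt N_posR) (g.2.analyticAt N_posR)

variable {A} in
lemma RA_neg_q (f : RA N A) : qExpansion (N : ℝ) (-f : RA N A).1 =
    - qExpansion (N : ℝ) f.1 :=
  UpperHalfPlane.qExpansion_neg (f.2.analyticAt N_posR)

lemma RA_one_q : qExpansion (N : ℝ) (1 : RA N A).1 = 1 := UpperHalfPlane.qExpansion_one _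

lemma RA_zero_q : qExpansion (N : ℝ) (0 : RA N A).1 = 0 := UpperHalfPlane.qExpansion_zero _

variable {A} in
lemma RA_pow_q (f : RA N A) (n : ℕ) : qExpansion (N : ℝ) (f ^ n : RA N A).1 =
    qExpansion (N : ℝ) f.1 ^ n := by
  induction n with
  | zero => rw [pow_zero, pow_zero]; exact RA_one_q A
  | succ n ih => rw [pow_succ, pow_succ, RA_mul_q, ih]

/-- the qexpansion homomorphism -/
noncomputable def qHom : RA N A →+* PowerSeries ℂ where
  toFun f := qExpansion (N : ℝ) f.1
  map_one' := RA_one_q A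
  map_mul' f g := RA_mul_q f g
  map_zero' := RA_zero_q A
  map_add' f g := RA_add_q f g

lemma qHom_apply (f : RA N A) : qHom A f = qExpansion (N : ℝ) f.1 := rfl

/-- a family of pairs of modular forms indexed by a stable set of cosets -/
structure Fam (N : ℕ) [NeZero N] (A : Subring ℂ) where
  S : Finset (QN N)
  stable : ∀ (γ : SL(2, ℤ)) (q : QN N), rQ γ q ∈ S ↔ q ∈ S
  κ : QN N → ℂ
  κ_ne : ∀ q, κ q ≠ 0
  k : ℕ
  U : QN N → RA N A
  W : QN N → RA N A
  hU : ∀ (γ : SL(2, ℤ)) (τ : ℍ) (q : QN N), κ q * (U q).1 (γ • τ) =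
    denom γ τ ^ (12 * k : ℤ) * (κ (rQ γ q) * (U (rQ γ q)).1 τ)
  hW : ∀ (γ : SL(2, ℤ)) (τ : ℍ) (q : QN N), κ q * (W q).1 (γ • τ) =
    denom γ τ ^ (12 * k : ℤ) * (κ (rQ γ q) * (W (rQ γ q)).1 τ)
  L : QN N → ℕ
  ordU : ∀ q ∈ S, OrdGe (qHom A (U q)) (L q)
  u : QN N → ℂ
  v : QN N → ℂ
  hu : ∀ q ∈ S, u q ∈ A
  hv : ∀ q ∈ S, v q ∈ A
  huv : ∀ q ∈ S, u q * v q = 1
  lead : ∀ q ∈ S, LeadAt (qHom A (W q)) (L q) (u q)

variable {A}

namespace Fam

variable (F : Fam N A)

/-- the product polynomial -/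
noncomputable def G : Polynomial (RA N A) :=
  ∏ q ∈ F.S, (Polynomial.C (F.W q) * Polynomial.X - Polynomial.C (F.U q))

lemma G_map (τ : ℍ) : (F.G).map (evA N A τ) =
    ∏ q ∈ F.S, (Polynomial.C ((F.W q).1 τ) * Polynomial.X - Polynomial.C ((F.U q).1 τ)) := by
  unfold G
  rw [Polynomial.map_prod]
  refine Finset.prod_congr rfl fun q _ => ?_
  rw [Polynomial.map_sub, Polynomial.map_mul, Polynomial.map_C, Polynomial.map_C, Polynomial.map_X]
  rfl

lemma G_smul (γ : SL(2, ℤ)) (τ : ℍ) : (F.G).map (evA N A (γ • τ)) =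
    Polynomial.C (denom γ τ ^ ((12 : ℤ) * (F.k * F.S.card : ℕ))) * (F.G).map (evA N A τ) := by
  have hk : (∏ q ∈ F.S, F.κ q) ≠ 0 := Finset.prod_ne_zero_iff.mpr fun q _ => F.κ_ne q
  have hk' : Polynomial.C (∏ q ∈ F.S, F.κ q) ≠ 0 := by rwa [Ne, Polynomial.C_eq_zero]
  have h1 : ∀ τ : ℍ, Polynomial.C (∏ q ∈ F.S, F.κ q) * (F.G).map (evA N A τ) =
      ∏ q ∈ F.S, (Polynomial.C (F.κ q * (F.W q).1 τ) * Polynomial.X - Polynomial.C (F.κ q * (F.U q).1 τ)) := by
    intro τ
    rw [G_map, map_prod, ← Finset.prod_mul_distrib]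
    refine Finset.prod_congr rfl fun q _ => ?_
    rw [map_mul, map_mul]; ring
  apply mul_left_cancel₀ hk'
  rw [h1, mul_left_comm, h1]
  have h2 : ∏ q ∈ F.S, (Polynomial.C (F.κ q * (F.W q).1 τ) * Polynomial.X - Polynomial.C (F.κ q * (F.U q).1 τ)) =
      ∏ q ∈ F.S, (Polynomial.C (F.κ (rQ γ q) * (F.W (rQ γ q)).1 τ) * Polynomial.X -
        Polynomial.C (F.κ (rQ γ q) * (F.U (rQ γ q)).1 τ)) :=
    (Finset.prod_bijective (rQ γ) (rQ_bijective γ) (fun q => (F.stable γ q).symm) (fun _ _ => rfl)).symm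
  rw [h2]
  have h3 : Polynomial.C (denom γ τ ^ ((12 : ℤ) * (F.k * F.S.card : ℕ))) =
      ∏ q ∈ F.S, Polynomial.C (denom γ τ ^ (12 * F.k : ℤ)) := by
    rw [Finset.prod_const, ← map_pow, ← zpow_natCast (denom γ τ ^ (12 * F.k : ℤ)), ← zpow_mul]
    congr 2
    push_cast; ring
  rw [h3, ← Finset.prod_mul_distrib]
  refine Finset.prod_congr rfl fun q _ => ?_
  rw [F.hU, F.hW]
  simp only [map_mul]
  ring

lemma G_coeff_inv (i : ℕ) (γ : SL(2, ℤ)) :
    ((F.G).coeff i : ℍ → ℂ) ∣[(12 : ℤ) * (F.k * F.S.card : ℕ)] γ = ((F.G).coeff i : ℍ → ℂ) := by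
  ext τ
  rw [SL_slash_apply]
  have h1 := congrArg (fun p => Polynomial.coeff p i) (F.G_smul γ τ)
  simp only [Polynomial.coeff_map, Polynomial.coeff_C_mul, evA_apply] at h1
  rw [h1, mul_comm, ← mul_assoc, ← zpow_add₀ (denom_ne_zero _ _)]
  simp

/-- coefficients as level one forms -/
noncomputable def GF (i : ℕ) : ModularForm 𝒮ℒ ((12 : ℤ) * (F.k * F.S.card : ℕ)) :=
  mkForm (A := A) (h := (N : ℝ)) _ ((F.G).coeff i : ℍ → ℂ) ((F.G).coeff i).2 (F.G_coeff_inv i)

lemma GF_apply (i : ℕ) (τ : ℍ) : F.GF i τ = ((F.G).map (evA N A τ)).coeff i := by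
  rw [Polynomial.coeff_map]; rfl

lemma GF_coeffs (i : ℕ) : CoeffsIn A (qExpansion 1 (F.GF i)) :=
  coeffsIn_of_width (isNice_modularForm (F.GF i) (A := ⊤) (fun _ => Subring.mem_top _)) N N_pos'
    ((F.G).coeff i).2

/-- total order -/
noncomputable def tot : ℕ := ∑ q ∈ F.S, F.L q

lemma ord_coeff (i : ℕ) : OrdGe (qHom A ((F.G).coeff i)) F.tot := by
  classical
  unfold G tot
  have key : ∀ T : Finset (QN N), T ⊆ F.S → ∀ i, OrdGe (qHom A
      ((∏ q ∈ T, (Polynomial.C (F.W q) * Polynomial.X - Polynomial.C (F.U q))).coeff i)) (∑ q ∈ T, F.L q) := by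
    intro T
    induction T using Finset.induction_on with
    | empty =>
      intro _ i n hn
      simp at hn
    | insert a T ha ih =>
      intro hT i
      rw [Finset.prod_insert ha, Finset.sum_insert ha, Polynomial.coeff_mul, map_sum]
      intro n hn
      rw [map_sum]
      refine Finset.sum_eq_zero ?_
      intro x _
      rw [map_mul]
      refine OrdGe.mul ?_ (ih (fun q hq => hT (Finset.mem_insert_of_mem hq)) _) n hn
      have haS := hT (Finset.mem_insert_self a T)
      rw [Polynomial.coeff_sub, Polynomial.coeff_C_mul, Polynomial.coeff_X, Polynomial.coeff_C, map_sub, map_mul]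
      intro m hm
      rw [map_sub]
      split_ifs
      · rw [map_one, mul_one, (F.lead a haS).1 m hm, F.ordU a haS m hm, sub_zero]
      · rw [map_one, mul_one, (F.lead a haS).1 m hm, map_zero, map_zero, sub_zero]
      · rw [map_zero, mul_zero, map_zero, F.ordU a haS m hm, sub_zero]
      · rw [map_zero, mul_zero, map_zero, sub_zero]
  exact key F.S (Finset.Subset.refl _) i

lemma coeff_top_eq : (F.G).coeff F.S.card = ∏ q ∈ F.S, F.W q := by
  unfold G
  have h1 : ∀ q ∈ F.S, (Polynomial.C (F.W q) * Polynomial.X - Polynomial.C (F.U q)).natDegree ≤ 1 := by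
    intro q _
    refine (Polynomial.natDegree_sub_le _ _).trans (max_le ?_ (by simp))
    exact (Polynomial.natDegree_C_mul_le _ _).trans Polynomial.natDegree_X_le
  have h2 := Polynomial.coeff_prod_of_natDegree_le F.S (fun q => (Polynomial.C (F.W q) * Polynomial.X - Polynomial.C (F.U q))) 1 h1
  rw [mul_one] at h2
  rw [h2]
  refine Finset.prod_congr rfl fun q _ => ?_
  simp

lemma coeff_gt (i : ℕ) (hi : F.S.card < i) : (F.G).coeff i = 0 := by
  apply Polynomial.coeff_eq_zero_of_natDegree_lt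
  refine lt_of_le_of_lt ?_ hi
  unfold G
  refine (Polynomial.natDegree_prod_le _ _).trans ?_
  have : ∑ q ∈ F.S, (Polynomial.C (F.W q) * Polynomial.X - Polynomial.C (F.U q)).natDegree ≤ ∑ q ∈ F.S, 1 := by
    refine Finset.sum_le_sum fun q _ => ?_
    refine (Polynomial.natDegree_sub_le _ _).trans (max_le ?_ (by simp))
    exact (Polynomial.natDegree_C_mul_le _ _).trans Polynomial.natDegree_X_le
  simpa using this

lemma lead_top : LeadAt (qHom A ((F.G).coeff F.S.card)) F.tot (∏ q ∈ F.S, F.u q) := by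
  classical
  rw [coeff_top_eq, map_prod]
  unfold tot
  have key : ∀ T : Finset (QN N), T ⊆ F.S → LeadAt (∏ q ∈ T, qHom A (F.W q)) (∑ q ∈ T, F.L q) (∏ q ∈ T, F.u q) := by
    intro T
    induction T using Finset.induction_on with
    | empty => intro _; exact ⟨by simp, by simp⟩
    | insert a T ha ih =>
      intro hT
      rw [Finset.prod_insert ha, Finset.prod_insert ha, Finset.sum_insert ha]
      exact (F.lead a (hT (Finset.mem_insert_self a T))).mul (ih fun q hq => hT (Finset.mem_insert_of_mem hq))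
  exact key F.S (Finset.Subset.refl _)

end Fam

/-! ### values at points with non-integral `j` -/

lemma val_eval_le {V : ValuationSubring ℂ} {x : ℂ} (hx : x ∉ V) {p : Polynomial ℂ}
    (hp : ∀ i, p.coeff i ∈ V) {D : ℕ} (hD : p.natDegree ≤ D) :
    V.valuation (p.eval x) ≤ V.valuation x ^ D := by
  have hx1 : 1 < V.valuation x := by
    rw [← not_le]; exact fun h => hx ((V.valuation_le_one_iff x).mp h)
  rw [Polynomial.eval_eq_sum_range]
  refine V.valuation.map_sum_le fun i hi => ?_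
  have hi' : i ≤ D := (Nat.lt_succ_iff.mp (Finset.mem_range.mp hi)).trans hD
  rw [map_mul, map_pow]
  calc V.valuation (p.coeff i) * V.valuation x ^ i ≤ 1 * V.valuation x ^ i :=
        mul_le_mul_left ((V.valuation_le_one_iff _).mpr (hp i)) _
    _ = V.valuation x ^ i := one_mul _
    _ ≤ V.valuation x ^ D := pow_le_pow_right₀ hx1.le hi'

lemma val_eval_eq {V : ValuationSubring ℂ} {x : ℂ} (hx : x ∉ V) {p : Polynomial ℂ}
    (hp : ∀ i, p.coeff i ∈ V) {D : ℕ} (hD : p.natDegree ≤ D) (hu : V.valuation (p.coeff D) = 1) :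
    V.valuation (p.eval x) = V.valuation x ^ D := by
  have hx1 : 1 < V.valuation x := by
    rw [← not_le]; exact fun h => hx ((V.valuation_le_one_iff x).mp h)
  rw [Polynomial.eval_eq_sum_range' (Nat.lt_succ_of_le hD), Finset.sum_range_succ]
  have h1 : V.valuation (p.coeff D * x ^ D) = V.valuation x ^ D := by
    rw [map_mul, map_pow, hu, one_mul]
  rcases Nat.eq_zero_or_pos D with h0 | hpos
  · subst h0
    simp [hu]
  · have h2 : V.valuation (∑ i ∈ Finset.range D, p.coeff i * x ^ i) < V.valuation (p.coeff D * x ^ D) := by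
      rw [h1]
      refine V.valuation.map_sum_lt (pow_ne_zero _ (by
        intro h; rw [h] at hx1; exact not_lt_zero hx1)) fun i hi => ?_
      have hi' : i < D := Finset.mem_range.mp hi
      rw [map_mul, map_pow]
      calc V.valuation (p.coeff i) * V.valuation x ^ i ≤ 1 * V.valuation x ^ i :=
            mul_le_mul_left ((V.valuation_le_one_iff _).mpr (hp i)) _
        _ = V.valuation x ^ i := one_mul _
        _ < V.valuation x ^ D := pow_lt_pow_right₀ hx1 hi'
    rw [V.valuation.map_add_eq_of_lt_right h2, h1]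

end family

/-- the boundedness lemma near the cusp -/
theorem Fam.integral {N : ℕ} [NeZero N] {V : ValuationSubring ℂ} (F : Fam N V.toSubring)
    {τ : ℍ} (hx : jInv τ ∉ V) {q : QN N} (hq : q ∈ F.S) :
    (F.W q).1 τ ≠ 0 ∧ (F.U q).1 τ / (F.W q).1 τ ∈ V := by
  -- the forms
  have hst : ∀ i, ∃ p : Polynomial ℂ, (∀ i, p.coeff i ∈ V.toSubring) ∧ p.natDegree ≤ F.k * F.S.card ∧
      (∀ τ, F.GF i τ = ModularForm.discriminant τ ^ (F.k * F.S.card) * p.eval (jInv τ)) ∧
      (∀ ν ≤ F.k * F.S.card, (∀ n < ν, (qExpansion 1 (F.GF i)).coeff n = 0) → p.natDegree ≤ F.k * F.S.card - ν ∧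
        p.coeff (F.k * F.S.card - ν) = (qExpansion 1 (F.GF i)).coeff ν) := fun i =>
    struct V.toSubring (F.k * F.S.card) _ (by push_cast; ring) (F.GF i) (F.GF_coeffs i)
  choose p hp hpdeg hpe hpν using hst
  have hN := N_pos' (N := N)
  have hnice : ∀ i, IsNice 1 (⊤ : Subring ℂ) (F.GF i) := fun i =>
    isNice_modularForm (F.GF i) (A := ⊤) (fun _ => Subring.mem_top _)
  have hwid : ∀ i n, (qHom V.toSubring ((F.G).coeff i)).coeff (N * n) = (qExpansion 1 (F.GF i)).coeff n := by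
    intro i n
    have := coeff_width (hnice i) N hN (N * n)
    rw [if_pos (dvd_mul_right _ _), Nat.mul_div_cancel_left _ hN] at this
    exact this
  -- top coefficient
  have hlead := F.lead_top
  have hu1 : (∏ q ∈ F.S, F.u q) * (∏ q ∈ F.S, F.v q) = 1 := by
    rw [← Finset.prod_mul_distrib]
    exact Finset.prod_eq_one fun q hq => F.huv q hq
  have huV : (∏ q ∈ F.S, F.u q) ∈ V.toSubring := Subring.prod_mem _ fun q hq => F.hu q hq
  have hvV : (∏ q ∈ F.S, F.v q) ∈ V.toSubring := Subring.prod_mem _ fun q hq => F.hv q hq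
  have hdvd : N ∣ F.tot := by
    by_contra hd
    have h1 := coeff_width (hnice F.S.card) N hN F.tot
    rw [if_neg hd] at h1
    have h2 : (qHom V.toSubring ((F.G).coeff F.S.card)).coeff F.tot = 0 := h1
    rw [hlead.2] at h2
    rw [h2, zero_mul] at hu1
    exact zero_ne_one hu1
  obtain ⟨ν, hν⟩ := hdvd
  have hord : ∀ i, ∀ n < ν, (qExpansion 1 (F.GF i)).coeff n = 0 := by
    intro i n hn
    rw [← hwid]
    exact F.ord_coeff i _ (by rw [hν]; exact Nat.mul_lt_mul_of_pos_left hn hN)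
  have htopc : (qExpansion 1 (F.GF F.S.card)).coeff ν = ∏ q ∈ F.S, F.u q := by
    rw [← hwid, ← hν]; exact hlead.2
  have hune : (∏ q ∈ F.S, F.u q) ≠ 0 := fun h => by rw [h, zero_mul] at hu1; exact zero_ne_one hu1
  have hνM : ν ≤ F.k * F.S.card := by
    by_contra hlt
    push Not at hlt
    obtain ⟨hd, hc⟩ := hpν F.S.card (F.k * F.S.card) le_rfl (fun n hn => hord _ n (by omega))
    rw [hord _ _ hlt, Nat.sub_self] at hc
    have hp0 : p F.S.card = 0 := by
      rw [Nat.sub_self] at hd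
      rw [Polynomial.eq_C_of_natDegree_le_zero hd, hc, Polynomial.C_0]
    have hz : (F.GF F.S.card : ℍ → ℂ) = 0 := by
      ext τ; rw [hpe, hp0]; simp
    rw [hz, UpperHalfPlane.qExpansion_zero] at htopc
    exact hune (by rw [← htopc]; simp)
  set D := F.k * F.S.card - ν with hDdef
  have hdeg : ∀ i, (p i).natDegree ≤ D := fun i => (hpν i ν hνM (hord i)).1
  have htop : (p F.S.card).coeff D = ∏ q ∈ F.S, F.u q := by
    rw [(hpν F.S.card ν hνM (hord _)).2, htopc]
  have hval1 : V.valuation ((p F.S.card).coeff D) = 1 := by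
    rw [htop]
    have h1 : V.valuation (∏ q ∈ F.S, F.u q) ≤ 1 := (V.valuation_le_one_iff _).mpr huV
    have h2 : V.valuation (∏ q ∈ F.S, F.v q) ≤ 1 := (V.valuation_le_one_iff _).mpr hvV
    have h3 := congrArg V.valuation hu1
    rw [map_mul, map_one] at h3
    refine le_antisymm h1 ?_
    calc 1 = V.valuation (∏ q ∈ F.S, F.u q) * V.valuation (∏ q ∈ F.S, F.v q) := h3.symm
      _ ≤ V.valuation (∏ q ∈ F.S, F.u q) * 1 := mul_le_mul_right h2 _
      _ = _ := mul_one _
  have hx1 : 1 < V.valuation (jInv τ) := by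
    rw [← not_le]; exact fun h => hx ((V.valuation_le_one_iff _).mp h)
  have hPtop : V.valuation ((p F.S.card).eval (jInv τ)) = V.valuation (jInv τ) ^ D :=
    val_eval_eq hx (hp _) (hdeg _) hval1
  have hPne : (p F.S.card).eval (jInv τ) ≠ 0 := by
    intro h
    rw [h, map_zero] at hPtop
    exact pow_ne_zero D (fun h => by rw [h] at hx1; exact not_lt_zero hx1) hPtop.symm
  have hΔ : ModularForm.discriminant τ ^ (F.k * F.S.card) ≠ 0 := pow_ne_zero _ (discriminant_ne_zero τ)
  have hWne : ∀ q ∈ F.S, (F.W q).1 τ ≠ 0 := by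
    have h1 := hpe F.S.card τ
    have h2 : F.GF F.S.card τ = ∏ q ∈ F.S, (F.W q).1 τ := by
      have : F.GF F.S.card τ = evA N V.toSubring τ ((F.G).coeff F.S.card) := rfl
      rw [this, F.coeff_top_eq, map_prod]
      rfl
    rw [h2] at h1
    have h3 : ∏ q ∈ F.S, (F.W q).1 τ ≠ 0 := by rw [h1]; exact mul_ne_zero hΔ hPne
    exact Finset.prod_ne_zero_iff.mp h3
  refine ⟨hWne q hq, ?_⟩
  -- the monic equation
  set z := (F.U q).1 τ / (F.W q).1 τ with hz
  have hroot : ((F.G).map (evA N V.toSubring τ)).eval z = 0 := by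
    rw [F.G_map, Polynomial.eval_prod]
    refine Finset.prod_eq_zero hq ?_
    rw [Polynomial.eval_sub, Polynomial.eval_mul, Polynomial.eval_C, Polynomial.eval_C, Polynomial.eval_X, hz,
      mul_div_cancel₀ _ (hWne q hq), sub_self]
  have hcoef : ∀ i, ((F.G).map (evA N V.toSubring τ)).coeff i =
      ModularForm.discriminant τ ^ (F.k * F.S.card) * (p i).eval (jInv τ) := fun i => by
    rw [← F.GF_apply, hpe]
  have hdegG : ((F.G).map (evA N V.toSubring τ)).natDegree < F.S.card + 1 := by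
    refine lt_of_le_of_lt Polynomial.natDegree_map_le (Nat.lt_succ_of_le ?_)
    rw [Polynomial.natDegree_le_iff_coeff_eq_zero]
    exact fun i hi => F.coeff_gt i hi
  rw [Polynomial.eval_eq_sum_range' hdegG] at hroot
  simp only [hcoef, mul_assoc] at hroot
  rw [← Finset.mul_sum, Finset.sum_range_succ] at hroot
  have hroot2 := (mul_eq_zero.mp hroot).resolve_left hΔ
  -- valuations
  rw [← V.valuation_le_one_iff]
  by_contra hgt
  push Not at hgt
  have h1 : V.valuation (∑ i ∈ Finset.range F.S.card, (p i).eval (jInv τ) * z ^ i) <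
      V.valuation ((p F.S.card).eval (jInv τ) * z ^ F.S.card) := by
    rw [map_mul, map_pow, hPtop]
    have hne : V.valuation (jInv τ) ^ D ≠ 0 := pow_ne_zero _ (fun h => by rw [h] at hx1; exact not_lt_zero hx1)
    have hzne : V.valuation z ^ F.S.card ≠ 0 := pow_ne_zero _ (fun h => by rw [h] at hgt; exact not_lt_zero hgt)
    refine V.valuation.map_sum_lt (mul_ne_zero hne hzne) fun i hi => ?_
    rw [map_mul, map_pow]
    calc V.valuation ((p i).eval (jInv τ)) * V.valuation z ^ i ≤ V.valuation (jInv τ) ^ D * V.valuation z ^ i :=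
          mul_le_mul_left (val_eval_le hx (hp i) (hdeg i)) _
      _ < V.valuation (jInv τ) ^ D * V.valuation z ^ F.S.card :=
          mul_lt_mul_of_pos_left (pow_lt_pow_right₀ hgt (Finset.mem_range.mp hi)) (zero_lt_iff.mpr hne)
  have h2 := V.valuation.map_add_eq_of_lt_right h1
  rw [hroot2, map_zero] at h2
  rw [← h2] at h1
  exact not_lt_zero h1

end Pool.Agent.Lib.ModularZP
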