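import Mathlib
import Pool.Agent.Lib.ModularZP.Cusp

/-!
Isogenous `j`-values of equal absolute value outside a valuation ring: their ratio is close to a
root of unity.
-/

open UpperHalfPlane hiding I
open ModularForm ModularFormClass MatrixGroups EisensteinSeries Complex Function

namespace Pool.Agent.Lib.ModularZP

section prim

variable {N : ℕ} [NeZero N]

/-- primitive integral matrices -/
def Prim (B : MN N) : Prop := ∀ (k : ℤ) (C : Matrix (Fin 2) (Fin 2) ℤ), B.1 = k • C → IsUnit k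

omit [NeZero N] in
lemma prim_smul (γ : SL(2, ℤ)) (B : MN N) : Prim (γ • B) ↔ Prim B := by
  have key : ∀ (γ : SL(2, ℤ)) (B : MN N), Prim B → Prim (γ • B) := by
    intro γ B h k C hC
    refine h k (γ⁻¹.1 * C) ?_
    rw [FixedDetMatrices.smul_coe] at hC
    have h1 : γ⁻¹.1 * (γ.1 * B.1) = B.1 := by
      rw [← Matrix.mul_assoc, ← Matrix.SpecialLinearGroup.coe_mul, inv_mul_cancel]
      simp
    rw [← h1, hC, Matrix.mul_smul]
  refine ⟨fun h => ?_, key γ B⟩
  have := key γ⁻¹ _ h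
  rwa [inv_smul_smul] at this

omit [NeZero N] in
lemma prim_rmul (γ : SL(2, ℤ)) (B : MN N) : Prim (rmul B γ) ↔ Prim B := by
  have key : ∀ (γ : SL(2, ℤ)) (B : MN N), Prim B → Prim (rmul B γ) := by
    intro γ B h k C hC
    refine h k (C * γ⁻¹.1) ?_
    have h0 : (rmul B γ).1 = B.1 * γ.1 := rfl
    rw [h0] at hC
    have h1 : (B.1 * γ.1) * γ⁻¹.1 = B.1 := by
      rw [Matrix.mul_assoc, ← Matrix.SpecialLinearGroup.coe_mul, mul_inv_cancel]
      simp
    rw [← h1, hC, Matrix.smul_mul]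
  refine ⟨fun h => ?_, key γ B⟩
  have h1 := key γ⁻¹ _ h
  have h2 : rmul (rmul B γ) γ⁻¹ = B := by
    apply FixedDetMatrices.ext'
    show (B.1 * γ.1) * (γ⁻¹).1 = B.1
    rw [Matrix.mul_assoc, ← Matrix.SpecialLinearGroup.coe_mul, mul_inv_cancel]
    simp
  rwa [h2] at h1

/-- primitivity on cosets -/
def primQ : QN N → Prop := Quotient.lift Prim (by
  intro A B h
  change A ∈ MulAction.orbit _ B at h
  obtain ⟨δ, hδ⟩ := h
  rw [← hδ]
  exact propext (prim_smul δ B))

omit [NeZero N] in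
lemma primQ_mk (B : MN N) : primQ (Quotient.mk'' B : QN N) ↔ Prim B := Iff.rfl

omit [NeZero N] in
lemma primQ_rQ (γ : SL(2, ℤ)) (q : QN N) : primQ (rQ γ q) ↔ primQ q := by
  induction q using Quotient.inductionOn' with
  | _ A =>
    show Prim (rmul A γ) ↔ Prim A
    exact prim_rmul γ A

lemma primQ_rep (q : QN N) : primQ q ↔ Prim (rep q) := by
  conv_lhs => rw [← rep_mk q]
  rfl

open Classical in
variable (N) in
/-- the set of primitive cosets -/
noncomputable def primS : Finset (QN N) := Finset.univ.filter fun q => primQ q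

lemma mem_primS (q : QN N) : q ∈ primS N ↔ primQ q := by
  classical
  unfold primS
  rw [Finset.mem_filter]
  simp

/-- the root of unity of the coset -/
noncomputable def om (q : QN N) : ℂ := Complex.exp (2 * Real.pi * Complex.I * rb q / rd q)

lemma om_mem (q : QN N) : om q ∈ AI := exp_mem_AI _ _ (rd_pos q)

lemma om_inv (q : QN N) : om q * (om q)⁻¹ = 1 := mul_inv_cancel₀ (Complex.exp_ne_zero _)

lemma om_inv_eq (q : QN N) : (om q)⁻¹ = Complex.exp (2 * Real.pi * Complex.I * ((-rb q : ℤ) : ℂ) / rd q) := by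
  unfold om
  exact (eq_inv_of_mul_eq_one_right (exp_unit _ _)).symm

lemma om_inv_mem (q : QN N) : (om q)⁻¹ ∈ AI := by
  rw [om_inv_eq]
  exact exp_mem_AI _ _ (rd_pos q)

/-- on a primitive coset with `a = d` the root of unity is primitive of order `a`. -/
lemma om_inv_primitive (q : QN N) (hq : primQ q) (h : ra q ^ 2 = N) :
    (om q)⁻¹ ∈ primitiveRoots (Nat.sqrt N) ℂ := by
  have hs : Nat.sqrt N = ra q := by
    have := Nat.sqrt_eq' (ra q)
    rwa [h] at this
  have hd : rd q = ra q := by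
    have h1 := (ra_mul_rd q).trans h.symm
    rw [sq] at h1
    exact Nat.eq_of_mul_eq_mul_left (ra_pos q) h1
  rw [hs, mem_primitiveRoots (ra_pos q), IsPrimitiveRoot.inv_iff]
  have hco : IsCoprime (rb q) (ra q : ℤ) := by
    rw [Int.isCoprime_iff_gcd_eq_one]
    set k : ℕ := Int.gcd (rb q) (ra q : ℤ) with hk
    have hk1 : (k : ℤ) ∣ rb q := Int.gcd_dvd_left ..
    have hk2 : (k : ℤ) ∣ (ra q : ℤ) := Int.gcd_dvd_right ..
    have hP := (primQ_rep q).mp hq
    obtain ⟨b', hb'⟩ := hk1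
    obtain ⟨a', ha'⟩ := hk2
    have hC : (rep q).1 = (k : ℤ) • (!![a', b'; 0, a'] : Matrix (Fin 2) (Fin 2) ℤ) := by
      ext i j
      fin_cases i <;> fin_cases j
      · simp only [Fin.zero_eta, Matrix.smul_apply, smul_eq_mul]
        rw [← ra_cast, ha']; simp
      · simp only [Fin.zero_eta, Fin.mk_one, Matrix.smul_apply, smul_eq_mul]
        rw [show (rep q).1 0 1 = rb q from rfl, hb']; simp
      · simp only [Fin.zero_eta, Fin.mk_one, Matrix.smul_apply, smul_eq_mul]
        rw [rep_10]; simp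
      · simp only [Fin.mk_one, Matrix.smul_apply, smul_eq_mul]
        rw [← rd_cast, hd, ha']; simp
    have := hP _ _ hC
    rw [Int.isUnit_iff] at this
    omega
  unfold om
  rw [hd]
  have ha0 : ra q ≠ 0 := (ra_pos q).ne'
  have := Complex.isPrimitiveRoot_exp (ra q) ha0
  have h2 : Complex.exp (2 * Real.pi * Complex.I * rb q / (ra q : ℕ)) =
      (Complex.exp (2 * Real.pi * Complex.I / (ra q : ℕ))) ^ (rb q) := by
    rw [← Complex.exp_int_mul]
    congr 1
    ring
  rw [h2]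
  exact this.zpow_of_gcd_eq_one (rb q) (Int.isCoprime_iff_gcd_eq_one.mp hco)

end prim

/-! ### constants and basic elements -/

open scoped Manifold in
lemma isNice_const {h : ℝ} (hh : 0 < h) {A : Subring ℂ} {c : ℂ} (hc : c ∈ A) :
    IsNice h A (fun _ => c) ∧ qExpansion h (fun _ : ℍ => c) = PowerSeries.C c := by
  have key := isNice_of_hasSum (h := h) hh (A := A) (g := fun _ => c)
    (c := fun n => if n = 0 then c else 0) (fun n => by
      split_ifs
      · exact hc
      · exact A.zero_mem) mdifferentiable_const ?_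
  · refine ⟨key.1, ?_⟩
    ext n
    rw [key.2, PowerSeries.coeff_C]
  · intro τ
    have : (fun m : ℕ => (if m = 0 then c else 0) • Periodic.qParam h τ ^ m) =
        fun m => if m = 0 then c else 0 := by
      ext m
      split_ifs with h0
      · subst h0; simp
      · simp
    rw [this]
    exact hasSum_ite_eq 0 c

section basic

variable {N : ℕ} [NeZero N] {A : Subring ℂ} (hA : AI ≤ A)

variable (N) in
/-- constants -/
noncomputable def cst (c : A) : RA N A := ⟨fun _ => c.1, (isNice_const N_posR c.2).1⟩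

lemma cst_q (c : A) : qHom A (cst N c) = PowerSeries.C c.1 := (isNice_const N_posR c.2).2

/-- `E₄³ ∘ B_q` -/
noncomputable def eps (q : QN N) : RA N A := ⟨cmp E43 q, (cmp_nice (E43_nice AI) q).mono hA⟩

/-- `Δ ∘ B_q` -/
noncomputable def del (q : QN N) : RA N A :=
  ⟨cmp ModularForm.discriminant q, (cmp_nice (isNice_delta AI) q).mono hA⟩

variable (N A) in
/-- `E₄³` -/
noncomputable def e0 : RA N A := ⟨E43, (E43_nice A).width N_pos'⟩

variable (N A) in
/-- `Δ` -/
noncomputable def d0 : RA N A := ⟨ModularForm.discriminant, (isNice_delta A).width N_pos'⟩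

lemma lead_eps (q : QN N) : LeadAt (qHom A (eps hA q)) 0 1 := by
  have := LeadAt.cmp (E43_nice AI) q leadAt_E43
  rw [mul_zero, pow_zero, mul_one] at this
  exact this

lemma lead_del (q : QN N) : LeadAt (qHom A (del hA q)) (ra q ^ 2) (om q) := by
  have := LeadAt.cmp (isNice_delta AI) q leadAt_delta
  rw [mul_one, pow_one, one_mul] at this
  exact this

lemma lead_e0 : LeadAt (qHom A (e0 N A)) 0 1 := by
  have := leadAt_E43.width (E43_nice AI) (N_pos' (N := N))
  rw [mul_zero] at this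
  exact this

lemma lead_d0 : LeadAt (qHom A (d0 N A)) N 1 := by
  have := leadAt_delta.width (isNice_delta AI) (N_pos' (N := N))
  rw [mul_one] at this
  exact this

/-- coefficients supported on multiples of `N` -/
def SuppN (N : ℕ) (P : PowerSeries ℂ) : Prop := ∀ n, ¬ N ∣ n → P.coeff n = 0

omit [NeZero N] in
lemma SuppN.mul {P Q : PowerSeries ℂ} (hP : SuppN N P) (hQ : SuppN N Q) : SuppN N (P * Q) := by
  intro n hn
  rw [PowerSeries.coeff_mul]
  refine Finset.sum_eq_zero ?_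
  rintro ⟨i, j⟩ hij
  rw [Finset.HasAntidiagonal.mem_antidiagonal] at hij
  dsimp only at hij ⊢
  by_cases h : N ∣ i
  · have : ¬ N ∣ j := fun hj => hn (hij ▸ dvd_add h hj)
    rw [hQ j this, mul_zero]
  · rw [hP i h, zero_mul]

lemma supp_e0 : SuppN N (qHom A (e0 N A)) := by
  intro n hn
  have := coeff_width (E43_nice A) N N_pos' n
  rw [if_neg hn] at this
  exact this

lemma supp_d0 : SuppN N (qHom A (d0 N A)) := by
  intro n hn
  have := coeff_width (isNice_delta A) N N_pos' n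
  rw [if_neg hn] at this
  exact this

lemma supp_eps (q : QN N) (h : ra q ^ 2 = N) : SuppN N (qHom A (eps hA q)) := by
  intro n hn
  have := cmp_coeff (E43_nice AI) q n
  rw [if_neg (by rwa [h])] at this
  exact this

lemma supp_del (q : QN N) (h : ra q ^ 2 = N) : SuppN N (qHom A (del hA q)) := by
  intro n hn
  have := cmp_coeff (isNice_delta AI) q n
  rw [if_neg (by rwa [h])] at this
  exact this

/-- the factor `Δ ε - ζ E δ` -/
noncomputable def psi (q : QN N) (ζ : A) : RA N A := d0 N A * eps hA q - cst N ζ * (e0 N A * del hA q)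

lemma psi_q (q : QN N) (ζ : A) : qHom A (psi hA q ζ) =
    qHom A (d0 N A) * qHom A (eps hA q) - PowerSeries.C ζ.1 * (qHom A (e0 N A) * qHom A (del hA q)) := by
  unfold psi
  rw [map_sub, map_mul, map_mul, map_mul, cst_q]

lemma lead_prod1 (q : QN N) : LeadAt (qHom A (d0 N A) * qHom A (eps hA q)) N 1 := by
  have := (lead_d0 (N := N) (A := A)).mul (lead_eps hA q)
  simpa using this

lemma lead_prod2 (q : QN N) : LeadAt (qHom A (e0 N A) * qHom A (del hA q)) (ra q ^ 2) (om q) := by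
  have := (lead_e0 (N := N) (A := A)).mul (lead_del hA q)
  simpa using this

lemma psi_ord (q : QN N) (ζ : A) : OrdGe (qHom A (psi hA q ζ)) (min N (ra q ^ 2)) := by
  intro n hn
  rw [psi_q, map_sub, PowerSeries.coeff_C_mul, (lead_prod1 hA q).1 n (by omega),
    (lead_prod2 hA q).1 n (by omega), mul_zero, sub_zero]

lemma psi_ord' (q : QN N) (ζ : A) (h : ra q ^ 2 = N) (hζ : ζ.1 = (om q)⁻¹) :
    OrdGe (qHom A (psi hA q ζ)) (2 * N) := by
  intro n hn
  by_cases hd : N ∣ n
  · have hN := N_pos' (N := N)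
    obtain ⟨m, rfl⟩ := hd
    have hm : m < 2 := by
      by_contra hm
      push Not at hm
      have := Nat.mul_le_mul_left N hm
      omega
    interval_cases m
    · have := psi_ord hA q ζ 0 (by rw [h]; simpa using hN)
      simpa using this
    · rw [mul_one, psi_q, map_sub, PowerSeries.coeff_C_mul, (lead_prod1 hA q).2, hζ]
      have h2 := (lead_prod2 hA q).2
      rw [h] at h2
      rw [h2, mul_comm, om_inv, sub_self]
  · rw [psi_q, map_sub, PowerSeries.coeff_C_mul, ((supp_d0 (N := N) (A := A)).mul (supp_eps hA q h)) n hd,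
      ((supp_e0 (N := N) (A := A)).mul (supp_del hA q h)) n hd, mul_zero, sub_zero]

/-- the factor `Δ ε + T E δ` -/
noncomputable def wf (q : QN N) (T : A) : RA N A := d0 N A * eps hA q + cst N T * (e0 N A * del hA q)

lemma wf_q (q : QN N) (T : A) : qHom A (wf hA q T) =
    qHom A (d0 N A) * qHom A (eps hA q) + PowerSeries.C T.1 * (qHom A (e0 N A) * qHom A (del hA q)) := by
  unfold wf
  rw [map_add, map_mul, map_mul, map_mul, cst_q]

/-- the leading coefficient of `wf` -/
noncomputable def wl (q : QN N) (T : ℂ) : ℂ :=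
  if ra q ^ 2 = N then 1 + T * om q else if N < ra q ^ 2 then 1 else T * om q

lemma wf_lead (q : QN N) (T : A) : LeadAt (qHom A (wf hA q T)) (min N (ra q ^ 2)) (wl q T.1) := by
  refine ⟨fun n hn => ?_, ?_⟩
  · rw [wf_q, map_add, PowerSeries.coeff_C_mul, (lead_prod1 hA q).1 n (by omega),
      (lead_prod2 hA q).1 n (by omega), mul_zero, add_zero]
  · rw [wf_q, map_add, PowerSeries.coeff_C_mul]
    unfold wl
    split_ifs with h1 h2
    · have h2 := (lead_prod2 hA q).2
      rw [h1, min_self, (lead_prod1 hA q).2]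
      rw [h1] at h2
      rw [h2]
    · rw [min_eq_left h2.le, (lead_prod1 hA q).2, (lead_prod2 hA q).1 N h2, mul_zero, add_zero]
    · have h3 : ra q ^ 2 < N := lt_of_le_of_ne (not_lt.mp h2) h1
      rw [min_eq_right h3.le, (lead_prod2 hA q).2, (lead_prod1 hA q).1 _ h3, zero_add]

lemma tr_eps (γ : SL(2, ℤ)) (τ : ℍ) (q : QN N) : kap q * (eps hA q).1 (γ • τ) =
    denom γ τ ^ (12 : ℤ) * (kap (rQ γ q) * (eps hA (rQ γ q)).1 τ) := by
  have h1 := sl_smul E43 E43_inv q γ τ
  rw [sl_eq, sl_eq] at h1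
  rw [mul_comm (denom γ τ ^ (12 : ℤ))]
  exact h1

lemma tr_del (γ : SL(2, ℤ)) (τ : ℍ) (q : QN N) : kap q * (del hA q).1 (γ • τ) =
    denom γ τ ^ (12 : ℤ) * (kap (rQ γ q) * (del hA (rQ γ q)).1 τ) := by
  have h1 := sl_smul ModularForm.discriminant delta_inv q γ τ
  rw [sl_eq, sl_eq] at h1
  rw [mul_comm (denom γ τ ^ (12 : ℤ))]
  exact h1

lemma psi_apply (q : QN N) (ζ : A) (τ : ℍ) : (psi hA q ζ).1 τ =
    ModularForm.discriminant τ * (eps hA q).1 τ - ζ.1 * (E43 τ * (del hA q).1 τ) := rfl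

lemma wf_apply (q : QN N) (T : A) (τ : ℍ) : (wf hA q T).1 τ =
    ModularForm.discriminant τ * (eps hA q).1 τ + T.1 * (E43 τ * (del hA q).1 τ) := rfl

lemma tr_psi (γ : SL(2, ℤ)) (τ : ℍ) (q : QN N) (ζ : A) : kap q * (psi hA q ζ).1 (γ • τ) =
    (denom γ τ ^ (12 : ℤ)) ^ 2 * (kap (rQ γ q) * (psi hA (rQ γ q) ζ).1 τ) := by
  have h1 := tr_eps hA γ τ q
  have h2 := tr_del hA γ τ q
  rw [psi_apply, psi_apply, delta_smul, E43_smul]
  linear_combination (ModularForm.discriminant τ * denom γ τ ^ (12 : ℤ)) * h1 -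
    (ζ.1 * (E43 τ * denom γ τ ^ (12 : ℤ))) * h2

lemma tr_wf (γ : SL(2, ℤ)) (τ : ℍ) (q : QN N) (T : A) : kap q * (wf hA q T).1 (γ • τ) =
    (denom γ τ ^ (12 : ℤ)) ^ 2 * (kap (rQ γ q) * (wf hA (rQ γ q) T).1 τ) := by
  have h1 := tr_eps hA γ τ q
  have h2 := tr_del hA γ τ q
  rw [wf_apply, wf_apply, delta_smul, E43_smul]
  linear_combination (ModularForm.discriminant τ * denom γ τ ^ (12 : ℤ)) * h1 +
    (T.1 * (E43 τ * denom γ τ ^ (12 : ℤ))) * h2

variable {ι : Type} [Fintype ι]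

/-- the numerators -/
noncomputable def tU (Z : ι → A) (q : QN N) : RA N A :=
  (∏ i, psi hA q (Z i)) * ((e0 N A) ^ (N + 1) * eps hA q ^ N * ((d0 N A) ^ (N - 1) * del hA q ^ N))

/-- the denominators -/
noncomputable def tW (ι : Type) [Fintype ι] (T : A) (q : QN N) : RA N A := wf hA q T ^ (Fintype.card ι + 2 * N)

lemma tU_apply (Z : ι → A) (q : QN N) (τ : ℍ) : (tU hA Z q).1 τ =
    (∏ i, (psi hA q (Z i)).1 τ) * (E43 τ ^ (N + 1) * (eps hA q).1 τ ^ N *
      (ModularForm.discriminant τ ^ (N - 1) * (del hA q).1 τ ^ N)) := by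
  have : evA N A τ (tU hA Z q) = (∏ i, (psi hA q (Z i)).1 τ) * (E43 τ ^ (N + 1) * (eps hA q).1 τ ^ N *
      (ModularForm.discriminant τ ^ (N - 1) * (del hA q).1 τ ^ N)) := by
    unfold tU
    simp only [map_mul, map_prod, map_pow]
    rfl
  exact this

lemma tW_apply (T : A) (q : QN N) (τ : ℍ) : (tW hA ι T q).1 τ = (wf hA q T).1 τ ^ (Fintype.card ι + 2 * N) := by
  have : evA N A τ (tW hA ι T q) = (wf hA q T).1 τ ^ (Fintype.card ι + 2 * N) := by
    unfold tW
    rw [map_pow]; rfl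
  exact this

lemma tr_tU (Z : ι → A) (γ : SL(2, ℤ)) (τ : ℍ) (q : QN N) :
    kap q ^ (Fintype.card ι + 2 * N) * (tU hA Z q).1 (γ • τ) =
    (denom γ τ ^ (12 : ℤ)) ^ (2 * (Fintype.card ι + 2 * N)) *
      (kap (rQ γ q) ^ (Fintype.card ι + 2 * N) * (tU hA Z (rQ γ q)).1 τ) := by
  have hN := N_pos' (N := N)
  rw [tU_apply, tU_apply, delta_smul, E43_smul]
  have h1 : ∀ a b c : ℂ, ∀ f g : ι → ℂ, (∀ i, a * f i = b ^ 2 * (c * g i)) →
      a ^ (Fintype.card ι) * ∏ i, f i = b ^ (2 * Fintype.card ι) * (c ^ (Fintype.card ι) * ∏ i, g i) := by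
    intro a b c f g h
    have e1 : a ^ (Fintype.card ι) * ∏ i, f i = ∏ i, (a * f i) := by
      rw [Finset.prod_mul_distrib, Finset.prod_const, Finset.card_univ]
    have e2 : b ^ (2 * Fintype.card ι) * (c ^ (Fintype.card ι) * ∏ i, g i) = ∏ i, (b ^ 2 * (c * g i)) := by
      rw [Finset.prod_mul_distrib, Finset.prod_mul_distrib, Finset.prod_const, Finset.prod_const, Finset.card_univ,
        ← pow_mul]
    rw [e1, e2]
    exact Finset.prod_congr rfl fun i _ => h i
  have h2 := h1 _ _ _ _ _ (fun i => tr_psi hA γ τ q (Z i))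
  have h3 := tr_eps hA γ τ q
  have h4 := tr_del hA γ τ q
  set D := denom γ τ ^ (12 : ℤ) with hD
  have h5 : D ^ (N + 1) * D ^ (N - 1) = D ^ N * D ^ N := by
    rw [← pow_add, ← pow_add]; congr 1; omega
  calc kap q ^ (Fintype.card ι + 2 * N) * ((∏ i, (psi hA q (Z i)).1 (γ • τ)) * ((E43 τ * D) ^ (N + 1) * (eps hA q).1 (γ • τ) ^ N *
      ((ModularForm.discriminant τ * D) ^ (N - 1) * (del hA q).1 (γ • τ) ^ N))) =
      (kap q ^ (Fintype.card ι) * ∏ i, (psi hA q (Z i)).1 (γ • τ)) * (kap q * (eps hA q).1 (γ • τ)) ^ N *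
      (kap q * (del hA q).1 (γ • τ)) ^ N * (E43 τ ^ (N + 1) * ModularForm.discriminant τ ^ (N - 1)) *
      (D ^ (N + 1) * D ^ (N - 1)) := by
        rw [pow_add, mul_pow, mul_pow, mul_pow, mul_pow, two_mul, pow_add]; ring
    _ = _ := by
        rw [h2, h3, h4, h5, mul_pow, mul_pow, mul_pow, mul_pow, pow_add (kap (rQ γ q)), two_mul N, pow_add (kap (rQ γ q))]
        ring

lemma tr_tW (T : A) (γ : SL(2, ℤ)) (τ : ℍ) (q : QN N) :
    kap q ^ (Fintype.card ι + 2 * N) * (tW hA ι T q).1 (γ • τ) =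
    (denom γ τ ^ (12 : ℤ)) ^ (2 * (Fintype.card ι + 2 * N)) *
      (kap (rQ γ q) ^ (Fintype.card ι + 2 * N) * (tW hA ι T (rQ γ q)).1 τ) := by
  rw [tW_apply, tW_apply, ← mul_pow, tr_wf, pow_mul, mul_pow, mul_pow]

lemma ordGe_prod (s : Finset ι) (P : ι → PowerSeries ℂ) (m : ι → ℕ) (h : ∀ i ∈ s, OrdGe (P i) (m i)) :
    OrdGe (∏ i ∈ s, P i) (∑ i ∈ s, m i) := by
  classical
  induction s using Finset.induction_on with
  | empty => intro n hn; simp at hn
  | insert a s ha ih =>
    rw [Finset.prod_insert ha, Finset.sum_insert ha]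
    exact (h a (Finset.mem_insert_self _ _)).mul (ih fun i hi => h i (Finset.mem_insert_of_mem hi))

lemma tU_ord (Z : ι → A) (q : QN N) (hZ : ra q ^ 2 = N → ∃ i, (Z i).1 = (om q)⁻¹) :
    OrdGe (qHom A (tU hA Z q)) ((Fintype.card ι + 2 * N) * min N (ra q ^ 2)) := by
  classical
  have hN := N_pos' (N := N)
  have ha := ra_pos q
  have hrest : OrdGe (qHom A ((e0 N A) ^ (N + 1) * eps hA q ^ N * ((d0 N A) ^ (N - 1) * del hA q ^ N)))
      ((N - 1) * N + N * ra q ^ 2) := by
    rw [map_mul, map_mul, map_mul, map_pow, map_pow, map_pow, map_pow]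
    have h1 : OrdGe (qHom A (e0 N A) ^ (N + 1) * qHom A (eps hA q) ^ N) 0 := fun n hn => by omega
    have h2 := (lead_d0 (N := N) (A := A)).ordGe.pow (N - 1)
    have h3 := (lead_del hA q).ordGe.pow N
    have h4 := h1.mul (h2.mul h3)
    rwa [zero_add] at h4
  unfold tU
  rw [map_mul, map_prod]
  by_cases h : ra q ^ 2 = N
  · obtain ⟨i, hi⟩ := hZ h
    have hprod : OrdGe (∏ j, qHom A (psi hA q (Z j))) (∑ j, if j = i then 2 * N else N) := by
      refine ordGe_prod _ _ _ fun j _ => ?_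
      split_ifs with hj
      · subst hj; exact psi_ord' hA q _ h hi
      · have := psi_ord hA q (Z j)
        rwa [h, min_self] at this
    have hsum : (∑ j : ι, if j = i then 2 * N else N) = Fintype.card ι * N + N := by
      have : ∀ j : ι, (if j = i then 2 * N else N) = N + if j = i then N else 0 := by
        intro j; split_ifs <;> ring
      simp only [this]
      rw [Finset.sum_add_distrib, Finset.sum_const, Finset.card_univ, smul_eq_mul, Finset.sum_ite_eq' Finset.univ i]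
      simp
    rw [hsum] at hprod
    refine (hprod.mul hrest).mono ?_
    rw [h, min_self]
    obtain ⟨n, rfl⟩ : ∃ n, N = n + 1 := ⟨N - 1, by omega⟩
    simp only [Nat.add_sub_cancel]
    nlinarith
  · have hprod : OrdGe (∏ j, qHom A (psi hA q (Z j))) (∑ _j : ι, min N (ra q ^ 2)) :=
      ordGe_prod _ _ _ fun j _ => psi_ord hA q _
    rw [Finset.sum_const, Finset.card_univ, smul_eq_mul] at hprod
    refine (hprod.mul hrest).mono ?_
    rw [add_mul]
    apply Nat.add_le_add_left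
    rcases lt_or_gt_of_ne h with h1 | h1
    · rw [min_eq_right h1.le]
      obtain ⟨n, hn⟩ : ∃ n, N = n + 1 := ⟨N - 1, by omega⟩
      have h2 : ra q ^ 2 ≤ N - 1 := by omega
      have h3 : N * ra q ^ 2 ≤ N * (N - 1) := Nat.mul_le_mul_left N h2
      calc 2 * N * ra q ^ 2 = N * ra q ^ 2 + N * ra q ^ 2 := by ring
        _ ≤ N * (N - 1) + N * ra q ^ 2 := Nat.add_le_add_right h3 _
        _ = _ := by ring
    · rw [min_eq_left h1.le]
      have h2 : N + 1 ≤ ra q ^ 2 := h1
      have h3 : N * (N + 1) ≤ N * ra q ^ 2 := Nat.mul_le_mul_left N h2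
      have h4 : (N - 1) * N + N * (N + 1) = 2 * N * N := by
        obtain ⟨n, hn⟩ : ∃ n, N = n + 1 := ⟨N - 1, by omega⟩
        have : N - 1 + (N + 1) = 2 * N := by omega
        calc (N - 1) * N + N * (N + 1) = (N - 1 + (N + 1)) * N := by ring
          _ = 2 * N * N := by rw [this]
      omega

/-- the family -/
noncomputable def tateFam (Z : ι → A) (hZ : ∀ q ∈ primS N, ra q ^ 2 = N → ∃ i, (Z i).1 = (om q)⁻¹)
    (T : A) (hT : ∀ q ∈ primS N, wl q T.1 ∈ A ∧ (wl q T.1)⁻¹ ∈ A ∧ wl q T.1 ≠ 0) : Fam N A where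
  S := primS N
  stable := fun γ q => by rw [mem_primS, mem_primS, primQ_rQ]
  κ := fun q => kap q ^ (Fintype.card ι + 2 * N)
  κ_ne := fun q => pow_ne_zero _ (kap_ne_zero q)
  k := 2 * (Fintype.card ι + 2 * N)
  U := tU hA Z
  W := tW hA ι T
  hU := fun γ τ q => by
    rw [tr_tU, zpow_mul, zpow_natCast]
  hW := fun γ τ q => by
    rw [tr_tW, zpow_mul, zpow_natCast]
  L := fun q => (Fintype.card ι + 2 * N) * min N (ra q ^ 2)
  ordU := fun q hq => tU_ord hA Z q (hZ q hq)
  u := fun q => wl q T.1 ^ (Fintype.card ι + 2 * N)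
  v := fun q => (wl q T.1)⁻¹ ^ (Fintype.card ι + 2 * N)
  hu := fun q hq => A.pow_mem (hT q hq).1 _
  hv := fun q hq => A.pow_mem (hT q hq).2.1 _
  huv := fun q hq => by rw [← mul_pow, mul_inv_cancel₀ (hT q hq).2.2, one_pow]
  lead := fun q hq => by
    unfold tW
    rw [map_pow]
    exact (wf_lead hA q T).powG _

end basic

end Pool.Agent.Lib.ModularZP
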