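import Mathlib
import Pool.Agent.Lib.ModularZP.Tate
import Pool.Agent.Lib.ModularZP.Pattern

/-!
Two isogenous `j`-values outside `V` of equal absolute value: the ratio is close to a root of unity.
-/

open UpperHalfPlane hiding I
open ModularForm ModularFormClass MatrixGroups EisensteinSeries Complex Function

namespace Pool.Agent.Lib.ModularZP

instance infinite_residue (V : ValuationSubring ℂ) : Infinite (IsLocalRing.ResidueField V) := by
  by_contra hfin
  rw [not_infinite_iff_finite] at hfin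
  have : Fintype (IsLocalRing.ResidueField V) := Fintype.ofFinite _
  set q := Fintype.card (IsLocalRing.ResidueField V) with hq
  have hq1 : 1 < q := Fintype.one_lt_card
  have hdeg : (Polynomial.X ^ q - (Polynomial.X + Polynomial.C 1) : Polynomial ℂ).natDegree = q := by
    rw [Polynomial.natDegree_sub_eq_left_of_natDegree_lt]
    · exact Polynomial.natDegree_X_pow q
    · rw [Polynomial.natDegree_X_pow]
      refine lt_of_le_of_lt (Polynomial.natDegree_add_le _ _) ?_
      simpa using hq1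
  have hmon : (Polynomial.X ^ q - (Polynomial.X + Polynomial.C 1) : Polynomial ℂ).Monic := by
    apply Polynomial.monic_X_pow_sub
    refine (Polynomial.degree_add_le _ _).trans_lt ?_
    rw [max_lt_iff]
    constructor
    · rw [Polynomial.degree_X]; exact_mod_cast hq1
    · refine Polynomial.degree_C_le.trans_lt ?_
      exact_mod_cast (by omega : 0 < q)
  obtain ⟨t, ht⟩ := IsAlgClosed.exists_root (Polynomial.X ^ q - (Polynomial.X + Polynomial.C 1) : Polynomial ℂ) (by
    rw [Polynomial.degree_eq_natDegree hmon.ne_zero, hdeg]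
    exact_mod_cast (by omega : q ≠ 0))
  have htV : t ∈ V := by
    refine mem_of_monic V _ hmon ?_ ht
    intro i
    rw [Polynomial.coeff_sub, Polynomial.coeff_add, Polynomial.coeff_X_pow, Polynomial.coeff_X, Polynomial.coeff_C]
    have h0 := V.zero_mem
    have h1 := V.one_mem
    refine sub_mem ?_ (add_mem ?_ ?_) <;> split_ifs <;> assumption
  have h1 : t ^ q - (t + 1) = 0 := by
    have := ht
    rw [Polynomial.IsRoot.def, Polynomial.eval_sub, Polynomial.eval_add, Polynomial.eval_pow, Polynomial.eval_X,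
      Polynomial.eval_C] at this
    exact this
  have h2 : ((⟨t, htV⟩ : V) ^ q - (⟨t, htV⟩ + 1) : V) = 0 := by
    apply Subtype.ext
    push_cast
    exact h1
  have h3 := congrArg (IsLocalRing.residue V) h2
  rw [map_sub, map_pow, map_add, map_one, map_zero, FiniteField.pow_card] at h3
  have h4 : (1 : IsLocalRing.ResidueField V) = 0 := by linear_combination (-1 : IsLocalRing.ResidueField V) * h3
  exact one_ne_zero h4

/-- elements avoiding finitely many residue classes -/
lemma exists_avoid (V : ValuationSubring ℂ) (s : Finset ℂ) (hs : ∀ b ∈ s, b ∈ V) :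
    ∃ T ∈ V, ∀ b ∈ s, V.valuation (T - b) = 1 := by
  classical
  obtain ⟨t, ht⟩ := Infinite.exists_notMem_finset
    (s.attach.image fun b : {x // x ∈ s} => IsLocalRing.residue V ⟨b.1, hs b.1 b.2⟩)
  obtain ⟨T, hT⟩ := IsLocalRing.residue_surjective t
  refine ⟨T.1, T.2, fun b hb => ?_⟩
  have h1 : V.valuation (T.1 - b) ≤ 1 := (V.valuation_le_one_iff _).mpr (sub_mem T.2 (hs b hb))
  refine le_antisymm h1 ?_
  by_contra hlt
  push Not at hlt
  apply ht
  rw [Finset.mem_image]
  refine ⟨⟨b, hb⟩, Finset.mem_attach _ _, ?_⟩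
  rw [← hT]
  have h2 : (T - ⟨b, hs b hb⟩ : V) ∈ IsLocalRing.maximalIdeal V := by
    rw [V.valuation_lt_one_iff]
    exact hlt
  rw [← IsLocalRing.residue_eq_zero_iff, map_sub, sub_eq_zero] at h2
  exact h2.symm

section ratio

variable {N : ℕ} [NeZero N]

lemma val_unit {V : ValuationSubring ℂ} {a b : ℂ} (ha : a ∈ V) (hb : b ∈ V) (h : a * b = 1) :
    V.valuation a = 1 := by
  have h1 : V.valuation a ≤ 1 := (V.valuation_le_one_iff _).mpr ha
  have h2 : V.valuation b ≤ 1 := (V.valuation_le_one_iff _).mpr hb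
  have h3 := congrArg V.valuation h
  rw [map_mul, map_one] at h3
  refine le_antisymm h1 ?_
  calc 1 = V.valuation a * V.valuation b := h3.symm
    _ ≤ V.valuation a * 1 := mul_le_mul_right h2 _
    _ = _ := mul_one _

lemma mem_of_val {V : ValuationSubring ℂ} {a : ℂ} (h : V.valuation a = 1) : a ∈ V :=
  (V.valuation_le_one_iff _).mp h.le

lemma inv_mem_of_val {V : ValuationSubring ℂ} {a : ℂ} (h : V.valuation a = 1) : a⁻¹ ∈ V :=
  (V.valuation_le_one_iff _).mp (by rw [map_inv₀, h, inv_one])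

lemma ne_zero_of_val {V : ValuationSubring ℂ} {a : ℂ} (h : V.valuation a = 1) : a ≠ 0 := by
  rintro rfl
  rw [map_zero] at h
  exact zero_ne_one h

lemma primRoot_mem {V : ValuationSubring ℂ} {a : ℕ} {ζ : ℂ} (h : ζ ∈ primitiveRoots a ℂ) : ζ ∈ V.toSubring := by
  rcases Nat.eq_zero_or_pos a with h0 | h0
  · subst h0; simp at h
  · have h1 := ((mem_primitiveRoots h0).mp h).isIntegral h0
    exact mem_of_isIntegral V h1

theorem ratio_rep (V : ValuationSubring ℂ) (q : QN N) (hq : primQ q) (τ : ℍ) (hx : jInv τ ∉ V)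
    (hu : V.valuation (jInv (toGL (rep q) • τ) / jInv τ) = 1) :
    (∏ ζ ∈ primitiveRoots (Nat.sqrt N) ℂ, (jInv (toGL (rep q) • τ) / jInv τ - ζ)) * jInv τ ∈ V := by
  classical
  have hA := AI_le V
  set x := jInv τ with hxdef
  set y := jInv (toGL (rep q) • τ) with hydef
  set u := y / x with hudef
  -- choice of `T`
  obtain ⟨T, hTV, hT⟩ := exists_avoid V ({0} ∪ {-u} ∪ (primS N).image fun q => -(om q)⁻¹) (by
    intro b hb
    simp only [Finset.mem_union, Finset.mem_singleton, Finset.mem_image] at hb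
    rcases hb with (rfl | rfl) | ⟨q', _, rfl⟩
    · exact zero_mem _
    · exact neg_mem (mem_of_val hu)
    · exact neg_mem (hA (om_inv_mem q')))
  have hT0 : V.valuation T = 1 := by
    have := hT 0 (by simp)
    rwa [sub_zero] at this
  have hTu : V.valuation (u + T) = 1 := by
    have := hT (-u) (by simp)
    rwa [sub_neg_eq_add, add_comm] at this
  have hom : ∀ q : QN N, V.valuation (om q) = 1 := fun q => val_unit (hA (om_mem q)) (hA (om_inv_mem q)) (om_inv q)
  have hTom : ∀ q ∈ primS N, V.valuation (1 + T * om q) = 1 := by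
    intro q hq
    have h1 := hT (-(om q)⁻¹) (by
      simp only [Finset.mem_union, Finset.mem_image]
      exact Or.inr ⟨q, hq, rfl⟩)
    rw [sub_neg_eq_add] at h1
    have h2 : 1 + T * om q = om q * (T + (om q)⁻¹) := by
      rw [mul_add, om_inv]; ring
    rw [h2, map_mul, h1, hom, one_mul]
  have hwl : ∀ q ∈ primS N, V.valuation (wl q T) = 1 := by
    intro q hq
    unfold wl
    split_ifs
    · exact hTom q hq
    · exact map_one _
    · rw [map_mul, hT0, hom, one_mul]
  -- the family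
  let F : Fam N V.toSubring := tateFam (ι := {ζ // ζ ∈ primitiveRoots (Nat.sqrt N) ℂ}) hA
    (fun ζ => ⟨ζ.1, primRoot_mem ζ.2⟩)
    (fun q hq h => ⟨⟨(om q)⁻¹, om_inv_primitive q ((mem_primS q).mp hq) h⟩, rfl⟩)
    ⟨T, hTV⟩ (fun q hq => ⟨mem_of_val (hwl q hq), inv_mem_of_val (hwl q hq), ne_zero_of_val (hwl q hq)⟩)
  obtain ⟨hW, hUW⟩ := F.integral hx ((mem_primS q).mpr hq)
  have hWdef : (F.W q).1 τ = (wf hA q ⟨T, hTV⟩).1 τ ^ (Fintype.card {ζ // ζ ∈ primitiveRoots (Nat.sqrt N) ℂ} + 2 * N) :=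
    tW_apply hA _ q τ
  have hUdef : (F.U q).1 τ = (∏ ζ : {ζ // ζ ∈ primitiveRoots (Nat.sqrt N) ℂ}, (psi hA q ⟨ζ.1, primRoot_mem ζ.2⟩).1 τ) *
      (E43 τ ^ (N + 1) * (eps hA q).1 τ ^ N * (ModularForm.discriminant τ ^ (N - 1) * (del hA q).1 τ ^ N)) :=
    tU_apply hA _ q τ
  -- express through `x`, `y`
  set d := ModularForm.discriminant τ with hd
  set δ := (del hA q).1 τ with hδ
  have hd0 : d ≠ 0 := discriminant_ne_zero τ
  have hδ0 : δ ≠ 0 := discriminant_ne_zero _
  have hE : E43 τ = d * x := (delta_pow_mul τ).symm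
  have hε : (eps hA q).1 τ = δ * y := (delta_pow_mul _).symm
  have hx0 : x ≠ 0 := fun h => hx (by rw [h]; exact zero_mem _)
  have hyu : y = u * x := by rw [hudef, div_mul_cancel₀ _ hx0]
  have hpsi : ∀ ζ : V.toSubring, (psi hA q ζ).1 τ = d * δ * x * (u - ζ.1) := by
    intro ζ
    rw [psi_apply, hε, hE, ← hδ, hyu]; ring
  have hwf : (wf hA q ⟨T, hTV⟩).1 τ = d * δ * x * (u + T) := by
    rw [wf_apply, hε, hE, ← hδ, hyu]; ring
  set c := Fintype.card {ζ // ζ ∈ primitiveRoots (Nat.sqrt N) ℂ} with hc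
  have hprod : (∏ ζ : {ζ // ζ ∈ primitiveRoots (Nat.sqrt N) ℂ}, (psi hA q ⟨ζ.1, primRoot_mem ζ.2⟩).1 τ) =
      (d * δ * x) ^ c * ∏ ζ ∈ primitiveRoots (Nat.sqrt N) ℂ, (u - ζ) := by
    simp only [hpsi]
    rw [Finset.prod_mul_distrib, Finset.prod_const, Finset.card_univ]
    congr 1
    exact Finset.prod_coe_sort (primitiveRoots (Nat.sqrt N) ℂ) (fun ζ => u - ζ)
  have hN := N_pos' (N := N)
  have hkey : (F.U q).1 τ / (F.W q).1 τ = (∏ ζ ∈ primitiveRoots (Nat.sqrt N) ℂ, (u - ζ)) * x * (u ^ N / (u + T) ^ (c + 2 * N)) := by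
    have huT0 : u + T ≠ 0 := ne_zero_of_val hTu
    rw [hUdef, hWdef, hprod, hwf, hE, hε, hyu]
    rw [div_eq_iff (pow_ne_zero _ (mul_ne_zero (mul_ne_zero (mul_ne_zero hd0 hδ0) hx0) huT0))]
    rw [mul_pow (d * δ * x) (u + T), ← mul_assoc, ← mul_div_assoc]
    have h1 : (u + T) ^ (c + 2 * N) ≠ 0 := pow_ne_zero _ huT0
    obtain ⟨n, hn⟩ : ∃ n, N = n + 1 := ⟨N - 1, by omega⟩
    have e1 : (d * x) ^ (N + 1) * (δ * (u * x)) ^ N * (d ^ (N - 1) * δ ^ N) = u ^ N * x * (d * δ * x) ^ (2 * N) := by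
      have h2 : d ^ (N + 1) * d ^ (N - 1) = d ^ (2 * N) := by
        rw [← pow_add]; congr 1; omega
      calc (d * x) ^ (N + 1) * (δ * (u * x)) ^ N * (d ^ (N - 1) * δ ^ N) =
          (d ^ (N + 1) * d ^ (N - 1)) * (x ^ (N + 1) * x ^ N) * (δ ^ N * δ ^ N) * u ^ N := by
            rw [mul_pow, mul_pow, mul_pow]; ring
        _ = _ := by
            rw [h2, mul_pow, mul_pow, two_mul, pow_add x N 1, pow_add x N N, pow_add δ N N]; ring
    rw [pow_add (d * δ * x)]
    field_simp
    linear_combination (∏ ζ ∈ primitiveRoots (Nat.sqrt N) ℂ, (u - ζ)) * e1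
  rw [hkey] at hUW
  have h2 : V.valuation (u ^ N / (u + T) ^ (c + 2 * N)) = 1 := by
    rw [map_div₀, map_pow, map_pow, hu, hTu, one_pow, one_pow, div_one]
  rw [← V.valuation_le_one_iff, map_mul, h2, mul_one] at hUW
  exact (V.valuation_le_one_iff _).mp hUW

end ratio

end Pool.Agent.Lib.ModularZP
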