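import Mathlib
import Pool.Agent.ZP46.Sieve
import Pool.Agent.ZP46.GoodPl
import Pool.Agent.ZP46.Count

/-!
Almost all vectors of rational coefficients have two good private primes in each leading coefficient.
-/

open Filter Topology

namespace Pool.Agent.Lib.ModularZP

/-- `p` is a good private prime for the coefficient `c i 0` -/
def Priv {n N : ℕ} (S : Finset ℂ) (T : Fin n → Finset (Fin (N + 1) → ℂ)) (c : Fin n → Fin (N + 1) → ℂ)
    (i : Fin n) (p : ℕ) : Prop :=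
  p.Prime ∧ ∃ V : ValuationSubring ℂ, V.valuation (p : ℂ) < 1 ∧ (∀ s ∈ S, s ∈ V) ∧ c i 0 ∉ V ∧
    (∀ j k, (j, k) ≠ (i, 0) → c j k ∈ V) ∧
    ∀ j, j ≠ i → ∀ ζ ∈ T j, V.valuation (∑ k, c j k * ζ k) = 1

/-- the rational coefficient vectors of height at most `H` -/
def box (n N H : ℕ) : Set (Fin n → Fin (N + 1) → ℚ) :=
  {c | ∀ i k, |(c i k).num| ≤ H ∧ (c i k).den ≤ H}

end Pool.Agent.Lib.ModularZP

namespace Pool.Agent.ZP46

open Finset

section box

variable {ι : Type*} [Fintype ι] (s₀ : ι) {p : ℕ} [Fact p.Prime]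

open Classical in
/-- the allowed values of each coordinate -/
noncomputable def allowedS (p : ℕ) [Fact p.Prime] : ι ⊕ ι → Finset (ZMod p)
  | Sum.inl s => if s = s₀ then Finset.univ.erase 0 else Finset.univ
  | Sum.inr s => if s = s₀ then {0} else Finset.univ.erase 0

open Classical in
/-- residue vectors with one denominator divisible by `p` -/
noncomputable def boxS (p : ℕ) [Fact p.Prime] : Finset (ι ⊕ ι → ZMod p) :=
  Fintype.piFinset (allowedS s₀ p)

lemma mem_boxS {x : ι ⊕ ι → ZMod p} :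
    x ∈ boxS s₀ p ↔ x (Sum.inr s₀) = 0 ∧ x (Sum.inl s₀) ≠ 0 ∧ ∀ s, s ≠ s₀ → x (Sum.inr s) ≠ 0 := by
  classical
  unfold boxS
  rw [Fintype.mem_piFinset]
  constructor
  · intro h
    refine ⟨?_, ?_, fun s hs => ?_⟩
    · have := h (Sum.inr s₀)
      simpa [allowedS] using this
    · have := h (Sum.inl s₀)
      simpa [allowedS] using this
    · have := h (Sum.inr s)
      simpa [allowedS, hs] using this
  · rintro ⟨h1, h2, h3⟩ (s | s)
    · by_cases hs : s = s₀
      · rw [hs]; simpa [allowedS] using h2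
      · simp [allowedS, hs]
    · by_cases hs : s = s₀
      · rw [hs]; simpa [allowedS] using h1
      · simpa [allowedS, hs] using h3 s hs

lemma card_boxS : (p - 1) ^ (2 * Fintype.card ι) ≤ p * (boxS s₀ p).card := by
  classical
  have hp : 1 < p := (Fact.out : p.Prime).one_lt
  unfold boxS
  rw [Fintype.card_piFinset, Fintype.prod_sum_type]
  have h1 : (p - 1) ^ (Fintype.card ι) ≤ ∏ s, (allowedS s₀ p (Sum.inl s)).card := by
    rw [← Finset.card_univ, ← Finset.prod_const]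
    refine Finset.prod_le_prod' fun s _ => ?_
    unfold allowedS
    simp only
    split_ifs
    · rw [Finset.card_erase_of_mem (Finset.mem_univ _), Finset.card_univ, ZMod.card]
    · rw [Finset.card_univ, ZMod.card]; omega
  have h2 : (p - 1) ^ (Fintype.card ι) ≤ p * ∏ s, (allowedS s₀ p (Sum.inr s)).card := by
    rw [← Finset.mul_prod_erase Finset.univ (fun s => (allowedS s₀ p (Sum.inr s)).card) (Finset.mem_univ s₀)]
    rw [← Finset.card_univ, ← Finset.prod_const, ← Finset.mul_prod_erase Finset.univ (fun _ => p - 1) (Finset.mem_univ s₀)]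
    have h3 : (allowedS s₀ p (Sum.inr s₀)).card = 1 := by simp [allowedS]
    rw [h3, one_mul]
    refine Nat.mul_le_mul (by omega) ?_
    refine Finset.prod_le_prod' fun s hs => ?_
    unfold allowedS
    simp only
    rw [if_neg (Finset.ne_of_mem_erase hs), Finset.card_erase_of_mem (Finset.mem_univ _), Finset.card_univ, ZMod.card]
  calc (p - 1) ^ (2 * Fintype.card ι) = (p - 1) ^ (Fintype.card ι) * (p - 1) ^ (Fintype.card ι) := by ring
    _ ≤ (∏ s, (allowedS s₀ p (Sum.inl s)).card) * (p * ∏ s, (allowedS s₀ p (Sum.inr s)).card) := Nat.mul_le_mul h1 h2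
    _ = _ := by ring

/-- an event which prescribes one coefficient up to `N` values -/
lemma event_boundS {K : Type*} [Field K] (ψ : ZMod p →+* K) (s : ι) (hs : s ≠ s₀) (N : ℕ) (Bad : (ι ⊕ ι → ZMod p) → Prop)
    [DecidablePred Bad] [DecidableEq ι]
    (h : ∀ x ∈ boxS s₀ p, ∃ S : Finset K, S.card ≤ N ∧
      ∀ v, Bad (Function.update x (Sum.inl s) v) → ψ (v / x (Sum.inr s)) ∈ S) :
    p * ((boxS s₀ p).filter Bad).card ≤ N * (boxS s₀ p).card := by
  classical
  have hp : 1 < p := (Fact.out : p.Prime).one_lt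
  have : NeZero p := ⟨by omega⟩
  refine fiber _ (Sum.inl s) ?_ Bad N ?_
  · intro x hx v
    rw [mem_boxS] at hx ⊢
    obtain ⟨h1, h2, h3⟩ := hx
    refine ⟨?_, ?_, fun s' hs' => ?_⟩
    · rwa [Function.update_of_ne (by simp)]
    · rwa [Function.update_of_ne (by simpa using hs.symm)]
    · rw [Function.update_of_ne (by simp)]
      exact h3 s' hs'
  · intro x hx
    obtain ⟨S, hS, hv⟩ := h x hx
    refine le_trans ?_ hS
    refine Finset.card_le_card_of_injOn (fun v => ψ (v / x (Sum.inr s))) ?_ ?_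
    · intro v hv'
      simp only [Finset.coe_filter, Finset.mem_univ, true_and, Set.mem_ofPred_eq] at hv'
      exact hv v hv'
    · intro v _ v' _ hvv
      have h1 := ψ.injective hvv
      have h2 : x (Sum.inr s) ≠ 0 := ((mem_boxS s₀).mp hx).2.2 s hs
      simpa [div_left_inj' h2] using h1

/-- a large part of the box -/
lemma card_of_compl {C : ℕ} (hC : 0 < C) (P : (ι ⊕ ι → ZMod p) → Prop) [DecidablePred P]
    (h1 : p * ((boxS s₀ p).filter fun x => ¬ P x).card ≤ C * (boxS s₀ p).card) (hp1 : 2 * C ≤ p)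
    (hp2 : 4 * Fintype.card ι ≤ p) :
    p ^ (2 * Fintype.card ι) ≤ 4 * p * ((boxS s₀ p).filter P).card := by
  classical
  have hp : 1 < p := (Fact.out : p.Prime).one_lt
  set M := Fintype.card ι with hM
  set X := boxS s₀ p with hX
  have h2 : 2 * (X.filter fun x => ¬ P x).card ≤ X.card := by
    have h3 : C * (2 * (X.filter fun x => ¬ P x).card) ≤ C * X.card := by
      refine le_trans ?_ h1
      rw [← mul_assoc, mul_comm C 2]
      exact Nat.mul_le_mul_right _ hp1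
    exact Nat.le_of_mul_le_mul_left h3 hC
  have h3 : (X.filter P).card + (X.filter fun x => ¬ P x).card = X.card :=
    Finset.card_filter_add_card_filter_not _
  have h5 := card_boxS (p := p) s₀
  rw [← hM, ← hX] at h5
  have h6 : p ^ (2 * M) ≤ 2 * (p - 1) ^ (2 * M) := by
    have hpR : (0 : ℝ) < p := by exact_mod_cast (by omega : 0 < p)
    have h7 := one_add_mul_le_pow (a := - (1 / (p : ℝ))) (by
      have : 1 / (p : ℝ) ≤ 1 := by
        rw [div_le_one hpR]
        exact_mod_cast hp.le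
      linarith) (2 * M)
    have h8 : (1 : ℝ) / 2 ≤ 1 + ((2 * M : ℕ) : ℝ) * (- (1 / (p : ℝ))) := by
      have h9 : ((2 * M : ℕ) : ℝ) * (1 / (p : ℝ)) ≤ 1 / 2 := by
        rw [mul_one_div, div_le_iff₀ hpR]
        have : ((4 * M : ℕ) : ℝ) ≤ p := by exact_mod_cast hp2
        push_cast at this ⊢
        linarith
      linarith
    have h9 : (1 : ℝ) / 2 ≤ (1 + - (1 / (p : ℝ))) ^ (2 * M) := h8.trans h7
    have h10 : (p : ℝ) ^ (2 * M) ≤ 2 * ((p - 1 : ℕ) : ℝ) ^ (2 * M) := by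
      have h11 : ((p - 1 : ℕ) : ℝ) = p * (1 + - (1 / (p : ℝ))) := by
        rw [Nat.cast_sub hp.le]
        field_simp
        push_cast
        ring
      rw [h11, mul_pow]
      have h12 : (0 : ℝ) < (p : ℝ) ^ (2 * M) := pow_pos hpR _
      nlinarith
    exact_mod_cast h10
  have h7 : X.card ≤ 2 * (X.filter P).card := by omega
  calc p ^ (2 * M) ≤ 2 * (p - 1) ^ (2 * M) := h6
    _ ≤ 2 * (p * X.card) := Nat.mul_le_mul_left _ h5
    _ ≤ 2 * (p * (2 * (X.filter P).card)) := Nat.mul_le_mul_left _ (Nat.mul_le_mul_left _ h7)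
    _ = 4 * p * (X.filter P).card := by ring

end box

open Classical in
lemma few {ι : Type*} [Fintype ι] (Ω : ∀ p : Nat.Primes, Finset (ι ⊕ ι → ZMod p)) (S : Finset Nat.Primes)
    (hΩ : ∀ p ∈ S, (p : ℕ) ^ (2 * Fintype.card ι) ≤ 4 * (p : ℕ) * (Ω p).card) {H : ℕ} (hH : ∏ p ∈ S, (p : ℕ) ≤ H) :
    (((Fintype.piFinset fun _ : ι => ratFin H).filter
      fun c => ∀ p ∈ S, (fun k => (toInt c k : ZMod (p : ℕ))) ∉ Ω p).card : ℝ) ≤
      64 ^ Fintype.card ι * (∏ p ∈ S, (1 - 1 / (4 * (p : ℝ)))) * ((Fintype.piFinset fun _ : ι => ratFin H).card : ℝ) := by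
  set M := Fintype.card ι with hM
  have hcard : Fintype.card (ι ⊕ ι) = 2 * M := by rw [Fintype.card_sum]; ring
  set X := Fintype.piFinset fun _ : ι => ratFin H with hX
  have h1 : (X.filter fun c => ∀ p ∈ S, (fun k => (toInt c k : ZMod (p : ℕ))) ∉ Ω p).card ≤
      ((intBox (ι ⊕ ι) H).filter fun x => ∀ p ∈ S, (fun k => (x k : ZMod (p : ℕ))) ∉ Ω p).card := by
    refine card_le_card_of_injOn toInt ?_ toInt_injective.injOn
    intro c hc
    rw [mem_coe, mem_filter] at hc ⊢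
    refine ⟨?_, hc.2⟩
    unfold intBox
    rw [Fintype.mem_piFinset]
    have h2 := fun s => mem_ratFin.mp (Fintype.mem_piFinset.mp hc.1 s)
    rintro (s | s)
    · have := (h2 s).1
      simp only [toInt, Sum.elim_inl, mem_Icc]
      omega
    · have := (h2 s).2
      simp only [toInt, Sum.elim_inr, mem_Icc]
      omega
  have h2 := sieve_real (κ := ι ⊕ ι) S Ω H hH (by
    intro p hp
    rw [hcard]
    exact hΩ p hp)
  rw [hcard] at h2
  have h3 : ((X.filter fun c => ∀ p ∈ S, (fun k => (toInt c k : ZMod (p : ℕ))) ∉ Ω p).card : ℝ) ≤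
      (((intBox (ι ⊕ ι) H).filter fun x => ∀ p ∈ S, (fun k => (x k : ZMod (p : ℕ))) ∉ Ω p).card : ℝ) := by
    exact_mod_cast h1
  have htot : ((H : ℝ) ^ 2) ^ M ≤ 4 ^ M * (X.card : ℝ) := by
    have h1 : (X.card : ℝ) = ((ratFin H).card : ℝ) ^ M := by
      rw [hX, Fintype.card_piFinset, prod_const, card_univ]
      push_cast
      rfl
    rw [h1, ← mul_pow]
    exact pow_le_pow_left₀ (by positivity) (card_ratFin H) _
  have h64 : (4 * (H : ℝ)) ^ (2 * M) ≤ 64 ^ M * (X.card : ℝ) := by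
    have h1 : (4 * (H : ℝ)) ^ (2 * M) = 16 ^ M * ((H : ℝ) ^ 2) ^ M := by
      rw [pow_mul, mul_pow, mul_pow]; norm_num
    have h2 : (64 : ℝ) ^ M = 16 ^ M * 4 ^ M := by rw [← mul_pow]; norm_num
    rw [h1, h2, mul_assoc]
    exact mul_le_mul_of_nonneg_left htot (by positivity)
  have hprod : (0 : ℝ) ≤ ∏ p ∈ S, (1 - 1 / (4 * (p : ℝ))) := by
    refine prod_nonneg fun p _ => ?_
    have h1 : (1 : ℝ) ≤ (p : ℝ) := by exact_mod_cast p.2.one_lt.le
    have : 1 / (4 * (p : ℝ)) ≤ 1 := by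
      rw [div_le_one (by linarith)]
      linarith
    linarith
  calc _ ≤ _ := h3.trans h2
    _ ≤ (64 ^ M * (X.card : ℝ)) * ∏ p ∈ S, (1 - 1 / (4 * (p : ℝ))) := mul_le_mul_of_nonneg_right h64 hprod
    _ = _ := by ring

open Classical in
/-- as `density_rat_ncard`, with two primes for each condition -/
theorem density_two {ι J : Type*} [Fintype ι] [Fintype J] (Good : (ι → ℚ) → Prop) (P₀ : ℕ)
    (Ω : ∀ p : Nat.Primes, J → Finset (ι ⊕ ι → ZMod p))
    (hΩ : ∀ p : Nat.Primes, P₀ < (p : ℕ) → ∀ j, (p : ℕ) ^ (2 * Fintype.card ι) ≤ 4 * (p : ℕ) * (Ω p j).card)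
    (hGood : ∀ c : ι → ℚ, (∀ j, ∃ p q : Nat.Primes, p ≠ q ∧ P₀ < (p : ℕ) ∧ P₀ < (q : ℕ) ∧
      (fun k => (toInt c k : ZMod (p : ℕ))) ∈ Ω p j ∧ (fun k => (toInt c k : ZMod (q : ℕ))) ∈ Ω q j) → Good c) :
    Filter.Tendsto (fun H : ℕ =>
      ({c : ι → ℚ | (∀ s, (c s).num.natAbs ≤ H ∧ (c s).den ≤ H) ∧ ¬ Good c}.ncard : ℝ) /
      ({c : ι → ℚ | ∀ s, (c s).num.natAbs ≤ H ∧ (c s).den ≤ H}.ncard : ℝ)) Filter.atTop (nhds 0) := by
  set M := Fintype.card ι with hM
  rw [Metric.tendsto_atTop]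
  intro ε hε
  set ε' : ℝ := ε / (2 * (2 * (Fintype.card J : ℝ) + 1) * 64 ^ M) with hε'
  have hε'0 : 0 < ε' := by positivity
  obtain ⟨S₁, hS1, hS1'⟩ := exists_primes P₀ hε'0
  obtain ⟨S₂, hS2, hS2'⟩ := exists_primes (P₀ + ∑ p ∈ S₁, (p : ℕ)) hε'0
  have hdisj : ∀ p ∈ S₁, ∀ q ∈ S₂, p ≠ q := by
    intro p hp q hq h
    have h1 := hS2 q hq
    have h2 : (p : ℕ) ≤ ∑ p ∈ S₁, (p : ℕ) := single_le_sum (f := fun p : Nat.Primes => (p : ℕ)) (fun _ _ => Nat.zero_le _) hp
    rw [← h] at h1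
    omega
  refine ⟨max (max (∏ p ∈ S₁, (p : ℕ)) (∏ p ∈ S₂, (p : ℕ))) 1, fun H hH => ?_⟩
  have hH1 : ∏ p ∈ S₁, (p : ℕ) ≤ H := (le_max_left _ _).trans ((le_max_left _ _).trans hH)
  have hH1' : ∏ p ∈ S₂, (p : ℕ) ≤ H := (le_max_right _ _).trans ((le_max_left _ _).trans hH)
  have hH2 : 1 ≤ H := (le_max_right _ _).trans hH
  have e1 : {c : ι → ℚ | ∀ s, (c s).num.natAbs ≤ H ∧ (c s).den ≤ H} =
      ((Fintype.piFinset fun _ : ι => ratFin H : Finset (ι → ℚ)) : Set (ι → ℚ)) := by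
    ext c
    simp only [Set.mem_ofPred_eq, Finset.mem_coe, Fintype.mem_piFinset, mem_ratFin]
  have e2 : {c : ι → ℚ | (∀ s, (c s).num.natAbs ≤ H ∧ (c s).den ≤ H) ∧ ¬ Good c} =
      (((Fintype.piFinset fun _ : ι => ratFin H).filter fun c => ¬ Good c : Finset (ι → ℚ)) : Set (ι → ℚ)) := by
    ext c
    simp only [Set.mem_ofPred_eq, Finset.coe_filter, Fintype.mem_piFinset, mem_ratFin]
  rw [e1, e2, Set.ncard_coe_finset, Set.ncard_coe_finset]
  set X := Fintype.piFinset fun _ : ι => ratFin H with hX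
  have hsub : (X.filter fun c => ¬ Good c) ⊆
      ((univ : Finset J).biUnion fun j => X.filter fun c => ∀ p ∈ S₁, (fun k => (toInt c k : ZMod (p : ℕ))) ∉ Ω p j) ∪
      ((univ : Finset J).biUnion fun j => X.filter fun c => ∀ p ∈ S₂, (fun k => (toInt c k : ZMod (p : ℕ))) ∉ Ω p j) := by
    intro c hc
    rw [mem_filter] at hc
    rw [mem_union, mem_biUnion, mem_biUnion]
    by_contra hcon
    rw [not_or] at hcon
    obtain ⟨hc1, hc2⟩ := hcon
    push Not at hc1 hc2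
    apply hc.2
    apply hGood
    intro j
    have h1 := hc1 j (mem_univ _)
    rw [mem_filter, not_and] at h1
    have h2 := h1 hc.1
    push Not at h2
    obtain ⟨p, hp, hp'⟩ := h2
    have h3 := hc2 j (mem_univ _)
    rw [mem_filter, not_and] at h3
    have h4 := h3 hc.1
    push Not at h4
    obtain ⟨q, hq, hq'⟩ := h4
    exact ⟨p, q, hdisj p hp q hq, hS1 p hp, lt_of_le_of_lt (Nat.le_add_right _ _) (hS2 q hq), hp', hq'⟩
  have hb : ∀ S : Finset Nat.Primes, (∀ p ∈ S, P₀ < (p : ℕ)) → ∏ p ∈ S, (p : ℕ) ≤ H →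
      ∏ p ∈ S, (1 - 1 / (4 * (p : ℝ))) ≤ ε' →
      (((univ : Finset J).biUnion fun j => X.filter fun c => ∀ p ∈ S, (fun k => (toInt c k : ZMod (p : ℕ))) ∉ Ω p j).card : ℝ) ≤
      (Fintype.card J : ℝ) * (64 ^ M * ε' * (X.card : ℝ)) := by
    intro S k1 k2 k3
    have h1 : ∀ j : J, ((X.filter fun c => ∀ p ∈ S, (fun k => (toInt c k : ZMod (p : ℕ))) ∉ Ω p j).card : ℝ) ≤
        64 ^ M * ε' * (X.card : ℝ) := by
      intro j
      refine (few (fun p => Ω p j) S (fun p hp => hΩ p (k1 p hp) j) k2).trans ?_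
      exact mul_le_mul_of_nonneg_right (mul_le_mul_of_nonneg_left k3 (by positivity)) (Nat.cast_nonneg _)
    have h2 : (((univ : Finset J).biUnion fun j => X.filter fun c => ∀ p ∈ S, (fun k => (toInt c k : ZMod (p : ℕ))) ∉ Ω p j).card : ℝ) ≤
        ∑ j : J, ((X.filter fun c => ∀ p ∈ S, (fun k => (toInt c k : ZMod (p : ℕ))) ∉ Ω p j).card : ℝ) := by
      exact_mod_cast card_biUnion_le
    refine h2.trans ((sum_le_sum fun j _ => h1 j).trans (le_of_eq ?_))
    rw [sum_const, card_univ, nsmul_eq_mul]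
  have hbad : ((X.filter fun c => ¬ Good c).card : ℝ) ≤ 2 * (Fintype.card J : ℝ) * (64 ^ M * ε' * (X.card : ℝ)) := by
    have h1 := (card_le_card hsub).trans (card_union_le _ _)
    have h2 := hb S₁ hS1 hH1 hS1'
    have h3 := hb S₂ (fun q hq => lt_of_le_of_lt (Nat.le_add_right _ _) (hS2 q hq)) hH1' hS2'
    have h4 : ((X.filter fun c => ¬ Good c).card : ℝ) ≤
      (((univ : Finset J).biUnion fun j => X.filter fun c => ∀ p ∈ S₁, (fun k => (toInt c k : ZMod (p : ℕ))) ∉ Ω p j).card : ℝ) +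
      (((univ : Finset J).biUnion fun j => X.filter fun c => ∀ p ∈ S₂, (fun k => (toInt c k : ZMod (p : ℕ))) ∉ Ω p j).card : ℝ) := by
      exact_mod_cast h1
    linarith
  have hX0 : (0 : ℝ) < X.card := by
    have h1 : 0 < X.card := by
      rw [card_pos]
      exact ⟨fun _ => 0, by
        rw [hX, Fintype.mem_piFinset]
        intro s
        rw [mem_ratFin]
        exact ⟨by simp, by simpa using hH2⟩⟩
    exact_mod_cast h1
  rw [Real.dist_eq, sub_zero, abs_of_nonneg (by positivity), div_lt_iff₀ hX0]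
  calc ((X.filter fun c => ¬ Good c).card : ℝ) ≤ 2 * (Fintype.card J : ℝ) * (64 ^ M * ε' * (X.card : ℝ)) := hbad
    _ ≤ (2 * (Fintype.card J : ℝ) + 1) * (64 ^ M * ε' * (X.card : ℝ)) :=
        mul_le_mul_of_nonneg_right (by linarith) (by positivity)
    _ = ε / 2 * (X.card : ℝ) := by
        rw [hε']
        field_simp
    _ < ε * (X.card : ℝ) := by nlinarith

section places

variable {V : ValuationSubring ℂ} {p : ℕ} [Fact p.Prime] (ψ : ZMod p →+* IsLocalRing.ResidueField V)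

include ψ in
lemma val_natCast_unit {m : ℕ} (hm : (m : ZMod p) ≠ 0) : V.valuation (m : ℂ) = 1 := by
  have h1 : IsLocalRing.residue V (m : V) ≠ 0 := by
    rw [map_natCast, ← map_natCast ψ]
    exact (map_ne_zero ψ).mpr hm
  rw [residue_ne_zero] at h1
  simpa using h1

include ψ in
lemma val_intCast_unit {m : ℤ} (hm : (m : ZMod p) ≠ 0) : V.valuation (m : ℂ) = 1 := by
  have h1 : IsLocalRing.residue V (m : V) ≠ 0 := by
    rw [map_intCast, ← map_intCast ψ]
    exact (map_ne_zero ψ).mpr hm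
  rw [residue_ne_zero] at h1
  simpa using h1

include ψ in
lemma rat_mem {r : ℚ} (h : (r.den : ZMod p) ≠ 0) : (r : ℂ) ∈ V := by
  rw [← V.valuation_le_one_iff, Rat.cast_def, map_div₀, val_natCast_unit ψ h, div_one]
  exact (V.valuation_le_one_iff _).mpr (by
    have := ((r.num : V)).2
    simpa using this)

include ψ in
lemma rat_notMem {r : ℚ} (h : (r.den : ZMod p) = 0) (h' : (r.num : ZMod p) ≠ 0) : (r : ℂ) ∉ V := by
  rw [← V.valuation_le_one_iff, not_le]
  have h3 : V.valuation ((r.den : ℕ) : ℂ) < 1 := by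
    have h4 : IsLocalRing.residue V ((r.den : ℕ) : V) = 0 := by
      rw [map_natCast, ← map_natCast ψ, h, map_zero]
    rw [residue_eq_zero] at h4
    simpa using h4
  rw [Rat.cast_def, map_div₀, val_intCast_unit ψ h', one_div]
  refine (one_lt_inv₀ ?_).mpr h3
  rw [zero_lt_iff, Ne, map_eq_zero]
  exact_mod_cast r.den_ne_zero

lemma residue_rat {r : ℚ} (h : (r.den : ZMod p) ≠ 0) :
    IsLocalRing.residue V ⟨(r : ℂ), rat_mem ψ h⟩ = ψ ((r.num : ZMod p) / (r.den : ZMod p)) := by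
  rw [map_div₀, map_intCast, map_natCast, eq_div_iff (by
    rw [← map_natCast ψ]; exact (map_ne_zero ψ).mpr h), ← map_natCast (IsLocalRing.residue V),
    ← map_intCast (IsLocalRing.residue V), ← map_mul]
  congr 1
  apply Subtype.ext
  have h1 : (r.den : ℂ) ≠ 0 := by exact_mod_cast r.den_ne_zero
  have h2 : (r : ℂ) * (r.den : ℂ) = (r.num : ℂ) := by
    nth_rewrite 1 [Rat.cast_def]
    field_simp
  simpa using h2

end places

end Pool.Agent.ZP46

namespace Pool.Agent.Lib.ModularZP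

open Pool.Agent.ZP46 Finset

open Classical in
lemma exists_omega {n N : ℕ} (S : Finset ℂ) (T : Fin n → Finset (Fin (N + 1) → ℂ))
    (hT : ∀ j, ∀ ζ ∈ T j, ∃ m, ζ m = 1) :
    ∃ P₀ : ℕ, ∀ p : Nat.Primes, P₀ < (p : ℕ) →
      ∃ Ω : Fin n → Finset ((Fin n × Fin (N + 1)) ⊕ (Fin n × Fin (N + 1)) → ZMod p),
      (∀ i, (p : ℕ) ^ (2 * Fintype.card (Fin n × Fin (N + 1))) ≤ 4 * (p : ℕ) * (Ω i).card) ∧
      ∀ (c : Fin n × Fin (N + 1) → ℚ) (i : Fin n), (fun k => (toInt c k : ZMod (p : ℕ))) ∈ Ω i →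
        Priv S T (fun i k => (c (i, k) : ℂ)) i p := by
  obtain ⟨P₁, hP₁⟩ := exists_good (S ∪ univ.biUnion fun j => (T j).biUnion fun ζ => univ.image ζ)
  set C : ℕ := (∑ j, (T j).card) + 1 with hC
  refine ⟨P₁ + 2 * C + 4 * Fintype.card (Fin n × Fin (N + 1)), fun p hp => ?_⟩
  obtain ⟨V, hpV, hV⟩ := hP₁ p p.2 (by omega)
  have := charP_residue (V := V) p.2 hpV
  let ψ : ZMod (p : ℕ) →+* IsLocalRing.ResidueField V := ZMod.castHom (dvd_refl (p : ℕ)) _
  have hζ : ∀ j, ∀ ζ ∈ T j, ∀ k, ζ k ∈ V := by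
    intro j ζ hζ k
    refine (hV _ ?_).1
    rw [mem_union, mem_biUnion]
    right
    refine ⟨j, mem_univ _, ?_⟩
    rw [mem_biUnion]
    exact ⟨ζ, hζ, mem_image_of_mem _ (mem_univ k)⟩
  let r : (Fin (N + 1) → ℂ) → Fin (N + 1) → IsLocalRing.ResidueField V := fun ζ k =>
    if h : ζ k ∈ V then IsLocalRing.residue V ⟨ζ k, h⟩ else 0
  have hr : ∀ j ζ (h : ζ ∈ T j) k, r ζ k = IsLocalRing.residue V ⟨ζ k, hζ j ζ h k⟩ := by
    intro j ζ hζ' k
    simp only [r]
    rw [dif_pos (hζ j ζ hζ' k)]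
  let P : Fin n → ((Fin n × Fin (N + 1)) ⊕ (Fin n × Fin (N + 1)) → ZMod p) → Prop := fun i x =>
    ∀ j, j ≠ i → ∀ ζ ∈ T j, ∑ k, ψ (x (Sum.inl (j, k)) / x (Sum.inr (j, k))) * r ζ k ≠ 0
  refine ⟨fun i => (boxS (i, 0) (p : ℕ)).filter (P i), fun i => ?_, fun c i hc => ?_⟩
  · refine card_of_compl (i, 0) (C := C) (by omega) (P i) ?_ (by omega) (by omega)
    have hsub : (boxS (i, (0 : Fin (N + 1))) (p : ℕ)).filter (fun x => ¬ P i x) ⊆
        (univ : Finset (Fin n)).biUnion fun j => (T j).biUnion fun ζ =>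
          (boxS (i, (0 : Fin (N + 1))) (p : ℕ)).filter fun x =>
            j ≠ i ∧ ∑ k, ψ (x (Sum.inl (j, k)) / x (Sum.inr (j, k))) * r ζ k = 0 := by
      intro x hx
      rw [mem_filter] at hx
      obtain ⟨hx1, hx2⟩ := hx
      simp only [P] at hx2
      push Not at hx2
      obtain ⟨j, hj, ζ, hζ', h0⟩ := hx2
      rw [mem_biUnion]
      refine ⟨j, mem_univ _, ?_⟩
      rw [mem_biUnion]
      refine ⟨ζ, hζ', ?_⟩
      rw [mem_filter]
      exact ⟨hx1, hj, h0⟩
    have hone : ∀ j, ∀ ζ ∈ T j, (p : ℕ) * ((boxS (i, (0 : Fin (N + 1))) (p : ℕ)).filter fun x =>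
            j ≠ i ∧ ∑ k, ψ (x (Sum.inl (j, k)) / x (Sum.inr (j, k))) * r ζ k = 0).card ≤
            1 * (boxS (i, (0 : Fin (N + 1))) (p : ℕ)).card := by
      intro j ζ hζ'
      by_cases hj : j = i
      · have : ((boxS (i, (0 : Fin (N + 1))) (p : ℕ)).filter fun x =>
            j ≠ i ∧ ∑ k, ψ (x (Sum.inl (j, k)) / x (Sum.inr (j, k))) * r ζ k = 0) = ∅ := by
          rw [filter_eq_empty_iff]
          rintro x _ ⟨h, -⟩
          exact h hj
        rw [this]
        simp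
      obtain ⟨m, hm⟩ := hT j ζ hζ'
      refine event_boundS (i, (0 : Fin (N + 1))) ψ (j, m) (fun h => hj (Prod.ext_iff.mp h).1) 1 _ ?_
      intro x _
      refine ⟨{- ∑ k ∈ univ.erase m, ψ (x (Sum.inl (j, k)) / x (Sum.inr (j, k))) * r ζ k}, by simp, ?_⟩
      rintro v ⟨-, h0⟩
      rw [mem_singleton]
      have hrm : r ζ m = 1 := by
        rw [hr j ζ hζ' m]
        have : (⟨ζ m, hζ j ζ hζ' m⟩ : V) = 1 := Subtype.ext hm
        rw [this, map_one]
      rw [← add_sum_erase _ _ (mem_univ m), Function.update_self, Function.update_of_ne (by simp), hrm, mul_one] at h0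
      have h1 : ∑ k ∈ univ.erase m, ψ (Function.update x (Sum.inl (j, m)) v (Sum.inl (j, k)) /
          Function.update x (Sum.inl (j, m)) v (Sum.inr (j, k))) * r ζ k =
          ∑ k ∈ univ.erase m, ψ (x (Sum.inl (j, k)) / x (Sum.inr (j, k))) * r ζ k := by
        refine sum_congr rfl fun k hk => ?_
        have hk' : k ≠ m := ne_of_mem_erase hk
        rw [Function.update_of_ne (by simpa using hk'), Function.update_of_ne (by simp)]
      rw [h1] at h0
      exact eq_neg_of_add_eq_zero_left h0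
    have h2 := (card_le_card hsub).trans card_biUnion_le
    have h3 : ∀ j, (((T j).biUnion fun ζ => (boxS (i, (0 : Fin (N + 1))) (p : ℕ)).filter fun x =>
            j ≠ i ∧ ∑ k, ψ (x (Sum.inl (j, k)) / x (Sum.inr (j, k))) * r ζ k = 0).card) * (p : ℕ) ≤
            (T j).card * (boxS (i, (0 : Fin (N + 1))) (p : ℕ)).card := by
      intro j
      refine (Nat.mul_le_mul_right _ card_biUnion_le).trans ?_
      rw [sum_mul]
      refine (sum_le_card_nsmul _ _ (boxS (i, (0 : Fin (N + 1))) (p : ℕ)).card fun ζ hζ' => ?_).trans (le_of_eq (by rw [smul_eq_mul]))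
      have := hone j ζ hζ'
      rw [one_mul] at this
      rw [mul_comm]
      exact this
    calc (p : ℕ) * ((boxS (i, (0 : Fin (N + 1))) (p : ℕ)).filter fun x => ¬ P i x).card
        ≤ (p : ℕ) * ∑ j, ((T j).biUnion fun ζ => (boxS (i, (0 : Fin (N + 1))) (p : ℕ)).filter fun x =>
            j ≠ i ∧ ∑ k, ψ (x (Sum.inl (j, k)) / x (Sum.inr (j, k))) * r ζ k = 0).card := Nat.mul_le_mul_left _ h2
      _ = ∑ j, ((T j).biUnion fun ζ => (boxS (i, (0 : Fin (N + 1))) (p : ℕ)).filter fun x =>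
            j ≠ i ∧ ∑ k, ψ (x (Sum.inl (j, k)) / x (Sum.inr (j, k))) * r ζ k = 0).card * (p : ℕ) := by
          rw [mul_comm, sum_mul]
      _ ≤ ∑ j, (T j).card * (boxS (i, (0 : Fin (N + 1))) (p : ℕ)).card := sum_le_sum fun j _ => h3 j
      _ = (∑ j, (T j).card) * (boxS (i, (0 : Fin (N + 1))) (p : ℕ)).card := by rw [sum_mul]
      _ ≤ C * (boxS (i, (0 : Fin (N + 1))) (p : ℕ)).card := Nat.mul_le_mul_right _ (by omega)
  · rw [mem_filter, mem_boxS] at hc
    obtain ⟨⟨h1, h2, h3⟩, h4⟩ := hc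
    simp only [toInt, Sum.elim_inl, Sum.elim_inr] at h1 h2 h3
    have h3' : ∀ s, s ≠ (i, (0 : Fin (N + 1))) → ((c s).den : ZMod p) ≠ 0 := by
      intro s hs
      have := h3 s hs
      simpa using this
    refine ⟨p.2, V, hpV, fun s hs => (hV s (mem_union_left _ hs)).1, ?_, ?_, ?_⟩
    · exact rat_notMem ψ (by simpa using h1) h2
    · intro j k hjk
      exact rat_mem ψ (h3' (j, k) hjk)
    · intro j hj ζ hζ'
      have h5 := h4 j hj ζ hζ'
      have hjk : ∀ k : Fin (N + 1), (j, k) ≠ (i, (0 : Fin (N + 1))) := fun k h => hj (Prod.ext_iff.mp h).1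
      have h6 : ∑ k, ψ (((toInt c (Sum.inl (j, k)) : ℤ) : ZMod p) / ((toInt c (Sum.inr (j, k)) : ℤ) : ZMod p)) * r ζ k =
          IsLocalRing.residue V (∑ k, (⟨(c (j, k) : ℂ), rat_mem ψ (h3' _ (hjk k))⟩ : V) * ⟨ζ k, hζ j ζ hζ' k⟩) := by
        rw [map_sum]
        refine sum_congr rfl fun k _ => ?_
        rw [map_mul, residue_rat ψ (h3' _ (hjk k)), hr j ζ hζ' k]
        simp [toInt]
      rw [h6, residue_ne_zero] at h5
      simpa using h5

theorem density_linear {n N : ℕ} (S : Finset ℂ) (T : Fin n → Finset (Fin (N + 1) → ℂ))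
    (hT : ∀ j, ∀ ζ ∈ T j, ∃ m, ζ m = 1) (Good : (Fin n → Fin (N + 1) → ℚ) → Prop)
    (hGood : ∀ c : Fin n → Fin (N + 1) → ℚ,
      (∀ i, ∃ p q : ℕ, p ≠ q ∧ Priv S T (fun i k => (c i k : ℂ)) i p ∧ Priv S T (fun i k => (c i k : ℂ)) i q) →
      Good c) :
    Tendsto (fun H : ℕ => ((box n N H ∩ {c | ¬ Good c}).ncard : ℝ) / (box n N H).ncard) atTop (𝓝 0) := by
  classical
  obtain ⟨P₀, hP₀⟩ := exists_omega S T hT
  choose Ω h1 h2 using hP₀
  have hden := density_two (ι := Fin n × Fin (N + 1)) (J := Fin n) (fun c => Good fun i k => c (i, k)) P₀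
    (fun p j => if h : P₀ < (p : ℕ) then Ω p h j else ∅) (by
      intro p hp j
      simp only [dif_pos hp]
      exact h1 p hp j) (by
      intro c hc
      apply hGood
      intro i
      obtain ⟨p, q, hpq, hp, hq, hp', hq'⟩ := hc i
      simp only [dif_pos hp] at hp'
      simp only [dif_pos hq] at hq'
      exact ⟨p, q, fun h => hpq (Subtype.ext h), h2 p hp c i hp', h2 q hq c i hq'⟩)
  refine hden.congr fun H => ?_
  have hinj : Function.Injective (fun (c : Fin n × Fin (N + 1) → ℚ) (i : Fin n) (k : Fin (N + 1)) => c (i, k)) := by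
    intro c c' h
    funext ⟨i, k⟩
    exact congrFun (congrFun h i) k
  have habs : ∀ (z : ℤ), z.natAbs ≤ H ↔ |z| ≤ (H : ℤ) := by
    intro z
    rw [Int.abs_eq_natAbs]
    exact_mod_cast Iff.rfl
  have e1 : box n N H = (fun (c : Fin n × Fin (N + 1) → ℚ) (i : Fin n) (k : Fin (N + 1)) => c (i, k)) ''
      {c | ∀ s, (c s).num.natAbs ≤ H ∧ (c s).den ≤ H} := by
    ext c
    constructor
    · intro hc
      exact ⟨fun s => c s.1 s.2, fun s => ⟨(habs _).mpr (hc s.1 s.2).1, (hc s.1 s.2).2⟩, rfl⟩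
    · rintro ⟨c, hc, rfl⟩ i k
      exact ⟨(habs _).mp (hc (i, k)).1, (hc (i, k)).2⟩
  have e2 : box n N H ∩ {c | ¬ Good c} = (fun (c : Fin n × Fin (N + 1) → ℚ) (i : Fin n) (k : Fin (N + 1)) => c (i, k)) ''
      {c | (∀ s, (c s).num.natAbs ≤ H ∧ (c s).den ≤ H) ∧ ¬ Good fun i k => c (i, k)} := by
    ext c
    constructor
    · rintro ⟨hc, hc'⟩
      exact ⟨fun s => c s.1 s.2, ⟨fun s => ⟨(habs _).mpr (hc s.1 s.2).1, (hc s.1 s.2).2⟩, hc'⟩, rfl⟩
    · rintro ⟨c, ⟨hc, hc'⟩, rfl⟩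
      exact ⟨fun i k => ⟨(habs _).mp (hc (i, k)).1, (hc (i, k)).2⟩, hc'⟩
  rw [e1, Set.ncard_image_of_injective _ hinj] at *
  rw [e2, Set.ncard_image_of_injective _ hinj]

end Pool.Agent.Lib.ModularZP
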