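import Mathlib
import Pool.Agent.Lib.ModularZP.Ratio

/-!
A `p`-adic certificate for two points near the cusp not to be isogenous, and the resulting criterion
for the emptiness of the atypical set.
-/

open UpperHalfPlane hiding I
open ModularForm ModularFormClass MatrixGroups EisensteinSeries Complex Function

namespace Pool.Agent.Lib.ModularZP

/-- every matrix acts like a primitive one -/
lemma exists_prim (N : ℕ) : ∀ (_ : NeZero N) (B : MN N), ∃ (N' : ℕ) (_ : NeZero N') (B' : MN N'),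
    Prim B' ∧ ∀ τ : ℍ, toGL B' • τ = toGL B • τ := by
  induction N using Nat.strong_induction_on with
  | _ N ih =>
    intro hN B
    by_cases hP : Prim B
    · exact ⟨N, hN, B, hP, fun _ => rfl⟩
    · unfold Prim at hP
      push Not at hP
      obtain ⟨k, C, hC, hk⟩ := hP
      have hdet : k ^ 2 * C.det = N := by
        have h1 := B.2
        rw [hC, Matrix.det_smul] at h1
        simpa using h1
      have hN0 : (0 : ℤ) < N := by exact_mod_cast Nat.pos_of_ne_zero (NeZero.ne N)
      have hk0 : k ≠ 0 := by rintro rfl; simp at hdet; omega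
      have hk2 : 2 ≤ |k| := by
        rw [Int.isUnit_iff_abs_eq] at hk
        have : 0 < |k| := abs_pos.mpr hk0
        omega
      have hksq : 4 ≤ k ^ 2 := by
        have : |k| ^ 2 = k ^ 2 := sq_abs k
        nlinarith
      have hCpos : 0 < C.det := by
        by_contra h
        push Not at h
        nlinarith
      obtain ⟨N', hN'⟩ := Int.eq_ofNat_of_zero_le hCpos.le
      have hN'0 : N' ≠ 0 := by rintro rfl; rw [hN'] at hCpos; exact lt_irrefl _ hCpos
      have hlt : N' < N := by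
        have : (N' : ℤ) < N := by
          rw [← hdet, ← hN']
          nlinarith
        exact_mod_cast this
      have : NeZero N' := ⟨hN'0⟩
      obtain ⟨N'', hN'', B'', hP'', hB''⟩ := ih N' hlt ⟨hN'0⟩ (mkMN C hN')
      refine ⟨N'', hN'', B'', hP'', fun τ => ?_⟩
      rw [hB'']
      apply UpperHalfPlane.ext_iff.mpr
      rw [UpperHalfPlane.coe_smul_of_det_pos (toGL_det_pos _), UpperHalfPlane.coe_smul_of_det_pos (toGL_det_pos _)]
      have hkc : (k : ℂ) ≠ 0 := by exact_mod_cast hk0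
      have hnum : num (toGL B) τ = k * num (toGL (mkMN C hN')) τ := by
        unfold num
        rw [toGL_val, toGL_val, mkMN_val, hC]
        simp only [Matrix.map_apply, Matrix.smul_apply, smul_eq_mul]
        push_cast
        ring
      have hden : denom (toGL B) τ = k * denom (toGL (mkMN C hN')) τ := by
        unfold denom
        rw [toGL_val, toGL_val, mkMN_val, hC]
        simp only [Matrix.map_apply, Matrix.smul_apply, smul_eq_mul]
        push_cast
        ring
      rw [hnum, hden, mul_div_mul_left _ _ hkc]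

theorem ratio_general (V : ValuationSubring ℂ) (g : GL (Fin 2) ℚ) (hg : 0 < g.det.val) (τ : ℍ)
    (hx : jInv τ ∉ V) (hu : V.valuation (jInv ((g.map (algebraMap ℚ ℝ)) • τ) / jInv τ) = 1) :
    ∃ a : ℕ, 0 < a ∧
      (∏ ζ ∈ primitiveRoots a ℂ, (jInv ((g.map (algebraMap ℚ ℝ)) • τ) / jInv τ - ζ)) * jInv τ ∈ V := by
  obtain ⟨N₀, hN₀, B₀, hB₀⟩ := exists_toGL g hg
  obtain ⟨N, hN, B, hP, hB⟩ := exists_prim N₀ hN₀ B₀
  obtain ⟨γ, hγ⟩ : ∃ γ : SL(2, ℤ), γ • rep (Quotient.mk'' B : QN N) = B := by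
    have h1 := rep_mk (Quotient.mk'' B : QN N)
    have h2 := Quotient.exact h1.symm
    change B ∈ MulAction.orbit _ (rep (Quotient.mk'' B : QN N)) at h2
    obtain ⟨γ, hγ⟩ := h2
    exact ⟨γ, hγ⟩
  have hj : jInv ((g.map (algebraMap ℚ ℝ)) • τ) = jInv (toGL (rep (Quotient.mk'' B : QN N)) • τ) := by
    rw [← hB₀, ← hB]
    conv_lhs => rw [← hγ]
    rw [toGL_smul, mul_smul]
    exact jInv_smul γ _
  rw [hj] at hu ⊢
  refine ⟨Nat.sqrt N, Nat.sqrt_pos.mpr (Nat.pos_of_ne_zero (NeZero.ne N)), ?_⟩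
  exact ratio_rep V _ ((primQ_mk B).mpr hP) τ hx hu

section padic

variable {V : ValuationSubring ℂ} {p : ℕ}

lemma val_p_ne (hp : p.Prime) : V.valuation (p : ℂ) ≠ 0 := by
  rw [Ne, map_eq_zero]
  exact_mod_cast hp.ne_zero

lemma val_nat_unit (hp : p.Prime) (hV : V.valuation (p : ℂ) < 1) {l : ℕ} (hl : l.Prime) (h : l ≠ p) :
    V.valuation (l : ℂ) = 1 := by
  have hco : IsCoprime (l : ℤ) (p : ℤ) := by
    rw [Nat.isCoprime_iff_coprime]
    exact (Nat.coprime_primes hl hp).mpr h
  obtain ⟨a, b, hab⟩ := hco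
  have h1 : V.valuation (l : ℂ) ≤ 1 := (V.valuation_le_one_iff _).mpr (natCast_mem V l)
  refine le_antisymm h1 ?_
  by_contra hlt
  push Not at hlt
  have h2 : ((a : ℂ)) * (l : ℂ) + (b : ℂ) * (p : ℂ) = 1 := by exact_mod_cast hab
  have h3 : V.valuation ((a : ℂ) * (l : ℂ) + (b : ℂ) * (p : ℂ)) < 1 := by
    refine V.valuation.map_add_lt ?_ ?_
    · rw [map_mul]
      calc V.valuation (a : ℂ) * V.valuation (l : ℂ) ≤ 1 * V.valuation (l : ℂ) :=
            mul_le_mul_left ((V.valuation_le_one_iff _).mpr (intCast_mem V a)) _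
        _ < 1 := by rwa [one_mul]
    · rw [map_mul]
      calc V.valuation (b : ℂ) * V.valuation (p : ℂ) ≤ 1 * V.valuation (p : ℂ) :=
            mul_le_mul_left ((V.valuation_le_one_iff _).mpr (intCast_mem V b)) _
        _ < 1 := by rwa [one_mul]
  rw [h2, map_one] at h3
  exact lt_irrefl _ h3

/-- lower bound for cyclotomic polynomials near `1` -/
lemma cyclo_lower (hp : p.Prime) (hV : V.valuation (p : ℂ) < 1) {e : ℕ} (he : 2 ≤ e) {u : ℂ}
    (hu : V.valuation (u - 1) = V.valuation (p : ℂ) ^ e) (a : ℕ) (ha : 0 < a) :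
    V.valuation (p : ℂ) ^ e ≤ V.valuation (∏ ζ ∈ primitiveRoots a ℂ, (u - ζ)) := by
  have hprod : (∏ ζ ∈ primitiveRoots a ℂ, (u - ζ)) = (Polynomial.cyclotomic a ℂ).eval u := by
    rw [Polynomial.cyclotomic_eq_prod_X_sub_primitiveRoots (Complex.isPrimitiveRoot_exp a ha.ne'), Polynomial.eval_prod]
    simp
  have hpe1 : V.valuation (p : ℂ) ^ e ≤ 1 := pow_le_one₀ zero_le hV.le
  have hpe : V.valuation (p : ℂ) ^ e < V.valuation (p : ℂ) := by
    calc V.valuation (p : ℂ) ^ e < V.valuation (p : ℂ) ^ 1 :=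
          pow_lt_pow_right_of_lt_one₀ (zero_lt_iff.mpr (val_p_ne hp)) hV (by omega)
      _ = _ := pow_one _
  have huV : u ∈ V := by
    have h1 : u - 1 ∈ V := (V.valuation_le_one_iff _).mp (by rw [hu]; exact hpe1)
    have := add_mem h1 V.one_mem
    rwa [sub_add_cancel] at this
  rw [hprod]
  by_cases ha1 : a = 1
  · subst ha1
    rw [Polynomial.cyclotomic_one, Polynomial.eval_sub, Polynomial.eval_X, Polynomial.eval_one, hu]
  -- difference
  have hdiff : ∃ s : ℂ, s ∈ V ∧ (Polynomial.cyclotomic a ℂ).eval u = (Polynomial.cyclotomic a ℂ).eval 1 + (u - 1) * s := by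
    have h1 := Polynomial.sub_dvd_eval_sub (⟨u, huV⟩ : V) 1 (Polynomial.cyclotomic a V)
    obtain ⟨s, hs⟩ := h1
    refine ⟨s.1, s.2, ?_⟩
    have h2 := congrArg (algebraMap V ℂ) hs
    rw [map_sub, map_mul, map_sub, map_one] at h2
    have h3 : ∀ z : V, algebraMap V ℂ ((Polynomial.cyclotomic a V).eval z) = (Polynomial.cyclotomic a ℂ).eval (algebraMap V ℂ z) := by
      intro z
      rw [← Polynomial.map_cyclotomic a (algebraMap V ℂ), Polynomial.eval_map_algebraMap, Polynomial.aeval_algebraMap_apply]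
      rfl
    rw [h3, h3, map_one] at h2
    have h4 : algebraMap V ℂ ⟨u, huV⟩ = u := rfl
    have h5 : algebraMap V ℂ s = s.1 := rfl
    rw [h4, h5] at h2
    linear_combination h2
  obtain ⟨s, hs, hds⟩ := hdiff
  have hsmall : V.valuation ((u - 1) * s) < V.valuation (p : ℂ) := by
    rw [map_mul, hu]
    calc V.valuation (p : ℂ) ^ e * V.valuation s ≤ V.valuation (p : ℂ) ^ e * 1 :=
          mul_le_mul_right ((V.valuation_le_one_iff _).mpr hs) _
      _ < _ := by rwa [mul_one]
  have key : ∀ c : ℂ, (Polynomial.cyclotomic a ℂ).eval 1 = c → V.valuation (p : ℂ) ≤ V.valuation c →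
      V.valuation (p : ℂ) ^ e ≤ V.valuation ((Polynomial.cyclotomic a ℂ).eval u) := by
    intro c hc hle
    rw [hds, hc, V.valuation.map_add_eq_of_lt_left (hsmall.trans_le hle)]
    exact hpe.le.trans hle
  by_cases hpp : ∃ (l : ℕ) (k : ℕ), l.Prime ∧ l ^ k = a
  · obtain ⟨l, k, hl, hlk⟩ := hpp
    have hk : k ≠ 0 := by
      rintro rfl
      rw [pow_zero] at hlk
      exact ha1 hlk.symm
    obtain ⟨k', rfl⟩ := Nat.exists_eq_succ_of_ne_zero hk
    have : Fact l.Prime := ⟨hl⟩
    refine key (l : ℂ) (by rw [← hlk]; exact Polynomial.eval_one_cyclotomic_prime_pow k') ?_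
    by_cases hlp : l = p
    · rw [hlp]
    · rw [val_nat_unit hp hV hl hlp]; exact hV.le
  · push Not at hpp
    refine key 1 (Polynomial.eval_one_cyclotomic_not_prime_pow (fun {l} hl k h => hpp l k hl h)) ?_
    rw [map_one]; exact hV.le

/-- points near the cusp whose ratio is near `1` but not too near are not isogenous -/
theorem not_isogenous (hp : p.Prime) (hV : V.valuation (p : ℂ) < 1) {e : ℕ} (he : 2 ≤ e)
    (g : GL (Fin 2) ℚ) (hg : 0 < g.det.val) (τ : ℍ)
    (hx : 1 < V.valuation (jInv τ) * V.valuation (p : ℂ) ^ e)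
    (hu : V.valuation (jInv ((g.map (algebraMap ℚ ℝ)) • τ) / jInv τ - 1) = V.valuation (p : ℂ) ^ e) : False := by
  have hpe1 : V.valuation (p : ℂ) ^ e < 1 := pow_lt_one₀ zero_le hV (by omega)
  have hxV : jInv τ ∉ V := by
    intro h
    have h1 : V.valuation (jInv τ) ≤ 1 := (V.valuation_le_one_iff _).mpr h
    have h2 : V.valuation (jInv τ) * V.valuation (p : ℂ) ^ e ≤ 1 * 1 := mul_le_mul' h1 hpe1.le
    rw [one_mul] at h2
    exact absurd hx (not_lt.mpr h2)
  have hu1 : V.valuation (jInv ((g.map (algebraMap ℚ ℝ)) • τ) / jInv τ) = 1 := by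
    have h1 := V.valuation.map_add_eq_of_lt_left (x := 1) (y := jInv ((g.map (algebraMap ℚ ℝ)) • τ) / jInv τ - 1)
      (by rw [hu, map_one]; exact hpe1)
    rw [map_one] at h1
    rwa [add_sub_cancel] at h1
  obtain ⟨a, ha, h⟩ := ratio_general V g hg τ hxV hu1
  have h1 := cyclo_lower hp hV he hu a ha
  rw [← V.valuation_le_one_iff, map_mul] at h
  have h2 : V.valuation (p : ℂ) ^ e * V.valuation (jInv τ) ≤ 1 := (mul_le_mul_left h1 _).trans h
  rw [mul_comm] at h2
  exact absurd hx (not_lt.mpr h2)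

end padic

end Pool.Agent.Lib.ModularZP
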