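import Mathlib
import Pool.Agent.Lib.ModularZP.Ratio

/-!
Level one modular forms whose `q`-expansion is dominated by one monomial at the radius `1 / |j(τ)|`
do not vanish at `τ`; consequence: a refined description of isogenous points near the cusp of a
valuation ring.
-/

open UpperHalfPlane hiding I
open ModularForm ModularFormClass MatrixGroups EisensteinSeries Complex Function

namespace Pool.Agent.Lib.ModularZP

/-- the monomial of index `ν` strictly dominates `P` at the radius `v(π)` -/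
def Dom (V : ValuationSubring ℂ) (π : ℂ) (P : PowerSeries ℂ) (ν : ℕ) : Prop :=
  ∀ n, n ≠ ν → V.valuation (P.coeff n * π ^ n) < V.valuation (P.coeff ν * π ^ ν)

section dom

variable {V : ValuationSubring ℂ} {π : ℂ} {P Q : PowerSeries ℂ} {ν μ : ℕ}

lemma Dom.pos (h : Dom V π P ν) : 0 < V.valuation (P.coeff ν * π ^ ν) :=
  lt_of_le_of_lt zero_le (h (ν + 1) (by omega))

lemma Dom.coeff_ne (h : Dom V π P ν) : P.coeff ν ≠ 0 := by
  intro h0
  have := h.pos
  rw [h0, zero_mul, map_zero] at this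
  exact lt_irrefl _ this

lemma Dom.le (h : Dom V π P ν) (n : ℕ) : V.valuation (P.coeff n * π ^ n) ≤ V.valuation (P.coeff ν * π ^ ν) := by
  by_cases hn : n = ν
  · rw [hn]
  · exact (h n hn).le

lemma coeff_mul_pow (P Q : PowerSeries ℂ) (π : ℂ) (n : ℕ) : (P * Q).coeff n * π ^ n =
    ∑ x ∈ Finset.HasAntidiagonal.antidiagonal n, (P.coeff x.1 * π ^ x.1) * (Q.coeff x.2 * π ^ x.2) := by
  rw [PowerSeries.coeff_mul, Finset.sum_mul]
  refine Finset.sum_congr rfl ?_
  rintro ⟨i, j⟩ hij
  rw [Finset.HasAntidiagonal.mem_antidiagonal] at hij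
  dsimp only at hij ⊢
  rw [← hij, pow_add]
  ring

lemma Dom.mul_term (hP : Dom V π P ν) (hQ : Dom V π Q μ) {i j : ℕ} (hij : ¬ (i = ν ∧ j = μ)) :
    V.valuation ((P.coeff i * π ^ i) * (Q.coeff j * π ^ j)) <
      V.valuation ((P.coeff ν * π ^ ν) * (Q.coeff μ * π ^ μ)) := by
  rw [map_mul, map_mul]
  by_cases hi : i = ν
  · subst hi
    have hj : j ≠ μ := fun h => hij ⟨rfl, h⟩
    exact mul_lt_mul_of_pos_left (hQ j hj) hP.pos
  · calc V.valuation (P.coeff i * π ^ i) * V.valuation (Q.coeff j * π ^ j) ≤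
        V.valuation (P.coeff i * π ^ i) * V.valuation (Q.coeff μ * π ^ μ) := mul_le_mul_right (hQ.le j) _
      _ < _ := mul_lt_mul_of_pos_right (hP i hi) hQ.pos

lemma Dom.mul_aux (hP : Dom V π P ν) (hQ : Dom V π Q μ) : Dom V π (P * Q) (ν + μ) ∧
    V.valuation ((P * Q).coeff (ν + μ) * π ^ (ν + μ)) = V.valuation ((P.coeff ν * π ^ ν) * (Q.coeff μ * π ^ μ)) := by
  have hne : V.valuation ((P.coeff ν * π ^ ν) * (Q.coeff μ * π ^ μ)) ≠ 0 := by
    rw [map_mul]
    exact mul_ne_zero hP.pos.ne' hQ.pos.ne'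
  have h1 : V.valuation ((P * Q).coeff (ν + μ) * π ^ (ν + μ)) =
      V.valuation ((P.coeff ν * π ^ ν) * (Q.coeff μ * π ^ μ)) := by
    rw [coeff_mul_pow, ← Finset.add_sum_erase _ _ (show (ν, μ) ∈ Finset.HasAntidiagonal.antidiagonal (ν + μ) by simp)]
    apply V.valuation.map_add_eq_of_lt_left
    refine V.valuation.map_sum_lt hne ?_
    rintro ⟨i, j⟩ hij
    rw [Finset.mem_erase] at hij
    refine hP.mul_term hQ fun h => hij.1 ?_
    dsimp only at h
    rw [h.1, h.2]
  refine ⟨fun n hn => ?_, h1⟩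
  rw [h1, coeff_mul_pow]
  refine V.valuation.map_sum_lt hne ?_
  rintro ⟨i, j⟩ hij
  rw [Finset.HasAntidiagonal.mem_antidiagonal] at hij
  dsimp only at hij
  refine hP.mul_term hQ fun h => hn ?_
  dsimp only at h
  rw [← hij, h.1, h.2]

lemma Dom.mul (hP : Dom V π P ν) (hQ : Dom V π Q μ) : Dom V π (P * Q) (ν + μ) := (hP.mul_aux hQ).1

lemma Dom.one : Dom V π 1 0 := by
  intro n hn
  rw [PowerSeries.coeff_one, if_neg hn, zero_mul, map_zero, PowerSeries.coeff_one, if_pos rfl]
  simp

lemma Dom.prod {ι : Type*} (s : Finset ι) (P : ι → PowerSeries ℂ)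
    (h : ∀ i ∈ s, ∃ ν, Dom V π (P i) ν) : ∃ ν, Dom V π (∏ i ∈ s, P i) ν := by
  classical
  induction s using Finset.induction_on with
  | empty => exact ⟨0, Dom.one⟩
  | insert a s ha ih =>
    rw [Finset.prod_insert ha]
    obtain ⟨ν, hν⟩ := h a (Finset.mem_insert_self _ _)
    obtain ⟨μ, hμ⟩ := ih fun i hi => h i (Finset.mem_insert_of_mem hi)
    exact ⟨_, hν.mul hμ⟩

end dom

section form

variable {N : ℕ} [NeZero N] {V : ValuationSubring ℂ}

/-- a level one form dominated by one monomial at the radius `1 / |j(τ)|` does not vanish at `τ` -/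
theorem nonvanish_of_dom {M : ℕ} {k : ℤ} (hk : k = 12 * M) (F : ModularForm 𝒮ℒ k) {π : ℂ} {τ : ℍ}
    (hπ : π ^ N = (jInv τ)⁻¹) (hx : jInv τ ∉ V) {ν : ℕ} (hF : Dom V π (qExpansion (N : ℝ) F) ν) :
    F τ ≠ 0 := by
  obtain ⟨p, _, hdeg, hpe, _⟩ := struct ⊤ M k hk F (fun _ => Subring.mem_top _)
  set x := jInv τ with hxdef
  have hN := N_pos' (N := N)
  have hx0 : x ≠ 0 := fun h => hx (by rw [h]; exact zero_mem _)
  have hx1 : 1 < V.valuation x := by
    rw [← not_le]; exact fun h => hx ((V.valuation_le_one_iff _).mp h)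
  have hπx : π ^ N * x = 1 := by rw [hπ, inv_mul_cancel₀ hx0]
  have hπ0 : π ≠ 0 := by
    rintro rfl
    rw [zero_pow hN.ne', zero_mul] at hπx
    exact zero_ne_one hπx
  have hvπ0 : V.valuation π ≠ 0 := by rwa [Ne, map_eq_zero]
  have hvπ : V.valuation π < 1 := by
    by_contra h
    push Not at h
    have h1 : 1 ≤ V.valuation π ^ N := one_le_pow₀ h
    have h2 := congrArg V.valuation hπx
    rw [map_mul, map_pow, map_one] at h2
    have h3 : 1 < V.valuation π ^ N * V.valuation x :=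
      lt_of_lt_of_le hx1 (le_mul_of_one_le_left zero_le h1)
    rw [h2] at h3
    exact lt_irrefl _ h3
  -- the expansion
  set S : ℕ → PowerSeries ℂ := fun i => qHom ⊤ (e0 N ⊤) ^ i * qHom ⊤ (d0 N ⊤) ^ (M - i) with hS
  have hSlead : ∀ i, LeadAt (S i) (N * (M - i)) 1 := by
    intro i
    have h1 := (lead_e0 (N := N) (A := ⊤)).powG i
    have h2 := (lead_d0 (N := N) (A := ⊤)).powG (M - i)
    have h3 := h1.mul h2
    rw [mul_zero, zero_add, one_pow, one_pow, mul_one, mul_comm (M - i) N] at h3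
    exact h3
  have hSV : ∀ i n, (S i).coeff n ∈ V := by
    intro i n
    have h1 : CoeffsIn AI (qHom ⊤ (e0 N ⊤)) := ((E43_nice AI).width N_pos').coeffs
    have h2 : CoeffsIn AI (qHom ⊤ (d0 N ⊤)) := ((isNice_delta AI).width N_pos').coeffs
    exact AI_le V ((h1.pow i).mul (h2.pow (M - i)) n)
  have hexp : ∀ n, (qExpansion (N : ℝ) F).coeff n = ∑ i ∈ Finset.range (M + 1), p.coeff i * (S i).coeff n := by
    intro n
    set G : RA N ⊤ := ∑ i ∈ Finset.range (M + 1), cst N ⟨p.coeff i, Subring.mem_top _⟩ *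
      (e0 N ⊤ ^ i * d0 N ⊤ ^ (M - i)) with hG
    have hGF : (G.1 : ℍ → ℂ) = F := by
      ext z
      have h1 : evA N ⊤ z G = ∑ i ∈ Finset.range (M + 1), p.coeff i *
          (E43 z ^ i * ModularForm.discriminant z ^ (M - i)) := by
        rw [hG, map_sum]
        refine Finset.sum_congr rfl fun i _ => ?_
        simp only [map_mul, map_pow]
        rfl
      have h2 : (G.1 : ℍ → ℂ) z = evA N ⊤ z G := rfl
      rw [h2, h1, hpe z, Polynomial.eval_eq_sum_range' (Nat.lt_succ_of_le hdeg), Finset.mul_sum]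
      refine Finset.sum_congr rfl fun i hi => ?_
      have hi' : i ≤ M := Nat.lt_succ_iff.mp (Finset.mem_range.mp hi)
      have h3 : E43 z = ModularForm.discriminant z * jInv z := (delta_pow_mul z).symm
      rw [h3, mul_pow]
      have h4 : ModularForm.discriminant z ^ M = ModularForm.discriminant z ^ i * ModularForm.discriminant z ^ (M - i) := by
        rw [← pow_add]; congr 1; omega
      rw [h4]; ring
    have h5 : qExpansion (N : ℝ) F = qHom ⊤ G := by rw [qHom_apply, hGF]
    rw [h5, hG, map_sum, map_sum]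
    refine Finset.sum_congr rfl fun i _ => ?_
    rw [map_mul, cst_q, PowerSeries.coeff_C_mul, map_mul, map_pow, map_pow]
  -- the size of the terms
  set w : ℕ → _ := fun i => V.valuation (p.coeff i * x ^ i) with hw
  set ρ := V.valuation π ^ (N * M) with hρ
  have hρ0 : ρ ≠ 0 := pow_ne_zero _ hvπ0
  have hterm : ∀ i ≤ M, V.valuation (p.coeff i) * V.valuation π ^ (N * (M - i)) = w i * ρ := by
    intro i hi
    simp only [hw]
    rw [map_mul, map_pow, hρ]
    have h1 : N * M = N * i + N * (M - i) := by rw [← Nat.mul_add]; congr 1; omega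
    have h2 : V.valuation π ^ (N * i) * V.valuation x ^ i = 1 := by
      have h3 := congrArg V.valuation hπx
      rw [map_mul, map_pow, map_one] at h3
      rw [pow_mul, ← mul_pow, h3, one_pow]
    rw [h1, pow_add]
    calc V.valuation (p.coeff i) * V.valuation π ^ (N * (M - i)) =
        V.valuation (p.coeff i) * V.valuation π ^ (N * (M - i)) * (V.valuation π ^ (N * i) * V.valuation x ^ i) := by
          rw [h2, mul_one]
      _ = _ := by ac_rfl
  have hle : ∀ i ≤ M, ∀ n, V.valuation (p.coeff i * (S i).coeff n * π ^ n) ≤ w i * ρ := by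
    intro i hi n
    by_cases hn : n < N * (M - i)
    · rw [(hSlead i).1 n hn, mul_zero, zero_mul, map_zero]; exact zero_le
    · push Not at hn
      rw [← hterm i hi, map_mul, map_mul, map_pow]
      have h1 : V.valuation π ^ n ≤ V.valuation π ^ (N * (M - i)) := pow_le_pow_right_of_le_one' hvπ.le hn
      calc V.valuation (p.coeff i) * V.valuation ((S i).coeff n) * V.valuation π ^ n ≤
          V.valuation (p.coeff i) * 1 * V.valuation π ^ n :=
            mul_le_mul_left (mul_le_mul_right ((V.valuation_le_one_iff _).mpr (hSV i n)) _) _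
        _ ≤ _ := by rw [mul_one]; exact mul_le_mul_right h1 _
  have hlt : ∀ i ≤ M, w i ≠ 0 → ∀ n, n ≠ N * (M - i) → V.valuation (p.coeff i * (S i).coeff n * π ^ n) < w i * ρ := by
    intro i hi hwi n hn
    by_cases hn' : n < N * (M - i)
    · rw [(hSlead i).1 n hn', mul_zero, zero_mul, map_zero]
      exact zero_lt_iff.mpr (mul_ne_zero hwi hρ0)
    · have hgt : N * (M - i) < n := by omega
      have hc0 : V.valuation (p.coeff i) ≠ 0 := by
        intro h0
        apply hwi
        simp only [hw]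
        rw [map_mul, h0, zero_mul]
      rw [← hterm i hi, map_mul, map_mul, map_pow]
      have h1 : V.valuation π ^ n < V.valuation π ^ (N * (M - i)) :=
        pow_lt_pow_right_of_lt_one₀ (zero_lt_iff.mpr hvπ0) hvπ hgt
      calc V.valuation (p.coeff i) * V.valuation ((S i).coeff n) * V.valuation π ^ n ≤
          V.valuation (p.coeff i) * 1 * V.valuation π ^ n :=
            mul_le_mul_left (mul_le_mul_right ((V.valuation_le_one_iff _).mpr (hSV i n)) _) _
        _ < _ := by rw [mul_one]; exact mul_lt_mul_of_pos_left h1 (zero_lt_iff.mpr hc0)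
  have heq : ∀ i ≤ M, V.valuation (p.coeff i * (S i).coeff (N * (M - i)) * π ^ (N * (M - i))) = w i * ρ := by
    intro i hi
    rw [(hSlead i).2, mul_one, map_mul, map_pow, hterm i hi]
  -- a maximal term
  obtain ⟨i0, hi0, hmax⟩ := Finset.exists_max_image (Finset.range (M + 1)) w ⟨0, by simp⟩
  have hi0M : i0 ≤ M := Nat.lt_succ_iff.mp (Finset.mem_range.mp hi0)
  have hFle : ∀ n, V.valuation ((qExpansion (N : ℝ) F).coeff n * π ^ n) ≤ w i0 * ρ := by
    intro n
    rw [hexp, Finset.sum_mul]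
    refine V.valuation.map_sum_le fun i hi => ?_
    exact (hle i (Nat.lt_succ_iff.mp (Finset.mem_range.mp hi)) n).trans (mul_le_mul_left (hmax i hi) _)
  have hw0 : w i0 ≠ 0 := by
    intro h0
    have h1 := hF.pos
    have h2 := hFle ν
    rw [h0, zero_mul] at h2
    exact absurd h1 (not_lt.mpr h2)
  have hmaxi : ∀ i ∈ Finset.range (M + 1), w i = w i0 → N * (M - i) = ν := by
    intro i hi hwi
    have hiM : i ≤ M := Nat.lt_succ_iff.mp (Finset.mem_range.mp hi)
    by_contra hne
    have h1 := hF _ hne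
    have h2 : V.valuation ((qExpansion (N : ℝ) F).coeff (N * (M - i)) * π ^ (N * (M - i))) = w i0 * ρ := by
      rw [hexp, Finset.sum_mul, ← Finset.add_sum_erase _ _ hi]
      have h3 : V.valuation (∑ j ∈ (Finset.range (M + 1)).erase i, p.coeff j * (S j).coeff (N * (M - i)) * π ^ (N * (M - i))) <
          V.valuation (p.coeff i * (S i).coeff (N * (M - i)) * π ^ (N * (M - i))) := by
        rw [heq i hiM, hwi]
        refine V.valuation.map_sum_lt (mul_ne_zero hw0 hρ0) fun j hj => ?_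
        rw [Finset.mem_erase, Finset.mem_range] at hj
        have hjM : j ≤ M := Nat.lt_succ_iff.mp hj.2
        by_cases hwj : w j = 0
        · refine lt_of_le_of_lt (hle j hjM _) ?_
          rw [hwj, zero_mul]
          exact zero_lt_iff.mpr (mul_ne_zero hw0 hρ0)
        · refine lt_of_lt_of_le (hlt j hjM hwj _ ?_) (mul_le_mul_left (hmax j (Finset.mem_range.mpr hj.2)) _)
          intro h
          have := Nat.eq_of_mul_eq_mul_left hN h
          exact hj.1 (by omega)
      rw [V.valuation.map_add_eq_of_lt_left h3, heq i hiM, hwi]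
    rw [h2] at h1
    exact absurd (hFle ν) (not_le.mpr h1)
  have hstrict : ∀ i ∈ (Finset.range (M + 1)).erase i0, w i < w i0 := by
    intro i hi
    rw [Finset.mem_erase] at hi
    refine lt_of_le_of_ne (hmax i hi.2) fun h => hi.1 ?_
    have h1 := (hmaxi i hi.2 h).trans (hmaxi i0 hi0 rfl).symm
    have h2 := Nat.eq_of_mul_eq_mul_left hN h1
    have := Finset.mem_range.mp hi.2
    omega
  have hpx : V.valuation (p.eval x) = w i0 := by
    rw [Polynomial.eval_eq_sum_range' (Nat.lt_succ_of_le hdeg), ← Finset.add_sum_erase _ _ hi0]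
    exact V.valuation.map_add_eq_of_lt_left (V.valuation.map_sum_lt hw0 hstrict)
  have hpx0 : p.eval x ≠ 0 := by
    intro h
    rw [h, map_zero] at hpx
    exact hw0 hpx.symm
  rw [hpe]
  exact mul_ne_zero (pow_ne_zero _ (discriminant_ne_zero _)) hpx0

/-- a stable family of forms, each dominated by one monomial, has no zero at `τ` -/
theorem fam_nonvanish (S : Finset (QN N)) (hS : ∀ (γ : SL(2, ℤ)) (q : QN N), rQ γ q ∈ S ↔ q ∈ S)
    (κ : QN N → ℂ) (hκ : ∀ q, κ q ≠ 0) (k : ℕ) (W : QN N → RA N ⊤)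
    (hW : ∀ (γ : SL(2, ℤ)) (τ : ℍ) (q : QN N), κ q * (W q).1 (γ • τ) =
      denom γ τ ^ (12 * k : ℤ) * (κ (rQ γ q) * (W (rQ γ q)).1 τ))
    {π : ℂ} {τ : ℍ} (hπ : π ^ N = (jInv τ)⁻¹) (hx : jInv τ ∉ V)
    (hdom : ∀ q ∈ S, ∃ ν, Dom V π (qHom ⊤ (W q)) ν) : ∀ q ∈ S, (W q).1 τ ≠ 0 := by
  classical
  have hne : ∀ q ∈ S, qHom ⊤ (W q) ≠ 0 := by
    intro q hq h0
    obtain ⟨ν, hν⟩ := hdom q hq
    exact hν.coeff_ne (by rw [h0, map_zero])
  let F : Fam N ⊤ :=
    { S := S
      stable := hS
      κ := κ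
      κ_ne := hκ
      k := k
      U := fun _ => 0
      W := W
      hU := fun γ τ q => by
        show κ q * (0 : ℂ) = denom γ τ ^ (12 * k : ℤ) * (κ (rQ γ q) * (0 : ℂ))
        ring
      hW := hW
      L := fun q => (qHom ⊤ (W q)).order.toNat
      ordU := fun q _ n _ => by rw [map_zero, map_zero]
      u := fun q => (qHom ⊤ (W q)).coeff (qHom ⊤ (W q)).order.toNat
      v := fun q => ((qHom ⊤ (W q)).coeff (qHom ⊤ (W q)).order.toNat)⁻¹
      hu := fun _ _ => Subring.mem_top _
      hv := fun _ _ => Subring.mem_top _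
      huv := fun q hq => mul_inv_cancel₀ (PowerSeries.coeff_order (hne q hq))
      lead := fun q hq => ⟨fun n hn => PowerSeries.coeff_of_lt_order_toNat n hn, rfl⟩ }
  have hval : F.GF F.S.card τ = ∏ q ∈ S, (W q).1 τ := by
    have : F.GF F.S.card τ = evA N ⊤ τ ((F.G).coeff F.S.card) := rfl
    rw [this, F.coeff_top_eq, map_prod]
    rfl
  have hexp : qExpansion (N : ℝ) (F.GF F.S.card) = ∏ q ∈ S, qHom ⊤ (W q) := by
    have : qExpansion (N : ℝ) (F.GF F.S.card) = qHom ⊤ ((F.G).coeff F.S.card) := rfl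
    rw [this, F.coeff_top_eq, map_prod]
  obtain ⟨ν, hν⟩ := Dom.prod S (fun q => qHom ⊤ (W q)) hdom
  have h1 : F.GF F.S.card τ ≠ 0 :=
    nonvanish_of_dom (M := F.k * F.S.card) (by push_cast; ring) (F.GF F.S.card) hπ hx (by rw [hexp]; exact hν)
  rw [hval] at h1
  exact Finset.prod_ne_zero_iff.mp h1

end form

end Pool.Agent.Lib.ModularZP
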