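import Mathlib
import Pool.Agent.Lib.ModularZP.Weighted

/-!
Isogenous `j`-values outside a valuation ring: a power of one divided by a power of the other is
close to one root of unity, whose order is determined by the isogeny.
-/

open UpperHalfPlane hiding I
open ModularForm ModularFormClass MatrixGroups EisensteinSeries Complex Function

namespace Pool.Agent.Lib.ModularZP

section gap

variable {P Q : PowerSeries ℂ} {ν μ g : ℕ}

/-- `P = c t^ν + O(t^(ν+g))` -/
def Gap (P : PowerSeries ℂ) (ν g : ℕ) : Prop := ∀ n < ν + g, n ≠ ν → P.coeff n = 0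

lemma Gap.mono {g' : ℕ} (hP : Gap P ν g') (h : g ≤ g') : Gap P ν g :=
  fun n hn hne => hP n (by omega) hne

lemma Gap.one : Gap 1 0 g := fun n _ hne => by rw [PowerSeries.coeff_one, if_neg hne]

lemma Gap.mul (hP : Gap P ν g) (hQ : Gap Q μ g) : Gap (P * Q) (ν + μ) g := by
  intro n hn hne
  rw [PowerSeries.coeff_mul]
  refine Finset.sum_eq_zero ?_
  rintro ⟨i, j⟩ hij
  rw [Finset.HasAntidiagonal.mem_antidiagonal] at hij
  dsimp only at hij ⊢
  by_cases hi : i < ν + g ∧ i ≠ ν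
  · rw [hP i hi.1 hi.2, zero_mul]
  · by_cases hj : j < μ + g ∧ j ≠ μ
    · rw [hQ j hj.1 hj.2, mul_zero]
    · exfalso
      by_cases h1 : i = ν
      · by_cases h2 : j = μ
        · exact hne (by omega)
        · exact hj ⟨by omega, h2⟩
      · have h3 : ν + g ≤ i := by
          by_contra h
          exact hi ⟨by omega, h1⟩
        by_cases h2 : j = μ
        · omega
        · have h4 : μ + g ≤ j := by
            by_contra h
            exact hj ⟨by omega, h2⟩
          omega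

lemma Gap.pow (hP : Gap P ν g) (n : ℕ) : Gap (P ^ n) (n * ν) g := by
  induction n with
  | zero => rw [pow_zero, zero_mul]; exact Gap.one
  | succ n ih => rw [pow_succ, Nat.succ_mul]; exact ih.mul hP

end gap

section dom

variable {V : ValuationSubring ℂ} {π : ℂ} {P Q : PowerSeries ℂ} {ν μ g : ℕ}

lemma dom_of_lead (hπ0 : π ≠ 0) (hπ : V.valuation π < 1) (hP : ∀ n, P.coeff n ∈ V) {u : ℂ}
    (hl : LeadAt P ν u) (hu : V.valuation u = 1) : Dom V π P ν := by
  have hvπ0 : V.valuation π ≠ 0 := by rwa [Ne, map_eq_zero]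
  intro n hn
  have h1 : V.valuation (P.coeff ν * π ^ ν) = V.valuation π ^ ν := by
    rw [hl.2, map_mul, map_pow, hu, one_mul]
  rw [h1]
  by_cases h : n < ν
  · rw [hl.1 n h, zero_mul, map_zero]
    exact zero_lt_iff.mpr (pow_ne_zero _ hvπ0)
  · have h2 : ν < n := by omega
    rw [map_mul, map_pow]
    calc V.valuation (P.coeff n) * V.valuation π ^ n ≤ 1 * V.valuation π ^ n :=
          mul_le_mul_left ((V.valuation_le_one_iff _).mpr (hP n)) _
      _ < _ := by
          rw [one_mul]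
          exact pow_lt_pow_right_of_lt_one₀ (zero_lt_iff.mpr hvπ0) hπ h2

lemma Dom.C_mul (hP : Dom V π P ν) {κ : ℂ} (hκ : κ ≠ 0) : Dom V π (PowerSeries.C κ * P) ν := by
  have hvκ : 0 < V.valuation κ := zero_lt_iff.mpr (by rwa [Ne, map_eq_zero])
  intro n hn
  rw [PowerSeries.coeff_C_mul, PowerSeries.coeff_C_mul, mul_assoc, mul_assoc, map_mul, map_mul]
  exact mul_lt_mul_of_pos_left (hP n hn) hvκ

lemma Dom.sub_left (hP : Dom V π P ν) (hQ : Dom V π Q μ)
    (h : V.valuation (Q.coeff μ * π ^ μ) < V.valuation (P.coeff ν * π ^ ν)) : Dom V π (P - Q) ν := by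
  have hQn : ∀ n, V.valuation (Q.coeff n * π ^ n) < V.valuation (P.coeff ν * π ^ ν) := fun n =>
    lt_of_le_of_lt (hQ.le n) h
  have h1 : V.valuation ((P - Q).coeff ν * π ^ ν) = V.valuation (P.coeff ν * π ^ ν) := by
    rw [map_sub, sub_mul]
    exact V.valuation.map_sub_eq_of_lt_left (hQn ν)
  intro n hn
  rw [h1, map_sub, sub_mul]
  exact V.valuation.map_sub_lt (hP n hn) (hQn n)

lemma Dom.neg (hP : Dom V π P ν) : Dom V π (-P) ν := by
  intro n hn
  rw [map_neg, map_neg, neg_mul, neg_mul, Valuation.map_neg, Valuation.map_neg]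
  exact hP n hn

lemma Dom.sub_right (hP : Dom V π P ν) (hQ : Dom V π Q μ)
    (h : V.valuation (P.coeff ν * π ^ ν) < V.valuation (Q.coeff μ * π ^ μ)) : Dom V π (P - Q) μ := by
  rw [← neg_sub]
  exact (hQ.sub_left hP h).neg

lemma dom_eq (hπ0 : π ≠ 0) (hπ : V.valuation π < 1) (hP : ∀ n, P.coeff n ∈ V) (hQ : ∀ n, Q.coeff n ∈ V)
    (hPg : Gap P ν g) (hQg : Gap Q ν g) {κ c : ℂ} (hκ : V.valuation κ = 1)
    (hP1 : P.coeff ν = 1) (hQ1 : Q.coeff ν = c) (h : V.valuation π ^ g < V.valuation (1 - κ * c)) :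
    Dom V π (P - PowerSeries.C κ * Q) ν := by
  have hvπ0 : V.valuation π ≠ 0 := by rwa [Ne, map_eq_zero]
  intro n hn
  have h1 : V.valuation ((P - PowerSeries.C κ * Q).coeff ν * π ^ ν) = V.valuation (1 - κ * c) * V.valuation π ^ ν := by
    rw [map_sub, PowerSeries.coeff_C_mul, hP1, hQ1, map_mul, map_pow]
  have h0 : V.valuation (1 - κ * c) ≠ 0 := (lt_of_le_of_lt zero_le h).ne'
  rw [h1]
  by_cases hlt : n < ν + g
  · rw [map_sub, PowerSeries.coeff_C_mul, hPg n hlt hn, hQg n hlt hn, mul_zero, sub_zero, zero_mul, map_zero]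
    exact zero_lt_iff.mpr (mul_ne_zero h0 (pow_ne_zero _ hvπ0))
  · push Not at hlt
    have h2 : (P - PowerSeries.C κ * Q).coeff n ∈ V := by
      rw [map_sub, PowerSeries.coeff_C_mul]
      exact sub_mem (hP n) (mul_mem (mem_of_val hκ) (hQ n))
    rw [map_mul, map_pow]
    calc V.valuation ((P - PowerSeries.C κ * Q).coeff n) * V.valuation π ^ n ≤ 1 * V.valuation π ^ n :=
          mul_le_mul_left ((V.valuation_le_one_iff _).mpr h2) _
      _ ≤ V.valuation π ^ (ν + g) := by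
          rw [one_mul]; exact pow_le_pow_right_of_le_one' hπ.le hlt
      _ = V.valuation π ^ g * V.valuation π ^ ν := by rw [add_comm, pow_add]
      _ < _ := mul_lt_mul_of_pos_right h (zero_lt_iff.mpr (pow_ne_zero _ hvπ0))

end dom

section isog

variable {N : ℕ} [NeZero N] {V : ValuationSubring ℂ}

lemma gap_d0 : Gap (qHom ⊤ (d0 N ⊤)) N N := by
  intro n hn hne
  have h1 : (qHom ⊤ (d0 N ⊤)).coeff n = if N ∣ n then (qExpansion 1 ModularForm.discriminant).coeff (n / N) else 0 :=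
    coeff_width (isNice_delta AI) N N_pos' n
  rw [h1]
  split_ifs with hd
  · obtain ⟨m, rfl⟩ := hd
    have hN := N_pos' (N := N)
    have hm : m = 0 := by
      by_contra h
      by_cases h2 : m = 1
      · subst h2; exact hne (mul_one N)
      · have : 2 ≤ m := by omega
        have := Nat.mul_le_mul_left N this
        omega
    subst hm
    rw [mul_zero, Nat.zero_div]
    exact leadAt_delta.1 0 zero_lt_one
  · rfl

lemma gap_e0 : Gap (qHom ⊤ (e0 N ⊤)) 0 N := by
  intro n hn hne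
  have h1 : (qHom ⊤ (e0 N ⊤)).coeff n = if N ∣ n then (qExpansion 1 E43).coeff (n / N) else 0 :=
    coeff_width (E43_nice AI) N N_pos' n
  rw [h1, if_neg]
  intro hd
  have := Nat.le_of_dvd (Nat.pos_of_ne_zero hne) hd
  omega

/-- `AI ≤ ⊤` -/
lemma AI_top : AI ≤ (⊤ : Subring ℂ) := le_top

lemma gap_eps (q : QN N) : Gap (qHom ⊤ (eps AI_top q)) 0 (ra q ^ 2) := by
  intro n hn hne
  have h1 := cmp_coeff (E43_nice AI) q n
  have h2 : (qHom ⊤ (eps AI_top q)).coeff n = (qExpansion (N : ℝ) (cmp E43 q)).coeff n := rfl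
  rw [h2, h1, if_neg]
  intro hd
  have := Nat.le_of_dvd (Nat.pos_of_ne_zero hne) hd
  omega

lemma gap_del (q : QN N) : Gap (qHom ⊤ (del AI_top q)) (ra q ^ 2) (ra q ^ 2) := by
  intro n hn hne
  have h1 := cmp_coeff (isNice_delta AI) q n
  have h2 : (qHom ⊤ (del AI_top q)).coeff n = (qExpansion (N : ℝ) (cmp ModularForm.discriminant q)).coeff n := rfl
  rw [h2, h1]
  split_ifs with hd
  · obtain ⟨m, rfl⟩ := hd
    have hN : 0 < ra q ^ 2 := pow_pos (ra_pos q) 2
    have hm : m = 0 := by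
      by_contra h
      by_cases h2 : m = 1
      · subst h2; exact hne (mul_one _)
      · have : 2 ≤ m := by omega
        have := Nat.mul_le_mul_left (ra q ^ 2) this
        omega
    subst hm
    rw [mul_zero, Nat.zero_div, leadAt_delta.1 0 zero_lt_one, zero_mul]
  · rfl

/-- the form `ε^s Δ^r - κ E^r δ^s` -/
noncomputable def wfm (κ : ℂ) (r s : ℕ) (q : QN N) : RA N ⊤ :=
  eps AI_top q ^ s * d0 N ⊤ ^ r - cst N ⟨κ, Subring.mem_top _⟩ * (e0 N ⊤ ^ r * del AI_top q ^ s)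

lemma wfm_apply (κ : ℂ) (r s : ℕ) (q : QN N) (τ : ℍ) : (wfm κ r s q).1 τ =
    (eps AI_top q).1 τ ^ s * ModularForm.discriminant τ ^ r - κ * (E43 τ ^ r * (del AI_top q).1 τ ^ s) := by
  have : evA N ⊤ τ (wfm κ r s q) = (eps AI_top q).1 τ ^ s * ModularForm.discriminant τ ^ r -
      κ * (E43 τ ^ r * (del AI_top q).1 τ ^ s) := by
    unfold wfm
    simp only [map_mul, map_sub, map_pow]
    rfl
  exact this

lemma wfm_tr (κ : ℂ) (r s : ℕ) (γ : SL(2, ℤ)) (τ : ℍ) (q : QN N) : kap q ^ s * (wfm κ r s q).1 (γ • τ) =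
    denom γ τ ^ (12 * (r + s : ℕ) : ℤ) * (kap (rQ γ q) ^ s * (wfm κ r s (rQ γ q)).1 τ) := by
  have h1 := tr_eps AI_top γ τ q
  have h2 := tr_del AI_top γ τ q
  rw [wfm_apply, wfm_apply, delta_smul, E43_smul, zpow_mul, zpow_natCast]
  set D := denom γ τ ^ (12 : ℤ) with hD
  calc kap q ^ s * ((eps AI_top q).1 (γ • τ) ^ s * (ModularForm.discriminant τ * D) ^ r -
        κ * ((E43 τ * D) ^ r * (del AI_top q).1 (γ • τ) ^ s)) =
      (kap q * (eps AI_top q).1 (γ • τ)) ^ s * (ModularForm.discriminant τ * D) ^ r -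
        κ * ((E43 τ * D) ^ r * (kap q * (del AI_top q).1 (γ • τ)) ^ s) := by
        rw [mul_pow (kap q), mul_pow (kap q)]; ring
    _ = _ := by
        rw [h1, h2, mul_pow, mul_pow, mul_pow, mul_pow, mul_pow, mul_pow, pow_add]
        ring

lemma wfm_q (κ : ℂ) (r s : ℕ) (q : QN N) : qHom ⊤ (wfm κ r s q) =
    qHom ⊤ (eps AI_top q) ^ s * qHom ⊤ (d0 N ⊤) ^ r -
      PowerSeries.C κ * (qHom ⊤ (e0 N ⊤) ^ r * qHom ⊤ (del AI_top q) ^ s) := by
  unfold wfm
  rw [map_sub, map_mul, map_mul, map_mul, cst_q, map_pow, map_pow, map_pow, map_pow]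

lemma P1_V (r s : ℕ) (q : QN N) (n : ℕ) : (qHom ⊤ (eps AI_top q) ^ s * qHom ⊤ (d0 N ⊤) ^ r).coeff n ∈ V := by
  have h1 : CoeffsIn AI (qHom ⊤ (eps AI_top q)) := (cmp_nice (E43_nice AI) q).coeffs
  have h2 : CoeffsIn AI (qHom ⊤ (d0 N ⊤)) := ((isNice_delta AI).width N_pos').coeffs
  exact AI_le V ((h1.pow s).mul (h2.pow r) n)

lemma P2_V (r s : ℕ) (q : QN N) (n : ℕ) : (qHom ⊤ (e0 N ⊤) ^ r * qHom ⊤ (del AI_top q) ^ s).coeff n ∈ V := by
  have h1 : CoeffsIn AI (qHom ⊤ (del AI_top q)) := (cmp_nice (isNice_delta AI) q).coeffs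
  have h2 : CoeffsIn AI (qHom ⊤ (e0 N ⊤)) := ((E43_nice AI).width N_pos').coeffs
  exact AI_le V ((h2.pow r).mul (h1.pow s) n)

lemma P1_lead (r s : ℕ) (q : QN N) : LeadAt (qHom ⊤ (eps AI_top q) ^ s * qHom ⊤ (d0 N ⊤) ^ r) (r * N) 1 := by
  have h := ((lead_eps AI_top q).powG s).mul ((lead_d0 (N := N) (A := ⊤)).powG r)
  rw [mul_zero, zero_add, one_pow, one_pow, mul_one] at h
  exact h

lemma P2_lead (r s : ℕ) (q : QN N) : LeadAt (qHom ⊤ (e0 N ⊤) ^ r * qHom ⊤ (del AI_top q) ^ s) (s * ra q ^ 2) (om q ^ s) := by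
  have h := ((lead_e0 (N := N) (A := ⊤)).powG r).mul ((lead_del AI_top q).powG s)
  rw [mul_zero, zero_add, one_pow, one_mul] at h
  exact h

lemma P1_gap (r s : ℕ) (q : QN N) : Gap (qHom ⊤ (eps AI_top q) ^ s * qHom ⊤ (d0 N ⊤) ^ r) (r * N) (min N (ra q ^ 2)) := by
  have h := (((gap_eps q).mono (min_le_right N (ra q ^ 2))).pow s).mul ((gap_d0.mono (min_le_left N (ra q ^ 2))).pow r)
  rw [mul_zero, zero_add] at h
  exact h

lemma P2_gap (r s : ℕ) (q : QN N) : Gap (qHom ⊤ (e0 N ⊤) ^ r * qHom ⊤ (del AI_top q) ^ s) (s * ra q ^ 2) (min N (ra q ^ 2)) := by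
  have h := ((gap_e0.mono (min_le_left N (ra q ^ 2))).pow r).mul (((gap_del q).mono (min_le_right N (ra q ^ 2))).pow s)
  rw [mul_zero, zero_add] at h
  exact h

lemma om_val (q : QN N) : V.valuation (om q) = 1 := val_unit (AI_le V (om_mem q)) (AI_le V (om_inv_mem q)) (om_inv q)

/-- the root of unity attached to a primitive coset -/
lemma om_pow_primitive (q : QN N) (hq : primQ q) {t s : ℕ} (ht : 0 < t) (hs : 0 < s) (h : rd q = t * s) (h' : t ∣ ra q) :
    (om q ^ s)⁻¹ ∈ primitiveRoots t ℂ := by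
  rw [mem_primitiveRoots ht, IsPrimitiveRoot.inv_iff]
  have hco : IsCoprime (rb q) (t : ℤ) := by
    rw [Int.isCoprime_iff_gcd_eq_one]
    set k : ℕ := Int.gcd (rb q) (t : ℤ) with hk
    have hk1 : (k : ℤ) ∣ rb q := Int.gcd_dvd_left ..
    have hk2 : (k : ℤ) ∣ (t : ℤ) := Int.gcd_dvd_right ..
    have hk3 : (k : ℤ) ∣ (ra q : ℤ) := hk2.trans (by exact_mod_cast h')
    have hk4 : (k : ℤ) ∣ (rd q : ℤ) := hk2.trans (by rw [h]; exact_mod_cast dvd_mul_right t s)
    have hP := (primQ_rep q).mp hq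
    obtain ⟨b', hb'⟩ := hk1
    obtain ⟨a', ha'⟩ := hk3
    obtain ⟨d', hd'⟩ := hk4
    have hC : (rep q).1 = (k : ℤ) • (!![a', b'; 0, d'] : Matrix (Fin 2) (Fin 2) ℤ) := by
      ext i j
      fin_cases i <;> fin_cases j
      · simp only [Fin.zero_eta, Matrix.smul_apply, smul_eq_mul]
        rw [← ra_cast, ha']; simp
      · simp only [Fin.zero_eta, Fin.mk_one, Matrix.smul_apply, smul_eq_mul]
        rw [show (rep q).1 0 1 = rb q from rfl, hb']; simp
      · simp only [Fin.zero_eta, Fin.mk_one, Matrix.smul_apply, smul_eq_mul]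
        rw [rep_10]; simp
      · simp only [Fin.mk_one, Matrix.smul_apply, smul_eq_mul]
        rw [← rd_cast, hd']; simp
    have := hP _ _ hC
    rw [Int.isUnit_iff] at this
    omega
  have h2 : om q ^ s = (Complex.exp (2 * Real.pi * Complex.I / (t : ℕ))) ^ (rb q) := by
    unfold om
    rw [← Complex.exp_nat_mul, ← Complex.exp_int_mul, h]
    congr 1
    have ht0 : (t : ℂ) ≠ 0 := by exact_mod_cast ht.ne'
    have hs0 : (s : ℂ) ≠ 0 := by exact_mod_cast hs.ne'
    push_cast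
    field_simp
  rw [h2]
  exact (Complex.isPrimitiveRoot_exp t ht.ne').zpow_of_gcd_eq_one (rb q) (Int.isCoprime_iff_gcd_eq_one.mp hco)

/-- the dominated case -/
lemma wfm_dom_of_ne {π : ℂ} (hπ0 : π ≠ 0) (hπ : V.valuation π < 1) (κ : ℂ) (r s : ℕ) (q : QN N)
    (h : V.valuation κ * V.valuation π ^ (s * ra q ^ 2) ≠ V.valuation π ^ (r * N)) :
    ∃ ν, Dom V π (qHom ⊤ (wfm κ r s q)) ν := by
  have hd1 := dom_of_lead hπ0 hπ (P1_V (V := V) r s q) (P1_lead r s q) V.valuation.map_one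
  have hd2 := dom_of_lead hπ0 hπ (P2_V (V := V) r s q) (P2_lead r s q) (by rw [map_pow, om_val, one_pow])
  rw [wfm_q]
  by_cases hκ : κ = 0
  · subst hκ
    rw [map_zero, zero_mul, sub_zero]
    exact ⟨_, hd1⟩
  · have hd3 := hd2.C_mul hκ
    have e1 : V.valuation ((qHom ⊤ (eps AI_top q) ^ s * qHom ⊤ (d0 N ⊤) ^ r).coeff (r * N) * π ^ (r * N)) =
        V.valuation π ^ (r * N) := by rw [(P1_lead r s q).2, one_mul, map_pow]
    have e2 : V.valuation ((PowerSeries.C κ * (qHom ⊤ (e0 N ⊤) ^ r * qHom ⊤ (del AI_top q) ^ s)).coeff (s * ra q ^ 2) *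
        π ^ (s * ra q ^ 2)) = V.valuation κ * V.valuation π ^ (s * ra q ^ 2) := by
      rw [PowerSeries.coeff_C_mul, (P2_lead r s q).2, map_mul, map_mul, map_pow, map_pow, om_val, one_pow, mul_one]
    rcases lt_or_gt_of_ne h with h | h
    · exact ⟨_, hd1.sub_left hd3 (by rw [e1, e2]; exact h)⟩
    · exact ⟨_, hd1.sub_right hd3 (by rw [e1, e2]; exact h)⟩

theorem tate_close (q0 : QN N) (hq0 : primQ q0) (τ : ℍ) (hx : jInv τ ∉ V) :
    ∃ r s t : ℕ, 0 < r ∧ 0 < s ∧ 0 < t ∧ r.Coprime s ∧ t ^ 2 * (r * s) = N ∧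
      V.valuation (jInv (toGL (rep q0) • τ)) ^ s = V.valuation (jInv τ) ^ r ∧
      ∃ ζ ∈ primitiveRoots t ℂ, V.valuation (jInv (toGL (rep q0) • τ) ^ s / jInv τ ^ r - ζ) ≤
        max (V.valuation (jInv τ))⁻¹ (V.valuation (jInv (toGL (rep q0) • τ)))⁻¹ := by
  set x := jInv τ with hxdef
  set y := jInv (toGL (rep q0) • τ) with hydef
  have hN := N_pos' (N := N)
  have hx0 : x ≠ 0 := fun h => hx (by rw [h]; exact zero_mem _)
  have hx1 : 1 < V.valuation x := by
    rw [← not_le]; exact fun h => hx ((V.valuation_le_one_iff _).mp h)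
  obtain ⟨π, hπ⟩ := IsAlgClosed.exists_pow_nat_eq x⁻¹ hN
  have hπx : π ^ N * x = 1 := by rw [hπ, inv_mul_cancel₀ hx0]
  have hπ0 : π ≠ 0 := by
    rintro rfl
    rw [zero_pow hN.ne', zero_mul] at hπx
    exact zero_ne_one hπx
  have hvπ0 : V.valuation π ≠ 0 := by rwa [Ne, map_eq_zero]
  have hvx : V.valuation π ^ N * V.valuation x = 1 := by
    rw [← map_pow, ← map_mul, hπx, map_one]
  have hvπ : V.valuation π < 1 := by
    by_contra h
    push Not at h
    have h1 : 1 ≤ V.valuation π ^ N := one_le_pow₀ h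
    have h3 : 1 < V.valuation π ^ N * V.valuation x :=
      lt_of_lt_of_le hx1 (le_mul_of_one_le_left zero_le h1)
    rw [hvx] at h3
    exact lt_irrefl _ h3
  have hpowinj : ∀ m n : ℕ, V.valuation π ^ m = V.valuation π ^ n → m = n := by
    intro m n h
    rcases lt_trichotomy m n with h1 | h1 | h1
    · exact absurd h (pow_lt_pow_right_of_lt_one₀ (zero_lt_iff.mpr hvπ0) hvπ h1).ne'
    · exact h1
    · exact absurd h (pow_lt_pow_right_of_lt_one₀ (zero_lt_iff.mpr hvπ0) hvπ h1).ne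
  -- the value of the forms
  set D := ModularForm.discriminant τ with hD
  set δ := (del AI_top q0).1 τ with hδ
  have hE : E43 τ = D * x := (delta_pow_mul τ).symm
  have hε : (eps AI_top q0).1 τ = δ * y := (delta_pow_mul _).symm
  have hvalue : ∀ r s : ℕ, (wfm (y ^ s / x ^ r) r s q0).1 τ = 0 := by
    intro r s
    rw [wfm_apply, hE, hε, ← hδ, mul_pow, mul_pow, ← hD]
    have hxr : x ^ r ≠ 0 := pow_ne_zero _ hx0
    field_simp
    ring
  have hmain : ∀ r s : ℕ, ¬ ∀ q ∈ primS N, ∃ ν, Dom V π (qHom ⊤ (wfm (y ^ s / x ^ r) r s q)) ν := by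
    intro r s hdom
    exact fam_nonvanish (primS N) (fun γ q => by rw [mem_primS, mem_primS, primQ_rQ]) (fun q => kap q ^ s)
      (fun q => pow_ne_zero _ (kap_ne_zero q)) (r + s) (wfm (y ^ s / x ^ r) r s)
      (fun γ τ q => wfm_tr _ r s γ τ q) hπ hx hdom q0 ((mem_primS q0).mpr hq0) (hvalue r s)
  -- first step
  obtain ⟨q1, hq1, h1⟩ : ∃ q ∈ primS N, V.valuation (y ^ 1 / x ^ 1) * V.valuation π ^ (1 * ra q ^ 2) =
      V.valuation π ^ (1 * N) := by
    by_contra hcon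
    push Not at hcon
    exact hmain 1 1 fun q hq => wfm_dom_of_ne hπ0 hvπ _ 1 1 q (hcon q hq)
  set a := ra q1 with ha
  set d := rd q1 with hd
  have had : a * d = N := ra_mul_rd q1
  have ha0 : 0 < a := ra_pos q1
  have hd0 : 0 < d := rd_pos q1
  have hvy : V.valuation y * V.valuation π ^ (a ^ 2) = 1 := by
    rw [pow_one, pow_one, one_mul, one_mul, map_div₀] at h1
    have h2 : V.valuation x ≠ 0 := by rwa [Ne, map_eq_zero]
    have h3 : V.valuation π ^ N = (V.valuation x)⁻¹ := eq_inv_of_mul_eq_one_left hvx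
    rw [h3, div_eq_mul_inv] at h1
    have h4 : (V.valuation x)⁻¹ ≠ 0 := inv_ne_zero h2
    apply mul_right_cancel₀ h4
    rw [one_mul]
    conv_rhs => rw [← h1]
    ac_rfl
  set t := Nat.gcd a d with ht
  have ht0 : 0 < t := Nat.gcd_pos_of_pos_left _ ha0
  obtain ⟨r, hr⟩ : t ∣ a := Nat.gcd_dvd_left _ _
  obtain ⟨s, hs⟩ : t ∣ d := Nat.gcd_dvd_right _ _
  have hr0 : 0 < r := by
    rcases Nat.eq_zero_or_pos r with h0 | h0
    · rw [h0, mul_zero] at hr; omega
    · exact h0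
  have hs0 : 0 < s := by
    rcases Nat.eq_zero_or_pos s with h0 | h0
    · rw [h0, mul_zero] at hs; omega
    · exact h0
  have hco : r.Coprime s := by
    have h2 : Nat.gcd (t * r) (t * s) = t := by rw [← hr, ← hs]
    rw [Nat.gcd_mul_left] at h2
    exact Nat.eq_of_mul_eq_mul_left ht0 (by rw [h2, mul_one])
  have hNt : t ^ 2 * (r * s) = N := by rw [← had, hr, hs]; ring
  have hord : s * a ^ 2 = r * N := by rw [← had, hr, hs]; ring
  have hYX : V.valuation y ^ s = V.valuation x ^ r := by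
    have h2 : V.valuation y ^ s * V.valuation π ^ (s * a ^ 2) = 1 := by
      rw [mul_comm s, pow_mul, ← mul_pow, hvy, one_pow]
    have h3 : V.valuation x ^ r * V.valuation π ^ (s * a ^ 2) = 1 := by
      rw [hord, mul_comm r, pow_mul, ← mul_pow, mul_comm (V.valuation x), hvx, one_pow]
    exact mul_right_cancel₀ (pow_ne_zero _ hvπ0) (h2.trans h3.symm)
  refine ⟨r, s, t, hr0, hs0, ht0, hco, hNt, hYX, ?_⟩
  -- second step
  have hκ : V.valuation (y ^ s / x ^ r) = 1 := by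
    rw [map_div₀, map_pow, map_pow, hYX, div_self]
    exact pow_ne_zero _ (by rwa [Ne, map_eq_zero])
  by_contra hcon
  push Not at hcon
  refine hmain r s fun q hq => ?_
  by_cases hq2 : s * ra q ^ 2 = r * N
  · have hraq : ra q = a := by
      have h2 : ra q ^ 2 = a ^ 2 := Nat.eq_of_mul_eq_mul_left hs0 (hq2.trans hord.symm)
      exact Nat.pow_left_injective (two_ne_zero) h2
    have hrdq : rd q = d := by
      have h2 := (ra_mul_rd q).trans had.symm
      rw [hraq] at h2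
      exact Nat.eq_of_mul_eq_mul_left ha0 h2
    have hprim := om_pow_primitive q ((mem_primS q).mp hq) ht0 hs0 (hrdq.trans hs) (by rw [hraq, hr]; exact dvd_mul_right _ _)
    have h3 := hcon _ hprim
    have hω : V.valuation (om q ^ s) = 1 := by rw [map_pow, om_val, one_pow]
    have h4 : V.valuation (1 - y ^ s / x ^ r * om q ^ s) = V.valuation (y ^ s / x ^ r - (om q ^ s)⁻¹) := by
      have h5 : 1 - y ^ s / x ^ r * om q ^ s = -((y ^ s / x ^ r - (om q ^ s)⁻¹) * om q ^ s) := by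
        rw [sub_mul, inv_mul_cancel₀ (ne_zero_of_val hω)]; ring
      rw [h5, Valuation.map_neg, map_mul, hω, mul_one]
    have h6 : V.valuation π ^ (min N (a ^ 2)) = max (V.valuation x)⁻¹ (V.valuation y)⁻¹ := by
      rw [← eq_inv_of_mul_eq_one_left hvx, ← eq_inv_of_mul_eq_one_right hvy]
      rcases le_total N (a ^ 2) with h7 | h7
      · rw [min_eq_left h7, max_eq_left (pow_le_pow_right_of_le_one' hvπ.le h7)]
      · rw [min_eq_right h7, max_eq_right (pow_le_pow_right_of_le_one' hvπ.le h7)]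
    rw [wfm_q]
    refine ⟨r * N, dom_eq (g := min N (ra q ^ 2)) (c := om q ^ s) hπ0 hvπ (P1_V r s q) (P2_V r s q) (P1_gap r s q) ?_ hκ (P1_lead r s q).2 ?_ ?_⟩
    · have := P2_gap r s q
      rwa [hq2] at this
    · have := (P2_lead r s q).2
      rwa [hq2] at this
    · rw [h4, hraq, h6]
      exact h3
  · refine wfm_dom_of_ne hπ0 hvπ _ r s q ?_
    rw [hκ, one_mul]
    exact fun h => hq2 (hpowinj _ _ h)

end isog

end Pool.Agent.Lib.ModularZP
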