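import Mathlib
import Pool.Agent.Lib.ModularZP.Close
import Pool.Agent.Lib.ModularZP.Certificate

/-!
The modular polynomials as polynomials in two variables, and the description of isogenous points
near the cusp of a valuation ring for `GL₂(ℚ)⁺`.
-/

open UpperHalfPlane hiding I
open ModularForm ModularFormClass MatrixGroups EisensteinSeries Complex Function

namespace Pool.Agent.Lib.ModularZP

section modpoly

variable (N : ℕ) [NeZero N]

/-- the modular polynomial of all matrices of determinant `N` -/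
theorem exists_modPoly : ∃ Φ : Polynomial (Polynomial ℂ), Φ.Monic ∧ (∀ (B : MN N) (τ : ℍ),
    (Φ.map (Polynomial.evalRingHom (jInv τ))).eval (jInv (toGL B • τ)) = 0) ∧
    ∀ i k, (Φ.coeff i).coeff k ∈ AI := by
  obtain ⟨c, v, hc, hv, hcv, hD⟩ := exists_unit N
  choose p hp hpe using fun i : ℕ => exists_pk (N := N) i
  have hprod : ∀ τ : ℍ, (HP N).map (ev N τ) = Polynomial.C ((DP N).1 τ) *
      ∏ q : QN N, (Polynomial.X - Polynomial.C (jInv (toGL (rep q) • τ))) := by
    intro τ
    rw [HP_map, DP_apply, map_prod, ← Finset.prod_mul_distrib]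
    refine Finset.prod_congr rfl fun q _ => ?_
    rw [mul_sub, ← map_mul]
    congr 2
    unfold cmp E43
    exact (delta_pow_mul _).symm
  have hcoef : ∀ (τ : ℍ) (i : ℕ), (∏ q : QN N, (Polynomial.X - Polynomial.C (jInv (toGL (rep q) • τ)))).coeff i =
      v * (p i).eval (jInv τ) := by
    intro τ i
    have h1 := hpe i τ
    rw [HF_apply, hprod, Polynomial.coeff_C_mul, hD] at h1
    have hΔ : ModularForm.discriminant τ ^ (sg N) ≠ 0 := pow_ne_zero _ (discriminant_ne_zero τ)
    have h2 : c * (∏ q : QN N, (Polynomial.X - Polynomial.C (jInv (toGL (rep q) • τ)))).coeff i = (p i).eval (jInv τ) := by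
      apply mul_left_cancel₀ hΔ
      rw [← h1]; ring
    rw [← h2, ← mul_assoc, mul_comm v c, hcv, one_mul]
  set T : Polynomial (Polynomial ℂ) := ∑ k ∈ Finset.range (sg N), Polynomial.C (Polynomial.C v * p k) * Polynomial.X ^ k with hT
  have hTcoef : ∀ i, T.coeff i = if i < sg N then Polynomial.C v * p i else 0 := by
    intro i
    rw [hT, Polynomial.finsetSum_coeff]
    simp only [Polynomial.coeff_C_mul, Polynomial.coeff_X_pow]
    simp only [mul_ite, mul_one, mul_zero]
    rw [Finset.sum_ite_eq (Finset.range (sg N)) i]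
    simp only [Finset.mem_range]
  refine ⟨Polynomial.X ^ sg N + T, ?_, ?_, ?_⟩
  · apply Polynomial.monic_X_pow_add
    rw [Polynomial.degree_lt_iff_coeff_zero]
    intro m hm
    rw [hTcoef, if_neg (by omega)]
  · intro B τ
    have hmap : (Polynomial.X ^ sg N + T).map (Polynomial.evalRingHom (jInv τ)) =
        ∏ q : QN N, (Polynomial.X - Polynomial.C (jInv (toGL (rep q) • τ))) := by
      have hmon : (∏ q : QN N, (Polynomial.X - Polynomial.C (jInv (toGL (rep q) • τ)))).Monic :=
        Polynomial.monic_prod_of_monic _ _ fun q _ => Polynomial.monic_X_sub_C _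
      have hdeg : (∏ q : QN N, (Polynomial.X - Polynomial.C (jInv (toGL (rep q) • τ)))).natDegree = sg N := by
        rw [Polynomial.natDegree_prod_of_monic _ _ fun q _ => Polynomial.monic_X_sub_C _]
        simp only [Polynomial.natDegree_X_sub_C]
        rw [Finset.sum_const, smul_eq_mul, mul_one, Finset.card_univ]
        rfl
      ext i
      rw [Polynomial.coeff_map, Polynomial.coeff_add, Polynomial.coeff_X_pow, hTcoef]
      rcases lt_trichotomy i (sg N) with h | h | h
      · rw [if_neg h.ne, if_pos h, zero_add, hcoef]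
        simp
      · subst h
        rw [if_pos rfl, if_neg (lt_irrefl _), add_zero, map_one]
        have := hmon.coeff_natDegree
        rw [hdeg] at this
        exact this.symm
      · rw [if_neg h.ne', if_neg (by omega), add_zero, map_zero]
        exact (Polynomial.coeff_eq_zero_of_natDegree_lt (by rw [hdeg]; exact h)).symm
    rw [hmap, Polynomial.eval_prod]
    obtain ⟨γ, hγ⟩ : ∃ γ : SL(2, ℤ), γ • rep (Quotient.mk'' B : QN N) = B := by
      have h1 := rep_mk (Quotient.mk'' B : QN N)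
      have h2 := Quotient.exact h1.symm
      change B ∈ MulAction.orbit _ (rep (Quotient.mk'' B : QN N)) at h2
      obtain ⟨γ, hγ⟩ := h2
      exact ⟨γ, hγ⟩
    refine Finset.prod_eq_zero (Finset.mem_univ (Quotient.mk'' B : QN N)) ?_
    have h3 : jInv (toGL B • τ) = jInv (toGL (rep (Quotient.mk'' B : QN N)) • τ) := by
      conv_lhs => rw [← hγ]
      rw [toGL_smul, mul_smul]
      exact jInv_smul γ _
    rw [h3]
    simp
  · intro i k
    rw [Polynomial.coeff_add, Polynomial.coeff_X_pow, hTcoef, Polynomial.coeff_add]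
    refine add_mem ?_ ?_
    · split_ifs
      · rw [Polynomial.coeff_one]
        split_ifs
        · exact one_mem _
        · exact zero_mem _
      · rw [Polynomial.coeff_zero]
        exact zero_mem _
    · split_ifs
      · rw [Polynomial.coeff_C_mul]
        exact mul_mem hv (hp i k)
      · rw [Polynomial.coeff_zero]
        exact zero_mem _

end modpoly

/-- the modular polynomial of level `N` (all matrices of determinant `N`) -/
noncomputable def modPoly (N : ℕ) : Polynomial (Polynomial ℂ) :=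
  if h : N = 0 then 1 else (@exists_modPoly N ⟨h⟩).choose

lemma modPoly_monic (N : ℕ) : (modPoly N).Monic := by
  unfold modPoly
  split_ifs with h
  · exact Polynomial.monic_one
  · exact (@exists_modPoly N ⟨h⟩).choose_spec.1

/-- the relation between two `j`-values given by the modular polynomial of level `N` -/
def ModRel (N : ℕ) (x y : ℂ) : Prop := ((modPoly N).map (Polynomial.evalRingHom x)).eval y = 0

lemma modRel_toGL {N : ℕ} [hN : NeZero N] (B : MN N) (τ : ℍ) : ModRel N (jInv τ) (jInv (toGL B • τ)) := by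
  unfold ModRel modPoly
  rw [dif_neg hN.ne]
  exact (exists_modPoly N).choose_spec.2.1 B τ

/-- the coefficients of the modular polynomial are algebraic integers -/
lemma modPoly_coeff (N i k : ℕ) : ((modPoly N).coeff i).coeff k ∈ AI := by
  unfold modPoly
  split_ifs with h
  · rw [Polynomial.coeff_one]
    split_ifs
    · rw [Polynomial.coeff_one]
      split_ifs
      · exact one_mem _
      · exact zero_mem _
    · rw [Polynomial.coeff_zero]
      exact zero_mem _
  · exact (@exists_modPoly N ⟨h⟩).choose_spec.2.2 i k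

lemma exists_modRel (h : GL (Fin 2) ℚ) (hdet : 0 < h.det.val) : ∃ N : ℕ, ∀ τ : ℍ,
    ModRel N (jInv τ) (jInv (h.map (algebraMap ℚ ℝ) • τ)) := by
  obtain ⟨N, hN, B, hB⟩ := exists_toGL h hdet
  exact ⟨N, fun τ => by rw [← hB]; exact modRel_toGL B τ⟩

/-- the level of an isogeny, and the description of isogenous points near the cusp of `V` -/
theorem isog_level (h : GL (Fin 2) ℚ) (hdet : 0 < h.det.val) : ∃ N : ℕ, 0 < N ∧
    (∀ τ : ℍ, ModRel N (jInv τ) (jInv (h.map (algebraMap ℚ ℝ) • τ))) ∧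
    ∀ (V : ValuationSubring ℂ) (τ : ℍ), jInv τ ∉ V → ∃ r s t : ℕ, 0 < r ∧ 0 < s ∧ 0 < t ∧ r.Coprime s ∧
      V.valuation (jInv (h.map (algebraMap ℚ ℝ) • τ)) ^ s = V.valuation (jInv τ) ^ r ∧
      (∃ ζ ∈ primitiveRoots t ℂ, V.valuation (jInv (h.map (algebraMap ℚ ℝ) • τ) ^ s / jInv τ ^ r - ζ) ≤
        max (V.valuation (jInv τ))⁻¹ (V.valuation (jInv (h.map (algebraMap ℚ ℝ) • τ)))⁻¹) ∧
      t ^ 2 * (r * s) = N := by
  obtain ⟨N₀, hN₀, B₀, hB₀⟩ := exists_toGL h hdet
  obtain ⟨N, hN, B, hP, hB⟩ := exists_prim N₀ hN₀ B₀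
  refine ⟨N, Nat.pos_of_ne_zero hN.ne, fun τ => ?_, fun V τ hx => ?_⟩
  · rw [← hB₀, ← hB]; exact modRel_toGL B τ
  obtain ⟨γ, hγ⟩ : ∃ γ : SL(2, ℤ), γ • rep (Quotient.mk'' B : QN N) = B := by
    have h1 := rep_mk (Quotient.mk'' B : QN N)
    have h2 := Quotient.exact h1.symm
    change B ∈ MulAction.orbit _ (rep (Quotient.mk'' B : QN N)) at h2
    obtain ⟨γ, hγ⟩ := h2
    exact ⟨γ, hγ⟩
  have hj : jInv ((h.map (algebraMap ℚ ℝ)) • τ) = jInv (toGL (rep (Quotient.mk'' B : QN N)) • τ) := by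
    rw [← hB₀, ← hB]
    conv_lhs => rw [← hγ]
    rw [toGL_smul, mul_smul]
    exact jInv_smul γ _
  obtain ⟨r, s, t, h1, h2, h3, h4, h5, h6, h7⟩ := tate_close (V := V) _ ((primQ_mk B).mpr hP) τ hx
  rw [← hj] at h6 h7
  exact ⟨r, s, t, h1, h2, h3, h4, h6, h7, h5⟩

/-- isogenous points near the cusp of `V` -/
theorem isog_close (V : ValuationSubring ℂ) (h : GL (Fin 2) ℚ) (hdet : 0 < h.det.val) (τ : ℍ)
    (hx : jInv τ ∉ V) : ∃ r s t : ℕ, 0 < r ∧ 0 < s ∧ 0 < t ∧ r.Coprime s ∧
      V.valuation (jInv (h.map (algebraMap ℚ ℝ) • τ)) ^ s = V.valuation (jInv τ) ^ r ∧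
      (∃ ζ ∈ primitiveRoots t ℂ, V.valuation (jInv (h.map (algebraMap ℚ ℝ) • τ) ^ s / jInv τ ^ r - ζ) ≤
        max (V.valuation (jInv τ))⁻¹ (V.valuation (jInv (h.map (algebraMap ℚ ℝ) • τ)))⁻¹) ∧
      ModRel (t ^ 2 * (r * s)) (jInv τ) (jInv (h.map (algebraMap ℚ ℝ) • τ)) := by
  obtain ⟨N₀, hN₀, B₀, hB₀⟩ := exists_toGL h hdet
  obtain ⟨N, hN, B, hP, hB⟩ := exists_prim N₀ hN₀ B₀
  have hrel : ModRel N (jInv τ) (jInv (h.map (algebraMap ℚ ℝ) • τ)) := by
    rw [← hB₀, ← hB]; exact modRel_toGL B τ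
  obtain ⟨γ, hγ⟩ : ∃ γ : SL(2, ℤ), γ • rep (Quotient.mk'' B : QN N) = B := by
    have h1 := rep_mk (Quotient.mk'' B : QN N)
    have h2 := Quotient.exact h1.symm
    change B ∈ MulAction.orbit _ (rep (Quotient.mk'' B : QN N)) at h2
    obtain ⟨γ, hγ⟩ := h2
    exact ⟨γ, hγ⟩
  have hj : jInv ((h.map (algebraMap ℚ ℝ)) • τ) = jInv (toGL (rep (Quotient.mk'' B : QN N)) • τ) := by
    rw [← hB₀, ← hB]
    conv_lhs => rw [← hγ]
    rw [toGL_smul, mul_smul]
    exact jInv_smul γ _
  obtain ⟨r, s, t, h1, h2, h3, h4, h5, h6, h7⟩ := tate_close (V := V) _ ((primQ_mk B).mpr hP) τ hx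
  rw [← hj] at h6 h7
  exact ⟨r, s, t, h1, h2, h3, h4, h6, h7, by rw [h5]; exact hrel⟩

end Pool.Agent.Lib.ModularZP
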