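import Mathlib

/-!
Places of function fields of transcendence degree one over `ℂ` and the curves they define.
-/

namespace Pool.Agent.Lib.ModularZP

/-- The affine curve with function field (contained in) `K` and coordinate functions `f i ∈ K`: the
set of all `x ∈ ℂⁿ` such that, for some non-trivial place `P` of `K` over `ℂ`, the value of `f i`
at `P` is `x i` for every `i`. -/
def placeCurve {K : Type*} [Field K] [Algebra ℂ K] {n : ℕ} (f : Fin n → K) : Set (Fin n → ℂ) :=
  {x | ∃ P : ValuationSubring K, (∀ c : ℂ, algebraMap ℂ K c ∈ P) ∧ P ≠ ⊤ ∧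
    ∀ i, P.valuation (f i - algebraMap ℂ K (x i)) < 1}

/-- The Möbius transform `(a f + b) / (c f + d)`. -/
noncomputable def moebius {K : Type*} [Field K] [Algebra ℂ K] (γ : Matrix (Fin 2) (Fin 2) ℂ) (f : K) : K :=
  (algebraMap ℂ K (γ 0 0) * f + algebraMap ℂ K (γ 0 1)) /
    (algebraMap ℂ K (γ 1 0) * f + algebraMap ℂ K (γ 1 1))

section cong

variable {K : Type*} [Field K] (P : ValuationSubring K)

/-- congruence modulo the maximal ideal -/
def Cg (a b : K) : Prop := a ∈ P ∧ b ∈ P ∧ P.valuation (a - b) < 1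

variable {P}

lemma val_mul_lt {a b : K} (ha : a ∈ P) (hb : P.valuation b < 1) : P.valuation (a * b) < 1 := by
  rw [map_mul]
  calc P.valuation a * P.valuation b ≤ 1 * P.valuation b := mul_le_mul_left ((P.valuation_le_one_iff _).mpr ha) _
    _ < 1 := by rwa [one_mul]

lemma Cg.add {a b c d : K} (h : Cg P a b) (h' : Cg P c d) : Cg P (a + c) (b + d) :=
  ⟨add_mem h.1 h'.1, add_mem h.2.1 h'.2.1, by
    rw [show a + c - (b + d) = (a - b) + (c - d) by ring]
    exact P.valuation.map_add_lt h.2.2 h'.2.2⟩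

lemma Cg.mul {a b c d : K} (h : Cg P a b) (h' : Cg P c d) : Cg P (a * c) (b * d) :=
  ⟨mul_mem h.1 h'.1, mul_mem h.2.1 h'.2.1, by
    rw [show a * c - b * d = a * (c - d) + d * (a - b) by ring]
    exact P.valuation.map_add_lt (val_mul_lt h.1 h'.2.2) (val_mul_lt h'.2.1 h.2.2)⟩

lemma Cg.refl {a : K} (h : a ∈ P) : Cg P a a := ⟨h, h, by rw [sub_self, map_zero]; exact zero_lt_one⟩

lemma Cg.symm {a b : K} (h : Cg P a b) : Cg P b a := ⟨h.2.1, h.1, by rw [Valuation.map_sub_swap]; exact h.2.2⟩

lemma Cg.pow {a b : K} (h : Cg P a b) (n : ℕ) : Cg P (a ^ n) (b ^ n) := by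
  induction n with
  | zero => rw [pow_zero, pow_zero]; exact Cg.refl P.one_mem
  | succ n ih => rw [pow_succ, pow_succ]; exact ih.mul h

lemma Cg.sum {ι : Type*} (s : Finset ι) {a b : ι → K} (h : ∀ i ∈ s, Cg P (a i) (b i)) :
    Cg P (∑ i ∈ s, a i) (∑ i ∈ s, b i) := by
  classical
  induction s using Finset.induction_on with
  | empty => rw [Finset.sum_empty, Finset.sum_empty]; exact Cg.refl P.zero_mem
  | insert i s hi ih =>
    rw [Finset.sum_insert hi, Finset.sum_insert hi]
    exact (h i (Finset.mem_insert_self _ _)).add (ih fun j hj => h j (Finset.mem_insert_of_mem hj))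

lemma Cg.prod {ι : Type*} (s : Finset ι) {a b : ι → K} (h : ∀ i ∈ s, Cg P (a i) (b i)) :
    Cg P (∏ i ∈ s, a i) (∏ i ∈ s, b i) := by
  classical
  induction s using Finset.induction_on with
  | empty => rw [Finset.prod_empty, Finset.prod_empty]; exact Cg.refl P.one_mem
  | insert i s hi ih =>
    rw [Finset.prod_insert hi, Finset.prod_insert hi]
    exact (h i (Finset.mem_insert_self _ _)).mul (ih fun j hj => h j (Finset.mem_insert_of_mem hj))

lemma Cg.mvEval {σ : Type*} [Fintype σ] (p : MvPolynomial σ K) (hp : ∀ m, p.coeff m ∈ P) {x y : σ → K}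
    (h : ∀ i, Cg P (x i) (y i)) : Cg P (MvPolynomial.eval x p) (MvPolynomial.eval y p) := by
  rw [MvPolynomial.eval_eq', MvPolynomial.eval_eq']
  exact Cg.sum _ fun d _ => (Cg.refl (hp d)).mul (Cg.prod _ fun i _ => (h i).pow _)

end cong

section places

variable {K : Type*} [Field K] [Algebra ℂ K] (htr : Algebra.trdeg ℂ K = 1)
include htr

lemma algebraic_over_adjoin {a : K} (ha : Transcendental ℂ a) : Algebra.IsAlgebraic (Algebra.adjoin ℂ {a}) K := by
  have h1 : AlgebraicIndependent ℂ (fun _ : Unit => a) := algebraicIndependent_unique_type_iff.mpr ha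
  have h2 := h1.isTranscendenceBasis_of_lift_trdeg_le_of_finite (by rw [htr]; simp)
  have h3 := h2.isAlgebraic
  rwa [Set.range_const] at h3

lemma exists_relation {a b : K} : ∃ p : MvPolynomial (Fin 2) ℂ, p ≠ 0 ∧ MvPolynomial.aeval ![a, b] p = 0 := by
  by_contra hcon
  push Not at hcon
  have hind : AlgebraicIndependent ℂ ![a, b] := by
    rw [algebraicIndependent_iff]
    intro p hp
    by_contra h
    exact hcon p h hp
  have := hind.lift_cardinalMk_le_trdeg
  rw [htr] at this
  simp at this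

omit htr in
lemma const_val {P : ValuationSubring K} (hP : ∀ c : ℂ, algebraMap ℂ K c ∈ P) {c : ℂ} (hc : c ≠ 0) :
    P.valuation (algebraMap ℂ K c) = 1 := by
  have h1 : P.valuation (algebraMap ℂ K c) ≤ 1 := (P.valuation_le_one_iff _).mpr (hP c)
  have h2 : P.valuation (algebraMap ℂ K c⁻¹) ≤ 1 := (P.valuation_le_one_iff _).mpr (hP c⁻¹)
  have h3 : P.valuation (algebraMap ℂ K c) * P.valuation (algebraMap ℂ K c⁻¹) = 1 := by
    rw [← map_mul, ← map_mul, mul_inv_cancel₀ hc, map_one, map_one]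
  refine le_antisymm h1 ?_
  calc 1 = P.valuation (algebraMap ℂ K c) * P.valuation (algebraMap ℂ K c⁻¹) := h3.symm
    _ ≤ P.valuation (algebraMap ℂ K c) * 1 := mul_le_mul_right h2 _
    _ = _ := mul_one _

omit htr in
lemma const_zero {P : ValuationSubring K} (hP : ∀ c : ℂ, algebraMap ℂ K c ∈ P) {c : ℂ}
    (hc : P.valuation (algebraMap ℂ K c) < 1) : c = 0 := by
  by_contra h
  rw [const_val hP h] at hc
  exact lt_irrefl _ hc

omit htr in
lemma aeval_mem {P : ValuationSubring K} (hP : ∀ c : ℂ, algebraMap ℂ K c ∈ P) {a : K} (ha : a ∈ P)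
    (r : Polynomial ℂ) : Polynomial.aeval a r ∈ P := by
  rw [Polynomial.aeval_eq_sum_range]
  refine sum_mem fun i _ => ?_
  rw [Algebra.smul_def]
  exact mul_mem (hP _) (pow_mem ha _)

omit htr in
lemma aeval_cong {P : ValuationSubring K} (hP : ∀ c : ℂ, algebraMap ℂ K c ∈ P) {a : K} {c : ℂ}
    (h : P.valuation (a - algebraMap ℂ K c) < 1) (r : Polynomial ℂ) :
    P.valuation (Polynomial.aeval a r - algebraMap ℂ K (r.eval c)) < 1 := by
  have ha : a ∈ P := by
    have h1 : a - algebraMap ℂ K c ∈ P := (P.valuation_le_one_iff _).mp h.le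
    have := add_mem h1 (hP c)
    rwa [sub_add_cancel] at this
  obtain ⟨s, hs⟩ := Polynomial.X_sub_C_dvd_sub_C_eval (a := c) (p := r)
  have h2 := congrArg (Polynomial.aeval a) hs
  rw [map_sub, map_mul, map_sub, Polynomial.aeval_C, Polynomial.aeval_C, Polynomial.aeval_X] at h2
  rw [h2, mul_comm]
  exact val_mul_lt (aeval_mem hP ha s) h

omit htr [Algebra ℂ K] in
lemma gval_eval_eq {P : ValuationSubring K} {x : K} (hx : x ∉ P) {p : Polynomial K}
    (hp : ∀ i, p.coeff i ∈ P) (hu : P.valuation (p.coeff p.natDegree) = 1) :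
    P.valuation (p.eval x) = P.valuation x ^ p.natDegree := by
  have hx1 : 1 < P.valuation x := by
    rw [← not_le]; exact fun h => hx ((P.valuation_le_one_iff x).mp h)
  rw [Polynomial.eval_eq_sum_range, Finset.sum_range_succ]
  have h1 : P.valuation (p.coeff p.natDegree * x ^ p.natDegree) = P.valuation x ^ p.natDegree := by
    rw [map_mul, map_pow, hu, one_mul]
  rcases Nat.eq_zero_or_pos p.natDegree with h0 | hpos
  · rw [h0] at hu ⊢
    simp [hu]
  · have h2 : P.valuation (∑ i ∈ Finset.range p.natDegree, p.coeff i * x ^ i) < P.valuation (p.coeff p.natDegree * x ^ p.natDegree) := by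
      rw [h1]
      refine P.valuation.map_sum_lt (pow_ne_zero _ (by
        intro h; rw [h] at hx1; exact not_lt_zero hx1)) fun i hi => ?_
      have hi' : i < p.natDegree := Finset.mem_range.mp hi
      rw [map_mul, map_pow]
      calc P.valuation (p.coeff i) * P.valuation x ^ i ≤ 1 * P.valuation x ^ i :=
            mul_le_mul_left ((P.valuation_le_one_iff _).mpr (hp i)) _
        _ = P.valuation x ^ i := one_mul _
        _ < P.valuation x ^ p.natDegree := pow_lt_pow_right₀ hx1 hi'
    rw [P.valuation.map_add_eq_of_lt_right h2, h1]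

omit htr in
lemma exists_poly {h z : K} (hz : z ∈ Algebra.adjoin ℂ {h}) : ∃ r : Polynomial ℂ, Polynomial.aeval h r = z := by
  rwa [Algebra.adjoin_singleton_eq_range_aeval] at hz

/-- the residue field of a non-trivial place is `ℂ` -/
lemma exists_value {P : ValuationSubring K} (hP : ∀ c : ℂ, algebraMap ℂ K c ∈ P) (hPt : P ≠ ⊤)
    {h : K} (hh : h ∈ P) : ∃ c : ℂ, P.valuation (h - algebraMap ℂ K c) < 1 := by
  by_contra hcon
  push Not at hcon
  have hval : ∀ c : ℂ, P.valuation (h - algebraMap ℂ K c) = 1 := fun c =>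
    le_antisymm ((P.valuation_le_one_iff _).mpr (sub_mem hh (hP c))) (hcon c)
  have hunit : ∀ r : Polynomial ℂ, r ≠ 0 → P.valuation (Polynomial.aeval h r) = 1 := by
    intro r hr
    have hs := (IsAlgClosed.splits r).eq_prod_roots
    rw [hs, map_mul, map_mul, Polynomial.aeval_C, const_val hP (Polynomial.leadingCoeff_ne_zero.mpr hr), one_mul,
      map_multiset_prod, Multiset.map_map, map_multiset_prod, Multiset.map_map]
    apply Multiset.prod_eq_one
    intro z hz
    rw [Multiset.mem_map] at hz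
    obtain ⟨c, _, rfl⟩ := hz
    simp only [Function.comp_apply, map_sub, Polynomial.aeval_X, Polynomial.aeval_C]
    exact hval c
  have htrans : Transcendental ℂ h := by
    rintro ⟨r, hr, hr0⟩
    have := hunit r hr
    rw [hr0, map_zero] at this
    exact zero_ne_one this
  apply hPt
  rw [eq_top_iff]
  intro k _
  by_contra hk
  have halg := (algebraic_over_adjoin htr htrans).isAlgebraic k
  obtain ⟨q, hq0, hq⟩ := halg
  have hcoef : ∀ i, ∃ r : Polynomial ℂ, Polynomial.aeval h r = (q.coeff i : K) := by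
    intro i
    exact exists_poly (q.coeff i).2
  have hne : ∀ i, q.coeff i ≠ 0 → P.valuation (q.coeff i : K) = 1 := by
    intro i hi
    obtain ⟨r, hr⟩ := hcoef i
    rw [← hr]
    apply hunit
    rintro rfl
    rw [map_zero] at hr
    exact hi (Subtype.ext hr.symm)
  set Q := q.map (algebraMap (Algebra.adjoin ℂ {h}) K) with hQ
  have hQc : ∀ i, Q.coeff i = (q.coeff i : K) := fun i => by rw [hQ, Polynomial.coeff_map]; rfl
  have hQd : Q.natDegree = q.natDegree := Polynomial.natDegree_map_eq_of_injective (FaithfulSMul.algebraMap_injective _ _) q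
  have h1 := gval_eval_eq (P := P) hk (p := Q) (fun i => by
    rw [hQc]
    by_cases hi : q.coeff i = 0
    · rw [hi]; exact zero_mem _
    · exact (P.valuation_le_one_iff _).mp (hne i hi).le) (by
    rw [hQc, hQd]
    exact hne _ (Polynomial.leadingCoeff_ne_zero.mpr hq0))
  have h2 : Q.eval k = 0 := by
    rw [hQ, Polynomial.eval_map_algebraMap]; exact hq
  rw [h2, map_zero] at h1
  have hx1 : 1 < P.valuation k := by
    rw [← not_le]; exact fun h => hk ((P.valuation_le_one_iff k).mp h)
  exact pow_ne_zero _ (fun h => by rw [h] at hx1; exact not_lt_zero hx1) h1.symm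

omit htr in
/-- existence of places with a prescribed value of a transcendental element -/
lemma exists_place {a : K} (ha : Transcendental ℂ a) (v : ℂ) : ∃ P : ValuationSubring K,
    (∀ c : ℂ, algebraMap ℂ K c ∈ P) ∧ P ≠ ⊤ ∧ P.valuation (a - algebraMap ℂ K v) < 1 := by
  let B : Subring K := (Algebra.adjoin ℂ {a}).toSubring
  have haB : a ∈ B := Algebra.self_mem_adjoin_singleton ℂ a
  have hcB : ∀ c : ℂ, algebraMap ℂ K c ∈ B := fun c => Subalgebra.algebraMap_mem _ c
  let b : B := ⟨a - algebraMap ℂ K v, sub_mem haB (hcB v)⟩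
  have hI : Ideal.span {b} ≠ ⊤ := by
    rw [Ne, Ideal.span_singleton_eq_top]
    intro hu
    obtain ⟨c, hc⟩ := hu.exists_right_inv
    obtain ⟨r, hr⟩ := exists_poly (z := c.1) c.2
    have h1 : (a - algebraMap ℂ K v) * c.1 = 1 := congrArg Subtype.val hc
    have h2 : Polynomial.aeval a ((Polynomial.X - Polynomial.C v) * r - 1) = 0 := by
      rw [map_sub, map_mul, map_sub, Polynomial.aeval_X, Polynomial.aeval_C, hr, h1, map_one, sub_self]
    have h3 := (transcendental_iff.mp ha) _ h2
    have h4 := congrArg (Polynomial.eval v) h3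
    simp at h4
  obtain ⟨P, hP1, hP2⟩ := Ideal.image_subset_nonunits_valuationSubring (A := B) _ hI
  have hlt : P.valuation (a - algebraMap ℂ K v) < 1 := hP2 ⟨b, Ideal.mem_span_singleton_self b, rfl⟩
  refine ⟨P, fun c => hP1 (hcB c), ?_, hlt⟩
  rintro rfl
  have hne : a - algebraMap ℂ K v ≠ 0 := by
    intro h0
    apply ha
    rw [sub_eq_zero.mp h0]
    exact isAlgebraic_algebraMap v
  have h1 : (⊤ : ValuationSubring K).valuation (a - algebraMap ℂ K v)⁻¹ ≤ 1 :=
    ((⊤ : ValuationSubring K).valuation_le_one_iff _).mpr (ValuationSubring.mem_top _)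
  rw [map_inv₀] at h1
  have h2 : (⊤ : ValuationSubring K).valuation (a - algebraMap ℂ K v) ≠ 0 := by
    rwa [Ne, map_eq_zero]
  have h3 := (inv_le_one₀ (zero_lt_iff.mpr h2)).mp h1
  exact absurd hlt (not_lt.mpr h3)

/-- a non-zero function vanishes only above finitely many values of a transcendental element -/
lemma exists_excl {a b : K} (ha : Transcendental ℂ a) (hb : b ≠ 0) : ∃ R : Polynomial ℂ, R ≠ 0 ∧
    ∀ P : ValuationSubring K, (∀ c : ℂ, algebraMap ℂ K c ∈ P) → ∀ c : ℂ,
      P.valuation (a - algebraMap ℂ K c) < 1 → P.valuation b < 1 → R.eval c = 0 := by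
  have halg := (algebraic_over_adjoin htr ha).isAlgebraic b
  obtain ⟨q, hq0, hq⟩ := halg.exists_nonzero_coeff_and_aeval_eq_zero (mem_nonZeroDivisors_of_ne_zero hb)
  obtain ⟨R, hR⟩ := exists_poly (q.coeff 0).2
  refine ⟨R, ?_, ?_⟩
  · rintro rfl
    rw [map_zero] at hR
    exact hq0 (Subtype.ext hR.symm)
  · intro P hP c hac hb1
    have haP : a ∈ P := by
      have h1 : a - algebraMap ℂ K c ∈ P := (P.valuation_le_one_iff _).mp hac.le
      have := add_mem h1 (hP c)
      rwa [sub_add_cancel] at this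
    have hbP : b ∈ P := (P.valuation_le_one_iff _).mp hb1.le
    have hcoef : ∀ i, (q.coeff i : K) ∈ P := by
      intro i
      obtain ⟨r, hr⟩ := exists_poly (q.coeff i).2
      rw [← hr]
      exact aeval_mem hP haP r
    have h1 : P.valuation (q.coeff 0 : K) < 1 := by
      rw [Polynomial.aeval_eq_sum_range, Finset.sum_range_succ'] at hq
      rw [pow_zero, Algebra.smul_def, mul_one] at hq
      have h2 : (q.coeff 0 : K) = -(b * ∑ i ∈ Finset.range q.natDegree, (q.coeff (i + 1) : K) * b ^ i) := by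
        have h3 : b * ∑ i ∈ Finset.range q.natDegree, (q.coeff (i + 1) : K) * b ^ i =
            ∑ i ∈ Finset.range q.natDegree, q.coeff (i + 1) • b ^ (i + 1) := by
          rw [Finset.mul_sum]
          refine Finset.sum_congr rfl fun i _ => ?_
          rw [Algebra.smul_def, pow_succ]
          show b * ((q.coeff (i + 1) : K) * b ^ i) = (q.coeff (i + 1) : K) * (b ^ i * b)
          ring
        rw [h3]
        have h4 : algebraMap (Algebra.adjoin ℂ {a}) K (q.coeff 0) = (q.coeff 0 : K) := rfl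
        rw [h4] at hq
        linear_combination hq
      rw [h2, Valuation.map_neg, mul_comm]
      exact val_mul_lt (sum_mem fun i _ => mul_mem (hcoef _) (pow_mem hbP _)) hb1
    have h2 := aeval_cong hP hac R
    rw [hR] at h2
    apply const_zero hP
    have h3 : algebraMap ℂ K (R.eval c) = (q.coeff 0 : K) - ((q.coeff 0 : K) - algebraMap ℂ K (R.eval c)) := by ring
    rw [h3]
    exact P.valuation.map_sub_lt h1 h2

omit htr in
/-- the relation between two functions holds for their values -/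
lemma relation_value {P : ValuationSubring K} (hP : ∀ c : ℂ, algebraMap ℂ K c ∈ P) {a b : K} {c d : ℂ}
    {p : MvPolynomial (Fin 2) ℂ} (hp : MvPolynomial.aeval ![a, b] p = 0)
    (ha : P.valuation (a - algebraMap ℂ K c) < 1) (hb : P.valuation (b - algebraMap ℂ K d) < 1) :
    MvPolynomial.eval ![c, d] p = 0 := by
  apply const_zero hP
  have hCg : ∀ {a : K} {c : ℂ}, P.valuation (a - algebraMap ℂ K c) < 1 → Cg P a (algebraMap ℂ K c) := by
    intro a c h
    have h1 : a - algebraMap ℂ K c ∈ P := (P.valuation_le_one_iff _).mp h.le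
    refine ⟨?_, hP c, h⟩
    have := add_mem h1 (hP c)
    rwa [sub_add_cancel] at this
  have h1 := Cg.mvEval (P := P) (MvPolynomial.map (algebraMap ℂ K) p) (x := ![a, b])
    (y := ![algebraMap ℂ K c, algebraMap ℂ K d]) (fun m => by rw [MvPolynomial.coeff_map]; exact hP _)
    (fun i => by
      fin_cases i
      · exact hCg ha
      · exact hCg hb)
  have h2 : MvPolynomial.eval ![a, b] (MvPolynomial.map (algebraMap ℂ K) p) = 0 := by
    rw [MvPolynomial.eval_map]
    exact hp
  have h3 : MvPolynomial.eval ![algebraMap ℂ K c, algebraMap ℂ K d] (MvPolynomial.map (algebraMap ℂ K) p) =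
      algebraMap ℂ K (MvPolynomial.eval ![c, d] p) := by
    rw [MvPolynomial.eval_map]
    have h4 := MvPolynomial.eval₂_comp_left (algebraMap ℂ K) (RingHom.id ℂ) ![c, d] p
    rw [RingHom.comp_id] at h4
    have h5 : (algebraMap ℂ K) ∘ ![c, d] = ![algebraMap ℂ K c, algebraMap ℂ K d] := by
      ext i; fin_cases i <;> rfl
    rw [h5] at h4
    rw [← h4]
    rfl
  have h4 := h1.2.2
  rw [h2, h3, zero_sub, Valuation.map_neg] at h4
  exact h4

/-- homogeneous coordinates of the value of a function at a place, normalised with respect to a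
valuation ring `V` of `ℂ` -/
lemma exists_hvalue {P : ValuationSubring K} (hP : ∀ c : ℂ, algebraMap ℂ K c ∈ P) (hPt : P ≠ ⊤)
    (f : K) (V : ValuationSubring ℂ) : ∃ s t : ℂ, s ∈ V ∧ t ∈ V ∧ (s = 1 ∨ t = 1) ∧
      (t ≠ 0 → P.valuation (f - algebraMap ℂ K (s / t)) < 1) ∧ (t = 0 → f ≠ 0 ∧ P.valuation f⁻¹ < 1) := by
  by_cases hf : f ∈ P
  · obtain ⟨c, hc⟩ := exists_value htr hP hPt hf
    by_cases hcV : c ∈ V
    · exact ⟨c, 1, hcV, V.one_mem, Or.inr rfl, fun _ => by rwa [div_one], fun h => absurd h one_ne_zero⟩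
    · have hc0 : c ≠ 0 := by rintro rfl; exact hcV V.zero_mem
      refine ⟨1, c⁻¹, V.one_mem, (V.mem_or_inv_mem c).resolve_left hcV, Or.inl rfl, fun _ => ?_,
        fun h => absurd h (inv_ne_zero hc0)⟩
      rwa [one_div, inv_inv]
  · refine ⟨1, 0, V.one_mem, V.zero_mem, Or.inl rfl, fun h => absurd rfl h, fun _ => ⟨?_, ?_⟩⟩
    · rintro rfl; exact hf P.zero_mem
    · have h1 : 1 < P.valuation f := by
        rw [← not_le]; exact fun h => hf ((P.valuation_le_one_iff f).mp h)
      rw [map_inv₀]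
      exact inv_lt_one_of_one_lt₀ h1

omit htr in
lemma denom_ne {f : K} (hf : Transcendental ℂ f) {c d : ℂ} (h : c ≠ 0 ∨ d ≠ 0) :
    algebraMap ℂ K c * f + algebraMap ℂ K d ≠ 0 := by
  intro h0
  by_cases hc : c = 0
  · subst hc
    rw [map_zero, zero_mul, zero_add] at h0
    have := (map_eq_zero (algebraMap ℂ K)).mp h0
    exact h.elim (fun h => h rfl) (fun h => h this)
  · apply hf
    have hc' : algebraMap ℂ K c ≠ 0 := by rwa [Ne, map_eq_zero]
    have : f = algebraMap ℂ K (-d / c) := by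
      rw [map_div₀, map_neg, eq_div_iff hc']
      linear_combination h0
    rw [this]
    exact isAlgebraic_algebraMap _

omit htr in
lemma moebius_transcendental {f : K} (hf : Transcendental ℂ f) {γ : Matrix (Fin 2) (Fin 2) ℂ} (hγ : γ.det ≠ 0) :
    Transcendental ℂ (moebius γ f) := by
  rw [Matrix.det_fin_two] at hγ
  have hcd : γ 1 0 ≠ 0 ∨ γ 1 1 ≠ 0 := by
    by_contra h
    push Not at h
    rw [h.1, h.2] at hγ
    simp at hγ
  have hden := denom_ne hf hcd
  set g := moebius γ f with hg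
  have hgeq : g * (algebraMap ℂ K (γ 1 0) * f + algebraMap ℂ K (γ 1 1)) =
      algebraMap ℂ K (γ 0 0) * f + algebraMap ℂ K (γ 0 1) := by
    rw [hg]; unfold moebius; rw [div_mul_cancel₀ _ hden]
  have hne : algebraMap ℂ K (γ 1 0) * g - algebraMap ℂ K (γ 0 0) ≠ 0 := by
    intro h0
    have h1 : algebraMap ℂ K (γ 0 0 * γ 1 1 - γ 0 1 * γ 1 0) = 0 := by
      rw [map_sub, map_mul, map_mul]
      linear_combination (algebraMap ℂ K (γ 1 0)) * hgeq - (algebraMap ℂ K (γ 1 0) * f + algebraMap ℂ K (γ 1 1)) * h0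
    exact hγ ((map_eq_zero (algebraMap ℂ K)).mp h1)
  intro halg
  apply hf
  have hfeq : f = (algebraMap ℂ K (γ 0 1) - algebraMap ℂ K (γ 1 1) * g) / (algebraMap ℂ K (γ 1 0) * g - algebraMap ℂ K (γ 0 0)) := by
    rw [eq_div_iff hne]
    linear_combination hgeq
  rw [hfeq, div_eq_mul_inv]
  have hc : ∀ c : ℂ, IsAlgebraic ℂ (algebraMap ℂ K c) := fun c => isAlgebraic_algebraMap c
  exact ((hc _).sub ((hc _).mul halg)).mul (((hc _).mul halg).sub (hc _)).inv

omit htr in
lemma moebius_value {P : ValuationSubring K} (hP : ∀ c : ℂ, algebraMap ℂ K c ∈ P) {f : K}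
    (hf : Transcendental ℂ f) {γ : Matrix (Fin 2) (Fin 2) ℂ} (hγ : γ.det ≠ 0) {s t x : ℂ}
    (hst : s = 1 ∨ t = 1) (h1 : t ≠ 0 → P.valuation (f - algebraMap ℂ K (s / t)) < 1)
    (h2 : t = 0 → f ≠ 0 ∧ P.valuation f⁻¹ < 1) (hx : P.valuation (moebius γ f - algebraMap ℂ K x) < 1) :
    γ 1 0 * s + γ 1 1 * t ≠ 0 ∧ γ 0 0 * s + γ 0 1 * t = x * (γ 1 0 * s + γ 1 1 * t) := by
  rw [Matrix.det_fin_two] at hγ
  have hcd : γ 1 0 ≠ 0 ∨ γ 1 1 ≠ 0 := by
    by_contra h
    push Not at h
    rw [h.1, h.2] at hγ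
    simp at hγ
  have hden := denom_ne hf hcd
  set g := moebius γ f with hg
  have hgeq : g * (algebraMap ℂ K (γ 1 0) * f + algebraMap ℂ K (γ 1 1)) =
      algebraMap ℂ K (γ 0 0) * f + algebraMap ℂ K (γ 0 1) := by
    rw [hg]; unfold moebius; rw [div_mul_cancel₀ _ hden]
  have hst0 : s ≠ 0 ∨ t ≠ 0 := by
    rcases hst with h | h
    · left; rw [h]; exact one_ne_zero
    · right; rw [h]; exact one_ne_zero
  have key : γ 0 0 * s + γ 0 1 * t = x * (γ 1 0 * s + γ 1 1 * t) := by
    by_cases ht : t = 0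
    · obtain ⟨hf0, hfi⟩ := h2 ht
      subst ht
      have hs : s = 1 := hst.resolve_right zero_ne_one
      subst hs
      rw [mul_one, mul_zero, add_zero, mul_one, mul_zero, add_zero]
      rw [← sub_eq_zero]
      apply const_zero hP
      have hfiP : f⁻¹ ∈ P := (P.valuation_le_one_iff _).mp hfi.le
      have e1 : algebraMap ℂ K (γ 0 0 - x * γ 1 0) = (g - algebraMap ℂ K x) * (algebraMap ℂ K (γ 1 0) + algebraMap ℂ K (γ 1 1) * f⁻¹)
          + (algebraMap ℂ K x * algebraMap ℂ K (γ 1 1) - algebraMap ℂ K (γ 0 1)) * f⁻¹ := by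
        rw [map_sub, map_mul]
        have h3 : f * f⁻¹ = 1 := mul_inv_cancel₀ hf0
        linear_combination (-f⁻¹) * hgeq + (g * algebraMap ℂ K (γ 1 0) - algebraMap ℂ K (γ 0 0)) * h3
      rw [e1]
      refine P.valuation.map_add_lt ?_ (val_mul_lt (sub_mem (mul_mem (hP _) (hP _)) (hP _)) hfi)
      rw [mul_comm]
      exact val_mul_lt (add_mem (hP _) (mul_mem (hP _) hfiP)) hx
    · have hv := h1 ht
      set c := s / t with hc
      have hs : s = c * t := by rw [hc, div_mul_cancel₀ _ ht]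
      have hfP : f ∈ P := by
        have h1 : f - algebraMap ℂ K c ∈ P := (P.valuation_le_one_iff _).mp hv.le
        have := add_mem h1 (hP c)
        rwa [sub_add_cancel] at this
      have h4 : γ 0 0 * c + γ 0 1 - x * (γ 1 0 * c + γ 1 1) = 0 := by
        apply const_zero hP
        have e1 : algebraMap ℂ K (γ 0 0 * c + γ 0 1 - x * (γ 1 0 * c + γ 1 1)) =
            (algebraMap ℂ K (γ 1 0) * f + algebraMap ℂ K (γ 1 1)) * (g - algebraMap ℂ K x) +
            (algebraMap ℂ K x * algebraMap ℂ K (γ 1 0) - algebraMap ℂ K (γ 0 0)) * (f - algebraMap ℂ K c) := by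
          simp only [map_sub, map_mul, map_add]
          linear_combination (-1 : K) * hgeq
        rw [e1]
        exact P.valuation.map_add_lt (val_mul_lt (add_mem (mul_mem (hP _) hfP) (hP _)) hx)
          (val_mul_lt (sub_mem (mul_mem (hP _) (hP _)) (hP _)) hv)
      rw [hs]
      linear_combination t * h4
  refine ⟨fun h0 => ?_, key⟩
  rw [h0, mul_zero] at key
  have hs0 : (γ 0 0 * γ 1 1 - γ 0 1 * γ 1 0) * s = 0 := by
    linear_combination γ 1 1 * key - γ 0 1 * h0
  have ht0 : (γ 0 0 * γ 1 1 - γ 0 1 * γ 1 0) * t = 0 := by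
    linear_combination γ 0 0 * h0 - γ 1 0 * key
  rcases hst0 with h | h
  · exact h ((mul_eq_zero.mp hs0).resolve_left hγ)
  · exact h ((mul_eq_zero.mp ht0).resolve_left hγ)

/-- points of the curve with prescribed `i`-th coordinate in an infinite set -/
lemma exists_curve_point {n : ℕ} {g : Fin n → K} (hg : ∀ i, Transcendental ℂ (g i)) (i : Fin n)
    {G : Set ℂ} (hG : G.Infinite) : ∃ x ∈ placeCurve g, x i ∈ G := by
  have hne : ∀ j, (g j)⁻¹ ≠ 0 := fun j => inv_ne_zero (fun h => hg j (by rw [h]; exact isAlgebraic_zero))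
  choose R hR0 hR using fun j => exists_excl htr (hg i) (hne j)
  obtain ⟨v, hvG, hv⟩ : ∃ v ∈ G, v ∉ (∏ j, R j).roots.toFinset := hG.exists_notMem_finset _
  have hprod : (∏ j, R j) ≠ 0 := Finset.prod_ne_zero_iff.mpr fun j _ => hR0 j
  have hvR : ∀ j, (R j).eval v ≠ 0 := by
    intro j h
    apply hv
    rw [Multiset.mem_toFinset, Polynomial.mem_roots hprod, Polynomial.IsRoot.def, Polynomial.eval_prod]
    exact Finset.prod_eq_zero (Finset.mem_univ j) h
  obtain ⟨P, hP, hPt, hPv⟩ := exists_place (hg i) v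
  have hmem : ∀ j, g j ∈ P := by
    intro j
    by_contra hj
    have h1 : 1 < P.valuation (g j) := by
      rw [← not_le]; exact fun h => hj ((P.valuation_le_one_iff _).mp h)
    refine hvR j (hR j P hP v hPv ?_)
    rw [map_inv₀]
    exact inv_lt_one_of_one_lt₀ h1
  choose c hc using fun j => exists_value htr hP hPt (hmem j)
  refine ⟨fun j => c j, ⟨P, hP, hPt, hc⟩, ?_⟩
  have h2 : P.valuation (algebraMap ℂ K (c i - v)) < 1 := by
    have h3 : algebraMap ℂ K (c i - v) = (g i - algebraMap ℂ K v) - (g i - algebraMap ℂ K (c i)) := by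
      rw [map_sub]; ring
    rw [h3]
    exact P.valuation.map_sub_lt hPv (hc i)
  have h3 := const_zero hP h2
  have h4 : c i = v := sub_eq_zero.mp h3
  show c i ∈ G
  rw [h4]; exact hvG

end places

end Pool.Agent.Lib.ModularZP
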