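import Mathlib
import Pool.Agent.Lib.ModularZP.ModPoly
import Pool.Agent.Lib.ModularZP.Place

/-!
Two coordinate functions without common pole satisfy no modular relation identically: finiteness of
the points of a curve on one modular relation, and Hodge genericity.
-/

open UpperHalfPlane hiding I

namespace Pool.Agent.Lib.ModularZP

section places

variable {K : Type*} [Field K] [Algebra ℂ K] (htr : Algebra.trdeg ℂ K = 1)
include htr

omit htr in
/-- the value of the polynomial relation in `K` -/
lemma modRel_value {P : ValuationSubring K} (hP : ∀ c : ℂ, algebraMap ℂ K c ∈ P) {a b : K} {c d : ℂ}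
    (ha : P.valuation (a - algebraMap ℂ K c) < 1) (hb : P.valuation (b - algebraMap ℂ K d) < 1)
    (Φ : Polynomial (Polynomial ℂ)) (hΦ : (Φ.map (Polynomial.evalRingHom c)).eval d = 0) :
    P.valuation (Φ.eval₂ (Polynomial.aeval a : Polynomial ℂ →ₐ[ℂ] K).toRingHom b) < 1 := by
  have hCg : ∀ {a : K} {c : ℂ}, P.valuation (a - algebraMap ℂ K c) < 1 → Cg P a (algebraMap ℂ K c) := by
    intro a c h
    have h1 : a - algebraMap ℂ K c ∈ P := (P.valuation_le_one_iff _).mp h.le
    refine ⟨?_, hP c, h⟩
    have := add_mem h1 (hP c)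
    rwa [sub_add_cancel] at this
  have haP := (hCg ha).1
  have h1 : Cg P (Φ.eval₂ (Polynomial.aeval a : Polynomial ℂ →ₐ[ℂ] K).toRingHom b)
      (∑ i ∈ Finset.range (Φ.natDegree + 1), algebraMap ℂ K ((Φ.coeff i).eval c) * algebraMap ℂ K d ^ i) := by
    rw [Polynomial.eval₂_eq_sum_range]
    refine Cg.sum _ fun i _ => Cg.mul ?_ ((hCg hb).pow i)
    exact ⟨aeval_mem hP haP _, hP _, aeval_cong hP ha _⟩
  have h2 : (∑ i ∈ Finset.range (Φ.natDegree + 1), algebraMap ℂ K ((Φ.coeff i).eval c) * algebraMap ℂ K d ^ i) = 0 := by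
    have h3 : (Φ.map (Polynomial.evalRingHom c)).eval d = ∑ i ∈ Finset.range (Φ.natDegree + 1), (Φ.coeff i).eval c * d ^ i := by
      rw [Polynomial.eval_map, Polynomial.eval₂_eq_sum_range]
      rfl
    rw [h3] at hΦ
    have h4 := congrArg (algebraMap ℂ K) hΦ
    rw [map_sum, map_zero] at h4
    rw [← h4]
    refine Finset.sum_congr rfl fun i _ => ?_
    rw [map_mul, map_pow]
  have h3 := h1.2.2
  rwa [h2, sub_zero] at h3

omit htr in
lemma exists_pole {a : K} (ha : Transcendental ℂ a) : ∃ P : ValuationSubring K,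
    (∀ c : ℂ, algebraMap ℂ K c ∈ P) ∧ a ∉ P := by
  have hai : Transcendental ℂ a⁻¹ := fun h => ha (by rw [← inv_inv a]; exact h.inv)
  obtain ⟨P, hP, _, hv⟩ := exists_place hai 0
  refine ⟨P, hP, fun h => ?_⟩
  rw [map_zero, sub_zero] at hv
  have h1 : P.valuation (a * a⁻¹) < 1 := val_mul_lt h hv
  rw [mul_inv_cancel₀ (fun h0 => ha (by rw [h0]; exact isAlgebraic_zero)), map_one] at h1
  exact lt_irrefl _ h1

omit htr in
/-- a monic relation over `ℂ[a]` cannot hold for `b` -/
lemma relation_ne {a b : K} (hb : Transcendental ℂ b)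
    (hpole : ∀ P : ValuationSubring K, (∀ c : ℂ, algebraMap ℂ K c ∈ P) → a ∈ P ∨ b ∈ P)
    {Φ : Polynomial (Polynomial ℂ)} (hΦ : Φ.Monic) :
    Φ.eval₂ (Polynomial.aeval a : Polynomial ℂ →ₐ[ℂ] K).toRingHom b ≠ 0 := by
  intro h0
  obtain ⟨P, hP, hbP⟩ := exists_pole hb
  have haP := (hpole P hP).resolve_right hbP
  have h1 := gval_eval_eq (P := P) hbP (p := Φ.map (Polynomial.aeval a : Polynomial ℂ →ₐ[ℂ] K).toRingHom)
    (fun i => by rw [Polynomial.coeff_map]; exact aeval_mem hP haP _)
    (by rw [(hΦ.map _).coeff_natDegree, map_one])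
  rw [Polynomial.eval_map, h0, map_zero] at h1
  have hx1 : 1 < P.valuation b := by
    rw [← not_le]; exact fun h => hbP ((P.valuation_le_one_iff b).mp h)
  exact pow_ne_zero _ (fun h => by rw [h] at hx1; exact not_lt_zero hx1) h1.symm

/-- finitely many points of the curve satisfy one modular relation -/
theorem finite_rel {n : ℕ} {g : Fin n → K} (hg : ∀ i, Transcendental ℂ (g i)) {i j : Fin n}
    (hpole : ∀ P : ValuationSubring K, (∀ c : ℂ, algebraMap ℂ K c ∈ P) → g i ∈ P ∨ g j ∈ P) (N : ℕ) :
    {x ∈ placeCurve g | ModRel N (x i) (x j)}.Finite := by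
  classical
  set z := (modPoly N).eval₂ (Polynomial.aeval (g i) : Polynomial ℂ →ₐ[ℂ] K).toRingHom (g j) with hz
  have hz0 : z ≠ 0 := relation_ne (hg j) hpole (modPoly_monic N)
  choose R hR0 hR using fun k => exists_excl htr (hg k) hz0
  refine Set.Finite.subset (Set.Finite.pi' (t := fun k => {c : ℂ | (R k).eval c = 0}) fun k => ?_) ?_
  · refine Set.Finite.subset ((R k).roots.toFinset.finite_toSet) fun c hc => ?_
    rw [Finset.mem_coe, Multiset.mem_toFinset, Polynomial.mem_roots (hR0 k)]
    exact hc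
  · rintro x ⟨⟨P, hP, hPt, hPx⟩, hx⟩ k
    exact hR k P hP (x k) (hPx k) (modRel_value hP (hPx i) (hPx j) _ hx)

/-- curves whose coordinate functions have pairwise disjoint poles are Hodge generic -/
theorem hodgeGeneric_of_poles {n : ℕ} {g : Fin n → K} (hg : ∀ i, Transcendental ℂ (g i))
    (hpole : ∀ i j, i ≠ j → ∀ P : ValuationSubring K, (∀ c : ℂ, algebraMap ℂ K c ∈ P) → g i ∈ P ∨ g j ∈ P) :
    HodgeGeneric (placeCurve g) := by
  intro m D hm hsub
  by_cases hnone : ∃ i, D.block i = none
  · obtain ⟨i, hi⟩ := hnone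
    obtain ⟨x, hx, hxi⟩ := exists_curve_point htr hg i (G := {jInv (D.cm i)}ᶜ)
      (Set.Finite.infinite_compl (Set.finite_singleton _))
    obtain ⟨τ, hτ⟩ := hsub hx
    apply hxi
    rw [hτ i]
    unfold SpecialDatum.coord
    rw [hi]
    rfl
  · push Not at hnone
    obtain ⟨i, j, hij, hf⟩ : ∃ i j, i ≠ j ∧ D.block i = D.block j := by
      by_contra hcon
      push Not at hcon
      have hinj : Function.Injective (fun i : Fin n => (D.block i).get (Option.isSome_iff_ne_none.mpr (hnone i))) := by
        intro i j h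
        simp only at h
        by_contra hne
        apply hcon i j hne
        rw [← Option.some_get (Option.isSome_iff_ne_none.mpr (hnone i)),
          ← Option.some_get (Option.isSome_iff_ne_none.mpr (hnone j)), h]
      have := Fintype.card_le_of_injective _ hinj
      simp at this
      omega
    obtain ⟨k, hk⟩ := Option.ne_none_iff_exists'.mp (hnone i)
    have hk' : D.block j = some k := by rw [← hf]; exact hk
    -- one modular relation on the whole curve
    set h := D.g j * (D.g i)⁻¹ with hh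
    have hdet : 0 < h.det.val := by
      have h1 := D.g_det i
      have h2 := D.g_det j
      rw [hh, map_mul, map_inv, Units.val_mul, Units.val_inv_eq_inv_val]
      positivity
    obtain ⟨N, hN⟩ := exists_modRel h hdet
    have hsub2 : placeCurve g ⊆ {x ∈ placeCurve g | ModRel N (x i) (x j)} := by
      intro x hx
      refine ⟨hx, ?_⟩
      obtain ⟨τ, hτ⟩ := hsub hx
      have hi' : x i = jInv ((D.g i).map (algebraMap ℚ ℝ) • τ k) := by
        rw [hτ i]; unfold SpecialDatum.coord; rw [hk]
      have hj' : x j = jInv ((D.g j).map (algebraMap ℚ ℝ) • τ k) := by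
        rw [hτ j]; unfold SpecialDatum.coord; rw [hk']
      have h1 := hN ((D.g i).map (algebraMap ℚ ℝ) • τ k)
      rw [hh, map_mul, map_inv, mul_smul, inv_smul_smul] at h1
      rw [hi', hj']
      exact h1
    have hfin : (placeCurve g).Finite := (finite_rel htr hg (hpole i j hij) N).subset hsub2
    -- but the curve is infinite
    have hinf : (Set.univ : Set ℂ).Infinite := Set.infinite_univ
    have hcompl : ((fun x : Fin n → ℂ => x i) '' placeCurve g)ᶜ.Infinite :=
      (hfin.image _).infinite_compl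
    obtain ⟨x, hx, hxi⟩ := exists_curve_point htr hg i hcompl
    exact hxi ⟨x, hx, rfl⟩

end places

end Pool.Agent.Lib.ModularZP
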