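import Mathlib
import Pool.Agent.Lib.ModularZP.Place

/-!
Composites of places of a function field `K` over `ℂ` with valuation rings of `ℂ`, and the transfer
of statements about the places of `K` over `ℂ` to all valuation rings of `K` which contain a
suitable finite set of constants.
-/

namespace Pool.Agent.Lib.ModularZP

section basic

variable {K : Type*} [Field K]

lemma val_lt_one_iff {W : ValuationSubring K} {f : K} : W.valuation f < 1 ↔ f = 0 ∨ f⁻¹ ∉ W := by
  by_cases hf : f = 0
  · subst hf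
    simp only [map_zero, true_or, iff_true]
    exact zero_lt_one
  · rw [← W.valuation_le_one_iff, map_inv₀, not_le]
    have hv : W.valuation f ≠ 0 := by rwa [Ne, map_eq_zero]
    constructor
    · intro h
      right
      exact (one_lt_inv₀ (zero_lt_iff.mpr hv)).mpr h
    · rintro (h | h)
      · exact absurd h hf
      · exact (one_lt_inv₀ (zero_lt_iff.mpr hv)).mp h

lemma inv_lt_one_iff {W : ValuationSubring K} {f : K} (hf : f ≠ 0) : W.valuation f⁻¹ < 1 ↔ f ∉ W := by
  rw [val_lt_one_iff, inv_inv]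
  constructor
  · rintro (h | h)
    · exact absurd h (inv_ne_zero hf)
    · exact h
  · exact Or.inr

lemma one_lt_iff {W : ValuationSubring K} {f : K} : 1 < W.valuation f ↔ f ∉ W := by
  rw [← W.valuation_le_one_iff, not_le]

lemma mem_of_lt {W : ValuationSubring K} {f : K} (h : W.valuation f < 1) : f ∈ W :=
  (W.valuation_le_one_iff _).mp h.le

end basic

section comp

variable {K : Type*} [Field K] [Algebra ℂ K]

lemma value_unique {P : ValuationSubring K} (hP : ∀ c : ℂ, algebraMap ℂ K c ∈ P) {f : K} {c d : ℂ}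
    (hc : P.valuation (f - algebraMap ℂ K c) < 1) (hd : P.valuation (f - algebraMap ℂ K d) < 1) : c = d := by
  rw [← sub_eq_zero]
  apply const_zero hP
  have h1 : algebraMap ℂ K (c - d) = (f - algebraMap ℂ K d) - (f - algebraMap ℂ K c) := by
    rw [map_sub]; ring
  rw [h1]
  exact P.valuation.map_sub_lt hd hc

lemma value_mem {P : ValuationSubring K} (hP : ∀ c : ℂ, algebraMap ℂ K c ∈ P) {f : K} {c : ℂ}
    (hc : P.valuation (f - algebraMap ℂ K c) < 1) : f ∈ P := by
  have := add_mem (mem_of_lt hc) (hP c)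
  rwa [sub_add_cancel] at this

lemma value_cg {P : ValuationSubring K} (hP : ∀ c : ℂ, algebraMap ℂ K c ∈ P) {f : K} {c : ℂ}
    (hc : P.valuation (f - algebraMap ℂ K c) < 1) : Cg P f (algebraMap ℂ K c) :=
  ⟨value_mem hP hc, hP c, hc⟩

lemma value_inv {P : ValuationSubring K} (hP : ∀ c : ℂ, algebraMap ℂ K c ∈ P) {f : K} {c : ℂ} (hc0 : c ≠ 0)
    (hc : P.valuation (f - algebraMap ℂ K c) < 1) : P.valuation (f⁻¹ - algebraMap ℂ K c⁻¹) < 1 := by
  have hv : P.valuation (algebraMap ℂ K c) = 1 := const_val hP hc0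
  have hf : P.valuation f = 1 := by
    have h4 : f = algebraMap ℂ K c + (f - algebraMap ℂ K c) := by ring
    rw [h4, P.valuation.map_add_eq_of_lt_left (by rw [hv]; exact hc), hv]
  have hf0 : f ≠ 0 := by
    rintro rfl
    rw [map_zero] at hf
    exact zero_ne_one hf
  have ht' : algebraMap ℂ K c ≠ 0 := by rwa [Ne, map_eq_zero]
  have h5 : f⁻¹ - algebraMap ℂ K c⁻¹ = -((algebraMap ℂ K c)⁻¹ * f⁻¹ * (f - algebraMap ℂ K c)) := by
    rw [map_inv₀]
    field_simp
    ring
  rw [h5, Valuation.map_neg, map_mul, map_mul, map_inv₀, map_inv₀, hv, hf, inv_one, one_mul, one_mul]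
  exact hc

/-- the composite valuation ring -/
theorem exists_comp (htr : Algebra.trdeg ℂ K = 1) {P : ValuationSubring K} (hP : ∀ c : ℂ, algebraMap ℂ K c ∈ P)
    (hPt : P ≠ ⊤) (V : ValuationSubring ℂ) : ∃ W : ValuationSubring K, W ≤ P ∧
      (∀ c : ℂ, algebraMap ℂ K c ∈ W ↔ c ∈ V) ∧
      (∀ (f : K) (c : ℂ), P.valuation (f - algebraMap ℂ K c) < 1 → (f ∈ W ↔ c ∈ V)) ∧
      ∀ (f : K) (c : ℂ), P.valuation (f - algebraMap ℂ K c) < 1 → (W.valuation f < 1 ↔ V.valuation c < 1) := by
  let W : ValuationSubring K :=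
    { carrier := {f | ∃ c ∈ V, P.valuation (f - algebraMap ℂ K c) < 1}
      zero_mem' := ⟨0, V.zero_mem, by rw [map_zero, sub_zero, map_zero]; exact zero_lt_one⟩
      one_mem' := ⟨1, V.one_mem, by rw [map_one, sub_self, map_zero]; exact zero_lt_one⟩
      add_mem' := by
        rintro a b ⟨c, hc, h⟩ ⟨d, hd, h'⟩
        refine ⟨c + d, add_mem hc hd, ?_⟩
        have := ((value_cg hP h).add (value_cg hP h')).2.2
        rwa [← map_add] at this
      mul_mem' := by
        rintro a b ⟨c, hc, h⟩ ⟨d, hd, h'⟩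
        refine ⟨c * d, mul_mem hc hd, ?_⟩
        have := ((value_cg hP h).mul (value_cg hP h')).2.2
        rwa [← map_mul] at this
      neg_mem' := by
        rintro a ⟨c, hc, h⟩
        refine ⟨-c, neg_mem hc, ?_⟩
        have h1 : -a - algebraMap ℂ K (-c) = -(a - algebraMap ℂ K c) := by rw [map_neg]; ring
        rw [h1, Valuation.map_neg]
        exact h
      mem_or_inv_mem' := by
        intro f
        by_cases hf : f ∈ P
        · obtain ⟨c, hc⟩ := exists_value htr hP hPt hf
          by_cases hcV : c ∈ V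
          · exact Or.inl ⟨c, hcV, hc⟩
          · have hc0 : c ≠ 0 := by rintro rfl; exact hcV V.zero_mem
            exact Or.inr ⟨c⁻¹, (V.mem_or_inv_mem c).resolve_left hcV, value_inv hP hc0 hc⟩
        · refine Or.inr ⟨0, V.zero_mem, ?_⟩
          rw [map_zero, sub_zero]
          exact (inv_lt_one_iff (fun h => hf (by rw [h]; exact P.zero_mem))).mpr hf }
  have hWmem : ∀ f, f ∈ W ↔ ∃ c ∈ V, P.valuation (f - algebraMap ℂ K c) < 1 := fun f => Iff.rfl
  have hle : W ≤ P := by
    intro f hf
    obtain ⟨c, _, hc⟩ := (hWmem f).mp hf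
    exact value_mem hP hc
  have hval : ∀ (f : K) (c : ℂ), P.valuation (f - algebraMap ℂ K c) < 1 → (f ∈ W ↔ c ∈ V) := by
    intro f c hc
    rw [hWmem]
    constructor
    · rintro ⟨d, hd, hd'⟩
      rw [value_unique hP hc hd']
      exact hd
    · intro h
      exact ⟨c, h, hc⟩
  refine ⟨W, hle, fun c => ?_, hval, fun f c hc => ?_⟩
  · exact hval _ c (by rw [sub_self, map_zero]; exact zero_lt_one)
  · rw [val_lt_one_iff, val_lt_one_iff]
    by_cases hc0 : c = 0
    · subst hc0
      rw [map_zero, sub_zero] at hc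
      simp only [true_or, iff_true]
      by_cases hf : f = 0
      · exact Or.inl hf
      · right
        intro h
        have h1 := hle h
        have h2 : P.valuation (f⁻¹ * f) < 1 := val_mul_lt h1 hc
        rw [inv_mul_cancel₀ hf, map_one] at h2
        exact lt_irrefl _ h2
    · have hf0 : f ≠ 0 := by
        rintro rfl
        rw [zero_sub, Valuation.map_neg] at hc
        exact hc0 (const_zero hP hc)
      rw [hval _ _ (value_inv hP hc0 hc)]
      simp only [hc0, hf0, false_or]

end comp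

section transfer

variable {K : Type*} [Field K] [Algebra ℂ K]

lemma adjoin_finite {T : Set K} {u : K} (hu : u ∈ Algebra.adjoin ℂ T) : ∃ S : Finset ℂ, ∀ W : ValuationSubring K,
    (∀ s ∈ S, algebraMap ℂ K s ∈ W) → (∀ x ∈ T, x ∈ W) → u ∈ W := by
  classical
  induction hu using Algebra.adjoin_induction with
  | mem x hx => exact ⟨∅, fun W _ hT => hT x hx⟩
  | algebraMap r => exact ⟨{r}, fun W h _ => h r (Finset.mem_singleton_self _)⟩
  | add x y _ _ hx hy =>
    obtain ⟨S, hS⟩ := hx
    obtain ⟨S', hS'⟩ := hy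
    exact ⟨S ∪ S', fun W h hT => add_mem (hS W (fun s hs => h s (Finset.mem_union_left _ hs)) hT)
      (hS' W (fun s hs => h s (Finset.mem_union_right _ hs)) hT)⟩
  | mul x y _ _ hx hy =>
    obtain ⟨S, hS⟩ := hx
    obtain ⟨S', hS'⟩ := hy
    exact ⟨S ∪ S', fun W h hT => mul_mem (hS W (fun s hs => h s (Finset.mem_union_left _ hs)) hT)
      (hS' W (fun s hs => h s (Finset.mem_union_right _ hs)) hT)⟩

/-- transfer of an implication between zeros and poles -/
theorem cert {a : K} {B : Set K} (h : ∀ P : ValuationSubring K, (∀ c : ℂ, algebraMap ℂ K c ∈ P) →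
      P.valuation a < 1 → ∃ b ∈ B, b ∉ P) :
    ∃ S : Finset ℂ, ∀ W : ValuationSubring K, (∀ s ∈ S, algebraMap ℂ K s ∈ W) →
      W.valuation a < 1 → ∃ b ∈ B, b ∉ W := by
  let A : Subring K := (Algebra.adjoin ℂ (insert a B)).toSubring
  have haA : a ∈ A := Algebra.subset_adjoin (Set.mem_insert _ _)
  have hcA : ∀ c : ℂ, algebraMap ℂ K c ∈ A := fun c => Subalgebra.algebraMap_mem _ c
  have hI : Ideal.span {(⟨a, haA⟩ : A)} = ⊤ := by
    by_contra hI
    obtain ⟨P, hP1, hP2⟩ := Ideal.image_subset_nonunits_valuationSubring (A := A) _ hI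
    have h1 : P.valuation a < 1 := hP2 ⟨⟨a, haA⟩, Ideal.subset_span rfl, rfl⟩
    obtain ⟨b, hb, hbP⟩ := h P (fun c => hP1 (hcA c)) h1
    exact hbP (hP1 (Algebra.subset_adjoin (Set.mem_insert_of_mem _ hb)))
  have h1 : (1 : A) ∈ Ideal.span {(⟨a, haA⟩ : A)} := by rw [hI]; trivial
  obtain ⟨u, hu⟩ := Ideal.mem_span_singleton'.mp h1
  have h2 : (u : K) * a = 1 := congrArg Subtype.val hu
  obtain ⟨S, hS⟩ := adjoin_finite (K := K) (T := insert a B) (u := (u : K)) u.2
  refine ⟨S, fun W hW ha => ?_⟩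
  by_contra hcon
  push Not at hcon
  have h3 : (u : K) ∈ W := hS W hW (by
    rintro x (rfl | hx)
    · exact mem_of_lt ha
    · exact hcon x hx)
  have h4 : W.valuation ((u : K) * a) < 1 := val_mul_lt h3 ha
  rw [h2, map_one] at h4
  exact lt_irrefl _ h4

/-- near a zero of `h` every function takes finitely many values -/
theorem value_cert (htr : Algebra.trdeg ℂ K = 1) {h : K} (hh : h ≠ 0) (y : K) :
    ∃ S Z : Finset ℂ, ∀ W : ValuationSubring K, (∀ s ∈ S, algebraMap ℂ K s ∈ W) →
      W.valuation h < 1 → y ∈ W → ∃ ζ ∈ Z, W.valuation (y - algebraMap ℂ K ζ) < 1 := by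
  classical
  by_cases hy : Transcendental ℂ y
  · obtain ⟨R, hR0, hR⟩ := exists_excl htr hy hh
    set Z := R.roots.toFinset with hZ
    set f : K := ∏ ζ ∈ Z, (y - algebraMap ℂ K ζ) with hf
    have hf0 : f ≠ 0 := by
      rw [hf, Finset.prod_ne_zero_iff]
      intro ζ _ h0
      apply hy
      rw [sub_eq_zero.mp h0]
      exact isAlgebraic_algebraMap _
    obtain ⟨S, hS⟩ := cert (K := K) (a := h) (B := {y, f⁻¹}) (by
      intro P hP hPh
      have hPt : P ≠ ⊤ := by
        rintro rfl
        rw [val_lt_one_iff] at hPh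
        rcases hPh with h1 | h1
        · exact hh h1
        · exact h1 (ValuationSubring.mem_top _)
      by_cases hyP : y ∈ P
      · refine ⟨f⁻¹, Or.inr rfl, fun hfP => ?_⟩
        obtain ⟨c, hc⟩ := exists_value htr hP hPt hyP
        have hcR := hR P hP c hc hPh
        have hcZ : c ∈ Z := by
          rw [hZ, Multiset.mem_toFinset, Polynomial.mem_roots hR0]
          exact hcR
        have h1 : P.valuation f < 1 := by
          rw [hf, ← Finset.mul_prod_erase _ _ hcZ, mul_comm]
          exact val_mul_lt (prod_mem fun ζ _ => sub_mem hyP (hP ζ)) hc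
        have h2 : P.valuation (f⁻¹ * f) < 1 := val_mul_lt hfP h1
        rw [inv_mul_cancel₀ hf0, map_one] at h2
        exact lt_irrefl _ h2
      · exact ⟨y, Or.inl rfl, hyP⟩)
    refine ⟨S ∪ Z, Z, fun W hW hWh hyW => ?_⟩
    obtain ⟨b, hb, hbW⟩ := hS W (fun s hs => hW s (Finset.mem_union_left _ hs)) hWh
    rcases hb with rfl | rfl
    · exact absurd hyW hbW
    · have h1 : W.valuation f < 1 := by
        rw [val_lt_one_iff]
        exact Or.inr hbW
      by_contra hcon
      push Not at hcon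
      have h2 : W.valuation f = 1 := by
        rw [hf, map_prod]
        refine Finset.prod_eq_one fun ζ hζ => le_antisymm ?_ (hcon ζ hζ)
        exact (W.valuation_le_one_iff _).mpr (sub_mem hyW (hW ζ (Finset.mem_union_right _ hζ)))
      rw [h2] at h1
      exact lt_irrefl _ h1
  · have halg : IsAlgebraic ℂ y := by
      by_contra h1
      exact hy h1
    obtain ⟨c, hc⟩ : ∃ c : ℂ, algebraMap ℂ K c = y := by
      have h1 := minpoly.irreducible halg.isIntegral
      have h2 := IsAlgClosed.degree_eq_one_of_irreducible ℂ h1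
      exact minpoly.mem_range_of_degree_eq_one ℂ y h2
    refine ⟨∅, {c}, fun W _ _ _ => ⟨c, Finset.mem_singleton_self _, ?_⟩⟩
    rw [hc, sub_self, map_zero]
    exact zero_lt_one

end transfer

end Pool.Agent.Lib.ModularZP
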