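import Mathlib
import Pool.Agent.Lib.ModularZP.Comp

/-!
Sizes of two small functions; valuation rings extending a valuation ring of `ℂ` at which a given
function has no prescribed value.
-/

namespace Pool.Agent.Lib.ModularZP

section slopes

variable {K : Type*} [Field K] [Algebra ℂ K]

/-- the sizes of two small functions are related by one of finitely many multiplicative relations -/
theorem slopes (htr : Algebra.trdeg ℂ K = 1) {X Y : K} (hX : X ≠ 0) (hY : Y ≠ 0) :
    ∃ (S : Finset ℂ) (R : Finset (ℕ × ℕ)), ∀ W : ValuationSubring K, (∀ s ∈ S, algebraMap ℂ K s ∈ W) →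
      W.valuation X < 1 → W.valuation Y < 1 →
      ∃ r ∈ R, 0 < r.1 ∧ 0 < r.2 ∧ W.valuation X ^ r.1 = W.valuation Y ^ r.2 := by
  classical
  obtain ⟨G, hG0, hG⟩ := exists_relation htr (a := X) (b := Y)
  refine ⟨G.support.image (fun m => G.coeff m) ∪ G.support.image (fun m => (G.coeff m)⁻¹),
    (G.support ×ˢ G.support).image (fun q => (q.2 0 - q.1 0, q.1 1 - q.2 1)), fun W hW hXW hYW => ?_⟩
  set x := W.valuation X with hx
  set y := W.valuation Y with hy
  have hx0 : x ≠ 0 := by rwa [hx, Ne, map_eq_zero]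
  have hy0 : y ≠ 0 := by rwa [hy, Ne, map_eq_zero]
  set T : (Fin 2 →₀ ℕ) → K := fun m => algebraMap ℂ K (G.coeff m) * (X ^ (m 0) * Y ^ (m 1)) with hT
  have hsum : ∑ m ∈ G.support, T m = 0 := by
    rw [MvPolynomial.aeval_def, MvPolynomial.eval₂_eq'] at hG
    rw [← hG]
    refine Finset.sum_congr rfl fun m _ => ?_
    rw [Fin.prod_univ_two]
    rfl
  have hval : ∀ m ∈ G.support, W.valuation (T m) = x ^ (m 0) * y ^ (m 1) := by
    intro m hm
    have hc0 : G.coeff m ≠ 0 := MvPolynomial.mem_support_iff.mp hm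
    have h1 : W.valuation (algebraMap ℂ K (G.coeff m)) = 1 := by
      have h2 : W.valuation (algebraMap ℂ K (G.coeff m)) ≤ 1 :=
        (W.valuation_le_one_iff _).mpr (hW _ (Finset.mem_union_left _ (Finset.mem_image_of_mem _ hm)))
      have h3 : W.valuation (algebraMap ℂ K (G.coeff m)⁻¹) ≤ 1 :=
        (W.valuation_le_one_iff _).mpr (hW _ (Finset.mem_union_right _ (Finset.mem_image_of_mem _ hm)))
      refine le_antisymm h2 ?_
      rw [map_inv₀, map_inv₀] at h3
      exact (inv_le_one₀ (zero_lt_iff.mpr (by rw [Ne, map_eq_zero, map_eq_zero]; exact hc0))).mp h3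
    rw [hT]
    simp only
    rw [map_mul, h1, one_mul, map_mul, map_pow, map_pow]
  have hne : G.support.Nonempty := by
    rw [Finset.nonempty_iff_ne_empty, Ne, MvPolynomial.support_eq_empty]
    exact hG0
  obtain ⟨m, hm, hmax⟩ := Finset.exists_max_image G.support (fun m => W.valuation (T m)) hne
  obtain ⟨m', hm', hne', heq⟩ : ∃ m' ∈ G.support, m' ≠ m ∧ W.valuation (T m') = W.valuation (T m) := by
    by_contra hcon
    push Not at hcon
    have hTm0 : W.valuation (T m) ≠ 0 := by
      rw [hval m hm]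
      exact mul_ne_zero (pow_ne_zero _ hx0) (pow_ne_zero _ hy0)
    have h1 : W.valuation (∑ m' ∈ G.support.erase m, T m') < W.valuation (T m) := by
      refine W.valuation.map_sum_lt hTm0 fun m' hm' => ?_
      rw [Finset.mem_erase] at hm'
      exact lt_of_le_of_ne (hmax m' hm'.2) (hcon m' hm'.2 hm'.1)
    rw [← Finset.add_sum_erase _ _ hm] at hsum
    have h2 := W.valuation.map_add_eq_of_lt_left h1
    rw [hsum, map_zero] at h2
    exact hTm0 h2.symm
  rw [hval m hm, hval m' hm'] at heq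
  -- the two exponents
  have key : ∀ m m' : Fin 2 →₀ ℕ, m ∈ G.support → m' ∈ G.support →
      x ^ (m 0) * y ^ (m 1) = x ^ (m' 0) * y ^ (m' 1) → m 0 < m' 0 →
      ∃ r ∈ (G.support ×ˢ G.support).image (fun q => (q.2 0 - q.1 0, q.1 1 - q.2 1)),
        0 < r.1 ∧ 0 < r.2 ∧ x ^ r.1 = y ^ r.2 := by
    intro m m' hm hm' h hlt
    have h1 : x ^ (m' 0) = x ^ (m 0) * x ^ (m' 0 - m 0) := by rw [← pow_add]; congr 1; omega
    rw [h1, mul_assoc] at h
    have h2 := mul_left_cancel₀ (pow_ne_zero _ hx0) h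
    have hxlt : x ^ (m' 0 - m 0) < 1 := pow_lt_one₀ zero_le hXW (by omega)
    have h3 : m' 1 < m 1 := by
      by_contra hle
      push Not at hle
      have h4 : y ^ (m' 1) ≤ y ^ (m 1) := pow_le_pow_of_le_one zero_le hYW.le hle
      have h5 : x ^ (m' 0 - m 0) * y ^ (m' 1) < y ^ (m 1) := by
        calc x ^ (m' 0 - m 0) * y ^ (m' 1) ≤ x ^ (m' 0 - m 0) * y ^ (m 1) := mul_le_mul_right h4 _
          _ < 1 * y ^ (m 1) := mul_lt_mul_of_pos_right hxlt (zero_lt_iff.mpr (pow_ne_zero _ hy0))
          _ = _ := one_mul _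
      rw [← h2] at h5
      exact lt_irrefl _ h5
    have h4 : y ^ (m 1) = y ^ (m 1 - m' 1) * y ^ (m' 1) := by rw [← pow_add]; congr 1; omega
    rw [h4] at h2
    have h5 := mul_right_cancel₀ (pow_ne_zero _ hy0) h2
    exact ⟨(m' 0 - m 0, m 1 - m' 1), Finset.mem_image.mpr ⟨(m, m'), Finset.mem_product.mpr ⟨hm, hm'⟩, rfl⟩,
      by simp only; omega, by simp only; omega, h5.symm⟩
  rcases lt_trichotomy (m 0) (m' 0) with h | h | h
  · exact key m m' hm hm' heq.symm h
  · exfalso
    rw [h] at heq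
    have h1 := mul_left_cancel₀ (pow_ne_zero _ hx0) heq
    have h2 : m' 1 = m 1 := by
      rcases lt_trichotomy (m' 1) (m 1) with h3 | h3 | h3
      · exact absurd h1 (pow_lt_pow_right_of_lt_one₀ (zero_lt_iff.mpr hy0) hYW h3).ne'
      · exact h3
      · exact absurd h1 (pow_lt_pow_right_of_lt_one₀ (zero_lt_iff.mpr hy0) hYW h3).ne
    apply hne'
    ext i
    fin_cases i
    · exact h.symm
    · exact h2
  · exact key m' m hm' hm heq h

/-- valuation rings of `K` above `V` at which `y` is integral and congruent to none of finitely many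
constants -/
theorem exists_gauss (V : ValuationSubring ℂ) {y : K} (hy : Transcendental ℂ y) (Z : Finset ℂ) :
    ∃ W : ValuationSubring K, (∀ c : ℂ, algebraMap ℂ K c ∈ W ↔ c ∈ V) ∧
      (∀ c : ℂ, W.valuation (algebraMap ℂ K c) < 1 ↔ V.valuation c < 1) ∧ y ∈ W ∧
      ∀ ζ ∈ Z, ¬ W.valuation (y - algebraMap ℂ K ζ) < 1 := by
  classical
  -- an element of `V` congruent to no element of `Z`
  obtain ⟨α, hαV, hα⟩ : ∃ α ∈ V, ∀ ζ ∈ Z, ζ ∈ V → ¬ V.valuation (α - ζ) < 1 := by
    set Z' := Z.filter (fun ζ => ζ ∈ V) with hZ'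
    set f : Polynomial ℂ := ∏ ζ ∈ Z', (Polynomial.X - Polynomial.C ζ) with hf
    have hfm : f.Monic := Polynomial.monic_prod_of_monic _ _ fun ζ _ => Polynomial.monic_X_sub_C _
    have hfd : f.natDegree = Z'.card := by
      rw [hf, Polynomial.natDegree_prod_of_monic _ _ fun ζ _ => Polynomial.monic_X_sub_C _]
      simp
    by_cases hne : Z' = ∅
    · refine ⟨0, V.zero_mem, fun ζ hζ hζV => ?_⟩
      exfalso
      have : ζ ∈ Z' := Finset.mem_filter.mpr ⟨hζ, hζV⟩
      rw [hne] at this
      exact absurd this (Finset.notMem_empty _)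
    · have hd : 0 < f.natDegree := by rw [hfd]; exact Finset.card_pos.mpr (Finset.nonempty_iff_ne_empty.mpr hne)
      have hdeg : (f - 1).degree ≠ 0 := by
        have h1 : (f - 1).degree = f.degree := by
          apply Polynomial.degree_sub_eq_left_of_degree_lt
          rw [Polynomial.degree_one]
          exact Polynomial.natDegree_pos_iff_degree_pos.mp hd
        rw [h1]
        exact (Polynomial.natDegree_pos_iff_degree_pos.mp hd).ne'
      obtain ⟨α, hα⟩ := IsAlgClosed.exists_root (f - 1) hdeg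
      have hαf : f.eval α = 1 := by
        rw [Polynomial.IsRoot.def, Polynomial.eval_sub, Polynomial.eval_one, sub_eq_zero] at hα
        exact hα
      have hprod : ∏ ζ ∈ Z', (α - ζ) = 1 := by
        rw [← hαf, hf, Polynomial.eval_prod]
        refine Finset.prod_congr rfl fun ζ _ => ?_
        rw [Polynomial.eval_sub, Polynomial.eval_X, Polynomial.eval_C]
      have hαV : α ∈ V := by
        by_contra hαV
        have h1 : ∀ ζ ∈ Z', 1 < V.valuation (α - ζ) := by
          intro ζ hζ
          rw [one_lt_iff]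
          intro h2
          apply hαV
          have := add_mem h2 (Finset.mem_filter.mp hζ).2
          rwa [sub_add_cancel] at this
        have h2 : 1 < V.valuation (∏ ζ ∈ Z', (α - ζ)) := by
          rw [map_prod]
          obtain ⟨ζ0, hζ0⟩ := Finset.nonempty_iff_ne_empty.mpr hne
          rw [← Finset.mul_prod_erase _ _ hζ0]
          exact one_lt_mul_of_lt_of_le (h1 ζ0 hζ0)
            (Finset.one_le_prod' fun ζ hζ => (h1 ζ (Finset.mem_of_mem_erase hζ)).le)
        rw [hprod, map_one] at h2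
        exact lt_irrefl _ h2
      refine ⟨α, hαV, fun ζ hζ hζV hlt => ?_⟩
      have hζ' : ζ ∈ Z' := Finset.mem_filter.mpr ⟨hζ, hζV⟩
      have h1 : V.valuation (∏ ζ ∈ Z', (α - ζ)) < 1 := by
        rw [← Finset.mul_prod_erase _ _ hζ', mul_comm]
        exact val_mul_lt (prod_mem fun ζ hζ => sub_mem hαV (Finset.mem_filter.mp (Finset.mem_of_mem_erase hζ)).2) hlt
      rw [hprod, map_one] at h1
      exact lt_irrefl _ h1
  -- the ring `V[y]`
  let g : V →+* K := (algebraMap ℂ K).comp V.subtype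
  let φ : Polynomial V →+* K := Polynomial.eval₂RingHom g y
  have hφ : ∀ q : Polynomial V, φ q = Polynomial.aeval y (q.map V.subtype) := by
    intro q
    rw [Polynomial.aeval_def, Polynomial.eval₂_map]
    rfl
  have hinj : Function.Injective φ := by
    rw [injective_iff_map_eq_zero]
    intro q hq
    rw [hφ] at hq
    have h1 := (transcendental_iff.mp hy) _ hq
    exact (Polynomial.map_eq_zero_iff Subtype.val_injective).mp h1
  let e : Polynomial V ≃+* φ.range := RingEquiv.ofBijective φ.rangeRestrict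
    ⟨fun a b hab => hinj (congrArg Subtype.val hab), φ.rangeRestrict_surjective⟩
  let J : Ideal (Polynomial V) := Ideal.comap (Polynomial.evalRingHom (⟨α, hαV⟩ : V)) (IsLocalRing.maximalIdeal V)
  have hJ : J ≠ ⊤ := Ideal.comap_ne_top _ (IsLocalRing.maximalIdeal.isMaximal V).ne_top
  let I : Ideal φ.range := Ideal.comap (e.symm : φ.range →+* Polynomial V) J
  have hI : I ≠ ⊤ := Ideal.comap_ne_top _ hJ
  obtain ⟨W, hW1, hW2⟩ := Ideal.image_subset_nonunits_valuationSubring (A := φ.range) I hI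
  have hlt : ∀ q : Polynomial V, Polynomial.eval (⟨α, hαV⟩ : V) q ∈ IsLocalRing.maximalIdeal V →
      W.valuation (φ q) < 1 := by
    intro q hq
    refine hW2 ⟨e q, ?_, rfl⟩
    show e.symm (e q) ∈ J
    rw [RingEquiv.symm_apply_apply]
    exact hq
  have hmemW : ∀ q : Polynomial V, φ q ∈ W := fun q => hW1 ⟨q, rfl⟩
  have hC : ∀ c : V, φ (Polynomial.C c) = algebraMap ℂ K c := by
    intro c
    rw [hφ, Polynomial.map_C, Polynomial.aeval_C]
    rfl
  have hXφ : φ Polynomial.X = y := by rw [hφ, Polynomial.map_X, Polynomial.aeval_X]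
  have hmax : ∀ c : V, c ∈ IsLocalRing.maximalIdeal V ↔ V.valuation (c : ℂ) < 1 := fun c => by
    rw [← ValuationSubring.valuation_lt_one_iff]
  have h1 : ∀ c : ℂ, c ∈ V → algebraMap ℂ K c ∈ W := by
    intro c hc
    have := hmemW (Polynomial.C ⟨c, hc⟩)
    rwa [hC] at this
  have h2 : ∀ c : ℂ, V.valuation c < 1 → W.valuation (algebraMap ℂ K c) < 1 := by
    intro c hc
    have := hlt (Polynomial.C ⟨c, mem_of_lt hc⟩) (by
      rw [Polynomial.eval_C, hmax]
      exact hc)
    rwa [hC] at this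
  have h3 : ∀ c : ℂ, algebraMap ℂ K c ∈ W ↔ c ∈ V := by
    refine fun c => ⟨fun h => ?_, h1 c⟩
    by_contra hc
    have hc0 : c ≠ 0 := by rintro rfl; exact hc V.zero_mem
    have h4 := h2 _ ((inv_lt_one_iff hc0).mpr hc)
    rw [map_inv₀] at h4
    exact (inv_lt_one_iff (by rwa [Ne, map_eq_zero])).mp h4 h
  have hyW : y ∈ W := by
    have := hmemW Polynomial.X
    rwa [hXφ] at this
  have hyα : W.valuation (y - algebraMap ℂ K α) < 1 := by
    have := hlt (Polynomial.X - Polynomial.C ⟨α, hαV⟩) (by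
      rw [Polynomial.eval_sub, Polynomial.eval_X, Polynomial.eval_C, sub_self]
      exact zero_mem _)
    rwa [map_sub, hXφ, hC] at this
  have h4 : ∀ c : ℂ, W.valuation (algebraMap ℂ K c) < 1 ↔ V.valuation c < 1 := by
    intro c
    rw [val_lt_one_iff, val_lt_one_iff, map_eq_zero, ← map_inv₀, h3]
  refine ⟨W, h3, h4, hyW, fun ζ hζ hlt' => ?_⟩
  have hζV : ζ ∈ V := by
    rw [← h3]
    have := sub_mem hyW (mem_of_lt hlt')
    rwa [sub_sub_cancel] at this
  refine hα ζ hζ hζV ?_
  rw [← h4]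
  have h5 : algebraMap ℂ K (α - ζ) = (y - algebraMap ℂ K ζ) - (y - algebraMap ℂ K α) := by
    rw [map_sub]; ring
  rw [h5]
  exact W.valuation.map_sub_lt hlt' hyα

end slopes

end Pool.Agent.Lib.ModularZP
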