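import Mathlib
import Pool.Agent.Lib.ModularZP.Slopes

/-!
Linear systems of functions and the valuation rings of the function field: zeros, poles, values.
-/

namespace Pool.Agent.Lib.ModularZP

section near

variable {K : Type*} [Field K] {N : ℕ}

/-- `W` is at a pole of the linear system spanned by the functions `b k` -/
def AtPole (W : ValuationSubring K) (b : Fin N → K) : Prop := ∃ k, b k ∉ W

/-- `W` is at a zero of `b l`, seen as a section of the line bundle `O(D)` where `D` is the least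
effective divisor such that all `b k` are in `L(D)` -/
def AtZero (W : ValuationSubring K) (b : Fin N → K) (l : Fin N) : Prop :=
  W.valuation (b l) < 1 ∨ ∃ k, W.valuation (b l) < W.valuation (b k)

variable [Algebra ℂ K]

/-- the member of the linear system with coefficients `c` -/
noncomputable def lin (b : Fin N → K) (c : Fin N → ℂ) : K := ∑ k, algebraMap ℂ K (c k) * b k

variable {W : ValuationSubring K} {b : Fin N → K} {c : Fin N → ℂ}

lemma lin_notMem {l : Fin N} (h0 : algebraMap ℂ K (c l) ∉ W) (hc : ∀ k, k ≠ l → algebraMap ℂ K (c k) ∈ W)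
    (hz : ¬ AtZero W b l) : lin b c ∉ W := by
  unfold AtZero at hz
  push Not at hz
  obtain ⟨h1, h2⟩ := hz
  have hc0 : 1 < W.valuation (algebraMap ℂ K (c l)) := one_lt_iff.mpr h0
  have hb0 : 0 < W.valuation (b l) := lt_of_lt_of_le zero_lt_one h1
  have hpos : W.valuation (algebraMap ℂ K (c l) * b l) ≠ 0 := by
    rw [map_mul]
    exact mul_ne_zero (zero_lt_one.trans hc0).ne' hb0.ne'
  have hlt : W.valuation (∑ k ∈ Finset.univ.erase l, algebraMap ℂ K (c k) * b k) <
      W.valuation (algebraMap ℂ K (c l) * b l) := by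
    refine W.valuation.map_sum_lt hpos fun k hk => ?_
    rw [map_mul, map_mul]
    calc W.valuation (algebraMap ℂ K (c k)) * W.valuation (b k) ≤ 1 * W.valuation (b l) :=
          mul_le_mul' ((W.valuation_le_one_iff _).mpr (hc k (Finset.mem_erase.mp hk).1)) (h2 k)
      _ < W.valuation (algebraMap ℂ K (c l)) * W.valuation (b l) := mul_lt_mul_of_pos_right hc0 hb0
  rw [← one_lt_iff, lin, ← Finset.add_sum_erase _ _ (Finset.mem_univ l), W.valuation.map_add_eq_of_lt_left hlt, map_mul]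
  calc 1 < W.valuation (algebraMap ℂ K (c l)) := hc0
    _ = W.valuation (algebraMap ℂ K (c l)) * 1 := (mul_one _).symm
    _ ≤ _ := mul_le_mul_right h1 _

lemma lin_mem (hc : ∀ k, algebraMap ℂ K (c k) ∈ W) (hp : ¬ AtPole W b) : lin b c ∈ W := by
  unfold AtPole at hp
  push Not at hp
  exact sum_mem fun k _ => mul_mem (hc k) (hp k)

lemma lin_pole {m : Fin N} (hm : b m ∉ W) (hc : ∀ k, algebraMap ℂ K (c k) ∈ W)
    {ζ : Fin N → ℂ} (hζ : ∀ k, W.valuation (b k / b m - algebraMap ℂ K (ζ k)) < 1)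
    (hu : W.valuation (algebraMap ℂ K (∑ k, c k * ζ k)) = 1) :
    W.valuation (lin b c / b m - algebraMap ℂ K (∑ k, c k * ζ k)) < 1 ∧
      W.valuation (lin b c) = W.valuation (b m) := by
  have hm0 : b m ≠ 0 := fun h => hm (by rw [h]; exact W.zero_mem)
  have h1 : lin b c / b m - algebraMap ℂ K (∑ k, c k * ζ k) =
      ∑ k, algebraMap ℂ K (c k) * (b k / b m - algebraMap ℂ K (ζ k)) := by
    rw [lin, Finset.sum_div, map_sum, ← Finset.sum_sub_distrib]
    refine Finset.sum_congr rfl fun k _ => ?_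
    rw [map_mul]; ring
  have h2 : W.valuation (lin b c / b m - algebraMap ℂ K (∑ k, c k * ζ k)) < 1 := by
    rw [h1]
    exact W.valuation.map_sum_lt one_ne_zero fun k _ => val_mul_lt (hc k) (hζ k)
  refine ⟨h2, ?_⟩
  have h3 : W.valuation (lin b c / b m) = 1 := by
    have h4 : lin b c / b m = algebraMap ℂ K (∑ k, c k * ζ k) + (lin b c / b m - algebraMap ℂ K (∑ k, c k * ζ k)) := by
      ring
    rw [h4, W.valuation.map_add_eq_of_lt_left (by rw [hu]; exact h2), hu]
  rw [map_div₀, div_eq_one_iff_eq (by rwa [Ne, map_eq_zero])] at h3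
  exact h3

/-- near a pole of `g` every function takes finitely many values -/
theorem value_pole (htr : Algebra.trdeg ℂ K = 1) (g y : K) :
    ∃ S Z : Finset ℂ, ∀ W : ValuationSubring K, (∀ s ∈ S, algebraMap ℂ K s ∈ W) →
      g ∉ W → y ∈ W → ∃ ζ ∈ Z, W.valuation (y - algebraMap ℂ K ζ) < 1 := by
  by_cases hg : g = 0
  · exact ⟨∅, ∅, fun W _ h => absurd (by rw [hg]; exact W.zero_mem) h⟩
  · obtain ⟨S, Z, h⟩ := value_cert htr (inv_ne_zero hg) y
    exact ⟨S, Z, fun W hW hgW => h W hW ((inv_lt_one_iff hg).mpr hgW)⟩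

/-- the values of the ratios of the functions of a linear system near its poles -/
theorem exists_poleData (htr : Algebra.trdeg ℂ K = 1) (b : Fin N → K) :
    ∃ (S : Finset ℂ) (T : Finset (Fin N → ℂ)), (∀ ζ ∈ T, ∃ m, ζ m = 1) ∧
      ∀ W : ValuationSubring K, (∀ s ∈ S, algebraMap ℂ K s ∈ W) → AtPole W b →
        ∃ m, b m ∉ W ∧ ∃ ζ ∈ T, ∀ k, W.valuation (b k / b m - algebraMap ℂ K (ζ k)) < 1 := by
  classical
  choose S Z hSZ using fun m k => value_pole htr (b m) (b k / b m)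
  refine ⟨Finset.univ.biUnion fun m => Finset.univ.biUnion fun k => S m k,
    Finset.univ.biUnion fun m => Fintype.piFinset fun k => if k = m then {1} else Z m k, ?_, ?_⟩
  · intro ζ hζ
    rw [Finset.mem_biUnion] at hζ
    obtain ⟨m, _, hm⟩ := hζ
    rw [Fintype.mem_piFinset] at hm
    have := hm m
    rw [if_pos rfl, Finset.mem_singleton] at this
    exact ⟨m, this⟩
  · intro W hW hpole
    obtain ⟨m, _, hmax⟩ := Finset.exists_max_image Finset.univ (fun k => W.valuation (b k))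
      ⟨hpole.choose, Finset.mem_univ _⟩
    have hm : b m ∉ W := by
      obtain ⟨k, hk⟩ := hpole
      rw [← one_lt_iff] at hk ⊢
      exact lt_of_lt_of_le hk (hmax k (Finset.mem_univ k))
    have hm0 : b m ≠ 0 := fun h => hm (by rw [h]; exact W.zero_mem)
    have hmem : ∀ k, b k / b m ∈ W := by
      intro k
      rw [← W.valuation_le_one_iff, map_div₀]
      exact div_le_one_of_le₀ (hmax k (Finset.mem_univ k)) zero_le
    have hval : ∀ k, ∃ ζ ∈ (if k = m then {1} else Z m k : Finset ℂ),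
        W.valuation (b k / b m - algebraMap ℂ K ζ) < 1 := by
      intro k
      by_cases hk : k = m
      · subst hk
        refine ⟨1, by rw [if_pos rfl]; exact Finset.mem_singleton_self _, ?_⟩
        rw [div_self hm0, map_one, sub_self, map_zero]
        exact zero_lt_one
      · rw [if_neg hk]
        refine hSZ m k W (fun s hs => hW s ?_) hm (hmem k)
        rw [Finset.mem_biUnion]
        refine ⟨m, Finset.mem_univ _, ?_⟩
        rw [Finset.mem_biUnion]
        exact ⟨k, Finset.mem_univ _, hs⟩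
    choose ζ hζ hζv using hval
    refine ⟨m, hm, ζ, ?_, hζv⟩
    rw [Finset.mem_biUnion]
    exact ⟨m, Finset.mem_univ _, Fintype.mem_piFinset.mpr hζ⟩

/-- transfer of the consequences of a zero -/
theorem transfer_zero {b : Fin N → K} {l : Fin N} {B : Set K}
    (h : ∀ P : ValuationSubring K, (∀ c : ℂ, algebraMap ℂ K c ∈ P) → AtZero P b l → ∃ x ∈ B, x ∉ P) :
    ∃ S : Finset ℂ, ∀ W : ValuationSubring K, (∀ s ∈ S, algebraMap ℂ K s ∈ W) → AtZero W b l → ∃ x ∈ B, x ∉ W := by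
  classical
  obtain ⟨S0, h0⟩ := cert (K := K) (a := b l) (B := B) (fun P hP hlt => h P hP (Or.inl hlt))
  have h1 : ∀ k, ∃ S : Finset ℂ, ∀ W : ValuationSubring K, (∀ s ∈ S, algebraMap ℂ K s ∈ W) →
      W.valuation (b l) < W.valuation (b k) → ∃ x ∈ B, x ∉ W := by
    intro k
    by_cases hk : b k = 0
    · refine ⟨∅, fun W _ hlt => ?_⟩
      rw [hk, map_zero] at hlt
      exact absurd hlt not_lt_zero
    · have heq : ∀ W : ValuationSubring K, W.valuation (b l / b k) < 1 ↔ W.valuation (b l) < W.valuation (b k) := by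
        intro W
        rw [map_div₀, div_lt_one₀ (zero_lt_iff.mpr (by rwa [Ne, map_eq_zero]))]
      obtain ⟨S, hS⟩ := cert (K := K) (a := b l / b k) (B := B)
        (fun P hP hlt => h P hP (Or.inr ⟨k, (heq P).mp hlt⟩))
      exact ⟨S, fun W hW hlt => hS W hW ((heq W).mpr hlt)⟩
  choose S1 hS1 using h1
  refine ⟨S0 ∪ Finset.univ.biUnion S1, fun W hW hz => ?_⟩
  rcases hz with hz | ⟨k, hk⟩
  · exact h0 W (fun s hs => hW s (Finset.mem_union_left _ hs)) hz
  · exact hS1 k W (fun s hs => hW s (Finset.mem_union_right _ (Finset.mem_biUnion.mpr ⟨k, Finset.mem_univ _, hs⟩))) hk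

/-- transfer of the consequences of a pole -/
theorem transfer_pole {b : Fin N → K} {B : Set K}
    (h : ∀ P : ValuationSubring K, (∀ c : ℂ, algebraMap ℂ K c ∈ P) → AtPole P b → ∃ x ∈ B, x ∉ P) :
    ∃ S : Finset ℂ, ∀ W : ValuationSubring K, (∀ s ∈ S, algebraMap ℂ K s ∈ W) → AtPole W b → ∃ x ∈ B, x ∉ W := by
  classical
  have h1 : ∀ k, ∃ S : Finset ℂ, ∀ W : ValuationSubring K, (∀ s ∈ S, algebraMap ℂ K s ∈ W) →
      b k ∉ W → ∃ x ∈ B, x ∉ W := by
    intro k
    by_cases hk : b k = 0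
    · exact ⟨∅, fun W _ hlt => absurd (by rw [hk]; exact W.zero_mem) hlt⟩
    · obtain ⟨S, hS⟩ := cert (K := K) (a := (b k)⁻¹) (B := B)
        (fun P hP hlt => h P hP ⟨k, (inv_lt_one_iff hk).mp hlt⟩)
      exact ⟨S, fun W hW hlt => hS W hW ((inv_lt_one_iff hk).mpr hlt)⟩
  choose S1 hS1 using h1
  refine ⟨Finset.univ.biUnion S1, fun W hW hz => ?_⟩
  obtain ⟨k, hk⟩ := hz
  exact hS1 k W (fun s hs => hW s (Finset.mem_biUnion.mpr ⟨k, Finset.mem_univ _, hs⟩)) hk

/-- away from finitely many values of `y` a valuation ring is neither at a zero nor at a pole -/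
theorem exists_generic (htr : Algebra.trdeg ℂ K = 1) {b : Fin N → K} {l : Fin N} (hb0 : b l ≠ 0) (y : K) :
    ∃ S Z : Finset ℂ, ∀ W : ValuationSubring K, (∀ s ∈ S, algebraMap ℂ K s ∈ W) → y ∈ W →
      (∀ ζ ∈ Z, ¬ W.valuation (y - algebraMap ℂ K ζ) < 1) → ¬ AtZero W b l ∧ ¬ AtPole W b := by
  classical
  obtain ⟨S0, Z0, h0⟩ := value_cert htr hb0 y
  choose S1 Z1 h1 using fun k => value_pole htr (b k) y
  have h2 : ∀ k, ∃ S Z : Finset ℂ, ∀ W : ValuationSubring K, (∀ s ∈ S, algebraMap ℂ K s ∈ W) →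
      W.valuation (b l) < W.valuation (b k) → y ∈ W → ∃ ζ ∈ Z, W.valuation (y - algebraMap ℂ K ζ) < 1 := by
    intro k
    by_cases hk : b k = 0
    · refine ⟨∅, ∅, fun W _ hlt => ?_⟩
      rw [hk, map_zero] at hlt
      exact absurd hlt not_lt_zero
    · obtain ⟨S, Z, h⟩ := value_cert htr (div_ne_zero hb0 hk) y
      refine ⟨S, Z, fun W hW hlt => h W hW ?_⟩
      rw [map_div₀, div_lt_one₀ (zero_lt_iff.mpr (by rwa [Ne, map_eq_zero]))]
      exact hlt
  choose S2 Z2 h2 using h2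
  refine ⟨S0 ∪ (Finset.univ.biUnion S1 ∪ Finset.univ.biUnion S2),
    Z0 ∪ (Finset.univ.biUnion Z1 ∪ Finset.univ.biUnion Z2), fun W hW hy hZ => ⟨?_, ?_⟩⟩
  · rintro (h | ⟨k, hk⟩)
    · obtain ⟨ζ, hζ, hv⟩ := h0 W (fun s hs => hW s (Finset.mem_union_left _ hs)) h hy
      exact hZ ζ (Finset.mem_union_left _ hζ) hv
    · obtain ⟨ζ, hζ, hv⟩ := h2 k W (fun s hs => hW s (Finset.mem_union_right _
        (Finset.mem_union_right _ (Finset.mem_biUnion.mpr ⟨k, Finset.mem_univ _, hs⟩)))) hk hy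
      exact hZ ζ (Finset.mem_union_right _ (Finset.mem_union_right _ (Finset.mem_biUnion.mpr ⟨k, Finset.mem_univ _, hζ⟩))) hv
  · rintro ⟨k, hk⟩
    obtain ⟨ζ, hζ, hv⟩ := h1 k W (fun s hs => hW s (Finset.mem_union_right _
        (Finset.mem_union_left _ (Finset.mem_biUnion.mpr ⟨k, Finset.mem_univ _, hs⟩)))) hk hy
    exact hZ ζ (Finset.mem_union_right _ (Finset.mem_union_left _ (Finset.mem_biUnion.mpr ⟨k, Finset.mem_univ _, hζ⟩))) hv

/-- the leading terms of two functions near a common pole -/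
theorem exists_ratios (htr : Algebra.trdeg ℂ K = 1) (g g' : K) :
    ∃ (S : Finset ℂ) (R : Finset (ℕ × ℕ)) (Z : Finset ℂ), ∀ W : ValuationSubring K,
      (∀ s ∈ S, algebraMap ℂ K s ∈ W) → g ∉ W → g' ∉ W →
      ∃ r ∈ R, 0 < r.1 ∧ 0 < r.2 ∧ r.1.Coprime r.2 ∧ W.valuation g' ^ r.2 = W.valuation g ^ r.1 ∧
        ∃ κ ∈ Z, W.valuation (g' ^ r.2 / g ^ r.1 - algebraMap ℂ K κ) < 1 := by
  classical
  by_cases hg : g = 0
  · exact ⟨∅, ∅, ∅, fun W _ h => absurd (by rw [hg]; exact W.zero_mem) h⟩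
  by_cases hg' : g' = 0
  · exact ⟨∅, ∅, ∅, fun W _ _ h => absurd (by rw [hg']; exact W.zero_mem) h⟩
  obtain ⟨S, R, hR⟩ := slopes htr (inv_ne_zero hg) (inv_ne_zero hg')
  set red : ℕ × ℕ → ℕ × ℕ := fun r => (r.1 / Nat.gcd r.1 r.2, r.2 / Nat.gcd r.1 r.2) with hred
  choose S1 Z1 h1 using fun r : ℕ × ℕ => value_pole htr g (g' ^ r.2 / g ^ r.1)
  refine ⟨S ∪ (R.image red).biUnion S1, R.image red, (R.image red).biUnion Z1, fun W hW hgW hgW' => ?_⟩
  obtain ⟨r, hr, hr1, hr2, heq⟩ := hR W (fun s hs => hW s (Finset.mem_union_left _ hs))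
    ((inv_lt_one_iff hg).mpr hgW) ((inv_lt_one_iff hg').mpr hgW')
  have hgcd : 0 < Nat.gcd r.1 r.2 := Nat.gcd_pos_of_pos_left _ hr1
  have e1 : (red r).1 * Nat.gcd r.1 r.2 = r.1 := Nat.div_mul_cancel (Nat.gcd_dvd_left _ _)
  have e2 : (red r).2 * Nat.gcd r.1 r.2 = r.2 := Nat.div_mul_cancel (Nat.gcd_dvd_right _ _)
  have hp1 : 0 < (red r).1 := Nat.pos_of_ne_zero fun h => by rw [h, zero_mul] at e1; omega
  have hp2 : 0 < (red r).2 := Nat.pos_of_ne_zero fun h => by rw [h, zero_mul] at e2; omega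
  have hco : (red r).1.Coprime (red r).2 := Nat.coprime_div_gcd_div_gcd hgcd
  have hval : W.valuation g' ^ (red r).2 = W.valuation g ^ (red r).1 := by
    have h2 : W.valuation g ^ r.1 = W.valuation g' ^ r.2 := by
      rw [map_inv₀, map_inv₀, inv_pow, inv_pow] at heq
      exact inv_injective heq
    have h3 : (W.valuation g ^ (red r).1) ^ Nat.gcd r.1 r.2 = (W.valuation g' ^ (red r).2) ^ Nat.gcd r.1 r.2 := by
      rw [← pow_mul, ← pow_mul, e1, e2]
      exact h2
    exact ((pow_left_inj₀ zero_le zero_le hgcd.ne').mp h3).symm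
  have hmem : g' ^ (red r).2 / g ^ (red r).1 ∈ W := by
    rw [← W.valuation_le_one_iff, map_div₀, map_pow, map_pow, hval, div_self]
    exact pow_ne_zero _ (by rwa [Ne, map_eq_zero])
  obtain ⟨κ, hκ, hv⟩ := h1 (red r) W (fun s hs => hW s (Finset.mem_union_right _
    (Finset.mem_biUnion.mpr ⟨red r, Finset.mem_image_of_mem _ hr, hs⟩))) hgW hmem
  exact ⟨red r, Finset.mem_image_of_mem _ hr, hp1, hp2, hco, hval, κ,
    Finset.mem_biUnion.mpr ⟨red r, Finset.mem_image_of_mem _ hr, hκ⟩, hv⟩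

end near

end Pool.Agent.Lib.ModularZP
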