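import Mathlib
import Pool.Agent.Lib.ModularZP.Certificate

/-!
Only finitely many orders of roots of unity which are close to a given number.
-/

namespace Pool.Agent.Lib.ModularZP

variable {V : ValuationSubring ℂ}

lemma primRoot_val {η : ℂ} {m : ℕ} (hm : 0 < m) (h : IsPrimitiveRoot η m) : V.valuation η = 1 := by
  have h1 : V.valuation η ^ m = 1 := by rw [← map_pow, h.pow_eq_one, map_one]
  exact (pow_eq_one_iff_of_nonneg zero_le hm.ne').mp h1

lemma val_one_sub_pow_le {η : ℂ} (hη : V.valuation η = 1) (k : ℕ) :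
    V.valuation (1 - η ^ k) ≤ V.valuation (1 - η) := by
  have h1 : 1 - η ^ k = (∑ i ∈ Finset.range k, η ^ i) * (1 - η) := by
    have := geom_sum_mul_neg η k
    rw [this]
  rw [h1, map_mul]
  have h2 : (∑ i ∈ Finset.range k, η ^ i) ∈ V := sum_mem fun i _ => pow_mem (mem_of_val hη) _
  calc V.valuation (∑ i ∈ Finset.range k, η ^ i) * V.valuation (1 - η) ≤ 1 * V.valuation (1 - η) :=
        mul_le_mul_left ((V.valuation_le_one_iff _).mpr h2) _
    _ = _ := one_mul _

lemma val_cyclo_one_le {θ : V.ValueGroup} {η : ℂ} {m : ℕ} (hm : 0 < m)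
    (h : IsPrimitiveRoot η m) (hη : V.valuation (1 - η) ≤ θ) :
    V.valuation ((Polynomial.cyclotomic m ℂ).eval 1) ≤ θ ^ m.totient := by
  rw [Polynomial.cyclotomic_eq_prod_X_sub_primitiveRoots h, Polynomial.eval_prod, map_prod, ← Complex.card_primitiveRoots m,
    ← Finset.prod_const]
  refine Finset.prod_le_prod' fun ζ hζ => ?_
  rw [Polynomial.eval_sub, Polynomial.eval_X, Polynomial.eval_C]
  have : NeZero m := ⟨hm.ne'⟩
  obtain ⟨k, _, rfl⟩ := h.eq_pow_of_pow_eq_one ((mem_primitiveRoots hm).mp hζ).pow_eq_one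
  exact (val_one_sub_pow_le (primRoot_val hm h) k).trans hη

/-- the orders of the roots of unity close to `1` are bounded -/
lemma order_bound {θ : V.ValueGroup} (hθ : θ < 1)
    (harch : ∀ p : ℕ, p.Prime → V.valuation (p : ℂ) < 1 → ∃ m : ℕ, θ ^ m ≤ V.valuation (p : ℂ)) :
    ∃ M : ℕ, 0 < M ∧ ∀ (m : ℕ) (η : ℂ), 0 < m → IsPrimitiveRoot η m → V.valuation (1 - η) ≤ θ → m ≤ M := by
  have key : ∀ (m : ℕ) (η : ℂ), 1 < m → IsPrimitiveRoot η m → V.valuation (1 - η) ≤ θ →
      ∃ p k : ℕ, p.Prime ∧ m = p ^ (k + 1) ∧ V.valuation (p : ℂ) < 1 ∧ V.valuation (p : ℂ) ≤ θ ^ m.totient := by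
    intro m η hm h hη
    have hm0 : 0 < m := by omega
    have h1 := val_cyclo_one_le hm0 h hη
    have htot : θ ^ m.totient < 1 := pow_lt_one₀ zero_le hθ (Nat.totient_pos.mpr hm0).ne'
    by_cases hpp : IsPrimePow m
    · obtain ⟨p, k, hp, hk, rfl⟩ := hpp
      have hp' : p.Prime := hp.nat_prime
      obtain ⟨k, rfl⟩ : ∃ l, k = l + 1 := ⟨k - 1, by omega⟩
      have : Fact p.Prime := ⟨hp'⟩
      rw [Polynomial.eval_one_cyclotomic_prime_pow] at h1
      exact ⟨p, k, hp', rfl, lt_of_le_of_lt h1 htot, h1⟩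
    · exfalso
      rw [Polynomial.eval_one_cyclotomic_not_prime_pow] at h1
      · rw [map_one] at h1
        exact absurd htot (not_lt.mpr h1)
      · intro p hp k hk
        rcases Nat.eq_zero_or_pos k with h0 | h0
        · subst h0
          rw [pow_zero] at hk
          omega
        · exact hpp ⟨p, k, hp.prime, h0, hk⟩
  by_cases hex : ∃ p : ℕ, p.Prime ∧ V.valuation (p : ℂ) < 1
  · obtain ⟨p, hp, hpV⟩ := hex
    obtain ⟨m0, hm0⟩ := harch p hp hpV
    refine ⟨2 * m0 + 1, by omega, fun m η hm h hη => ?_⟩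
    by_cases hm1 : 1 < m
    · obtain ⟨p', k, hp', hmk, hp'V, hle⟩ := key m η hm1 h hη
      have hpp : p' = p := by
        by_contra hne
        rw [val_nat_unit hp hpV hp' hne] at hp'V
        exact lt_irrefl _ hp'V
      subst hpp
      have h1 : θ ^ m0 ≤ θ ^ m.totient := hm0.trans hle
      have hθ0 : 0 < θ := by
        rw [zero_lt_iff]
        rintro rfl
        rw [zero_pow (Nat.totient_pos.mpr hm).ne'] at hle
        exact val_p_ne hp (le_antisymm hle zero_le)
      have h2 : m.totient ≤ m0 := by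
        by_contra hlt
        push Not at hlt
        exact absurd (pow_lt_pow_right_of_lt_one₀ hθ0 hθ hlt) (not_lt.mpr h1)
      have h3 : m ≤ 2 * m.totient := by
        rw [hmk, Nat.totient_prime_pow hp' (by omega), Nat.add_sub_cancel, pow_succ]
        have h4 := hp'.two_le
        have h5 : p' ≤ 2 * (p' - 1) := by omega
        calc p' ^ k * p' ≤ p' ^ k * (2 * (p' - 1)) := Nat.mul_le_mul_left _ h5
          _ = _ := by ring
      omega
    · omega
  · refine ⟨1, one_pos, fun m η hm h hη => ?_⟩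
    by_contra hm1
    push Not at hm1
    obtain ⟨p', k, hp', _, hp'V, _⟩ := key m η hm1 h hη
    exact hex ⟨p', hp', hp'V⟩

/-- only finitely many orders of roots of unity close to `κ` -/
theorem finite_close (κ : ℂ) {θ : V.ValueGroup} (hθ : θ < 1)
    (harch : ∀ p : ℕ, p.Prime → V.valuation (p : ℂ) < 1 → ∃ m : ℕ, θ ^ m ≤ V.valuation (p : ℂ)) :
    {t : ℕ | 0 < t ∧ ∃ ζ ∈ primitiveRoots t ℂ, V.valuation (κ - ζ) ≤ θ}.Finite := by
  obtain ⟨M, hM0, hM⟩ := order_bound hθ harch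
  by_cases hne : ∃ t0 : ℕ, 0 < t0 ∧ ∃ ζ ∈ primitiveRoots t0 ℂ, V.valuation (κ - ζ) ≤ θ
  · obtain ⟨t0, ht0, ζ0, hζ0, hc0⟩ := hne
    have hp0 := (mem_primitiveRoots ht0).mp hζ0
    refine Set.Finite.subset (Set.finite_Iic (t0 * M)) ?_
    rintro t ⟨ht, ζ, hζ, hc⟩
    have hp := (mem_primitiveRoots ht).mp hζ
    have hv0 : V.valuation ζ0 = 1 := primRoot_val ht0 hp0
    have hζ00 : ζ0 ≠ 0 := ne_zero_of_val hv0
    set η := ζ / ζ0 with hη
    have h1 : V.valuation (1 - η) ≤ θ := by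
      have h2 : 1 - η = (ζ0 - ζ) / ζ0 := by rw [hη]; field_simp
      rw [h2, map_div₀, hv0, div_one]
      have h3 : ζ0 - ζ = (κ - ζ) - (κ - ζ0) := by ring
      rw [h3]
      exact (V.valuation.map_sub _ _).trans (max_le hc hc0)
    have hfin : η ^ (t0 * t) = 1 := by
      rw [hη, div_pow, mul_comm t0 t, pow_mul, hp.pow_eq_one, one_pow, mul_comm t t0, pow_mul, hp0.pow_eq_one, one_pow, div_one]
    have hpos : 0 < orderOf η := orderOf_pos_iff.mpr (isOfFinOrder_iff_pow_eq_one.mpr ⟨t0 * t, Nat.mul_pos ht0 ht, hfin⟩)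
    have h4 := hM (orderOf η) η hpos (IsPrimitiveRoot.orderOf η) h1
    have h5 : ζ ^ (t0 * orderOf η) = 1 := by
      have h6 : ζ = ζ0 * η := by rw [hη]; field_simp
      rw [h6, mul_pow, pow_mul, hp0.pow_eq_one, one_pow, mul_comm t0, pow_mul, pow_orderOf_eq_one, one_pow, one_mul]
    have h6 := hp.dvd_of_pow_eq_one _ h5
    exact (Nat.le_of_dvd (Nat.mul_pos ht0 hpos) h6).trans (Nat.mul_le_mul_left _ h4)
  · refine Set.Finite.subset Set.finite_empty ?_
    rintro t ⟨ht, h⟩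
    exact hne ⟨t, ht, h⟩

end Pool.Agent.Lib.ModularZP
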