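import Mathlib
import Pool.Agent.Lib.ModularZP.RootClose

/-!
Roots of unity congruent to a given number; levels of isogenies seen at two primes; types of special
subvarieties of codimension at least two.
-/

namespace Pool.Agent.Lib.ModularZP

section tame

variable {V : ValuationSubring ℂ}

/-- a root of unity congruent to `1` has order a power of `p` -/
lemma order_pow {p : ℕ} (hp : p.Prime) (hV : V.valuation (p : ℂ) < 1) {m : ℕ} (hm : 0 < m) {η : ℂ}
    (h : IsPrimitiveRoot η m) (hη : V.valuation (1 - η) < 1) : ∃ k, m = p ^ k := by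
  by_cases hm1 : m = 1
  · exact ⟨0, by rw [pow_zero]; exact hm1⟩
  have h1 := val_cyclo_one_le (V := V) hm h le_rfl
  have htot : V.valuation (1 - η) ^ m.totient < 1 := pow_lt_one₀ zero_le hη (Nat.totient_pos.mpr hm).ne'
  by_cases hpp : IsPrimePow m
  · obtain ⟨q, k, hq, hk, rfl⟩ := hpp
    have hq' : q.Prime := hq.nat_prime
    obtain ⟨k, rfl⟩ : ∃ l, k = l + 1 := ⟨k - 1, by omega⟩
    have : Fact q.Prime := ⟨hq'⟩
    rw [Polynomial.eval_one_cyclotomic_prime_pow] at h1
    have hqV : V.valuation (q : ℂ) < 1 := lt_of_le_of_lt h1 htot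
    have hqp : q = p := by
      by_contra hne
      rw [val_nat_unit hp hV hq' hne] at hqV
      exact lt_irrefl _ hqV
    exact ⟨k + 1, by rw [hqp]⟩
  · exfalso
    rw [Polynomial.eval_one_cyclotomic_not_prime_pow] at h1
    · rw [map_one] at h1
      exact absurd htot (not_lt.mpr h1)
    · intro q hq k hk
      rcases Nat.eq_zero_or_pos k with h0 | h0
      · subst h0
        rw [pow_zero] at hk
        exact hm1 hk.symm
      · exact hpp ⟨q, k, hq.prime, h0, hk⟩

/-- the orders of the roots of unity congruent to `κ` are `p ^ a * m` with a fixed `m` -/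
theorem exists_tame {p : ℕ} (hp : p.Prime) (hV : V.valuation (p : ℂ) < 1) (κ : ℂ) : ∃ m : ℕ, 0 < m ∧
    ∀ t : ℕ, 0 < t → ∀ ζ ∈ primitiveRoots t ℂ, V.valuation (κ - ζ) < 1 → ∃ a, t = p ^ a * m := by
  by_cases hne : ∃ t0 : ℕ, 0 < t0 ∧ ∃ ζ ∈ primitiveRoots t0 ℂ, V.valuation (κ - ζ) < 1
  · obtain ⟨t0, ht0, ζ0, hζ0, hc0⟩ := hne
    have hp0 := (mem_primitiveRoots ht0).mp hζ0
    obtain ⟨a0, m0, hm0, ht0m⟩ := Nat.exists_eq_pow_mul_and_not_dvd ht0.ne' p hp.ne_one
    have hm0pos : 0 < m0 := Nat.pos_of_ne_zero fun h => by rw [h, mul_zero] at ht0m; omega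
    refine ⟨m0, hm0pos, fun t ht ζ hζ hc => ?_⟩
    have hpt := (mem_primitiveRoots ht).mp hζ
    obtain ⟨a, m, hm, htm⟩ := Nat.exists_eq_pow_mul_and_not_dvd ht.ne' p hp.ne_one
    have hv0 : V.valuation ζ0 = 1 := primRoot_val ht0 hp0
    have hζ00 : ζ0 ≠ 0 := ne_zero_of_val hv0
    set η := ζ / ζ0 with hη
    have h1 : V.valuation (1 - η) < 1 := by
      have h2 : 1 - η = (ζ0 - ζ) / ζ0 := by rw [hη]; field_simp
      rw [h2, map_div₀, hv0, div_one]
      have h3 : ζ0 - ζ = (κ - ζ) - (κ - ζ0) := by ring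
      rw [h3]
      exact V.valuation.map_sub_lt hc hc0
    have hfin : η ^ (t0 * t) = 1 := by
      rw [hη, div_pow, mul_comm t0 t, pow_mul, hpt.pow_eq_one, one_pow, mul_comm t t0, pow_mul, hp0.pow_eq_one, one_pow, div_one]
    have hpos : 0 < orderOf η := orderOf_pos_iff.mpr (isOfFinOrder_iff_pow_eq_one.mpr ⟨t0 * t, Nat.mul_pos ht0 ht, hfin⟩)
    obtain ⟨k, hk⟩ := order_pow hp hV hpos (IsPrimitiveRoot.orderOf η) h1
    have hηk : η ^ (p ^ k) = 1 := by rw [← hk]; exact pow_orderOf_eq_one η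
    have h5 : ζ ^ (t0 * p ^ k) = 1 := by
      have h6 : ζ = ζ0 * η := by rw [hη]; field_simp
      rw [h6, mul_pow, pow_mul, hp0.pow_eq_one, one_pow, mul_comm t0, pow_mul, hηk, one_pow, one_mul]
    have h6 : ζ0 ^ (t * p ^ k) = 1 := by
      have hη0 : η ≠ 0 := by
        intro h
        rw [h, zero_pow (pow_pos hp.pos k).ne'] at hηk
        exact zero_ne_one hηk
      have h7 : ζ0 = ζ / η := by
        rw [hη]
        have : ζ ≠ 0 := fun h => by rw [hη, h, zero_div] at hη0; exact hη0 rfl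
        field_simp
      rw [h7, div_pow, pow_mul, hpt.pow_eq_one, one_pow, mul_comm t, pow_mul, hηk, one_pow, div_one]
    have h7 := hpt.dvd_of_pow_eq_one _ h5
    have h8 := hp0.dvd_of_pow_eq_one _ h6
    have hcop : ∀ m : ℕ, ¬ p ∣ m → ∀ j, m.Coprime (p ^ j) := fun m hm j =>
      (Nat.Coprime.pow_left j ((Nat.Prime.coprime_iff_not_dvd hp).mpr hm)).symm
    have h9 : m ∣ m0 := by
      have e1 : m ∣ t := by rw [htm]; exact dvd_mul_left _ _
      have e2 : m ∣ p ^ (a0 + k) * m0 := by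
        have := e1.trans h7
        rw [ht0m] at this
        have e3 : p ^ a0 * m0 * p ^ k = p ^ (a0 + k) * m0 := by rw [pow_add]; ring
        rwa [e3] at this
      exact (hcop m hm _).dvd_of_dvd_mul_left e2
    have h10 : m0 ∣ m := by
      have e1 : m0 ∣ t0 := by rw [ht0m]; exact dvd_mul_left _ _
      have e2 : m0 ∣ p ^ (a + k) * m := by
        have := e1.trans h8
        rw [htm] at this
        have e3 : p ^ a * m * p ^ k = p ^ (a + k) * m := by rw [pow_add]; ring
        rwa [e3] at this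
      exact (hcop m0 hm0 _).dvd_of_dvd_mul_left e2
    exact ⟨a, by rw [htm, Nat.dvd_antisymm h9 h10]⟩
  · refine ⟨1, one_pos, fun t ht ζ hζ hc => ?_⟩
    exact absurd ⟨t, ht, ζ, hζ, hc⟩ hne

end tame

/-- levels which are, up to finitely many factors, powers of two distinct primes -/
theorem levels_two {p q : ℕ} (hp : p.Prime) (hq : q.Prime) (hpq : p ≠ q) (F F' : Finset ℕ)
    (hF' : ∀ f ∈ F', 0 < f) :
    {M : ℕ | (∃ a, ∃ f ∈ F, M = p ^ a * f) ∧ ∃ a, ∃ f ∈ F', M = q ^ a * f}.Finite := by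
  refine Set.Finite.subset (Set.finite_Iic ((∑ f ∈ F', f) * ∑ f ∈ F, f)) ?_
  rintro M ⟨⟨a, f, hf, h1⟩, b, f', hf', h2⟩
  have hco : (p ^ a).Coprime (q ^ b) := Nat.Coprime.pow _ _ ((Nat.coprime_primes hp hq).mpr hpq)
  have h3 : p ^ a ∣ q ^ b * f' := by rw [← h2, h1]; exact dvd_mul_right _ _
  have h4 : p ^ a ∣ f' := hco.dvd_of_dvd_mul_left h3
  have h5 : p ^ a ≤ f' := Nat.le_of_dvd (hF' f' hf') h4
  have h6 : f' ≤ ∑ f ∈ F', f := Finset.single_le_sum (f := fun f => f) (fun _ _ => Nat.zero_le _) hf'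
  have h7 : f ≤ ∑ f ∈ F, f := Finset.single_le_sum (f := fun f => f) (fun _ _ => Nat.zero_le _) hf
  rw [Set.mem_Iic, h1]
  exact Nat.mul_le_mul (h5.trans h6) h7

/-- the four types of special subvarieties of codimension at least two -/
theorem types {n m : ℕ} (f : Fin n → Option (Fin m)) (hm : m + 2 ≤ n) :
    (∃ i j, i ≠ j ∧ f i = none ∧ f j = none) ∨
    (∃ i j k, i ≠ j ∧ i ≠ k ∧ j ≠ k ∧ f i = none ∧ f j = f k ∧ f j ≠ none) ∨
    (∃ i j k, i ≠ j ∧ i ≠ k ∧ j ≠ k ∧ f i = f j ∧ f j = f k ∧ f j ≠ none) ∨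
    (∃ i j k l, i ≠ j ∧ i ≠ k ∧ i ≠ l ∧ j ≠ k ∧ j ≠ l ∧ k ≠ l ∧ f i = f j ∧ f k = f l ∧ f i ≠ none ∧ f k ≠ none) := by
  classical
  by_contra hcon
  push Not at hcon
  obtain ⟨h1, h2, h3, h4⟩ := hcon
  obtain ⟨i, j, hij, hf⟩ : ∃ i j, i ≠ j ∧ f i = f j := by
    have hcard : Fintype.card (Option (Fin m)) < Fintype.card (Fin n) := by
      rw [Fintype.card_option, Fintype.card_fin, Fintype.card_fin]
      omega
    obtain ⟨i, j, hij, hf⟩ := Fintype.exists_ne_map_eq_of_card_lt f hcard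
    exact ⟨i, j, hij, hf⟩
  have hi : f i ≠ none := fun h => h1 i j hij h (hf ▸ h)
  have hnone : ∀ k, f k ≠ none := by
    intro k hk
    by_cases hki : k = i
    · rw [hki] at hk; exact hi hk
    · by_cases hkj : k = j
      · rw [hkj, ← hf] at hk; exact hi hk
      · exact hi (h2 k i j hki hkj hij hk hf)
  have hinj : Function.Injective (fun k : {k : Fin n // k ≠ j} => (f k.1).get (Option.isSome_iff_ne_none.mpr (hnone k.1))) := by
    rintro ⟨k, hk⟩ ⟨l, hl⟩ h
    simp only at h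
    have h' : f k = f l := by
      rw [← Option.some_get (Option.isSome_iff_ne_none.mpr (hnone k)),
        ← Option.some_get (Option.isSome_iff_ne_none.mpr (hnone l)), h]
    by_contra hne
    have hkl : k ≠ l := fun h => hne (Subtype.ext h)
    by_cases hki : k = i
    · -- three in the same block
      have hli : l ≠ i := fun h => hkl (by rw [hki, h])
      rw [hki] at h'
      exact hi (h3 l i j hli hl hij h'.symm hf)
    · by_cases hli : l = i
      · rw [hli] at h'
        exact hi (h3 k i j hki hk hij h' hf)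
      · exact hnone k (h4 i j k l hij (Ne.symm hki) (Ne.symm hli) (Ne.symm hk) (Ne.symm hl) hkl hf h' hi)
  have hc := Fintype.card_le_of_injective _ hinj
  rw [Fintype.card_fin, Fintype.card_subtype_compl, Fintype.card_fin] at hc
  simp at hc
  omega

end Pool.Agent.Lib.ModularZP
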