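import Mathlib
import Pool.Agent.Lib.ModularZP.LinSys
import Pool.Agent.Lib.ModularZP.CurveRel
import Pool.Agent.Lib.ModularZP.Tame

/-!
The levels of isogenies between two coordinates of a curve near a common pole of the coordinate
functions.
-/

open UpperHalfPlane hiding I

namespace Pool.Agent.Lib.ModularZP

/-- `x` and `y` are isogenous of level `M`, as seen near the cusps of the valuation rings of `ℂ` -/
def Lev (M : ℕ) (x y : ℂ) : Prop := ∀ V : ValuationSubring ℂ, x ∉ V → ∃ r s t : ℕ, 0 < r ∧ 0 < s ∧ 0 < t ∧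
  r.Coprime s ∧ V.valuation y ^ s = V.valuation x ^ r ∧
  (∃ ζ ∈ primitiveRoots t ℂ, V.valuation (y ^ s / x ^ r - ζ) < 1) ∧ t ^ 2 * (r * s) = M

lemma lev_of_block {n m : ℕ} (D : SpecialDatum n m) {x : Fin n → ℂ} (hx : x ∈ D.variety) {j k : Fin n}
    (hjk : D.block j = D.block k) (hne : D.block j ≠ none) :
    ∃ M : ℕ, 0 < M ∧ Lev M (x j) (x k) ∧ ModRel M (x j) (x k) := by
  obtain ⟨τ, hτ⟩ := hx
  obtain ⟨l, hl⟩ := Option.ne_none_iff_exists'.mp hne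
  have hl' : D.block k = some l := by rw [← hjk]; exact hl
  set h := D.g k * (D.g j)⁻¹ with hh
  have hdet : 0 < h.det.val := by
    have h1 := D.g_det j
    have h2 := D.g_det k
    rw [hh, map_mul, map_inv, Units.val_mul, Units.val_inv_eq_inv_val]
    positivity
  obtain ⟨M, hM0, hM1, hM2⟩ := isog_level h hdet
  have hj' : x j = jInv ((D.g j).map (algebraMap ℚ ℝ) • τ l) := by
    rw [hτ j]; unfold SpecialDatum.coord; rw [hl]
  have hk' : x k = jInv (h.map (algebraMap ℚ ℝ) • ((D.g j).map (algebraMap ℚ ℝ) • τ l)) := by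
    rw [hh, map_mul, map_inv, mul_smul, inv_smul_smul, hτ k]; unfold SpecialDatum.coord; rw [hl']
  refine ⟨M, hM0, ?_, ?_⟩
  · intro V hxV
    rw [hj'] at hxV
    obtain ⟨r, s, t, hr, hs, ht, hco, hv, ⟨ζ, hζ, hc⟩, hM⟩ := hM2 V _ hxV
    refine ⟨r, s, t, hr, hs, ht, hco, by rw [hj', hk']; exact hv, ⟨ζ, hζ, ?_⟩, hM⟩
    rw [hj', hk']
    refine lt_of_le_of_lt hc (max_lt ?_ ?_)
    · exact inv_lt_one_of_one_lt₀ (one_lt_iff.mpr hxV)
    · refine inv_lt_one_of_one_lt₀ ?_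
      have h1 := one_lt_pow₀ (one_lt_iff.mpr hxV) hr.ne'
      rw [← hv] at h1
      by_contra hle
      push Not at hle
      exact absurd h1 (not_lt.mpr (pow_le_one₀ zero_le hle))
  · rw [hj', hk']
    exact hM1 _

lemma pair_unique {Γ : Type*} [LinearOrderedCommGroupWithZero Γ] {x y : Γ} (hx : 1 < x) {r s r0 s0 : ℕ}
    (hr : 0 < r) (hco : r.Coprime s) (hco0 : r0.Coprime s0) (h : y ^ s = x ^ r)
    (h0 : y ^ s0 = x ^ r0) : r = r0 ∧ s = s0 := by
  have h1 : x ^ (r * s0) = x ^ (r0 * s) := by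
    rw [pow_mul, ← h, ← pow_mul, mul_comm s s0, pow_mul, h0, ← pow_mul]
  have h2 : r * s0 = r0 * s := by
    rcases lt_trichotomy (r * s0) (r0 * s) with h3 | h3 | h3
    · exact absurd h1 (pow_lt_pow_right₀ hx h3).ne
    · exact h3
    · exact absurd h1 (pow_lt_pow_right₀ hx h3).ne'
  have h3 : r ∣ r0 := by
    have : r ∣ r0 * s := by rw [← h2]; exact dvd_mul_right _ _
    exact hco.dvd_of_dvd_mul_right this
  have h4 : r0 ∣ r := by
    have : r0 ∣ r * s0 := by rw [h2]; exact dvd_mul_right _ _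
    exact hco0.dvd_of_dvd_mul_right this
  have h5 : r = r0 := Nat.dvd_antisymm h3 h4
  subst h5
  exact ⟨rfl, (Nat.eq_of_mul_eq_mul_left hr h2).symm⟩

section level

variable {K : Type*} [Field K]

lemma cg_of_lt {W : ValuationSubring K} {a b : K} (ha : a ∈ W) (h : W.valuation (a - b) < 1) : Cg W a b :=
  ⟨ha, by have := sub_mem ha (mem_of_lt h); rwa [sub_sub_cancel] at this, h⟩

lemma Cg.inv_unit {W : ValuationSubring K} {a b : K} (h : Cg W a b) (hb : W.valuation b = 1) : Cg W a⁻¹ b⁻¹ := by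
  have ha : W.valuation a = 1 := by
    have h4 : a = b + (a - b) := by ring
    rw [h4, W.valuation.map_add_eq_of_lt_left (by rw [hb]; exact h.2.2), hb]
  have ha0 : a ≠ 0 := by rintro rfl; rw [map_zero] at ha; exact zero_ne_one ha
  have hb0 : b ≠ 0 := by rintro rfl; rw [map_zero] at hb; exact zero_ne_one hb
  refine ⟨?_, ?_, ?_⟩
  · rw [← W.valuation_le_one_iff, map_inv₀, ha, inv_one]
  · rw [← W.valuation_le_one_iff, map_inv₀, hb, inv_one]
  · have h5 : a⁻¹ - b⁻¹ = -(a⁻¹ * b⁻¹ * (a - b)) := by field_simp; ring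
    rw [h5, Valuation.map_neg, map_mul, map_mul, map_inv₀, map_inv₀, ha, hb, inv_one, one_mul, one_mul]
    exact h.2.2

variable [Algebra ℂ K]

/-- **Levels near a common pole.** -/
theorem level_near (htr : Algebra.trdeg ℂ K = 1) {N : ℕ} {b b' : Fin N → K} {S : Finset ℂ}
    {T T' : Finset (Fin N → ℂ)} {R : Finset (ℕ × ℕ)} {Z : Finset ℂ}
    (hT : ∀ W : ValuationSubring K, (∀ s ∈ S, algebraMap ℂ K s ∈ W) → AtPole W b →
      ∃ m, b m ∉ W ∧ ∃ ζ ∈ T, ∀ k, W.valuation (b k / b m - algebraMap ℂ K (ζ k)) < 1)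
    (hT' : ∀ W : ValuationSubring K, (∀ s ∈ S, algebraMap ℂ K s ∈ W) → AtPole W b' →
      ∃ m, b' m ∉ W ∧ ∃ ζ ∈ T', ∀ k, W.valuation (b' k / b' m - algebraMap ℂ K (ζ k)) < 1)
    (hR : ∀ W : ValuationSubring K, (∀ s ∈ S, algebraMap ℂ K s ∈ W) → ∀ m m', b m ∉ W → b' m' ∉ W →
      ∃ r ∈ R, 0 < r.1 ∧ 0 < r.2 ∧ r.1.Coprime r.2 ∧ W.valuation (b' m') ^ r.2 = W.valuation (b m) ^ r.1 ∧
        ∃ κ ∈ Z, W.valuation (b' m' ^ r.2 / b m ^ r.1 - algebraMap ℂ K κ) < 1)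
    {p : ℕ} (hp : p.Prime) {V : ValuationSubring ℂ} (hV : V.valuation (p : ℂ) < 1) (hSV : ∀ s ∈ S, s ∈ V)
    {c c' : Fin N → ℂ} (hc : ∀ l, c l ∈ V) (hc' : ∀ l, c' l ∈ V)
    (hu : ∀ ζ ∈ T, V.valuation (∑ k, c k * ζ k) = 1) (hu' : ∀ ζ ∈ T', V.valuation (∑ k, c' k * ζ k) = 1) :
    ∃ F : Finset ℕ, (∀ f ∈ F, 0 < f) ∧ ∀ P : ValuationSubring K, (∀ c : ℂ, algebraMap ℂ K c ∈ P) → P ≠ ⊤ →
      ∀ x y : ℂ, P.valuation (lin b c - algebraMap ℂ K x) < 1 → P.valuation (lin b' c' - algebraMap ℂ K y) < 1 →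
        x ∉ V → y ∉ V → ∀ M : ℕ, Lev M x y → ∃ a, ∃ f ∈ F, M = p ^ a * f := by
  classical
  choose tm htm0 htm using fun κ => exists_tame hp hV κ
  refine ⟨(((R ×ˢ Z) ×ˢ (T ×ˢ T')).image (fun q => tm (q.1.2 * (∑ l, c' l * q.2.2 l) ^ q.1.1.2 /
    (∑ l, c l * q.2.1 l) ^ q.1.1.1) ^ 2 * (q.1.1.1 * q.1.1.2))).filter (0 < ·),
    fun f hf => (Finset.mem_filter.mp hf).2, ?_⟩
  intro P hP hPt x y hx hy hxV hyV M hLev
  obtain ⟨W, _, hWc, hWm, hWlt⟩ := exists_comp htr hP hPt V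
  have h00 : ∀ z : ℂ, P.valuation (algebraMap ℂ K z - algebraMap ℂ K z) < 1 := fun z => by
    rw [sub_self, map_zero]; exact zero_lt_one
  have hW1 : ∀ (f : K) (z : ℂ), P.valuation (f - algebraMap ℂ K z) < 1 → V.valuation z = 1 → W.valuation f = 1 := by
    intro f z hfz hz
    refine le_antisymm ((W.valuation_le_one_iff _).mpr ((hWm f z hfz).mpr ((V.valuation_le_one_iff _).mp hz.le))) ?_
    by_contra hlt
    push Not at hlt
    have := (hWlt f z hfz).mp hlt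
    rw [hz] at this
    exact lt_irrefl _ this
  have hSW : ∀ s ∈ S, algebraMap ℂ K s ∈ W := fun s hs => (hWc s).mpr (hSV s hs)
  have hX : lin b c ∉ W := fun h => hxV ((hWm _ _ hx).mp h)
  have hY : lin b' c' ∉ W := fun h => hyV ((hWm _ _ hy).mp h)
  have hcW : ∀ l, algebraMap ℂ K (c l) ∈ W := fun l => (hWc _).mpr (hc l)
  have hcW' : ∀ l, algebraMap ℂ K (c' l) ∈ W := fun l => (hWc _).mpr (hc' l)
  have hpole : AtPole W b := by
    by_contra h
    exact hX (lin_mem hcW h)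
  have hpole' : AtPole W b' := by
    by_contra h
    exact hY (lin_mem hcW' h)
  obtain ⟨m, hm, ζ, hζT, hζ⟩ := hT W hSW hpole
  obtain ⟨m', hm', ζ', hζT', hζ'⟩ := hT' W hSW hpole'
  set lam := ∑ k, c k * ζ k with hlam
  set lam' := ∑ k, c' k * ζ' k with hlam'
  have hlu : W.valuation (algebraMap ℂ K lam) = 1 := hW1 _ _ (h00 _) (hu ζ hζT)
  have hlu' : W.valuation (algebraMap ℂ K lam') = 1 := hW1 _ _ (h00 _) (hu' ζ' hζT')
  obtain ⟨h1, h2⟩ := lin_pole hm hcW hζ hlu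
  obtain ⟨h1', h2'⟩ := lin_pole hm' hcW' hζ' hlu'
  obtain ⟨r, hrR, hr1, hr2, hco, hval, κ, hκZ, hκ⟩ := hR W hSW m m' hm hm'
  obtain ⟨r', s', t, hr', hs', ht, hco', hv, ⟨η, hη, hcl⟩, hM⟩ := hLev V hxV
  have hx0 : x ≠ 0 := by rintro rfl; exact hxV V.zero_mem
  have hX0 : lin b c ≠ 0 := fun h => hX (by rw [h]; exact W.zero_mem)
  -- the value of the quotient
  have hquot : ∀ r s : ℕ, P.valuation (lin b' c' ^ s / lin b c ^ r - algebraMap ℂ K (y ^ s / x ^ r)) < 1 := by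
    intro r s
    have e1 := ((value_cg hP hy).pow s).mul ((value_cg hP (value_inv hP hx0 hx)).pow r)
    have e2 := e1.2.2
    have e3 : lin b' c' ^ s / lin b c ^ r = lin b' c' ^ s * (lin b c)⁻¹ ^ r := by
      rw [inv_pow, div_eq_mul_inv]
    have e4 : algebraMap ℂ K (y ^ s / x ^ r) = algebraMap ℂ K y ^ s * algebraMap ℂ K x⁻¹ ^ r := by
      rw [map_inv₀, inv_pow, map_div₀, map_pow, map_pow, div_eq_mul_inv]
    rw [e3, e4]
    exact e2
  have hvW : W.valuation (lin b' c') ^ s' = W.valuation (lin b c) ^ r' := by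
    have e1 : V.valuation (y ^ s' / x ^ r') = 1 := by
      rw [map_div₀, map_pow, map_pow, hv, div_self]
      exact pow_ne_zero _ (by rwa [Ne, map_eq_zero])
    have e2 := hW1 _ _ (hquot r' s') e1
    rw [map_div₀, map_pow, map_pow, div_eq_one_iff_eq] at e2
    · exact e2
    · exact pow_ne_zero _ (by rwa [Ne, map_eq_zero])
  rw [← h2, ← h2'] at hval
  obtain ⟨e1, e2⟩ := pair_unique (one_lt_iff.mpr hX) hr' hco' hco hvW hval
  subst e1
  subst e2
  have hm0 : b m ≠ 0 := fun h => hm (by rw [h]; exact W.zero_mem)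
  have hm0' : b' m' ≠ 0 := fun h => hm' (by rw [h]; exact W.zero_mem)
  -- the residue of the quotient
  have hcg1 : Cg W (b' m' ^ r.2 / b m ^ r.1) (algebraMap ℂ K κ) := by
    refine cg_of_lt ?_ hκ
    rw [← W.valuation_le_one_iff, map_div₀, map_pow, map_pow, ← h2, ← h2', hval, div_self]
    exact pow_ne_zero _ (by rwa [Ne, map_eq_zero])
  have hcg2 : Cg W (lin b' c' / b' m') (algebraMap ℂ K lam') := by
    refine cg_of_lt ?_ h1'
    rw [← W.valuation_le_one_iff, map_div₀, h2', div_self]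
    rwa [Ne, map_eq_zero]
  have hcg3 : Cg W (lin b c / b m) (algebraMap ℂ K lam) := by
    refine cg_of_lt ?_ h1
    rw [← W.valuation_le_one_iff, map_div₀, h2, div_self]
    rwa [Ne, map_eq_zero]
  have hcg := (hcg1.mul (hcg2.pow r.2)).mul ((hcg3.inv_unit hlu).pow r.1)
  have e3 : b' m' ^ r.2 / b m ^ r.1 * (lin b' c' / b' m') ^ r.2 * (lin b c / b m)⁻¹ ^ r.1 =
      lin b' c' ^ r.2 / lin b c ^ r.1 := by
    rw [div_pow, inv_pow, div_pow]
    field_simp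
  have e4 : algebraMap ℂ K κ * algebraMap ℂ K lam' ^ r.2 * (algebraMap ℂ K lam)⁻¹ ^ r.1 =
      algebraMap ℂ K (κ * lam' ^ r.2 / lam ^ r.1) := by
    rw [map_div₀, map_mul, map_pow, map_pow, inv_pow, div_eq_mul_inv]
  rw [e3, e4] at hcg
  set κ' := κ * lam' ^ r.2 / lam ^ r.1 with hκ'
  have hq2 : W.valuation (lin b' c' ^ r.2 / lin b c ^ r.1 - algebraMap ℂ K η) < 1 := by
    refine (hWlt _ (y ^ r.2 / x ^ r.1 - η) ?_).mpr hcl
    have e5 : lin b' c' ^ r.2 / lin b c ^ r.1 - algebraMap ℂ K η - algebraMap ℂ K (y ^ r.2 / x ^ r.1 - η) =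
        lin b' c' ^ r.2 / lin b c ^ r.1 - algebraMap ℂ K (y ^ r.2 / x ^ r.1) := by
      rw [map_sub]; ring
    rw [e5]
    exact hquot r.1 r.2
  have hclose : V.valuation (κ' - η) < 1 := by
    rw [← hWlt (algebraMap ℂ K (κ' - η)) _ (h00 _)]
    have e5 : algebraMap ℂ K (κ' - η) = (lin b' c' ^ r.2 / lin b c ^ r.1 - algebraMap ℂ K η) -
        (lin b' c' ^ r.2 / lin b c ^ r.1 - algebraMap ℂ K κ') := by
      rw [map_sub]; ring
    rw [e5]
    exact W.valuation.map_sub_lt hq2 hcg.2.2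
  obtain ⟨a, ha⟩ := htm κ' t ht η hη hclose
  have hMeq : M = p ^ (2 * a) * (tm κ' ^ 2 * (r.1 * r.2)) := by
    rw [← hM, ha]; ring
  refine ⟨2 * a, tm κ' ^ 2 * (r.1 * r.2), ?_, hMeq⟩
  rw [Finset.mem_filter]
  refine ⟨Finset.mem_image.mpr ⟨((r, κ), (ζ, ζ')), ?_, rfl⟩, ?_⟩
  · rw [Finset.mem_product, Finset.mem_product, Finset.mem_product]
    exact ⟨⟨hrR, hκZ⟩, hζT, hζT'⟩
  · exact Nat.mul_pos (pow_pos (htm0 κ') 2) (Nat.mul_pos hr1 hr2)

end level

end Pool.Agent.Lib.ModularZP
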