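import Mathlib
import Pool.Agent.Lib.ModularZP.LinLevel

/-!
The criterion for curves whose coordinate functions are members of linear systems.
-/

open UpperHalfPlane hiding I

namespace Pool.Agent.Lib.ModularZP

section crit

variable {K : Type*} [Field K] [Algebra ℂ K]

lemma ev_all {ι : Type*} [Fintype ι] {Q : ι → ValuationSubring K → Prop}
    (h : ∀ i, ∃ S : Finset ℂ, ∀ W : ValuationSubring K, (∀ s ∈ S, algebraMap ℂ K s ∈ W) → Q i W) :
    ∃ S : Finset ℂ, ∀ W : ValuationSubring K, (∀ s ∈ S, algebraMap ℂ K s ∈ W) → ∀ i, Q i W := by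
  classical
  choose S hS using h
  exact ⟨Finset.univ.biUnion S, fun W hW i => hS i W fun s hs =>
    hW s (Finset.mem_biUnion.mpr ⟨i, Finset.mem_univ _, hs⟩)⟩

/-- finitely many points of the curve satisfy a modular relation which does not hold identically -/
theorem finite_rel_of_ne (htr : Algebra.trdeg ℂ K = 1) {n : ℕ} {g : Fin n → K} (hg : ∀ i, Transcendental ℂ (g i))
    {i j : Fin n} (M : ℕ)
    (hz0 : (modPoly M).eval₂ (Polynomial.aeval (g i) : Polynomial ℂ →ₐ[ℂ] K).toRingHom (g j) ≠ 0) :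
    {x ∈ placeCurve g | ModRel M (x i) (x j)}.Finite := by
  classical
  choose R hR0 hR using fun k => exists_excl htr (hg k) hz0
  refine Set.Finite.subset (Set.Finite.pi' (t := fun k => {c : ℂ | (R k).eval c = 0}) fun k => ?_) ?_
  · refine Set.Finite.subset ((R k).roots.toFinset.finite_toSet) fun c hc => ?_
    rw [Finset.mem_coe, Multiset.mem_toFinset, Polynomial.mem_roots (hR0 k)]
    exact hc
  · rintro x ⟨⟨P, hP, hPt, hPx⟩, hx⟩ k
    exact hR k P hP (x k) (hPx k) (modRel_value hP (hPx i) (hPx j) _ hx)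

theorem hodgeGeneric_of_finite (htr : Algebra.trdeg ℂ K = 1) {n : ℕ} {g : Fin n → K}
    (hg : ∀ i, Transcendental ℂ (g i))
    (hfin : ∀ i j, i ≠ j → ∀ M, {x ∈ placeCurve g | ModRel M (x i) (x j)}.Finite) :
    HodgeGeneric (placeCurve g) := by
  intro m D hm hsub
  by_cases hnone : ∃ i, D.block i = none
  · obtain ⟨i, hi⟩ := hnone
    obtain ⟨x, hx, hxi⟩ := exists_curve_point htr hg i (G := {jInv (D.cm i)}ᶜ)
      (Set.Finite.infinite_compl (Set.finite_singleton _))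
    obtain ⟨τ, hτ⟩ := hsub hx
    apply hxi
    rw [hτ i]
    unfold SpecialDatum.coord
    rw [hi]
    rfl
  · push Not at hnone
    obtain ⟨i, j, hij, hf⟩ : ∃ i j, i ≠ j ∧ D.block i = D.block j := by
      by_contra hcon
      push Not at hcon
      have hinj : Function.Injective (fun i : Fin n => (D.block i).get (Option.isSome_iff_ne_none.mpr (hnone i))) := by
        intro i j h
        simp only at h
        by_contra hne
        apply hcon i j hne
        rw [← Option.some_get (Option.isSome_iff_ne_none.mpr (hnone i)),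
          ← Option.some_get (Option.isSome_iff_ne_none.mpr (hnone j)), h]
      have := Fintype.card_le_of_injective _ hinj
      simp at this
      omega
    obtain ⟨k, hk⟩ := Option.ne_none_iff_exists'.mp (hnone i)
    have hk' : D.block j = some k := by rw [← hf]; exact hk
    set h := D.g j * (D.g i)⁻¹ with hh
    have hdet : 0 < h.det.val := by
      have h1 := D.g_det i
      have h2 := D.g_det j
      rw [hh, map_mul, map_inv, Units.val_mul, Units.val_inv_eq_inv_val]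
      positivity
    obtain ⟨M, hM⟩ := exists_modRel h hdet
    have hsub2 : placeCurve g ⊆ {x ∈ placeCurve g | ModRel M (x i) (x j)} := by
      intro x hx
      refine ⟨hx, ?_⟩
      obtain ⟨τ, hτ⟩ := hsub hx
      have hi' : x i = jInv ((D.g i).map (algebraMap ℚ ℝ) • τ k) := by
        rw [hτ i]; unfold SpecialDatum.coord; rw [hk]
      have hj' : x j = jInv ((D.g j).map (algebraMap ℚ ℝ) • τ k) := by
        rw [hτ j]; unfold SpecialDatum.coord; rw [hk']
      have h1 := hM ((D.g i).map (algebraMap ℚ ℝ) • τ k)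
      rw [hh, map_mul, map_inv, mul_smul, inv_smul_smul] at h1
      rw [hi', hj']
      exact h1
    have hfin' : (placeCurve g).Finite := (hfin i j hij M).subset hsub2
    have hcompl : ((fun x : Fin n → ℂ => x i) '' placeCurve g)ᶜ.Infinite :=
      (hfin'.image _).infinite_compl
    obtain ⟨x, hx, hxi⟩ := exists_curve_point htr hg i hcompl
    exact hxi ⟨x, hx, rfl⟩

/-- no modular relation between an integral and a non-integral element -/
lemma relation_ne_of_val {W : ValuationSubring K} (hAI : ∀ z ∈ AI, algebraMap ℂ K z ∈ W) {a b : K}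
    (ha : a ∈ W) (hb : b ∉ W) (M : ℕ) :
    (modPoly M).eval₂ (Polynomial.aeval a : Polynomial ℂ →ₐ[ℂ] K).toRingHom b ≠ 0 := by
  intro h0
  have h1 := gval_eval_eq (P := W) hb (p := (modPoly M).map (Polynomial.aeval a : Polynomial ℂ →ₐ[ℂ] K).toRingHom)
    (fun i => by
      rw [Polynomial.coeff_map]
      show Polynomial.aeval a ((modPoly M).coeff i) ∈ W
      rw [Polynomial.aeval_eq_sum_range]
      refine sum_mem fun k _ => ?_
      rw [Algebra.smul_def]
      exact mul_mem (hAI _ (modPoly_coeff M i k)) (pow_mem ha _))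
    (by rw [((modPoly_monic M).map _).coeff_natDegree, map_one])
  rw [Polynomial.eval_map, h0, map_zero] at h1
  have hx1 : 1 < W.valuation b := one_lt_iff.mpr hb
  exact pow_ne_zero _ (fun h => by rw [h] at hx1; exact not_lt_zero hx1) h1.symm

lemma exists_const_of_not {y : K} (hy : ¬ Transcendental ℂ y) : ∃ c : ℂ, algebraMap ℂ K c = y := by
  have halg : IsAlgebraic ℂ y := by
    by_contra h1
    exact hy h1
  have h1 := minpoly.irreducible halg.isIntegral
  have h2 := IsAlgClosed.degree_eq_one_of_irreducible ℂ h1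
  exact minpoly.mem_range_of_degree_eq_one ℂ y h2

/-- `V` is a good valuation ring for the coefficient `c i l`: all other coefficients are integral,
`c i l` is not, and the members of the other systems have full pole order -/
def GoodL {n N : ℕ} (S : Finset ℂ) (T : Fin n → Finset (Fin N → ℂ)) (c : Fin n → Fin N → ℂ)
    (i : Fin n) (l : Fin N) (V : ValuationSubring ℂ) : Prop :=
  (∀ s ∈ S, s ∈ V) ∧ c i l ∉ V ∧ (∀ j k, (j, k) ≠ (i, l) → c j k ∈ V) ∧
    ∀ j, j ≠ i → ∀ ζ ∈ T j, V.valuation (∑ k, c j k * ζ k) = 1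

/-- **Criterion.** -/
theorem linCrit (htr : Algebra.trdeg ℂ K = 1) {n N : ℕ} (hn : 2 ≤ n) (b : Fin n → Fin N → K)
    (U : Fin n → Fin N → Prop) (hU : ∀ i, ∃ l, U i l ∧ b i l ≠ 0)
    (hb : ∀ i, ∃ k, Transcendental ℂ (b i k))
    (hA : ∀ i j, i ≠ j →
      (∃ l, U i l ∧ ∀ P : ValuationSubring K, (∀ c : ℂ, algebraMap ℂ K c ∈ P) → AtZero P (b i) l → AtPole P (b j)) ∨
      ∃ l, U j l ∧ ∀ P : ValuationSubring K, (∀ c : ℂ, algebraMap ℂ K c ∈ P) → AtZero P (b j) l → AtPole P (b i))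
    (hB : ∀ i j k, i ≠ j → i ≠ k → j ≠ k → ∃ l, U i l ∧ ∀ P : ValuationSubring K, (∀ c : ℂ, algebraMap ℂ K c ∈ P) →
      AtZero P (b i) l → AtPole P (b j) ∨ AtPole P (b k))
    (hC : ∀ i j k l, i ≠ j → i ≠ k → i ≠ l → j ≠ k → j ≠ l → k ≠ l →
      (∀ P : ValuationSubring K, (∀ c : ℂ, algebraMap ℂ K c ∈ P) → AtPole P (b i) → AtPole P (b k) ∨ AtPole P (b l)) ∨
      (∀ P : ValuationSubring K, (∀ c : ℂ, algebraMap ℂ K c ∈ P) → AtPole P (b j) → AtPole P (b k) ∨ AtPole P (b l)) ∨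
      (∀ P : ValuationSubring K, (∀ c : ℂ, algebraMap ℂ K c ∈ P) → AtPole P (b k) → AtPole P (b i) ∨ AtPole P (b j)) ∨
      ∀ P : ValuationSubring K, (∀ c : ℂ, algebraMap ℂ K c ∈ P) → AtPole P (b l) → AtPole P (b i) ∨ AtPole P (b j)) :
    ∃ (S : Finset ℂ) (T : Fin n → Finset (Fin N → ℂ)), (∀ j, ∀ ζ ∈ T j, ∃ m, ζ m = 1) ∧
      ∀ c : Fin n → Fin N → ℂ, (∀ i l, U i l → ∃ p q : ℕ, p ≠ q ∧ p.Prime ∧ q.Prime ∧
        (∃ V : ValuationSubring ℂ, V.valuation (p : ℂ) < 1 ∧ GoodL S T c i l V) ∧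
        ∃ V : ValuationSubring ℂ, V.valuation (q : ℂ) < 1 ∧ GoodL S T c i l V) →
        HodgeGeneric (placeCurve fun i => lin (b i) (c i)) ∧ (atyp (placeCurve fun i => lin (b i) (c i))).Finite := by
  classical
  have hnt : Nontrivial (Fin n) := Fin.nontrivial_iff_two_le.mpr hn
  choose lt hlt using hb
  choose lu hlu using hU
  have hb0 : ∀ i, b i (lu i) ≠ 0 := fun i => (hlu i).2
  obtain ⟨i0, _⟩ := exists_pair_ne (Fin n)
  set y : K := b i0 (lt i0) with hydef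
  have hy : Transcendental ℂ y := hlt i0
  set Z2 : Fin n → Fin N → Fin n → Fin n → Prop := fun i l j k => ∀ P : ValuationSubring K,
    (∀ c : ℂ, algebraMap ℂ K c ∈ P) → AtZero P (b i) l → AtPole P (b j) ∨ AtPole P (b k) with hZ2
  set P2 : Fin n → Fin n → Fin n → Prop := fun i j k => ∀ P : ValuationSubring K,
    (∀ c : ℂ, algebraMap ℂ K c ∈ P) → AtPole P (b i) → AtPole P (b j) ∨ AtPole P (b k) with hP2
  -- the transferred statements
  have hrange : ∀ (W : ValuationSubring K) (j k : Fin n),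
      (∃ x ∈ Set.range (b j) ∪ Set.range (b k), x ∉ W) ↔ (AtPole W (b j) ∨ AtPole W (b k)) := by
    intro W j k
    constructor
    · rintro ⟨x, ⟨l, rfl⟩ | ⟨l, rfl⟩, hx⟩
      · exact Or.inl ⟨l, hx⟩
      · exact Or.inr ⟨l, hx⟩
    · rintro (⟨l, hl⟩ | ⟨l, hl⟩)
      · exact ⟨b j l, Or.inl ⟨l, rfl⟩, hl⟩
      · exact ⟨b k l, Or.inr ⟨l, rfl⟩, hl⟩
  obtain ⟨S1, hS1⟩ := ev_all (K := K) (ι := (Fin n × Fin N) × (Fin n × Fin n))
    (Q := fun q W => Z2 q.1.1 q.1.2 q.2.1 q.2.2 → AtZero W (b q.1.1) q.1.2 → AtPole W (b q.2.1) ∨ AtPole W (b q.2.2))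
    (fun q => by
      by_cases h : Z2 q.1.1 q.1.2 q.2.1 q.2.2
      · obtain ⟨S, hS⟩ := transfer_zero (b := b q.1.1) (l := q.1.2) (B := Set.range (b q.2.1) ∪ Set.range (b q.2.2))
          (fun P hP hz => (hrange P _ _).mpr (h P hP hz))
        exact ⟨S, fun W hW _ hz => (hrange W _ _).mp (hS W hW hz)⟩
      · exact ⟨∅, fun W _ h' => absurd h' h⟩)
  obtain ⟨S2, hS2⟩ := ev_all (K := K) (ι := Fin n × (Fin n × Fin n))
    (Q := fun q W => P2 q.1 q.2.1 q.2.2 → AtPole W (b q.1) → AtPole W (b q.2.1) ∨ AtPole W (b q.2.2))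
    (fun q => by
      by_cases h : P2 q.1 q.2.1 q.2.2
      · obtain ⟨S, hS⟩ := transfer_pole (b := b q.1) (B := Set.range (b q.2.1) ∪ Set.range (b q.2.2))
          (fun P hP hz => (hrange P _ _).mpr (h P hP hz))
        exact ⟨S, fun W hW _ hz => (hrange W _ _).mp (hS W hW hz)⟩
      · exact ⟨∅, fun W _ h' => absurd h' h⟩)
  choose ST T hT0 hTW using fun j => exists_poleData htr (b j)
  obtain ⟨S3, hS3⟩ := ev_all (K := K) (ι := Fin n)
    (Q := fun j W => AtPole W (b j) → ∃ m, b j m ∉ W ∧ ∃ ζ ∈ T j, ∀ k,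
      W.valuation (b j k / b j m - algebraMap ℂ K (ζ k)) < 1) (fun j => ⟨ST j, hTW j⟩)
  choose SG ZG hG using fun i => exists_generic htr (hb0 i) y
  obtain ⟨S4, hS4⟩ := ev_all (K := K) (ι := Fin n)
    (Q := fun i W => y ∈ W → (∀ ζ ∈ ZG i, ¬ W.valuation (y - algebraMap ℂ K ζ) < 1) →
      ¬ AtZero W (b i) (lu i) ∧ ¬ AtPole W (b i)) (fun j => ⟨SG j, hG j⟩)
  choose SR RR ZR hRR using fun q : (Fin n × Fin n) × (Fin N × Fin N) =>
    exists_ratios htr (b q.1.1 q.2.1) (b q.1.2 q.2.2)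
  obtain ⟨S5, hS5⟩ := ev_all (K := K) (ι := (Fin n × Fin n) × (Fin N × Fin N)) (Q := fun q W => b q.1.1 q.2.1 ∉ W → b q.1.2 q.2.2 ∉ W →
      ∃ r ∈ RR q, 0 < r.1 ∧ 0 < r.2 ∧ r.1.Coprime r.2 ∧
        W.valuation (b q.1.2 q.2.2) ^ r.2 = W.valuation (b q.1.1 q.2.1) ^ r.1 ∧
        ∃ κ ∈ ZR q, W.valuation (b q.1.2 q.2.2 ^ r.2 / b q.1.1 q.2.1 ^ r.1 - algebraMap ℂ K κ) < 1)
      (fun q => ⟨SR q, hRR q⟩)
  set R := Finset.univ.biUnion RR with hRdef
  set Z := Finset.univ.biUnion ZR with hZdef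
  set S := S1 ∪ (S2 ∪ (S3 ∪ (S4 ∪ S5))) with hS
  have hsub : ∀ W : ValuationSubring K, (∀ s ∈ S, algebraMap ℂ K s ∈ W) →
      (∀ s ∈ S1, algebraMap ℂ K s ∈ W) ∧ (∀ s ∈ S2, algebraMap ℂ K s ∈ W) ∧ (∀ s ∈ S3, algebraMap ℂ K s ∈ W) ∧
      (∀ s ∈ S4, algebraMap ℂ K s ∈ W) ∧ ∀ s ∈ S5, algebraMap ℂ K s ∈ W := by
    intro W hW
    refine ⟨fun s hs => hW s ?_, fun s hs => hW s ?_, fun s hs => hW s ?_, fun s hs => hW s ?_, fun s hs => hW s ?_⟩ <;>
      simp only [hS, Finset.mem_union, hs, true_or, or_true]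
  refine ⟨S, T, hT0, fun c hc => ?_⟩
  set g : Fin n → K := fun i => lin (b i) (c i) with hg
  have hconst0 : ∀ (P : ValuationSubring K) (z : ℂ), P.valuation (algebraMap ℂ K z - algebraMap ℂ K z) < 1 :=
    fun P z => by rw [sub_self, map_zero]; exact zero_lt_one
  -- transcendence of the coordinate functions
  have hgt : ∀ i, Transcendental ℂ (g i) := by
    intro i
    by_contra hcon
    obtain ⟨z, hz⟩ := exists_const_of_not hcon
    obtain ⟨i', hi'⟩ := exists_ne i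
    obtain ⟨p, _, _, _, _, ⟨V, _, hGV⟩, _⟩ := hc i' (lu i') (hlu i').1
    obtain ⟨P, hP, hPb⟩ := exists_pole (hlt i)
    obtain ⟨m, hm, ζ, hζT, hζ⟩ := hS3 P (fun s _ => hP s) i ⟨lt i, hPb⟩
    have h1 : V.valuation (∑ k, c i k * ζ k) = 1 := hGV.2.2.2 i (Ne.symm hi') ζ hζT
    have h2 : (∑ k, c i k * ζ k) ≠ 0 := fun h => by rw [h, map_zero] at h1; exact zero_ne_one h1
    obtain ⟨_, h3⟩ := lin_pole hm (fun k => hP (c i k)) hζ (const_val hP h2)
    have h4 : g i ∉ P := by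
      rw [← one_lt_iff, h3, one_lt_iff]
      exact hm
    rw [← hz] at h4
    exact h4 (hP z)
  -- no modular relation holds identically
  have hrel : ∀ j k, j ≠ k → ∀ M, {x ∈ placeCurve g | ModRel M (x j) (x k)}.Finite := by
    intro j k hjk M
    apply finite_rel_of_ne htr hgt
    obtain ⟨p, _, _, _, _, ⟨V, _, hGV⟩, _⟩ := hc k (lu k) (hlu k).1
    obtain ⟨W, hW1, _, hyW, hWZ⟩ := exists_gauss V hy (Finset.univ.biUnion ZG)
    have hSW : ∀ s ∈ S, algebraMap ℂ K s ∈ W := fun s hs => (hW1 s).mpr (hGV.1 s hs)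
    have h4 := hS4 W (hsub W hSW).2.2.2.1
    have hZi : ∀ i, ∀ ζ ∈ ZG i, ¬ W.valuation (y - algebraMap ℂ K ζ) < 1 := fun i ζ hζ =>
      hWZ ζ (Finset.mem_biUnion.mpr ⟨i, Finset.mem_univ _, hζ⟩)
    refine relation_ne_of_val (W := W) (fun z hz => (hW1 z).mpr (AI_le V hz)) ?_ ?_ M
    · refine lin_mem (fun l => (hW1 _).mpr (hGV.2.2.1 j l ?_)) (h4 j hyW (hZi j)).2
      intro h
      exact hjk (congrArg Prod.fst h)
    · refine lin_notMem (l := lu k) (fun h => hGV.2.1 ((hW1 _).mp h)) (fun l hl => (hW1 _).mpr (hGV.2.2.1 k l ?_))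
        (h4 k hyW (hZi k)).1
      intro h
      exact hl (congrArg Prod.snd h)
  refine ⟨hodgeGeneric_of_finite htr hgt hrel, ?_⟩
  -- the integrality patterns
  have key : ∀ (i : Fin n) (l : Fin N) (V : ValuationSubring ℂ), GoodL S T c i l V → ∀ x ∈ placeCurve g,
      ∃ W : ValuationSubring K, (∀ s ∈ S, algebraMap ℂ K s ∈ W) ∧ (x i ∈ V → AtZero W (b i) l) ∧
        ∀ j, j ≠ i → (x j ∉ V ↔ AtPole W (b j)) := by
    rintro i l V hGV x ⟨P, hP, hPt, hPx⟩
    obtain ⟨W, _, hWc, hWm, hWlt⟩ := exists_comp htr hP hPt V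
    have hSW : ∀ s ∈ S, algebraMap ℂ K s ∈ W := fun s hs => (hWc s).mpr (hGV.1 s hs)
    have hW1 : ∀ z : ℂ, V.valuation z = 1 → W.valuation (algebraMap ℂ K z) = 1 := by
      intro z hz
      refine le_antisymm ((W.valuation_le_one_iff _).mpr ((hWc z).mpr ((V.valuation_le_one_iff _).mp hz.le))) ?_
      by_contra hlt
      push Not at hlt
      have := (hWlt _ z (hconst0 P z)).mp hlt
      rw [hz] at this
      exact lt_irrefl _ this
    refine ⟨W, hSW, fun hxi => ?_, fun j hj => ?_⟩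
    · by_contra hz
      have h1 : g i ∉ W := lin_notMem (l := l) (fun h => hGV.2.1 ((hWc _).mp h))
        (fun k hk => (hWc _).mpr (hGV.2.2.1 i k fun h => hk (congrArg Prod.snd h))) hz
      exact h1 ((hWm _ _ (hPx i)).mpr hxi)
    · have hcj : ∀ k, algebraMap ℂ K (c j k) ∈ W := fun k => (hWc _).mpr (hGV.2.2.1 j k fun h => hj (congrArg Prod.fst h))
      rw [← hWm _ _ (hPx j)]
      constructor
      · intro h
        by_contra hp
        exact h (lin_mem hcj hp)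
      · intro hp
        obtain ⟨m, hm, ζ, hζT, hζ⟩ := hS3 W (hsub W hSW).2.2.1 j hp
        obtain ⟨_, h3⟩ := lin_pole hm hcj hζ (hW1 _ (hGV.2.2.2 j hj ζ hζT))
        show g j ∉ W
        rw [← one_lt_iff, h3, one_lt_iff]
        exact hm
  have K1 : ∀ (i : Fin n) (l : Fin N) (V : ValuationSubring ℂ), GoodL S T c i l V → ∀ x ∈ placeCurve g,
      ∀ j k, j ≠ i → k ≠ i → Z2 i l j k → x i ∈ V → x j ∉ V ∨ x k ∉ V := by
    intro i l V hGV x hx j k hj hk hZ hxi
    obtain ⟨W, hSW, h1, h2⟩ := key i l V hGV x hx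
    rcases hS1 W (hsub W hSW).1 ((i, l), (j, k)) hZ (h1 hxi) with h | h
    · exact Or.inl ((h2 j hj).mpr h)
    · exact Or.inr ((h2 k hk).mpr h)
  have K2 : ∀ (i : Fin n) (l : Fin N) (V : ValuationSubring ℂ), GoodL S T c i l V → ∀ x ∈ placeCurve g,
      ∀ j k m, j ≠ i → k ≠ i → m ≠ i → P2 j k m → x j ∉ V → x k ∉ V ∨ x m ∉ V := by
    intro i l V hGV x hx j k m hj hk hm hP hxj
    obtain ⟨W, hSW, h1, h2⟩ := key i l V hGV x hx
    rcases hS2 W (hsub W hSW).2.1 (j, (k, m)) hP ((h2 j hj).mp hxj) with h | h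
    · exact Or.inl ((h2 k hk).mpr h)
    · exact Or.inr ((h2 m hm).mpr h)
  -- a pair of isogenous coordinates near a common pole
  have hpair : ∀ x ∈ placeCurve g, ∀ (m : ℕ) (D : SpecialDatum n m), m + 2 ≤ n → x ∈ D.variety →
      ∃ i l j k, U i l ∧ j ≠ i ∧ k ≠ i ∧ j ≠ k ∧ D.block j = D.block k ∧ D.block j ≠ none ∧
        ∀ V, GoodL S T c i l V → x j ∉ V ∧ x k ∉ V := by
    intro x hx m D hm hxD
    have hnone : ∀ (V : ValuationSubring ℂ) i, D.block i = none → x i ∈ V := by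
      intro V i hi
      obtain ⟨e, he⟩ := pattern D hxD V
      rw [he i, hi]
      trivial
    have hsame : ∀ (V : ValuationSubring ℂ) i j, D.block i = D.block j → (x i ∈ V ↔ x j ∈ V) := by
      intro V i j hij
      obtain ⟨e, he⟩ := pattern D hxD V
      rw [he i, he j, hij]
    have hT4 : ∀ i j k m, i ≠ j → i ≠ k → i ≠ m → j ≠ k → j ≠ m → k ≠ m → D.block i = D.block j →
        D.block k = D.block m → D.block k ≠ none → P2 j k m →
        ∃ i l j k, U i l ∧ j ≠ i ∧ k ≠ i ∧ j ≠ k ∧ D.block j = D.block k ∧ D.block j ≠ none ∧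
          ∀ V, GoodL S T c i l V → x j ∉ V ∧ x k ∉ V := by
      intro i j k m hij hik him hjk hjm hkm h1 h2 h3 hP
      obtain ⟨l, hUl, hl⟩ := hB i k m hik him hkm
      refine ⟨i, l, k, m, hUl, hik.symm, him.symm, hkm, h2, h3, fun V hGV => ?_⟩
      have h4 : x k ∉ V ∨ x m ∉ V := by
        by_cases hxj : x j ∈ V
        · exact K1 i l V hGV x hx k m hik.symm him.symm hl ((hsame V i j h1).mpr hxj)
        · exact K2 i l V hGV x hx j k m hij.symm hik.symm him.symm hP hxj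
      have h5 := hsame V k m h2
      rcases h4 with h4 | h4
      · exact ⟨h4, fun h => h4 (h5.mpr h)⟩
      · exact ⟨fun h => h4 (h5.mp h), h4⟩
    rcases types D.block hm with ⟨i, j, hij, hi, hj⟩ | ⟨i, j, k, hij, hik, hjk, hi, hjk', hne⟩ |
      ⟨i, j, k, hij, hik, hjk, hij', hjk', hne⟩ | ⟨i, j, k, m, hij, hik, him, hjk, hjm, hkm, hij', hkm', hne, hne'⟩
    · exfalso
      rcases hA i j hij with ⟨l, hUl, hl⟩ | ⟨l, hUl, hl⟩
      · obtain ⟨p, _, _, _, _, ⟨V, _, hGV⟩, _⟩ := hc i l hUl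
        rcases K1 i l V hGV x hx j j hij.symm hij.symm (fun P hP hz => Or.inl (hl P hP hz)) (hnone V i hi) with h | h
        · exact h (hnone V j hj)
        · exact h (hnone V j hj)
      · obtain ⟨p, _, _, _, _, ⟨V, _, hGV⟩, _⟩ := hc j l hUl
        rcases K1 j l V hGV x hx i i hij hij (fun P hP hz => Or.inl (hl P hP hz)) (hnone V j hj) with h | h
        · exact h (hnone V i hi)
        · exact h (hnone V i hi)
    · obtain ⟨l, hUl, hl⟩ := hB i j k hij hik hjk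
      refine ⟨i, l, j, k, hUl, hij.symm, hik.symm, hjk, hjk', hne, fun V hGV => ?_⟩
      have h5 := hsame V j k hjk'
      rcases K1 i l V hGV x hx j k hij.symm hik.symm hl (hnone V i hi) with h4 | h4
      · exact ⟨h4, fun h => h4 (h5.mpr h)⟩
      · exact ⟨fun h => h4 (h5.mp h), h4⟩
    · obtain ⟨l, hUl, hl⟩ := hB i j k hij hik hjk
      refine ⟨i, l, j, k, hUl, hij.symm, hik.symm, hjk, hjk', hne, fun V hGV => ?_⟩
      have h5 := hsame V j k hjk'
      have h6 := hsame V i j hij'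
      by_cases hxi : x i ∈ V
      · rcases K1 i l V hGV x hx j k hij.symm hik.symm hl hxi with h4 | h4
        · exact absurd (h6.mp hxi) h4
        · exact absurd (h5.mp (h6.mp hxi)) h4
      · exact ⟨fun h => hxi (h6.mpr h), fun h => hxi (h6.mpr (h5.mpr h))⟩
    · rcases hC i j k m hij hik him hjk hjm hkm with h | h | h | h
      · exact hT4 j i k m hij.symm hjk hjm hik him hkm hij'.symm hkm' hne' h
      · exact hT4 i j k m hij hik him hjk hjm hkm hij' hkm' hne' h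
      · exact hT4 m k i j hkm.symm him.symm hjm.symm hik.symm hjk.symm hij hkm'.symm hij' hne h
      · exact hT4 k m i j hkm hik.symm hjk.symm him.symm hjm.symm hij hkm' hij' hne h
  -- the levels
  have hlev : ∀ (i : Fin n) (l : Fin N) (j k : Fin n), ∃ L : Set ℕ, L.Finite ∧ (U i l → j ≠ i → k ≠ i → ∀ x ∈ placeCurve g,
      (∀ V, GoodL S T c i l V → x j ∉ V ∧ x k ∉ V) → ∀ M, Lev M (x j) (x k) → M ∈ L) := by
    intro i l j k
    by_cases hji : U i l ∧ j ≠ i ∧ k ≠ i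
    · obtain ⟨hUl, hj, hk⟩ := hji
      obtain ⟨p, q, hpq, hp, hq, ⟨V, hV, hGV⟩, ⟨V', hV', hGV'⟩⟩ := hc i l hUl
      have hT1 : ∀ j, ∀ W : ValuationSubring K, (∀ s ∈ S, algebraMap ℂ K s ∈ W) → AtPole W (b j) →
          ∃ m, b j m ∉ W ∧ ∃ ζ ∈ T j, ∀ k, W.valuation (b j k / b j m - algebraMap ℂ K (ζ k)) < 1 :=
        fun j W hW => hS3 W (hsub W hW).2.2.1 j
      have hR1 : ∀ W : ValuationSubring K, (∀ s ∈ S, algebraMap ℂ K s ∈ W) → ∀ m m', b j m ∉ W → b k m' ∉ W →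
          ∃ r ∈ R, 0 < r.1 ∧ 0 < r.2 ∧ r.1.Coprime r.2 ∧ W.valuation (b k m') ^ r.2 = W.valuation (b j m) ^ r.1 ∧
            ∃ κ ∈ Z, W.valuation (b k m' ^ r.2 / b j m ^ r.1 - algebraMap ℂ K κ) < 1 := by
        intro W hW m m' hm hm'
        obtain ⟨r, hr, h1, h2, h3, h4, κ, hκ, h5⟩ := hS5 W (hsub W hW).2.2.2.2 ((j, k), (m, m')) hm hm'
        exact ⟨r, Finset.mem_biUnion.mpr ⟨_, Finset.mem_univ _, hr⟩, h1, h2, h3, h4, κ,
          Finset.mem_biUnion.mpr ⟨_, Finset.mem_univ _, hκ⟩, h5⟩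
      obtain ⟨F, hF0, hF⟩ := level_near htr (hT1 j) (hT1 k) hR1 hp hV hGV.1
        (fun l' => hGV.2.2.1 j l' fun h => hj (congrArg Prod.fst h))
        (fun l' => hGV.2.2.1 k l' fun h => hk (congrArg Prod.fst h)) (hGV.2.2.2 j hj) (hGV.2.2.2 k hk)
      obtain ⟨F', hF0', hF'⟩ := level_near htr (hT1 j) (hT1 k) hR1 hq hV' hGV'.1
        (fun l' => hGV'.2.2.1 j l' fun h => hj (congrArg Prod.fst h))
        (fun l' => hGV'.2.2.1 k l' fun h => hk (congrArg Prod.fst h)) (hGV'.2.2.2 j hj) (hGV'.2.2.2 k hk)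
      refine ⟨_, levels_two hp hq hpq F F' hF0', fun _ _ _ => ?_⟩
      rintro x ⟨P, hP, hPt, hPx⟩ hx M hM
      exact ⟨hF P hP hPt _ _ (hPx j) (hPx k) (hx V hGV).1 (hx V hGV).2 M hM,
        hF' P hP hPt _ _ (hPx j) (hPx k) (hx V' hGV').1 (hx V' hGV').2 M hM⟩
    · exact ⟨∅, Set.finite_empty, fun h0 h1 h2 => absurd ⟨h0, h1, h2⟩ hji⟩
  choose L hL hLev using hlev
  refine Set.Finite.subset (s := ⋃ i, ⋃ l, ⋃ j, ⋃ k, ⋃ M ∈ L i l j k, {x ∈ placeCurve g | j ≠ k ∧ ModRel M (x j) (x k)}) ?_ ?_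
  · refine Set.finite_iUnion fun i => Set.finite_iUnion fun l => Set.finite_iUnion fun j => Set.finite_iUnion fun k =>
      (hL i l j k).biUnion fun M _ => ?_
    by_cases hjk : j = k
    · refine Set.Finite.subset Set.finite_empty ?_
      rintro x ⟨_, h, _⟩
      exact h hjk
    · refine (hrel j k hjk M).subset ?_
      rintro x ⟨hx, _, h⟩
      exact ⟨hx, h⟩
  · rintro x ⟨hx, m, D, hm, hxD⟩
    obtain ⟨i, l, j, k, hUl, hj, hk, hjk, hblock, hne, hVV⟩ := hpair x hx m D hm hxD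
    obtain ⟨M, hM0, hMlev, hMrel⟩ := lev_of_block D hxD hblock hne
    have hML := hLev i l j k hUl hj hk x hx hVV M hMlev
    simp only [Set.mem_iUnion]
    exact ⟨i, l, j, k, M, hML, hx, hjk, hMrel⟩

end crit

end Pool.Agent.Lib.ModularZP
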