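import Mathlib
import Pool.Agent.Lib.ModularZP.LinDens

/-!
Almost all vectors of rational coefficients have two good private primes in every coefficient
(affine forms).
-/

open Filter Topology

namespace Pool.Agent.Lib.ModularZP

/-- `V` is a good valuation ring for the coefficient `c i l`: all other coefficients are integral,
`c i l` is not, and finitely many affine forms of the other coefficient vectors are units -/
def GoodA {n N : ℕ} (S : Finset ℂ) (T : Fin n → Finset (Fin (N + 1) → ℂ)) (c : Fin n → Fin N → ℂ)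
    (i : Fin n) (l : Fin N) (V : ValuationSubring ℂ) : Prop :=
  (∀ s ∈ S, s ∈ V) ∧ c i l ∉ V ∧ (∀ j k, (j, k) ≠ (i, l) → c j k ∈ V) ∧
    ∀ j, j ≠ i → ∀ ζ ∈ T j, V.valuation (ζ 0 + ∑ k : Fin N, c j k * ζ k.succ) = 1

/-- `p` is a good private prime for the coefficient `c i l` -/
def PrivA {n N : ℕ} (S : Finset ℂ) (T : Fin n → Finset (Fin (N + 1) → ℂ)) (c : Fin n → Fin N → ℂ)
    (i : Fin n) (l : Fin N) (p : ℕ) : Prop :=
  p.Prime ∧ ∃ V : ValuationSubring ℂ, V.valuation (p : ℂ) < 1 ∧ GoodA S T c i l V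

/-- the rational coefficient vectors of height at most `H` -/
def boxA (n N H : ℕ) : Set (Fin n → Fin N → ℚ) :=
  {c | ∀ i k, |(c i k).num| ≤ H ∧ (c i k).den ≤ H}

open Pool.Agent.ZP46 Finset

open Classical in
lemma exists_omegaA {n N : ℕ} (S : Finset ℂ) (T : Fin n → Finset (Fin (N + 1) → ℂ))
    (hT : ∀ j, ∀ ζ ∈ T j, ζ ≠ 0) :
    ∃ P₀ : ℕ, ∀ p : Nat.Primes, P₀ < (p : ℕ) →
      ∃ Ω : Fin n × Fin N → Finset ((Fin n × Fin N) ⊕ (Fin n × Fin N) → ZMod p),
      (∀ s, (p : ℕ) ^ (2 * Fintype.card (Fin n × Fin N)) ≤ 4 * (p : ℕ) * (Ω s).card) ∧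
      ∀ (c : Fin n × Fin N → ℚ) (s : Fin n × Fin N), (fun k => (toInt c k : ZMod (p : ℕ))) ∈ Ω s →
        PrivA S T (fun i k => (c (i, k) : ℂ)) s.1 s.2 p := by
  obtain ⟨P₁, hP₁⟩ := exists_good (S ∪ univ.biUnion fun j => (T j).biUnion fun ζ => univ.image ζ)
  set C : ℕ := (∑ j, (T j).card) + 1 with hC
  refine ⟨P₁ + 2 * C + 4 * Fintype.card (Fin n × Fin N), fun p hp => ?_⟩
  obtain ⟨V, hpV, hV⟩ := hP₁ p p.2 (by omega)
  have := charP_residue (V := V) p.2 hpV
  let ψ : ZMod (p : ℕ) →+* IsLocalRing.ResidueField V := ZMod.castHom (dvd_refl (p : ℕ)) _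
  have hmem : ∀ j, ∀ ζ ∈ T j, ∀ k, ζ k ∈ (S ∪ univ.biUnion fun j => (T j).biUnion fun ζ => univ.image ζ) := by
    intro j ζ hζ k
    rw [mem_union, mem_biUnion]
    right
    refine ⟨j, mem_univ _, ?_⟩
    rw [mem_biUnion]
    exact ⟨ζ, hζ, mem_image_of_mem _ (mem_univ k)⟩
  have hζ : ∀ j, ∀ ζ ∈ T j, ∀ k, ζ k ∈ V := fun j ζ hζ k => (hV _ (hmem j ζ hζ k)).1
  let r : (Fin (N + 1) → ℂ) → Fin (N + 1) → IsLocalRing.ResidueField V := fun ζ k =>
    if h : ζ k ∈ V then IsLocalRing.residue V ⟨ζ k, h⟩ else 0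
  have hr : ∀ j ζ (h : ζ ∈ T j) k, r ζ k = IsLocalRing.residue V ⟨ζ k, hζ j ζ h k⟩ := by
    intro j ζ hζ' k
    simp only [r]
    rw [dif_pos (hζ j ζ hζ' k)]
  have hr0 : ∀ j ζ (_ : ζ ∈ T j) k, ζ k ≠ 0 → r ζ k ≠ 0 := by
    intro j ζ h k hk
    rw [hr j ζ h k, residue_ne_zero]
    exact (hV _ (hmem j ζ h k)).2 hk
  let P : Fin n → ((Fin n × Fin N) ⊕ (Fin n × Fin N) → ZMod p) → Prop := fun i x =>
    ∀ j, j ≠ i → ∀ ζ ∈ T j, r ζ 0 + ∑ k : Fin N, ψ (x (Sum.inl (j, k)) / x (Sum.inr (j, k))) * r ζ k.succ ≠ 0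
  refine ⟨fun s => (boxS s (p : ℕ)).filter (P s.1), fun s => ?_, fun c s hc => ?_⟩
  · refine card_of_compl s (C := C) (by omega) (P s.1) ?_ (by omega) (by omega)
    have hsub : (boxS s (p : ℕ)).filter (fun x => ¬ P s.1 x) ⊆
        (univ : Finset (Fin n)).biUnion fun j => (T j).biUnion fun ζ =>
          (boxS s (p : ℕ)).filter fun x =>
            j ≠ s.1 ∧ r ζ 0 + ∑ k : Fin N, ψ (x (Sum.inl (j, k)) / x (Sum.inr (j, k))) * r ζ k.succ = 0 := by
      intro x hx
      rw [mem_filter] at hx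
      obtain ⟨hx1, hx2⟩ := hx
      simp only [P] at hx2
      push Not at hx2
      obtain ⟨j, hj, ζ, hζ', h0⟩ := hx2
      rw [mem_biUnion]
      refine ⟨j, mem_univ _, ?_⟩
      rw [mem_biUnion]
      refine ⟨ζ, hζ', ?_⟩
      rw [mem_filter]
      exact ⟨hx1, hj, h0⟩
    have hone : ∀ j, ∀ ζ ∈ T j, (p : ℕ) * ((boxS s (p : ℕ)).filter fun x =>
            j ≠ s.1 ∧ r ζ 0 + ∑ k : Fin N, ψ (x (Sum.inl (j, k)) / x (Sum.inr (j, k))) * r ζ k.succ = 0).card ≤
            1 * (boxS s (p : ℕ)).card := by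
      intro j ζ hζ'
      by_cases hj : j = s.1
      · have : ((boxS s (p : ℕ)).filter fun x =>
            j ≠ s.1 ∧ r ζ 0 + ∑ k : Fin N, ψ (x (Sum.inl (j, k)) / x (Sum.inr (j, k))) * r ζ k.succ = 0) = ∅ := by
          rw [filter_eq_empty_iff]
          rintro x _ ⟨h, -⟩
          exact h hj
        rw [this]
        simp
      by_cases hm : ∃ m : Fin N, ζ m.succ ≠ 0
      · obtain ⟨m, hm⟩ := hm
        refine event_boundS s ψ (j, m) (fun h => hj (by rw [← h])) 1 _ ?_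
        intro x _
        refine ⟨{- (r ζ 0 + ∑ k ∈ univ.erase m, ψ (x (Sum.inl (j, k)) / x (Sum.inr (j, k))) * r ζ k.succ) / r ζ m.succ},
          by simp, ?_⟩
        rintro v ⟨-, h0⟩
        rw [mem_singleton]
        have hrm : r ζ m.succ ≠ 0 := hr0 j ζ hζ' _ hm
        rw [← add_sum_erase _ _ (mem_univ m), Function.update_self, Function.update_of_ne (by simp)] at h0
        have h1 : ∑ k ∈ univ.erase m, ψ (Function.update x (Sum.inl (j, m)) v (Sum.inl (j, k)) /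
            Function.update x (Sum.inl (j, m)) v (Sum.inr (j, k))) * r ζ k.succ =
            ∑ k ∈ univ.erase m, ψ (x (Sum.inl (j, k)) / x (Sum.inr (j, k))) * r ζ k.succ := by
          refine sum_congr rfl fun k hk => ?_
          have hk' : k ≠ m := ne_of_mem_erase hk
          rw [Function.update_of_ne (by simpa using hk'), Function.update_of_ne (by simp)]
        rw [h1] at h0
        rw [eq_div_iff hrm]
        linear_combination h0
      · push Not at hm
        have hz : ζ 0 ≠ 0 := by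
          intro h0
          refine hT j ζ hζ' ?_
          funext k
          refine Fin.cases h0 (fun m => ?_) k
          exact hm m
        have hz' := hr0 j ζ hζ' 0 hz
        have hrs : ∀ m : Fin N, r ζ m.succ = 0 := by
          intro m
          rw [hr j ζ hζ' m.succ]
          have : (⟨ζ m.succ, hζ j ζ hζ' m.succ⟩ : V) = 0 := Subtype.ext (hm m)
          rw [this, map_zero]
        have : ((boxS s (p : ℕ)).filter fun x =>
            j ≠ s.1 ∧ r ζ 0 + ∑ k : Fin N, ψ (x (Sum.inl (j, k)) / x (Sum.inr (j, k))) * r ζ k.succ = 0) = ∅ := by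
          rw [filter_eq_empty_iff]
          rintro x _ ⟨-, h⟩
          apply hz'
          rw [← h]
          simp [hrs]
        rw [this]
        simp
    have h2 := (card_le_card hsub).trans card_biUnion_le
    have h3 : ∀ j, (((T j).biUnion fun ζ => (boxS s (p : ℕ)).filter fun x =>
            j ≠ s.1 ∧ r ζ 0 + ∑ k : Fin N, ψ (x (Sum.inl (j, k)) / x (Sum.inr (j, k))) * r ζ k.succ = 0).card) * (p : ℕ) ≤
            (T j).card * (boxS s (p : ℕ)).card := by
      intro j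
      refine (Nat.mul_le_mul_right _ card_biUnion_le).trans ?_
      rw [sum_mul]
      refine (sum_le_card_nsmul _ _ (boxS s (p : ℕ)).card fun ζ hζ' => ?_).trans (le_of_eq (by rw [smul_eq_mul]))
      have := hone j ζ hζ'
      rw [one_mul] at this
      rw [mul_comm]
      exact this
    calc (p : ℕ) * ((boxS s (p : ℕ)).filter fun x => ¬ P s.1 x).card
        ≤ (p : ℕ) * ∑ j, ((T j).biUnion fun ζ => (boxS s (p : ℕ)).filter fun x =>
            j ≠ s.1 ∧ r ζ 0 + ∑ k : Fin N, ψ (x (Sum.inl (j, k)) / x (Sum.inr (j, k))) * r ζ k.succ = 0).card := Nat.mul_le_mul_left _ h2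
      _ = ∑ j, ((T j).biUnion fun ζ => (boxS s (p : ℕ)).filter fun x =>
            j ≠ s.1 ∧ r ζ 0 + ∑ k : Fin N, ψ (x (Sum.inl (j, k)) / x (Sum.inr (j, k))) * r ζ k.succ = 0).card * (p : ℕ) := by
          rw [mul_comm, sum_mul]
      _ ≤ ∑ j, (T j).card * (boxS s (p : ℕ)).card := sum_le_sum fun j _ => h3 j
      _ = (∑ j, (T j).card) * (boxS s (p : ℕ)).card := by rw [sum_mul]
      _ ≤ C * (boxS s (p : ℕ)).card := Nat.mul_le_mul_right _ (by omega)
  · rw [mem_filter, mem_boxS] at hc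
    obtain ⟨⟨h1, h2, h3⟩, h4⟩ := hc
    simp only [toInt, Sum.elim_inl, Sum.elim_inr] at h1 h2 h3
    have h3' : ∀ t, t ≠ s → ((c t).den : ZMod p) ≠ 0 := by
      intro t ht
      have := h3 t ht
      simpa using this
    refine ⟨p.2, V, hpV, fun s hs => (hV s (mem_union_left _ hs)).1, ?_, ?_, ?_⟩
    · exact rat_notMem ψ (by simpa using h1) h2
    · intro j k hjk
      exact rat_mem ψ (h3' (j, k) hjk)
    · intro j hj ζ hζ'
      have h5 := h4 j hj ζ hζ'
      have hjk : ∀ k : Fin N, (j, k) ≠ s := fun k h => hj (by rw [← h])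
      have h6 : r ζ 0 + ∑ k : Fin N, ψ (((toInt c (Sum.inl (j, k)) : ℤ) : ZMod p) / ((toInt c (Sum.inr (j, k)) : ℤ) : ZMod p)) *
            r ζ k.succ =
          IsLocalRing.residue V (⟨ζ 0, hζ j ζ hζ' 0⟩ +
            ∑ k : Fin N, (⟨(c (j, k) : ℂ), rat_mem ψ (h3' _ (hjk k))⟩ : V) * ⟨ζ k.succ, hζ j ζ hζ' k.succ⟩) := by
        rw [map_add, map_sum, hr j ζ hζ' 0]
        congr 1
        refine sum_congr rfl fun k _ => ?_
        rw [map_mul, residue_rat ψ (h3' _ (hjk k)), hr j ζ hζ' k.succ]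
        simp [toInt]
      rw [h6, residue_ne_zero] at h5
      simpa using h5

theorem density_affine {n N : ℕ} (S : Finset ℂ) (T : Fin n → Finset (Fin (N + 1) → ℂ))
    (hT : ∀ j, ∀ ζ ∈ T j, ζ ≠ 0) (Good : (Fin n → Fin N → ℚ) → Prop)
    (hGood : ∀ c : Fin n → Fin N → ℚ,
      (∀ i l, ∃ p q : ℕ, p ≠ q ∧ PrivA S T (fun i k => (c i k : ℂ)) i l p ∧
        PrivA S T (fun i k => (c i k : ℂ)) i l q) → Good c) :
    Tendsto (fun H : ℕ => ((boxA n N H ∩ {c | ¬ Good c}).ncard : ℝ) / (boxA n N H).ncard) atTop (𝓝 0) := by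
  classical
  obtain ⟨P₀, hP₀⟩ := exists_omegaA S T hT
  choose Ω h1 h2 using hP₀
  have hden := density_two (ι := Fin n × Fin N) (J := Fin n × Fin N) (fun c => Good fun i k => c (i, k)) P₀
    (fun p j => if h : P₀ < (p : ℕ) then Ω p h j else ∅) (by
      intro p hp j
      simp only [dif_pos hp]
      exact h1 p hp j) (by
      intro c hc
      apply hGood
      intro i l
      obtain ⟨p, q, hpq, hp, hq, hp', hq'⟩ := hc (i, l)
      simp only [dif_pos hp] at hp'
      simp only [dif_pos hq] at hq'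
      exact ⟨p, q, fun h => hpq (Subtype.ext h), h2 p hp c (i, l) hp', h2 q hq c (i, l) hq'⟩)
  refine hden.congr fun H => ?_
  have hinj : Function.Injective (fun (c : Fin n × Fin N → ℚ) (i : Fin n) (k : Fin N) => c (i, k)) := by
    intro c c' h
    funext ⟨i, k⟩
    exact congrFun (congrFun h i) k
  have habs : ∀ (z : ℤ), z.natAbs ≤ H ↔ |z| ≤ (H : ℤ) := by
    intro z
    rw [Int.abs_eq_natAbs]
    exact_mod_cast Iff.rfl
  have e1 : boxA n N H = (fun (c : Fin n × Fin N → ℚ) (i : Fin n) (k : Fin N) => c (i, k)) ''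
      {c | ∀ s, (c s).num.natAbs ≤ H ∧ (c s).den ≤ H} := by
    ext c
    constructor
    · intro hc
      exact ⟨fun s => c s.1 s.2, fun s => ⟨(habs _).mpr (hc s.1 s.2).1, (hc s.1 s.2).2⟩, rfl⟩
    · rintro ⟨c, hc, rfl⟩ i k
      exact ⟨(habs _).mp (hc (i, k)).1, (hc (i, k)).2⟩
  have e2 : boxA n N H ∩ {c | ¬ Good c} = (fun (c : Fin n × Fin N → ℚ) (i : Fin n) (k : Fin N) => c (i, k)) ''
      {c | (∀ s, (c s).num.natAbs ≤ H ∧ (c s).den ≤ H) ∧ ¬ Good fun i k => c (i, k)} := by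
    ext c
    constructor
    · rintro ⟨hc, hc'⟩
      exact ⟨fun s => c s.1 s.2, ⟨fun s => ⟨(habs _).mpr (hc s.1 s.2).1, (hc s.1 s.2).2⟩, hc'⟩, rfl⟩
    · rintro ⟨c, ⟨hc, hc'⟩, rfl⟩
      exact ⟨fun i k => ⟨(habs _).mp (hc (i, k)).1, (hc (i, k)).2⟩, hc'⟩
  rw [e1, Set.ncard_image_of_injective _ hinj] at *
  rw [e2, Set.ncard_image_of_injective _ hinj]

end Pool.Agent.Lib.ModularZP
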