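import Mathlib
import Pool.Agent.Lib.ModularZP.Certificate

/-!
The criterion: if all but at most one coordinate of a point are close to the prescribed values
`(1 + p^(i+2)) / p^(n+3)`, the point is on no special subvariety of codimension at least two.
-/

open UpperHalfPlane hiding I
open ModularForm ModularFormClass MatrixGroups EisensteinSeries Complex Function

namespace Pool.Agent.Lib.ModularZP

/-- close to the prescribed value `(1 + p^(i+2)) / p^(n+3)` -/
def Rob (V : ValuationSubring ℂ) (p n i : ℕ) (z : ℂ) : Prop :=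
  ∃ s ∈ V, z = (1 + (p : ℂ) ^ (i + 2)) / (p : ℂ) ^ (n + 3) * (1 + (p : ℂ) ^ (n + 2) * s)

variable {V : ValuationSubring ℂ} {p : ℕ}

lemma val_one_add (hV : V.valuation (p : ℂ) < 1) {k : ℕ} (hk : k ≠ 0) {s : ℂ} (hs : s ∈ V) :
    V.valuation (1 + (p : ℂ) ^ k * s) = 1 := by
  have h1 : V.valuation ((p : ℂ) ^ k * s) < 1 := by
    rw [map_mul, map_pow]
    calc V.valuation (p : ℂ) ^ k * V.valuation s ≤ V.valuation (p : ℂ) ^ k * 1 :=
          mul_le_mul_right ((V.valuation_le_one_iff _).mpr hs) _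
      _ < 1 := by rw [mul_one]; exact pow_lt_one₀ zero_le hV hk
  rw [V.valuation.map_one_add_of_lt h1]

lemma val_one_add' (hV : V.valuation (p : ℂ) < 1) {k : ℕ} (hk : k ≠ 0) :
    V.valuation (1 + (p : ℂ) ^ k) = 1 := by
  have := val_one_add hV hk V.one_mem
  rwa [mul_one] at this

lemma Rob.val (hV : V.valuation (p : ℂ) < 1) {n i : ℕ} {z : ℂ} (h : Rob V p n i z) :
    V.valuation z = (V.valuation (p : ℂ) ^ (n + 3))⁻¹ := by
  obtain ⟨s, hs, rfl⟩ := h
  rw [map_mul, map_div₀, map_pow, val_one_add hV (by omega) hs, val_one_add' hV (by omega), mul_one, one_div]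

lemma Rob.notMem (hp : p.Prime) (hV : V.valuation (p : ℂ) < 1) {n i : ℕ} {z : ℂ} (h : Rob V p n i z) : z ∉ V := by
  rw [← V.valuation_le_one_iff, h.val hV, not_le]
  refine (one_lt_inv₀ (pow_pos (zero_lt_iff.mpr (val_p_ne hp)) _)).mpr (pow_lt_one₀ zero_le hV (by omega))

lemma Rob.big (hp : p.Prime) (hV : V.valuation (p : ℂ) < 1) {n i : ℕ} {z : ℂ} (h : Rob V p n i z) (hi : i < n) :
    1 < V.valuation z * V.valuation (p : ℂ) ^ (i + 2) := by
  have hp0 := val_p_ne (V := V) hp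
  rw [h.val hV]
  have h1 : n + 3 = (i + 2) + (n - i + 1) := by omega
  rw [h1, pow_add, mul_inv, mul_comm, ← mul_assoc, mul_inv_cancel₀ (pow_ne_zero _ hp0), one_mul]
  exact (one_lt_inv₀ (pow_pos (zero_lt_iff.mpr hp0) _)).mpr (pow_lt_one₀ zero_le hV (by omega))

lemma rob_ratio (hp : p.Prime) (hV : V.valuation (p : ℂ) < 1) {n i j : ℕ} (hij : i < j) (hj : j < n) {x y : ℂ}
    (hx : Rob V p n i x) (hy : Rob V p n j y) :
    V.valuation (y / x - 1) = V.valuation (p : ℂ) ^ (i + 2) := by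
  have hxv := hx.val hV
  have hp0 : (p : ℂ) ≠ 0 := by exact_mod_cast hp.ne_zero
  have hvp0 := val_p_ne (V := V) hp
  have hx0 : x ≠ 0 := by
    rintro rfl
    rw [map_zero] at hxv
    exact inv_ne_zero (pow_ne_zero _ hvp0) hxv.symm
  obtain ⟨s, hs, hxs⟩ := hx
  obtain ⟨t, ht, hyt⟩ := hy
  have h1 : y / x - 1 = (y - x) / x := by field_simp
  obtain ⟨k, rfl⟩ : ∃ k, j = i + 1 + k := ⟨j - i - 1, by omega⟩
  obtain ⟨l, rfl⟩ : ∃ l, n = i + 1 + l := ⟨n - i - 1, by omega⟩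
  have hpV : (p : ℂ) ∈ V := natCast_mem V p
  have h2 : y - x = ((p : ℂ) ^ (i + 2) / (p : ℂ) ^ (i + 1 + l + 3)) * (-(1 + (p : ℂ) ^ 1 *
      (-(p : ℂ) ^ k - (p : ℂ) ^ l * ((1 + (p : ℂ) ^ (i + 1 + k + 2)) * t - (1 + (p : ℂ) ^ (i + 2)) * s)))) := by
    rw [hxs, hyt]
    field_simp
    ring
  have h3 : V.valuation (1 + (p : ℂ) ^ 1 *
      (-(p : ℂ) ^ k - (p : ℂ) ^ l * ((1 + (p : ℂ) ^ (i + 1 + k + 2)) * t - (1 + (p : ℂ) ^ (i + 2)) * s))) = 1 := by
    refine val_one_add hV one_ne_zero ?_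
    refine sub_mem (neg_mem (pow_mem hpV _)) (mul_mem (pow_mem hpV _) (sub_mem (mul_mem ?_ ht) (mul_mem ?_ hs)))
    · exact add_mem V.one_mem (pow_mem hpV _)
    · exact add_mem V.one_mem (pow_mem hpV _)
  rw [h1, map_div₀, h2, map_mul, map_div₀, Valuation.map_neg, h3, mul_one, map_pow, map_pow, hxv]
  rw [div_inv_eq_mul, div_mul_cancel₀ _ (pow_ne_zero _ hvp0)]

lemma not_isog_rob (hp : p.Prime) (hV : V.valuation (p : ℂ) < 1) {n i j : ℕ} (hij : i < j) (hj : j < n)
    {g g' : GL (Fin 2) ℚ} (hg : 0 < g.det.val) (hg' : 0 < g'.det.val) (τ : ℍ)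
    (hx : Rob V p n i (jInv (g.map (algebraMap ℚ ℝ) • τ)))
    (hy : Rob V p n j (jInv (g'.map (algebraMap ℚ ℝ) • τ))) : False := by
  have hg2 : 0 < (g' * g⁻¹).det.val := by
    rw [map_mul, map_inv, Units.val_mul, Units.val_inv_eq_inv_val]
    positivity
  have h1 : jInv (g'.map (algebraMap ℚ ℝ) • τ) =
      jInv (((g' * g⁻¹).map (algebraMap ℚ ℝ)) • (g.map (algebraMap ℚ ℝ) • τ)) := by
    rw [map_mul, map_inv, mul_smul, inv_smul_smul]
  rw [h1] at hy
  exact not_isogenous hp hV (e := i + 2) (by omega) (g' * g⁻¹) hg2 _ (hx.big hp hV (by omega))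
    (rob_ratio hp hV hij hj hx hy)

theorem not_special (hp : p.Prime) (hV : V.valuation (p : ℂ) < 1) {n m : ℕ} (hm : m + 2 ≤ n)
    (D : SpecialDatum n m) {x : Fin n → ℂ} (hx : x ∈ D.variety)
    (hrob : ∀ i j : Fin n, i ≠ j → Rob V p n i (x i) ∨ Rob V p n j (x j)) : False := by
  classical
  obtain ⟨τ, hτ⟩ := hx
  have hnone : ∀ i : Fin n, Rob V p n i (x i) → D.block i ≠ none := by
    intro i hi hb
    refine hi.notMem hp hV ?_
    rw [hτ i]
    unfold SpecialDatum.coord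
    rw [hb]
    exact mem_of_isIntegral V (jInv_isIntegral_of_isCM _ (D.cm_isCM i))
  have hsome : ∀ (i : Fin n) (k : Fin m), D.block i = some k → x i = jInv ((D.g i).map (algebraMap ℚ ℝ) • τ k) := by
    intro i k hk
    rw [hτ i]
    unfold SpecialDatum.coord
    rw [hk]
  set R : Finset (Fin n) := Finset.univ.filter fun i => Rob V p n i (x i) with hR
  have hcardc : Rᶜ.card ≤ 1 := by
    rw [Finset.card_le_one]
    intro a ha b hb
    by_contra hab
    rw [hR, Finset.mem_compl, Finset.mem_filter] at ha hb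
    rcases hrob a b hab with h | h
    · exact ha ⟨Finset.mem_univ _, h⟩
    · exact hb ⟨Finset.mem_univ _, h⟩
  have hcard : n ≤ R.card + 1 := by
    have := Finset.card_add_card_compl R
    rw [Fintype.card_fin] at this
    omega
  have hm0 : 0 < m := by
    have hRne : R.Nonempty := by
      rw [← Finset.card_pos]; omega
    obtain ⟨i, hi⟩ := hRne
    rw [hR, Finset.mem_filter] at hi
    obtain ⟨k, _⟩ := Option.ne_none_iff_exists'.mp (hnone i hi.2)
    exact k.pos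
  have : Nonempty (Fin m) := ⟨⟨0, hm0⟩⟩
  obtain ⟨i, hi, j, hj, hij, hf⟩ := Finset.exists_ne_map_eq_of_card_lt_of_maps_to (s := R) (t := (Finset.univ : Finset (Fin m)))
    (f := fun i => (D.block i).getD ⟨0, hm0⟩) (by rw [Finset.card_univ, Fintype.card_fin]; omega)
    (fun _ _ => Finset.mem_univ _)
  rw [hR, Finset.mem_filter] at hi hj
  obtain ⟨k, hk⟩ := Option.ne_none_iff_exists'.mp (hnone i hi.2)
  obtain ⟨l, hl⟩ := Option.ne_none_iff_exists'.mp (hnone j hj.2)
  simp only [hk, hl, Option.getD_some] at hf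
  subst hf
  have hxi := hi.2
  have hxj := hj.2
  rw [hsome i k hk] at hxi
  rw [hsome j k hl] at hxj
  rcases lt_or_gt_of_ne (fun h : (i : ℕ) = j => hij (Fin.ext h)) with h | h
  · exact not_isog_rob hp hV h j.2 (D.g_det i) (D.g_det j) (τ k) hxi hxj
  · exact not_isog_rob hp hV h i.2 (D.g_det j) (D.g_det i) (τ k) hxj hxi

end Pool.Agent.Lib.ModularZP
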