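import Mathlib

/-!
A valuation ring of `ℂ` of positive residue characteristic containing finitely many given numbers.
-/

namespace Pool.Agent.Lib.ModularZP

lemma isJacobsonRing_int : IsJacobsonRing ℤ := by
  rw [isJacobsonRing_iff_prime_eq]
  intro P hP
  by_cases h : P = ⊥
  · subst h
    refine le_antisymm ?_ Ideal.le_jacobson
    intro x hx
    rw [Ideal.mem_jacobson_bot] at hx
    rw [Ideal.mem_bot]
    by_contra hx0
    have h1 := hx (2 * x)
    rw [Int.isUnit_iff] at h1
    have h2 : 0 < x * x := mul_self_pos.mpr hx0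
    rcases h1 with h1 | h1 <;> nlinarith
  · have : P.IsMaximal := hP.isMaximal h
    exact Ideal.jacobson_eq_self_of_isMaximal

theorem exists_good (S : Finset ℂ) : ∃ (p : ℕ) (V : ValuationSubring ℂ), p.Prime ∧
    V.valuation (p : ℂ) < 1 ∧ ∀ s ∈ S, s ∈ V := by
  let A : Subalgebra ℤ ℂ := Algebra.adjoin ℤ (S : Set ℂ)
  have hfg : A.FG := Subalgebra.fg_adjoin_finset S
  have hft : Algebra.FiniteType ℤ A := (Subalgebra.fg_iff_finiteType A).mp hfg
  obtain ⟨m, hm⟩ := Ideal.exists_maximal A
  have := isJacobsonRing_int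
  let _ : Field (A ⧸ m) := Ideal.Quotient.field m
  have hft2 : Algebra.FiniteType ℤ (A ⧸ m) :=
    Algebra.FiniteType.of_surjective (Ideal.Quotient.mkₐ ℤ m) (Ideal.Quotient.mkₐ_surjective ℤ m)
  have hfin : Module.Finite ℤ (A ⧸ m) := finite_of_finite_type_of_isJacobsonRing ℤ (A ⧸ m)
  have hni : ¬ Function.Injective (algebraMap ℤ (A ⧸ m)) := by
    intro hinj
    have : Algebra.IsIntegral ℤ (A ⧸ m) := inferInstance
    exact Int.not_isField (isField_of_isIntegral_of_isField hinj (Field.toIsField (A ⧸ m)))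
  obtain ⟨q, hq⟩ := CharP.exists (A ⧸ m)
  have hq0 : q ≠ 0 := by
    rintro rfl
    have : CharZero (A ⧸ m) := CharP.charP_to_charZero _
    apply hni
    intro a b hab
    rw [eq_intCast, eq_intCast] at hab
    exact Int.cast_injective hab
  have hqp : q.Prime := (CharP.char_is_prime_or_zero (A ⧸ m) q).resolve_right hq0
  obtain ⟨V, hV1, hV2⟩ := Ideal.image_subset_nonunits_valuationSubring (A := A.toSubring) m hm.ne_top
  refine ⟨q, V, hqp, ?_, fun s hs => hV1 (Algebra.subset_adjoin hs)⟩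
  have hqm : (q : A) ∈ m := by
    rw [← Ideal.Quotient.eq_zero_iff_mem]
    have := CharP.cast_eq_zero (A ⧸ m) q
    rw [← this]
    exact map_natCast (Ideal.Quotient.mk m) q
  have h1 : ((q : ℂ)) ∈ V.nonunits := hV2 ⟨(q : A), hqm, by simp⟩
  exact h1

end Pool.Agent.Lib.ModularZP
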