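import Mathlib

/-!
Subsets of `ℂⁿ` cut out by polynomials of prescribed multidegrees.
-/

namespace Pool.Agent.Lib.ModularZP

/-- The polynomial `∑ₑ c(e) x₁^e₁ ⋯ xₙ^eₙ` of degree at most `dᵢ` in `xᵢ`, as a function of `x`. -/
noncomputable def multiPoly {n : ℕ} (d : Fin n → ℕ) (c : ((i : Fin n) → Fin (d i + 1)) → ℂ)
    (x : Fin n → ℂ) : ℂ :=
  ∑ e, c e * ∏ i, x i ^ (e i : ℕ)

/-- The common zero set in `ℂⁿ` of `r` polynomials, the `k`-th having degree at most `d k i` in the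
variable `xᵢ` and coefficients `c k`. -/
def zeroLocus {n r : ℕ} (d : Fin r → Fin n → ℕ)
    (c : (k : Fin r) → ((i : Fin n) → Fin (d k i + 1)) → ℂ) : Set (Fin n → ℂ) :=
  {x | ∀ k, multiPoly (d k) (c k) x = 0}

end Pool.Agent.Lib.ModularZP
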