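import Mathlib

/-!
Valuation rings of `ℂ` centred at a height one prime of a finitely generated ring.
-/

namespace Pool.Agent.Lib.ModularZP

/-- a valuation ring dominating the localization at a prime -/
theorem exists_valuation_of_prime (B : Subring ℂ) (P : Ideal B) [P.IsPrime] :
    ∃ V : ValuationSubring ℂ, (∀ x : B, V.valuation (x : ℂ) ≤ 1) ∧
      (∀ x : B, x ∈ P → V.valuation (x : ℂ) < 1) ∧ (∀ x : B, x ∉ P → V.valuation (x : ℂ) = 1) := by
  obtain ⟨V, hV1, hV2⟩ := Ideal.image_subset_nonunits_valuationSubring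
    (A := (LocalSubring.ofPrime B P).toSubring) (IsLocalRing.maximalIdeal _) (Ideal.IsMaximal.ne_top inferInstance)
  have hle : ∀ z ∈ (LocalSubring.ofPrime B P).toSubring, V.valuation z ≤ 1 := fun z hz =>
    (V.valuation_le_one_iff _).mpr (hV1 hz)
  have hBle : B ≤ (LocalSubring.ofPrime B P).toSubring := LocalSubring.le_ofPrime B P
  refine ⟨V, fun x => hle _ (hBle x.2), fun x hx => ?_, fun x hx => ?_⟩
  · have h1 : (algebraMap B (LocalSubring.ofPrime B P).toSubring x) ∈
        IsLocalRing.maximalIdeal (LocalSubring.ofPrime B P).toSubring :=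
      (IsLocalization.AtPrime.to_map_mem_maximal_iff _ P x).mpr hx
    exact hV2 ⟨_, h1, rfl⟩
  · have h1 : IsUnit (algebraMap B (LocalSubring.ofPrime B P).toSubring x) :=
      IsLocalization.map_units (M := P.primeCompl) _ ⟨x, hx⟩
    obtain ⟨y, hy⟩ := isUnit_iff_exists_inv.mp h1
    have h2 : (x : ℂ) * (y : ℂ) = 1 := congrArg Subtype.val hy
    have h3 := congrArg V.valuation h2
    rw [map_mul, map_one] at h3
    have h4 := hle _ y.2
    have h5 := hle _ (hBle x.2)
    refine le_antisymm h5 ?_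
    calc 1 = V.valuation (x : ℂ) * V.valuation (y : ℂ) := h3.symm
      _ ≤ V.valuation (x : ℂ) * 1 := mul_le_mul_right h4 _
      _ = _ := mul_one _

theorem exists_arch_valuation (S U : Finset ℂ)
    (hprop : Ideal.span {z : Subring.closure ((S : Set ℂ) ∪ U) | (z : ℂ) ∈ U} ≠ ⊤) :
    ∃ V : ValuationSubring ℂ, (∀ s ∈ S, s ∈ V) ∧ (∀ u ∈ U, V.valuation u < 1) ∧
      ∀ p : ℕ, p.Prime → V.valuation (p : ℂ) < 1 → ∃ m : ℕ, ∀ u ∈ U, V.valuation u ^ m ≤ V.valuation (p : ℂ) := by
  classical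
  obtain ⟨V₀, hV₀1, hV₀2⟩ := Ideal.image_subset_nonunits_valuationSubring _ hprop
  have hS0 : ∀ s ∈ S, s ∈ V₀ := fun s hs => hV₀1 (Subring.subset_closure (Or.inl hs))
  have hU0 : ∀ u ∈ U, V₀.valuation u < 1 := fun u hu =>
    hV₀2 ⟨⟨u, Subring.subset_closure (Or.inr hu)⟩, Ideal.subset_span hu, rfl⟩
  by_cases hz : ∀ u ∈ U, u = 0
  · refine ⟨V₀, hS0, hU0, fun p _ _ => ⟨1, fun u hu => ?_⟩⟩
    rw [hz u hu, map_zero, pow_one]
    exact zero_le
  push Not at hz
  obtain ⟨u₀, hu₀, hu₀0⟩ := hz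
  obtain ⟨c, hc, hmax⟩ := Finset.exists_max_image U (fun u => V₀.valuation u) ⟨u₀, hu₀⟩
  have hc0 : c ≠ 0 := by
    rintro rfl
    have h1 := hmax u₀ hu₀
    rw [map_zero] at h1
    exact hu₀0 (by rw [← map_eq_zero V₀.valuation]; exact le_antisymm h1 zero_le)
  have hvc0 : V₀.valuation c ≠ 0 := by rwa [Ne, map_eq_zero]
  set T : Set ℂ := (S : Set ℂ) ∪ U ∪ ((U.image fun u => u / c : Finset ℂ) : Set ℂ) with hT
  have hTfin : T.Finite := by
    rw [hT]
    exact ((Finset.finite_toSet S).union (Finset.finite_toSet U)).union (Finset.finite_toSet _)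
  set B : Subring ℂ := Subring.closure T with hB
  have : IsNoetherianRing B := is_noetherian_subring_closure T hTfin
  have hBV : B ≤ V₀.toSubring := by
    rw [hB, Subring.closure_le]
    rintro z ((hz | hz) | hz)
    · exact hS0 z hz
    · exact (V₀.valuation_le_one_iff _).mp (hU0 z hz).le
    · rw [Finset.mem_coe, Finset.mem_image] at hz
      obtain ⟨u, hu, rfl⟩ := hz
      refine (V₀.valuation_le_one_iff _).mp ?_
      rw [map_div₀]
      exact (div_le_one₀ (zero_lt_iff.mpr hvc0)).mpr (hmax u hu)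
  have hcB : c ∈ B := Subring.subset_closure (Or.inl (Or.inr hc))
  set cB : B := ⟨c, hcB⟩ with hcBdef
  have hcne : (Ideal.span {cB} : Ideal B) ≠ ⊤ := by
    rw [Ne, Ideal.span_singleton_eq_top]
    intro h
    obtain ⟨y, hy⟩ := isUnit_iff_exists_inv.mp h
    have h2 : c * (y : ℂ) = 1 := congrArg Subtype.val hy
    have h3 := congrArg V₀.valuation h2
    rw [map_mul, map_one] at h3
    have h4 : V₀.valuation (y : ℂ) ≤ 1 := (V₀.valuation_le_one_iff _).mpr (hBV y.2)
    have h5 : V₀.valuation c * V₀.valuation (y : ℂ) < 1 :=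
      (mul_le_mul_right h4 _).trans_lt (by rw [mul_one]; exact hU0 c hc)
    exact absurd h3 h5.ne
  obtain ⟨M, hM, hMle⟩ := Ideal.exists_le_maximal _ hcne
  obtain ⟨P, hP, hPM⟩ := Ideal.exists_minimalPrimes_le hMle
  have hPprime : P.IsPrime := hP.1.1
  have hcP : cB ∈ P := hP.1.2 (Ideal.subset_span rfl)
  have hht : P.height ≤ 1 := Ideal.height_le_one_of_isPrincipal_of_mem_minimalPrimes _ P hP
  obtain ⟨V, hVle, hVlt, hVeq⟩ := exists_valuation_of_prime B P
  have hdiv : ∀ u ∈ U, V.valuation u ≤ V.valuation c := by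
    intro u hu
    have h1 : u / c ∈ B := Subring.subset_closure (Or.inr (by
      rw [Finset.mem_coe, Finset.mem_image]; exact ⟨u, hu, rfl⟩))
    have h2 := hVle ⟨u / c, h1⟩
    have h3 : u = u / c * c := by field_simp
    rw [h3, map_mul]
    calc V.valuation (u / c) * V.valuation c ≤ 1 * V.valuation c := mul_le_mul_left h2 _
      _ = _ := one_mul _
  have hvc : V.valuation c < 1 := hVlt cB hcP
  refine ⟨V, fun s hs => (V.valuation_le_one_iff _).mp (hVle ⟨s, Subring.subset_closure (Or.inl (Or.inl hs))⟩),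
    fun u hu => (hdiv u hu).trans_lt hvc, fun p hp hpV => ?_⟩
  have hpB : ((p : ℕ) : ℂ) ∈ B := natCast_mem B p
  have hpP : (p : B) ∈ P := by
    by_contra h
    have h1 := hVeq _ h
    have h2 : (((p : B)) : ℂ) = (p : ℂ) := by simp
    rw [h2] at h1
    exact absurd h1 hpV.ne
  -- the multiplicative set
  have hex : ∃ (s : B) (m : ℕ) (b : B), s ∉ P ∧ s * cB ^ m = (p : B) * b := by
    by_contra hcon
    push Not at hcon
    let N : Submonoid B :=
      { carrier := {x | ∃ (s : B) (m : ℕ), s ∉ P ∧ x = s * cB ^ m}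
        one_mem' := ⟨1, 0, fun h => hPprime.ne_top ((Ideal.eq_top_iff_one _).mpr h), by simp⟩
        mul_mem' := by
          rintro a b ⟨s, m, hs, rfl⟩ ⟨s', m', hs', rfl⟩
          refine ⟨s * s', m + m', fun h => ?_, by ring⟩
          rcases hPprime.mem_or_mem h with h | h
          · exact hs h
          · exact hs' h }
    have hdisj : Disjoint ((Ideal.span {(p : B)} : Ideal B) : Set B) (N : Set B) := by
      rw [Set.disjoint_left]
      rintro x hx ⟨s, m, hs, rfl⟩
      rw [SetLike.mem_coe, Ideal.mem_span_singleton] at hx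
      obtain ⟨b, hb⟩ := hx
      exact hcon s m b hs hb
    obtain ⟨Q, hQ, hle, hdisQ⟩ := Ideal.exists_le_prime_disjoint _ N hdisj
    have hQP : Q ≤ P := by
      intro x hx
      by_contra hxP
      exact Set.disjoint_left.mp hdisQ hx ⟨x, 0, hxP, by simp⟩
    have hcQ : cB ∉ Q := fun h => Set.disjoint_left.mp hdisQ h
      ⟨1, 1, fun h => hPprime.ne_top ((Ideal.eq_top_iff_one _).mpr h), by simp⟩
    have hlt : Q < P := lt_of_le_of_ne hQP (fun h => hcQ (h ▸ hcP))
    have hpQ : (p : B) ∈ Q := hle (Ideal.subset_span rfl)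
    have hbot : (⊥ : Ideal B) < Q := by
      rw [bot_lt_iff_ne_bot]
      rintro rfl
      rw [Ideal.mem_bot] at hpQ
      have : ((p : B) : ℂ) = 0 := by rw [hpQ]; rfl
      simp at this
      exact hp.ne_zero this
    have : P.FiniteHeight := P.finiteHeight_iff.mpr (Or.inr (hht.trans_lt (by exact_mod_cast ENat.natCast_lt_top 1)).ne)
    have h1 := Ideal.height_strict_mono_of_isPrime_of_isPrime hlt
    have : Q.FiniteHeight := Q.finiteHeight_iff.mpr (Or.inr (h1.trans_le hht |>.trans (by exact_mod_cast ENat.natCast_lt_top 1)).ne)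
    have : (⊥ : Ideal B).IsPrime := Ideal.isPrime_bot
    have h2 := Ideal.height_strict_mono_of_isPrime_of_isPrime hbot
    have h3 : 1 ≤ Q.height := Order.one_le_iff_pos.mpr (lt_of_le_of_lt (zero_le) h2)
    exact absurd (h1.trans_le hht) (not_lt.mpr h3)
  obtain ⟨s, m, b, hs, hsb⟩ := hex
  refine ⟨m, fun u hu => ?_⟩
  have h1 : (s : ℂ) * c ^ m = (p : ℂ) * (b : ℂ) := by
    have := congrArg Subtype.val hsb
    simpa using this
  have h2 := congrArg V.valuation h1
  rw [map_mul, map_mul, map_pow, hVeq s hs, one_mul] at h2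
  calc V.valuation u ^ m ≤ V.valuation c ^ m := pow_le_pow_left₀ zero_le (hdiv u hu) m
    _ = V.valuation (p : ℂ) * V.valuation (b : ℂ) := h2
    _ ≤ V.valuation (p : ℂ) * 1 := mul_le_mul_right (hVle b) _
    _ = _ := mul_one _

end Pool.Agent.Lib.ModularZP
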