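import Mathlib
import Pool.Agent.Lib.ModularZP.CurveRel
import Pool.Agent.Lib.ModularZP.RootClose

/-!
Curves all of whose points have all but one coordinate close to prescribed values near the cusp of a
valuation ring.
-/

open UpperHalfPlane hiding I

namespace Pool.Agent.Lib.ModularZP

section near

variable {V : ValuationSubring ℂ} {θ : V.ValueGroup}

/-- `z` is close to `1` -/
def Near (V : ValuationSubring ℂ) (θ : V.ValueGroup) (z : ℂ) : Prop := V.valuation (z - 1) ≤ θ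

lemma Near.val (hθ : θ < 1) {z : ℂ} (h : Near V θ z) : V.valuation z = 1 := by
  have h1 : z = 1 + (z - 1) := by ring
  rw [h1]
  exact V.valuation.map_one_add_of_lt (lt_of_le_of_lt h hθ)

lemma Near.mul (hθ : θ < 1) {z w : ℂ} (hz : Near V θ z) (hw : Near V θ w) : Near V θ (z * w) := by
  have h1 : z * w - 1 = z * (w - 1) + (z - 1) := by ring
  unfold Near
  rw [h1]
  refine (V.valuation.map_add _ _).trans (max_le ?_ hz)
  rw [map_mul, hz.val hθ, one_mul]
  exact hw

lemma Near.one : Near V θ 1 := by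
  unfold Near
  rw [sub_self, map_zero]
  exact zero_le

lemma Near.pow (hθ : θ < 1) {z : ℂ} (hz : Near V θ z) (n : ℕ) : Near V θ (z ^ n) := by
  induction n with
  | zero => rw [pow_zero]; exact Near.one
  | succ n ih => rw [pow_succ]; exact ih.mul hθ hz

lemma Near.inv (hθ : θ < 1) {z : ℂ} (hz : Near V θ z) : Near V θ z⁻¹ := by
  have hv := hz.val hθ
  have hz0 := ne_zero_of_val hv
  have h1 : z⁻¹ - 1 = -(z - 1) * z⁻¹ := by field_simp; ring
  unfold Near
  rw [h1, map_mul, Valuation.map_neg, map_inv₀, hv, inv_one, mul_one]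
  exact hz

lemma Near.div (hθ : θ < 1) {z w : ℂ} (hz : Near V θ z) (hw : Near V θ w) : Near V θ (z / w) := by
  rw [div_eq_mul_inv]; exact hz.mul hθ (hw.inv hθ)

/-- the levels of the isogenies between values close to `β` and `β'` -/
def levels (V : ValuationSubring ℂ) (θ : V.ValueGroup) (β β' : ℂ) : Set ℕ :=
  {N | ∃ r s t : ℕ, 0 < r ∧ 0 < s ∧ 0 < t ∧ r.Coprime s ∧ V.valuation β' ^ s = V.valuation β ^ r ∧
    (∃ ζ ∈ primitiveRoots t ℂ, V.valuation (β' ^ s / β ^ r - ζ) ≤ θ) ∧ N = t ^ 2 * (r * s)}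

lemma levels_finite (hθ : θ < 1)
    (harch : ∀ p : ℕ, p.Prime → V.valuation (p : ℂ) < 1 → ∃ m : ℕ, θ ^ m ≤ V.valuation (p : ℂ))
    {β β' : ℂ} (hβ : 1 < V.valuation β) : (levels V θ β β').Finite := by
  by_cases hex : ∃ r0 s0 : ℕ, 0 < r0 ∧ 0 < s0 ∧ r0.Coprime s0 ∧ V.valuation β' ^ s0 = V.valuation β ^ r0
  · obtain ⟨r0, s0, hr0, hs0, hco0, h0⟩ := hex
    refine Set.Finite.subset ((finite_close (V := V) (β' ^ s0 / β ^ r0) hθ harch).image fun t => t ^ 2 * (r0 * s0)) ?_
    rintro N ⟨r, s, t, hr, hs, ht, hco, h, hζ, rfl⟩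
    have h1 : V.valuation β ^ (r * s0) = V.valuation β ^ (r0 * s) := by
      rw [pow_mul, ← h, ← pow_mul, mul_comm s s0, pow_mul, h0, ← pow_mul]
    have h2 : r * s0 = r0 * s := by
      rcases lt_trichotomy (r * s0) (r0 * s) with h3 | h3 | h3
      · exact absurd h1 (pow_lt_pow_right₀ hβ h3).ne
      · exact h3
      · exact absurd h1 (pow_lt_pow_right₀ hβ h3).ne'
    have h3 : r ∣ r0 := by
      have : r ∣ r0 * s := by rw [← h2]; exact dvd_mul_right _ _
      exact hco.dvd_of_dvd_mul_right this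
    have h4 : r0 ∣ r := by
      have : r0 ∣ r * s0 := by rw [h2]; exact dvd_mul_right _ _
      exact hco0.dvd_of_dvd_mul_right this
    have h5 : r = r0 := Nat.dvd_antisymm h3 h4
    subst h5
    have h6 : s = s0 := (Nat.eq_of_mul_eq_mul_left hr h2).symm
    subst h6
    exact ⟨t, ⟨ht, hζ⟩, rfl⟩
  · refine Set.Finite.subset Set.finite_empty ?_
    rintro N ⟨r, s, t, hr, hs, ht, hco, h, _⟩
    exact hex ⟨r, s, hr, hs, hco, h⟩

/-- isogenous values close to `β`, `β'` satisfy one of finitely many modular relations -/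
lemma near_isog (hθ : θ < 1) {β β' z z' : ℂ} (hβ : 1 < V.valuation β)
    (hβθ : (V.valuation β)⁻¹ ≤ θ) (hβθ' : (V.valuation β')⁻¹ ≤ θ) (hz : Near V θ z) (hz' : Near V θ z')
    (h : GL (Fin 2) ℚ) (hdet : 0 < h.det.val) (τ : ℍ) (h1 : jInv τ = β * z)
    (h2 : jInv (h.map (algebraMap ℚ ℝ) • τ) = β' * z') :
    ∃ N ∈ levels V θ β β', ModRel N (β * z) (β' * z') := by
  have hvx : V.valuation (jInv τ) = V.valuation β := by rw [h1, map_mul, hz.val hθ, mul_one]
  have hvy : V.valuation (jInv (h.map (algebraMap ℚ ℝ) • τ)) = V.valuation β' := by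
    rw [h2, map_mul, hz'.val hθ, mul_one]
  have hx : jInv τ ∉ V := by
    rw [← V.valuation_le_one_iff, hvx, not_le]; exact hβ
  obtain ⟨r, s, t, hr, hs, ht, hco, hYX, ⟨ζ, hζ, hc⟩, hrel⟩ := isog_close V h hdet τ hx
  rw [hvx, hvy] at hYX
  rw [hvx, hvy, h1, h2] at hc
  rw [h1, h2] at hrel
  refine ⟨t ^ 2 * (r * s), ⟨r, s, t, hr, hs, ht, hco, hYX, ⟨ζ, hζ, ?_⟩, rfl⟩, hrel⟩
  have hw : Near V θ (z' ^ s / z ^ r) := (hz'.pow hθ s).div hθ (hz.pow hθ r)
  have hβ0 : V.valuation β ≠ 0 := (zero_lt_one.trans hβ).ne'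
  have hκ : V.valuation (β' ^ s / β ^ r) = 1 := by
    rw [map_div₀, map_pow, map_pow, hYX, div_self (pow_ne_zero _ hβ0)]
  have h3 : β' ^ s / β ^ r - ζ = ((β' * z') ^ s / (β * z) ^ r - ζ) - β' ^ s / β ^ r * (z' ^ s / z ^ r - 1) := by
    rw [mul_pow, mul_pow, mul_div_mul_comm]; ring
  rw [h3]
  refine (V.valuation.map_sub _ _).trans (max_le (hc.trans (max_le hβθ hβθ')) ?_)
  rw [map_mul, hκ, one_mul]
  exact hw

/-- **Criterion.** If all but at most one coordinate of `x` are close to values `β i` near the cusp,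
and `x` lies on a special subvariety of codimension at least two, then two coordinates of `x`
satisfy one of finitely many modular relations. -/
theorem near_special (hθ : θ < 1) {n m : ℕ} (hm : m + 2 ≤ n) (D : SpecialDatum n m) {x : Fin n → ℂ}
    (hx : x ∈ D.variety) (β : Fin n → ℂ) (hβ : ∀ i, 1 < V.valuation (β i))
    (hβθ : ∀ i, (V.valuation (β i))⁻¹ ≤ θ)
    (hnear : ∀ i j : Fin n, i ≠ j → (∃ z, Near V θ z ∧ x i = β i * z) ∨ (∃ z, Near V θ z ∧ x j = β j * z)) :
    ∃ i j : Fin n, i ≠ j ∧ ∃ N ∈ levels V θ (β i) (β j), ModRel N (x i) (x j) := by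
  classical
  obtain ⟨τ, hτ⟩ := hx
  have hval : ∀ i, (∃ z, Near V θ z ∧ x i = β i * z) → x i ∉ V := by
    rintro i ⟨z, hz, hxi⟩
    rw [← V.valuation_le_one_iff, hxi, map_mul, hz.val hθ, mul_one, not_le]
    exact hβ i
  have hnone : ∀ i : Fin n, (∃ z, Near V θ z ∧ x i = β i * z) → D.block i ≠ none := by
    intro i hi hb
    refine hval i hi ?_
    rw [hτ i]
    unfold SpecialDatum.coord
    rw [hb]
    exact mem_of_isIntegral V (jInv_isIntegral_of_isCM _ (D.cm_isCM i))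
  have hsome : ∀ (i : Fin n) (k : Fin m), D.block i = some k → x i = jInv ((D.g i).map (algebraMap ℚ ℝ) • τ k) := by
    intro i k hk
    rw [hτ i]
    unfold SpecialDatum.coord
    rw [hk]
  set R : Finset (Fin n) := Finset.univ.filter fun i => ∃ z, Near V θ z ∧ x i = β i * z with hR
  have hcardc : Rᶜ.card ≤ 1 := by
    rw [Finset.card_le_one]
    intro a ha b hb
    by_contra hab
    rw [hR, Finset.mem_compl, Finset.mem_filter] at ha hb
    rcases hnear a b hab with h | h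
    · exact ha ⟨Finset.mem_univ _, h⟩
    · exact hb ⟨Finset.mem_univ _, h⟩
  have hcard : n ≤ R.card + 1 := by
    have := Finset.card_add_card_compl R
    rw [Fintype.card_fin] at this
    omega
  have hm0 : 0 < m := by
    have hRne : R.Nonempty := by
      rw [← Finset.card_pos]; omega
    obtain ⟨i, hi⟩ := hRne
    rw [hR, Finset.mem_filter] at hi
    obtain ⟨k, _⟩ := Option.ne_none_iff_exists'.mp (hnone i hi.2)
    exact k.pos
  have : Nonempty (Fin m) := ⟨⟨0, hm0⟩⟩
  obtain ⟨i, hi, j, hj, hij, hf⟩ := Finset.exists_ne_map_eq_of_card_lt_of_maps_to (s := R) (t := (Finset.univ : Finset (Fin m)))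
    (f := fun i => (D.block i).getD ⟨0, hm0⟩) (by rw [Finset.card_univ, Fintype.card_fin]; omega)
    (fun _ _ => Finset.mem_univ _)
  rw [hR, Finset.mem_filter] at hi hj
  obtain ⟨k, hk⟩ := Option.ne_none_iff_exists'.mp (hnone i hi.2)
  obtain ⟨l, hl⟩ := Option.ne_none_iff_exists'.mp (hnone j hj.2)
  simp only [hk, hl, Option.getD_some] at hf
  subst hf
  obtain ⟨z, hz, hxi⟩ := hi.2
  obtain ⟨z', hz', hxj⟩ := hj.2
  set h := D.g j * (D.g i)⁻¹ with hh
  have hdet : 0 < h.det.val := by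
    have h1 := D.g_det i
    have h2 := D.g_det j
    rw [hh, map_mul, map_inv, Units.val_mul, Units.val_inv_eq_inv_val]
    positivity
  have h1 : jInv ((D.g i).map (algebraMap ℚ ℝ) • τ k) = β i * z := by rw [← hsome i k hk, hxi]
  have h2 : jInv (h.map (algebraMap ℚ ℝ) • ((D.g i).map (algebraMap ℚ ℝ) • τ k)) = β j * z' := by
    rw [hh, map_mul, map_inv, mul_smul, inv_smul_smul, ← hsome j k hl, hxj]
  obtain ⟨N, hN, hrel⟩ := near_isog hθ (hβ i) (hβθ i) (hβθ j) hz hz' h hdet _ h1 h2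
  exact ⟨i, j, hij, N, hN, by rw [hxi, hxj]; exact hrel⟩

end near

section cert

variable {K : Type*} [Field K] [Algebra ℂ K]

/-- the algebraic certificate of the absence of common poles -/
lemma exists_cert {a b : K} (ha : a ≠ 0) (hb : b ≠ 0)
    (hpole : ∀ P : ValuationSubring K, (∀ c : ℂ, algebraMap ℂ K c ∈ P) → a ∈ P ∨ b ∈ P) :
    ∃ p q : MvPolynomial (Fin 2) ℂ, MvPolynomial.aeval ![a⁻¹, b⁻¹]
      (MvPolynomial.X 0 * p + MvPolynomial.X 1 * q - 1) = 0 := by
  have hrange : Set.range ![a⁻¹, b⁻¹] = {a⁻¹, b⁻¹} := by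
    ext x
    simp only [Set.mem_range, Fin.exists_fin_two, Matrix.cons_val_zero, Matrix.cons_val_one,
      Matrix.cons_val_fin_one, Set.mem_insert_iff, Set.mem_singleton_iff]
    constructor
    · rintro (h | h)
      · exact Or.inl h.symm
      · exact Or.inr h.symm
    · rintro (h | h)
      · exact Or.inl h.symm
      · exact Or.inr h.symm
  let B : Subring K := (Algebra.adjoin ℂ {a⁻¹, b⁻¹}).toSubring
  have haB : a⁻¹ ∈ B := Algebra.subset_adjoin (Set.mem_insert _ _)
  have hbB : b⁻¹ ∈ B := Algebra.subset_adjoin (Set.mem_insert_of_mem _ rfl)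
  have hcB : ∀ c : ℂ, algebraMap ℂ K c ∈ B := fun c => Subalgebra.algebraMap_mem _ c
  have hI : Ideal.span {(⟨a⁻¹, haB⟩ : B), ⟨b⁻¹, hbB⟩} = ⊤ := by
    by_contra hI
    obtain ⟨P, hP1, hP2⟩ := Ideal.image_subset_nonunits_valuationSubring (A := B) _ hI
    have h1 : P.valuation a⁻¹ < 1 := hP2 ⟨⟨a⁻¹, haB⟩, Ideal.subset_span (Set.mem_insert _ _), rfl⟩
    have h2 : P.valuation b⁻¹ < 1 := hP2 ⟨⟨b⁻¹, hbB⟩, Ideal.subset_span (Set.mem_insert_of_mem _ rfl), rfl⟩
    rcases hpole P fun c => hP1 (hcB c) with h | h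
    · have h3 : P.valuation (a * a⁻¹) < 1 := val_mul_lt h h1
      rw [mul_inv_cancel₀ ha, map_one] at h3
      exact lt_irrefl _ h3
    · have h3 : P.valuation (b * b⁻¹) < 1 := val_mul_lt h h2
      rw [mul_inv_cancel₀ hb, map_one] at h3
      exact lt_irrefl _ h3
  have h1 : (1 : B) ∈ Ideal.span {(⟨a⁻¹, haB⟩ : B), ⟨b⁻¹, hbB⟩} := by rw [hI]; trivial
  obtain ⟨u, w, huw⟩ := Ideal.mem_span_pair.mp h1
  have hrep : ∀ z : B, ∃ p : MvPolynomial (Fin 2) ℂ, MvPolynomial.aeval ![a⁻¹, b⁻¹] p = (z : K) := by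
    intro z
    have hz : (z : K) ∈ Algebra.adjoin ℂ (Set.range ![a⁻¹, b⁻¹]) := by rw [hrange]; exact z.2
    rw [Algebra.adjoin_range_eq_range_aeval] at hz
    exact hz
  obtain ⟨p, hp⟩ := hrep u
  obtain ⟨q, hq⟩ := hrep w
  refine ⟨p, q, ?_⟩
  have h2 : (u : K) * a⁻¹ + (w : K) * b⁻¹ = 1 := congrArg Subtype.val huw
  rw [map_sub, map_add, map_mul, map_mul, MvPolynomial.aeval_X, MvPolynomial.aeval_X, hp, hq, map_one]
  simp only [Matrix.cons_val_zero, Matrix.cons_val_one, Matrix.cons_val_fin_one]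
  linear_combination h2

/-- by the certificate, the two functions cannot both have a value outside `V` (or a pole) -/
lemma not_both {V : ValuationSubring ℂ} {P : ValuationSubring K} (hP : ∀ c : ℂ, algebraMap ℂ K c ∈ P)
    {a b : K} {t u : ℂ} {p q : MvPolynomial (Fin 2) ℂ}
    (hpq : MvPolynomial.aeval ![a, b] (MvPolynomial.X 0 * p + MvPolynomial.X 1 * q - 1) = 0)
    (hp : ∀ m, p.coeff m ∈ V) (hq : ∀ m, q.coeff m ∈ V)
    (ha : P.valuation (a - algebraMap ℂ K t) < 1) (hb : P.valuation (b - algebraMap ℂ K u) < 1)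
    (ht : V.valuation t < 1) (hu : V.valuation u < 1) : False := by
  have h1 := relation_value hP hpq ha hb
  have htV : t ∈ V := (V.valuation_le_one_iff _).mp ht.le
  have huV : u ∈ V := (V.valuation_le_one_iff _).mp hu.le
  have hmem : ∀ r : MvPolynomial (Fin 2) ℂ, (∀ m, r.coeff m ∈ V) → MvPolynomial.eval ![t, u] r ∈ V := by
    intro r hr
    refine (Cg.mvEval (P := V) r hr (x := ![t, u]) (y := ![t, u]) fun i => ?_).1
    fin_cases i
    · exact Cg.refl htV
    · exact Cg.refl huV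
  rw [map_sub, map_add, map_mul, map_mul, MvPolynomial.eval_X, MvPolynomial.eval_X, map_one] at h1
  simp only [Matrix.cons_val_zero, Matrix.cons_val_one, Matrix.cons_val_fin_one] at h1
  have h2 : V.valuation (t * MvPolynomial.eval ![t, u] p + u * MvPolynomial.eval ![t, u] q) < 1 := by
    refine V.valuation.map_add_lt ?_ ?_
    · rw [mul_comm]; exact val_mul_lt (hmem p hp) ht
    · rw [mul_comm]; exact val_mul_lt (hmem q hq) hu
  rw [sub_eq_zero.mp h1, map_one] at h2
  exact lt_irrefl _ h2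

/-- the value of the inverse function -/
lemma inv_value {P : ValuationSubring K} (hP : ∀ c : ℂ, algebraMap ℂ K c ∈ P) {f : K} {s t : ℂ}
    (hs : s = 1) (h1 : t ≠ 0 → P.valuation (f - algebraMap ℂ K (s / t)) < 1)
    (h2 : t = 0 → f ≠ 0 ∧ P.valuation f⁻¹ < 1) : P.valuation (f⁻¹ - algebraMap ℂ K t) < 1 := by
  by_cases ht : t = 0
  · rw [ht, map_zero, sub_zero]
    exact (h2 ht).2
  · have h3 := h1 ht
    rw [hs] at h3
    have hti : (1 / t : ℂ) ≠ 0 := one_div_ne_zero ht
    have hv : P.valuation (algebraMap ℂ K (1 / t)) = 1 := const_val hP hti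
    have hf : P.valuation f = 1 := by
      have h4 : f = algebraMap ℂ K (1 / t) + (f - algebraMap ℂ K (1 / t)) := by ring
      rw [h4, P.valuation.map_add_eq_of_lt_left (by rw [hv]; exact h3), hv]
    have hf0 : f ≠ 0 := by
      rintro rfl
      rw [map_zero] at hf
      exact zero_ne_one hf
    have ht' : algebraMap ℂ K t ≠ 0 := by rwa [Ne, map_eq_zero]
    have h5 : f⁻¹ - algebraMap ℂ K t = -(algebraMap ℂ K t * f⁻¹ * (f - algebraMap ℂ K (1 / t))) := by
      rw [map_div₀, map_one]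
      field_simp
      ring
    rw [h5, Valuation.map_neg, map_mul, map_mul, const_val hP ht, map_inv₀, hf, inv_one, one_mul, one_mul]
    exact h3

end cert

end Pool.Agent.Lib.ModularZP
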