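import Mathlib
import Pool.Agent.Lib.ModularZP.Defs

/-!
Rational curves in `Y(1)ⁿ = ℂⁿ`, given by `n` pairs of binary forms.
-/

namespace Pool.Agent.Lib.ModularZP

/-- The binary form `∑ₖ aₖ s^(d-k) t^k` of degree `d`. -/
noncomputable def binForm (d : ℕ) (a : Fin (d + 1) → ℂ) (s t : ℂ) : ℂ :=
  ∑ k, a k * s ^ (d - (k : ℕ)) * t ^ (k : ℕ)

/-- The affine part of the image of `ℙ¹` under `(s : t) ↦ (Pᵢ(s,t) / Qᵢ(s,t))ᵢ`, where `Pᵢ, Qᵢ` are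
the binary forms of degree `dᵢ` with coefficients `aᵢ, bᵢ`. -/
def ratCurve {n : ℕ} (d : Fin n → ℕ) (a b : (i : Fin n) → Fin (d i + 1) → ℂ) : Set (Fin n → ℂ) :=
  {x | ∃ s t : ℂ, (s ≠ 0 ∨ t ≠ 0) ∧ ∀ i, binForm (d i) (b i) s t ≠ 0 ∧
    x i = binForm (d i) (a i) s t / binForm (d i) (b i) s t}

end Pool.Agent.Lib.ModularZP
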